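import Mathlib

open Set Topology Filter

namespace Run7.h123

universe u v

section Ops

variable {X : Type u} [TopologicalSpace X] {Y : Type v} [TopologicalSpace Y]

/-- relatively isolated points of `F` -/
def isoPts (F : Set X) : Set X := {x | ∃ U, IsOpen U ∧ U ∩ F = {x}}

/-- finite Cantor-Bendixson derivatives of a subset -/
def CB : ℕ → Set X → Set X
  | 0, F => F
  | n + 1, F => CB n F \ isoPts (CB n F)

/-- the `n`-th level -/
def Lev (n : ℕ) (F : Set X) : Set X := isoPts (CB n F)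

/-- largest dense-in-itself subset -/
def Ker (F : Set X) : Set X := ⋃₀ {A | A ⊆ F ∧ isoPts A = ∅}

def lam (n : ℕ) (F : Set X) : Set X := (Ker F ∩ closure (Lev n F)) \ closure (Lev (n + 1) F)

def tau (F : Set X) (x : X) : Set ℕ := {n | x ∈ closure (lam n F)}

theorem isoPts_subset (F : Set X) : isoPts F ⊆ F := by
  rintro x ⟨U, _, h⟩
  have : x ∈ U ∩ F := by rw [h]; rfl
  exact this.2

theorem isoPts_inter_open (F : Set X) {O : Set X} (hO : IsOpen O) :
    isoPts (F ∩ O) = isoPts F ∩ O := by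
  ext x
  constructor
  · rintro ⟨U, hU, h⟩
    have hx : x ∈ U ∩ (F ∩ O) := by rw [h]; rfl
    refine ⟨⟨U ∩ O, hU.inter hO, ?_⟩, hx.2.2⟩
    rw [← h]; ext y; simp only [mem_inter_iff]; tauto
  · rintro ⟨⟨U, hU, h⟩, hxO⟩
    refine ⟨U, hU, ?_⟩
    rw [← inter_assoc, h]
    ext y; simp only [mem_inter_iff, mem_singleton_iff]
    constructor
    · exact fun h => h.1
    · rintro rfl; exact ⟨rfl, hxO⟩

theorem CB_subset (n : ℕ) (F : Set X) : CB n F ⊆ F := by
  induction n with
  | zero => exact Subset.rfl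
  | succ n ih => exact fun x hx => ih hx.1

theorem CB_succ_subset (n : ℕ) (F : Set X) : CB (n + 1) F ⊆ CB n F := sdiff_subset

theorem CB_antitone (F : Set X) {m n : ℕ} (h : m ≤ n) : CB n F ⊆ CB m F := by
  induction n, h using Nat.le_induction with
  | base => exact Subset.rfl
  | succ n _ ih => exact (CB_succ_subset n F).trans ih

theorem Lev_subset (n : ℕ) (F : Set X) : Lev n F ⊆ F :=
  (isoPts_subset _).trans (CB_subset n F)

theorem CB_inter_open (F : Set X) {O : Set X} (hO : IsOpen O) (n : ℕ) :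
    CB n (F ∩ O) = CB n F ∩ O := by
  induction n with
  | zero => rfl
  | succ n ih =>
    show CB n (F ∩ O) \ isoPts (CB n (F ∩ O)) = (CB n F \ isoPts (CB n F)) ∩ O
    rw [ih, isoPts_inter_open _ hO]
    ext y; simp only [mem_inter_iff, Set.mem_sdiff]; tauto

theorem Lev_inter_open (F : Set X) {O : Set X} (hO : IsOpen O) (n : ℕ) :
    Lev n (F ∩ O) = Lev n F ∩ O := by
  unfold Lev; rw [CB_inter_open _ hO, isoPts_inter_open _ hO]

theorem Ker_subset (F : Set X) : Ker F ⊆ F := by
  rintro x ⟨A, ⟨hA, _⟩, hx⟩; exact hA hx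

theorem subset_Ker {A F : Set X} (hA : A ⊆ F) (h : isoPts A = ∅) : A ⊆ Ker F :=
  fun _ hx => ⟨A, ⟨hA, h⟩, hx⟩

theorem Ker_mono {F G : Set X} (h : F ⊆ G) : Ker F ⊆ Ker G := by
  rintro x ⟨A, ⟨hA, h0⟩, hx⟩
  exact ⟨A, ⟨hA.trans h, h0⟩, hx⟩

theorem isoPts_mono {A B : Set X} (h : A ⊆ B) : isoPts B ∩ A ⊆ isoPts A := by
  rintro x ⟨⟨U, hU, hx⟩, hxA⟩
  refine ⟨U, hU, ?_⟩
  apply Subset.antisymm
  · rw [← hx]; exact inter_subset_inter_right _ h
  · rintro y rfl
    have : y ∈ U ∩ B := by rw [hx]; rfl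
    exact ⟨this.1, hxA⟩

theorem isoPts_sUnion_empty {S : Set (Set X)} (h : ∀ A ∈ S, isoPts A = ∅) :
    isoPts (⋃₀ S) = ∅ := by
  rw [eq_empty_iff_forall_notMem]
  intro x hx
  obtain ⟨A, hA, hxA⟩ := isoPts_subset _ hx
  have : x ∈ isoPts A := isoPts_mono (subset_sUnion_of_mem hA) ⟨hx, hxA⟩
  rw [h A hA] at this
  exact this

theorem isoPts_Ker (F : Set X) : isoPts (Ker F) = ∅ :=
  isoPts_sUnion_empty (fun _ hA => hA.2)

theorem isoPts_closure_empty {A : Set X} (h : isoPts A = ∅) : isoPts (closure A) = ∅ := by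
  rw [eq_empty_iff_forall_notMem] at h ⊢
  rintro x ⟨U, hU, hx⟩
  have hx' : x ∈ U ∩ closure A := by rw [hx]; rfl
  obtain ⟨y, hyU, hyA⟩ := mem_closure_iff.1 hx'.2 U hU hx'.1
  have hyx : y = x := by
    have : y ∈ U ∩ closure A := ⟨hyU, subset_closure hyA⟩
    rw [hx] at this; exact this
  subst hyx
  apply h y
  refine ⟨U, hU, ?_⟩
  apply Subset.antisymm
  · rw [← hx]; exact inter_subset_inter_right _ subset_closure
  · rintro z rfl; exact ⟨hyU, hyA⟩

theorem isClosed_Ker {F : Set X} (hF : IsClosed F) : IsClosed (Ker F) := by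
  have : closure (Ker F) ⊆ Ker F :=
    subset_Ker (hF.closure_subset_iff.2 (Ker_subset F)) (isoPts_closure_empty (isoPts_Ker F))
  exact isClosed_of_closure_subset this

theorem perfect_subset_CB {K F : Set X} (hK : isoPts K = ∅) (h : K ⊆ F) (n : ℕ) :
    K ⊆ CB n F := by
  induction n with
  | zero => exact h
  | succ n ih =>
    intro x hx
    refine ⟨ih hx, fun hx' => ?_⟩
    have := isoPts_mono ih ⟨hx', hx⟩
    rw [hK] at this; exact this

theorem Ker_subset_CB (F : Set X) (n : ℕ) : Ker F ⊆ CB n F :=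
  perfect_subset_CB (isoPts_Ker F) (Ker_subset F) n

theorem isClosed_CB {F : Set X} (hF : IsClosed F) (n : ℕ) : IsClosed (CB n F) := by
  induction n with
  | zero => exact hF
  | succ n ih =>
    have h : CB (n + 1) F = CB n F ∩ (⋃₀ {U | IsOpen U ∧ ∃ x, U ∩ CB n F = {x}})ᶜ := by
      ext x
      simp only [CB, isoPts, Set.mem_sdiff, mem_ofPred_eq, mem_inter_iff, mem_compl_iff, mem_sUnion,
        not_exists, not_and]
      constructor
      · rintro ⟨h1, h2⟩
        refine ⟨h1, ?_⟩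
        rintro U ⟨hU, y, hy⟩ hxU
        have : x ∈ U ∩ CB n F := ⟨hxU, h1⟩
        rw [hy] at this
        obtain rfl : x = y := this
        exact h2 U hU hy
      · rintro ⟨h1, h2⟩
        refine ⟨h1, ?_⟩
        intro U hU hx
        have : x ∈ U ∩ CB n F := by rw [hx]; rfl
        exact h2 U ⟨hU, x, hx⟩ this.1
    rw [h]
    refine ih.inter (isOpen_sUnion ?_).isClosed_compl
    rintro U ⟨hU, _⟩; exact hU

theorem Ker_inter_open (F : Set X) {O : Set X} (hO : IsOpen O) :
    Ker (F ∩ O) = Ker F ∩ O := by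
  apply Subset.antisymm
  · exact subset_inter (Ker_mono inter_subset_left) ((Ker_subset _).trans inter_subset_right)
  · apply subset_Ker
    · exact inter_subset_inter_left _ (Ker_subset F)
    · rw [isoPts_inter_open _ hO, isoPts_Ker, empty_inter]

theorem closure_inter_open_inter (A : Set X) {O : Set X} (hO : IsOpen O) :
    closure (A ∩ O) ∩ O = closure A ∩ O := by
  apply Subset.antisymm
  · exact inter_subset_inter_left _ (closure_mono inter_subset_left)
  · rintro x ⟨hx, hxO⟩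
    refine ⟨?_, hxO⟩
    rw [mem_closure_iff] at hx ⊢
    intro V hV hxV
    obtain ⟨y, hy, hyA⟩ := hx (V ∩ O) (hV.inter hO) ⟨hxV, hxO⟩
    exact ⟨y, hy.1, hyA, hy.2⟩

theorem lam_inter_open (F : Set X) {O : Set X} (hO : IsOpen O) (n : ℕ) :
    lam n (F ∩ O) ∩ O = lam n F ∩ O := by
  unfold lam
  rw [Ker_inter_open _ hO, Lev_inter_open _ hO, Lev_inter_open _ hO]
  ext x
  have h1 : ∀ A : Set X, x ∈ O → (x ∈ closure (A ∩ O) ↔ x ∈ closure A) := by
    intro A hx
    have := Set.ext_iff.1 (closure_inter_open_inter A hO) x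
    simp only [mem_inter_iff, hx, and_true] at this
    exact this
  simp only [mem_inter_iff, Set.mem_sdiff]
  constructor
  · rintro ⟨⟨⟨⟨a, b⟩, c⟩, d⟩, e⟩
    exact ⟨⟨⟨a, (h1 _ e).1 c⟩, fun h => d ((h1 _ e).2 h)⟩, e⟩
  · rintro ⟨⟨⟨a, c⟩, d⟩, e⟩
    exact ⟨⟨⟨⟨a, e⟩, (h1 _ e).2 c⟩, fun h => d ((h1 _ e).1 h)⟩, e⟩

theorem tau_inter_open (F : Set X) {O : Set X} (hO : IsOpen O) {x : X} (hx : x ∈ O) :
    tau (F ∩ O) x = tau F x := by
  have h1 : ∀ A : Set X, (x ∈ closure (A ∩ O) ↔ x ∈ closure A) := by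
    intro A
    have := Set.ext_iff.1 (closure_inter_open_inter A hO) x
    simp only [mem_inter_iff, hx, and_true] at this
    exact this
  ext n
  show x ∈ closure (lam n (F ∩ O)) ↔ x ∈ closure (lam n F)
  rw [← h1, lam_inter_open _ hO, h1]

/-! ### invariance under (closed) embeddings -/

theorem isoPts_image {f : X → Y} (hf : IsEmbedding f) (F : Set X) :
    isoPts (f '' F) = f '' isoPts F := by
  ext y
  constructor
  · rintro ⟨V, hV, hy⟩
    have hy' : y ∈ V ∩ f '' F := by rw [hy]; rfl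
    obtain ⟨x, hx, rfl⟩ := hy'.2
    refine ⟨x, ⟨f ⁻¹' V, hV.preimage hf.continuous, ?_⟩, rfl⟩
    ext z
    simp only [mem_inter_iff, mem_preimage, mem_singleton_iff]
    constructor
    · rintro ⟨h1, h2⟩
      have : f z ∈ V ∩ f '' F := ⟨h1, z, h2, rfl⟩
      rw [hy] at this
      exact hf.injective this
    · rintro rfl; exact ⟨hy'.1, hx⟩
  · rintro ⟨x, ⟨U, hU, hx⟩, rfl⟩
    obtain ⟨V, hV, rfl⟩ := hf.isInducing.isOpen_iff.1 hU
    refine ⟨V, hV, ?_⟩
    have hx' : x ∈ f ⁻¹' V ∩ F := by rw [hx]; rfl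
    ext z
    simp only [mem_inter_iff, mem_image, mem_singleton_iff]
    constructor
    · rintro ⟨h1, w, hw, rfl⟩
      have : w ∈ f ⁻¹' V ∩ F := ⟨h1, hw⟩
      rw [hx] at this
      rw [show w = x from this]
    · rintro rfl; exact ⟨hx'.1, x, hx'.2, rfl⟩

theorem CB_image {f : X → Y} (hf : IsEmbedding f) (F : Set X) (n : ℕ) :
    CB n (f '' F) = f '' CB n F := by
  induction n with
  | zero => rfl
  | succ n ih =>
    show CB n (f '' F) \ isoPts (CB n (f '' F)) = f '' (CB n F \ isoPts (CB n F))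
    rw [ih, isoPts_image hf, image_sdiff hf.injective]

theorem Lev_image {f : X → Y} (hf : IsEmbedding f) (F : Set X) (n : ℕ) :
    Lev n (f '' F) = f '' Lev n F := by
  unfold Lev; rw [CB_image hf, isoPts_image hf]

theorem Ker_image {f : X → Y} (hf : IsEmbedding f) (F : Set X) :
    Ker (f '' F) = f '' Ker F := by
  apply Subset.antisymm
  · rintro y ⟨A, ⟨hA, hA0⟩, hy⟩
    have hAr : f '' (f ⁻¹' A) = A := by
      apply image_preimage_eq_of_subset
      exact hA.trans (image_subset_range _ _)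
    have h0 : isoPts (f ⁻¹' A) = ∅ := by
      have := isoPts_image hf (f ⁻¹' A)
      rw [hAr, hA0] at this
      exact image_eq_empty.1 this.symm
    have h1 : f ⁻¹' A ⊆ F := by
      intro x hx
      obtain ⟨z, hz, hzx⟩ := hA hx
      rwa [hf.injective hzx] at hz
    rw [← hAr] at hy
    obtain ⟨x, hx, rfl⟩ := hy
    exact ⟨x, subset_Ker h1 h0 hx, rfl⟩
  · apply subset_Ker
    · exact image_mono (Ker_subset F)
    · rw [isoPts_image hf, isoPts_Ker, image_empty]

theorem mem_closure_image_iff {f : X → Y} (hf : IsEmbedding f) (A : Set X) (x : X) :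
    f x ∈ closure (f '' A) ↔ x ∈ closure A := by
  rw [hf.isInducing.closure_eq_preimage_closure_image A]; rfl

theorem lam_image {f : X → Y} (hf : IsEmbedding f) (F : Set X) (n : ℕ) :
    lam n (f '' F) = f '' lam n F := by
  unfold lam
  rw [Ker_image hf, Lev_image hf, Lev_image hf]
  ext y
  constructor
  · rintro ⟨⟨⟨x, hx, rfl⟩, h1⟩, h2⟩
    exact ⟨x, ⟨⟨hx, (mem_closure_image_iff hf _ x).1 h1⟩,
      fun h => h2 ((mem_closure_image_iff hf _ x).2 h)⟩, rfl⟩
  · rintro ⟨x, ⟨⟨hx, h1⟩, h2⟩, rfl⟩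
    exact ⟨⟨⟨x, hx, rfl⟩, (mem_closure_image_iff hf _ x).2 h1⟩,
      fun h => h2 ((mem_closure_image_iff hf _ x).1 h)⟩

theorem tau_image {f : X → Y} (hf : IsEmbedding f) (F : Set X) (x : X) :
    tau (f '' F) (f x) = tau F x := by
  ext n
  show f x ∈ closure (lam n (f '' F)) ↔ x ∈ closure (lam n F)
  rw [lam_image hf, mem_closure_image_iff hf]

/-- invariance of the label under a homeomorphism of a set onto another -/
theorem tau_homeo' {F G : Set X} (e : F ≃ₜ G) (x : F) :
    tau G (e x : X) = tau F (x : X) := by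
  have hf : IsEmbedding (Subtype.val : F → X) := IsEmbedding.subtypeVal
  have hg : IsEmbedding (fun y : F => (e y : X)) := IsEmbedding.subtypeVal.comp e.isEmbedding
  have h2 : tau F (x : X) = tau (univ : Set F) x := by
    have := tau_image hf univ x
    rwa [image_univ, Subtype.range_coe] at this
  have h3 : tau G (e x : X) = tau (univ : Set F) x := by
    have := tau_image hg univ x
    have hr : (fun y : F => (e y : X)) '' univ = G := by
      rw [image_univ]
      ext z
      constructor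
      · rintro ⟨y, rfl⟩; exact (e y).2
      · intro hz; exact ⟨e.symm ⟨z, hz⟩, by simp⟩
    rwa [hr] at this
  rw [h2, h3]

theorem tau_open {U : Set X} (hU : IsOpen U) {x : X} (hx : x ∈ U) :
    tau U x = tau (univ : Set X) x := by
  have := tau_inter_open (univ : Set X) hU hx
  rwa [univ_inter] at this

/-- invariance of the label under a homeomorphism onto an open set -/
theorem tau_homeo {F U : Set X} (hU : IsOpen U) (e : F ≃ₜ U) (x : F) :
    tau (univ : Set X) (e x : X) = tau F (x : X) := by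
  rw [← tau_homeo' e x, tau_open hU (e x).2]

/-- invariance of the kernel -/
theorem Ker_homeo {F U : Set X} (e : F ≃ₜ U) (x : F)
    (hx : (x : X) ∈ Ker F) : (e x : X) ∈ Ker (univ : Set X) := by
  have h2 : x ∈ Ker (univ : Set F) := by
    have := Ker_image (IsEmbedding.subtypeVal (p := fun y => y ∈ F)) univ
    rw [image_univ, Subtype.range_coe] at this
    have h3 : (x : X) ∈ (Subtype.val '' Ker (univ : Set F)) := by
      rw [← this]; exact hx
    exact Subtype.val_injective.mem_set_image.1 h3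
  have hg : IsEmbedding (fun y : F => (e y : X)) :=
    IsEmbedding.subtypeVal.comp e.isEmbedding
  have := Ker_image hg univ
  have h5 : (e x : X) ∈ Ker ((fun y : F => (e y : X)) '' univ) := by
    rw [this]; exact ⟨x, h2, rfl⟩
  exact Ker_mono (subset_univ _) h5

end Ops

end Run7.h123
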