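import Pool.Agent.Run7.h123.Main

open Set Topology Filter Cardinal

namespace Run7.h123

universe u

section BridgeSec

variable {X : Type u} [TopologicalSpace X]

theorem isoPts_empty_iff {C : Set X} : isoPts C = ∅ ↔ Preperfect C := by
  constructor
  · intro h x hx
    rw [accPt_iff_nhds]
    intro U hU
    by_contra hcon
    push Not at hcon
    have : x ∈ isoPts C := by
      refine ⟨interior U, isOpen_interior, ?_⟩
      apply Subset.antisymm
      · rintro y ⟨hy1, hy2⟩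
        exact hcon y ⟨interior_subset hy1, hy2⟩
      · rintro y rfl
        exact ⟨mem_interior_iff_mem_nhds.2 hU, hx⟩
    rw [h] at this
    exact this
  · intro h
    rw [eq_empty_iff_forall_notMem]
    intro x hx
    have hxC := isoPts_subset _ hx
    obtain ⟨V, hV, hVx⟩ := hx
    have hxV : x ∈ V := by
      have : x ∈ V ∩ C := by rw [hVx]; rfl
      exact this.1
    obtain ⟨y, hy, hne⟩ := accPt_iff_nhds.1 (h x hxC) V (hV.mem_nhds hxV)
    rw [hVx] at hy
    exact hne hy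

theorem perfect_iff' {C : Set X} : Perfect C ↔ IsClosed C ∧ isoPts C = ∅ := by
  rw [isoPts_empty_iff]
  exact ⟨fun h => ⟨h.closed, h.acc⟩, fun h => ⟨h.1, h.2⟩⟩

theorem isGδ_iff_seq {G : Set X} (hG : IsGδ G) :
    ∃ U : ℕ → Set X, (∀ n, IsOpen (U n)) ∧ G = ⋂ n, U n := by
  obtain ⟨f, hf, h⟩ := isGδ_iff_eq_iInter_nat.1 hG
  exact ⟨f, hf, h⟩

/-- Mathlib form of the hypothesis -/
theorem FCP.of_gδ {P : Set X} (h : ∀ Q : Set X, Q ⊆ P → Perfect Q → Q.Nonempty →
    ∃ Q' : Set X, Q' ⊆ Q ∧ Perfect Q' ∧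
    ∃ x ∈ Q', ∃ G : Set X, IsGδ G ∧ Q' ∩ G = {x}) : FCP P := by
  intro Q hQP hQ hne hQ0
  obtain ⟨Q', hQQ, hP, x, hx, G, hG, hxG⟩ := h Q hQP (perfect_iff'.2 ⟨hQ, hQ0⟩) hne
  obtain ⟨U, hU, rfl⟩ := isGδ_iff_seq hG
  exact ⟨Q', hQQ, hP.closed, (perfect_iff'.1 hP).2, x, hx, U, hU, hxG⟩

theorem FCP.hasAttach [CompactSpace X] [T2Space X] {P : Set X} (h : FCP P)
    (hP : Perfect P) (hne : P.Nonempty) : HasAttach P :=
  hasAttach_of_seq h.seq hP.closed hne (perfect_iff'.1 hP).2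

theorem mk_set_nat : #(Set ℕ) = 𝔠 := by simp

/-- a non-scattered CO space in which all patterns can be attached has a relatively discrete
subset of size continuum inside its perfect kernel, and continuum many isolated points -/
theorem big_of_hasAttach [T2Space X] (hco : IsCO X) {P : Set X} (hA : HasAttach P) :
    (∃ P D : Set X, Perfect P ∧ D ⊆ P ∧ (∀ d ∈ D, ∃ V, IsOpen V ∧ V ∩ D = {d}) ∧ #D = 𝔠) ∧
      ∃ I : Set X, (∀ z ∈ I, IsOpen ({z} : Set X)) ∧ #I = 𝔠 := by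
  obtain ⟨y, U, F, e, h⟩ := exists_family hco hA
  have hU := h.hU
  have h1 : ∀ B C, y C ∈ U B → C = B := fun B C hC => h.eq_of_mem hC
  have h2 := h.hyU
  have h3 := h.hker
  have hyinj : Function.Injective y := h.injective
  have hcard : ∀ z : Set ℕ → X, Function.Injective z → #(range z) = 𝔠 := by
    intro z hz
    have := mk_range_eq_of_injective hz
    rw [mk_set_nat, lift_continuum] at this
    rw [← lift_inj.{u, 0}, this, lift_continuum]
  refine ⟨⟨Ker univ, range y, perfect_iff'.2 ⟨isClosed_Ker isClosed_univ, isoPts_Ker _⟩, ?_, ?_,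
    hcard y hyinj⟩, ?_⟩
  · rintro _ ⟨B, rfl⟩; exact h3 B
  · rintro _ ⟨B, rfl⟩
    refine ⟨U B, (hU B).2, ?_⟩
    apply Subset.antisymm
    · rintro _ ⟨hC, ⟨C, rfl⟩⟩
      rw [h1 B C hC]; rfl
    · rintro _ rfl
      exact ⟨h2 B, B, rfl⟩
  · obtain ⟨z, hz, hzo⟩ := exists_isolated hco (fun B => (hU B).2) h1 h2
    refine ⟨range z, ?_, hcard z hz⟩
    rintro _ ⟨B, rfl⟩; exact hzo B

end BridgeSec

end Run7.h123
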