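import Pool.Agent.Run7.h123.Basic

open Set Topology Filter

namespace Run7.h123

universe u

section ConvSec

variable {X : Type u} [TopologicalSpace X]

/-- the sets `N j` converge to the point `x` -/
def Conv (N : ℕ → Set X) (x : X) : Prop := ∀ V ∈ 𝓝 x, ∀ᶠ j in atTop, N j ⊆ V

theorem Conv.mono {N M : ℕ → Set X} {x : X} (h : Conv N x) (hM : ∀ j, M j ⊆ N j) :
    Conv M x := by
  intro V hV
  filter_upwards [h V hV] with j hj using (hM j).trans hj

theorem Conv.comp {N : ℕ → Set X} {x : X} (h : Conv N x) {φ : ℕ → ℕ}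
    (hφ : Tendsto φ atTop atTop) : Conv (fun j => N (φ j)) x := by
  intro V hV
  exact hφ.eventually (h V hV)

theorem Conv.closure_subset [T2Space X] {N : ℕ → Set X} {x : X} (h : Conv N x) :
    closure (⋃ j, N j) ⊆ {x} ∪ ⋃ j, closure (N j) := by
  intro z hz
  by_cases hzx : z = x
  · left; exact hzx
  right
  obtain ⟨V, W, hV, hW, hzV, hxW, hVW⟩ := t2_separation hzx
  obtain ⟨J, hJ⟩ := eventually_atTop.1 (h W (hW.mem_nhds hxW))
  have h1 : (⋃ j, N j) ⊆ (⋃ j ∈ Finset.range J, N j) ∪ W := by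
    intro y hy
    obtain ⟨j, hj⟩ := mem_iUnion.1 hy
    by_cases hjJ : j < J
    · left
      simp only [mem_iUnion]
      exact ⟨j, Finset.mem_range.2 hjJ, hj⟩
    · right; exact hJ j (not_lt.1 hjJ) hj
  have h2 := closure_mono h1 hz
  rw [closure_union, Finset.closure_biUnion] at h2
  rcases h2 with h2 | h2
  · simp only [mem_iUnion] at h2 ⊢
    obtain ⟨j, _, hj⟩ := h2
    exact ⟨j, hj⟩
  · exfalso
    obtain ⟨y, hy1, hy2⟩ := mem_closure_iff.1 h2 V hV hzV
    exact (disjoint_left.1 hVW) hy1 hy2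

theorem Conv.mem_closure {N : ℕ → Set X} {x : X} (h : Conv N x)
    (hne : ∃ᶠ j in atTop, (N j).Nonempty) : x ∈ closure (⋃ j, N j) := by
  rw [mem_closure_iff_nhds]
  intro V hV
  obtain ⟨j, ⟨y, hy⟩, hj⟩ := (hne.and_eventually (h V hV)).exists
  exact ⟨y, hj hy, mem_iUnion.2 ⟨j, hy⟩⟩

theorem Lev_nonempty_of_le {E : Set X} {n m : ℕ} (h1 : (CB n E).Nonempty)
    (h2 : CB (n + 1) E = ∅) (hm : m ≤ n) : (Lev m E).Nonempty := by
  rw [nonempty_iff_ne_empty]
  intro h0
  obtain ⟨y, hy⟩ := h1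
  have := perfect_subset_CB h0 (CB_subset m E) (n + 1) (CB_antitone E hm hy)
  rw [h2] at this
  exact this

theorem Lev_empty_of_lt {E : Set X} {n m : ℕ} (h2 : CB (n + 1) E = ∅) (hm : n < m) :
    Lev m E = ∅ := by
  rw [eq_empty_iff_forall_notMem]
  intro x hx
  have := CB_antitone E hm (isoPts_subset _ hx)
  rw [h2] at this
  exact this

theorem le_of_Lev_nonempty {E : Set X} {n m : ℕ} (h2 : CB (n + 1) E = ∅)
    (hm : (Lev m E).Nonempty) : m ≤ n := by
  by_contra h
  rw [Lev_empty_of_lt h2 (not_le.1 h)] at hm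
  exact not_nonempty_empty hm

theorem Ker_empty_of_CB {E : Set X} {n : ℕ} (h2 : CB n E = ∅) : Ker E = ∅ := by
  rw [eq_empty_iff_forall_notMem]
  intro x hx
  have := Ker_subset_CB E n hx
  rw [h2] at this
  exact this

/-- the data for attaching closed scattered pieces to a closed dense-in-itself set -/
structure Attach (K : Set X) (x : X) (p : ℕ → X) (E O : ℕ → ℕ → Set X) (ν : ℕ → ℕ) :
    Prop where
  hK : IsClosed K
  hK0 : isoPts K = ∅
  hx : x ∈ K
  hp : ∀ k, p k ∈ K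
  hpx : ∀ k, p k ≠ x
  hinj : Function.Injective p
  hEc : ∀ k j, IsClosed (E k j)
  hO : ∀ k j, IsOpen (O k j)
  hEO : ∀ k j, E k j ⊆ O k j
  hOK : ∀ k j, Disjoint (O k j) K
  hOE : ∀ k j k' j', (k, j) ≠ (k', j') → Disjoint (O k j) (E k' j')
  hht : ∀ k j, (CB (ν k) (E k j)).Nonempty
  hht' : ∀ k j, CB (ν k + 1) (E k j) = ∅
  hcp : ∀ k, Conv (E k) (p k)
  hcE : Conv (fun k => ⋃ j, E k j) x
  hcx : Conv (fun k => {p k}) x
  hν : ∀ k, ∃ᶠ l in atTop, ν l = ν k

/-- the glued set -/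
def glue (K : Set X) (E : ℕ → ℕ → Set X) : Set X := K ∪ ⋃ k, ⋃ j, E k j

namespace Attach

variable {K : Set X} {x : X} {p : ℕ → X} {E O : ℕ → ℕ → Set X} {ν : ℕ → ℕ}

theorem inter_O (h : Attach K x p E O ν) (k j : ℕ) : glue K E ∩ O k j = E k j := by
  apply Subset.antisymm
  · rintro y ⟨hy | hy, hyO⟩
    · exact absurd hy (disjoint_left.1 (h.hOK k j) hyO)
    · simp only [mem_iUnion] at hy
      obtain ⟨k', j', hy⟩ := hy
      by_cases hkj : (k, j) = (k', j')
      · cases hkj; exact hy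
      · exact absurd hy (disjoint_left.1 (h.hOE k j k' j' hkj) hyO)
  · intro y hy
    exact ⟨Or.inr (mem_iUnion.2 ⟨k, mem_iUnion.2 ⟨j, hy⟩⟩), h.hEO k j hy⟩

theorem K_subset : K ⊆ glue K E := subset_union_left

theorem E_subset (k j : ℕ) : E k j ⊆ glue K E := fun _ hy =>
  Or.inr (mem_iUnion.2 ⟨k, mem_iUnion.2 ⟨j, hy⟩⟩)

theorem closure_row [T2Space X] (h : Attach K x p E O ν) {M : ℕ → ℕ → Set X}
    (hM : ∀ k j, M k j ⊆ E k j) (k : ℕ) : closure (⋃ j, M k j) ⊆ {p k} ∪ ⋃ j, E k j := by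
  refine (((h.hcp k).mono (hM k)).closure_subset).trans ?_
  refine union_subset_union_right _ (iUnion_mono fun j => ?_)
  exact (h.hEc k j).closure_subset_iff.2 (hM k j)

theorem closure_all [T2Space X] (h : Attach K x p E O ν) {M : ℕ → ℕ → Set X}
    (hM : ∀ k j, M k j ⊆ E k j) :
    closure (⋃ k, ⋃ j, M k j) ⊆ {x} ∪ ⋃ k, closure (⋃ j, M k j) :=
  (h.hcE.mono (fun k => iUnion_mono (hM k))).closure_subset

theorem isClosed_glue [T2Space X] (h : Attach K x p E O ν) : IsClosed (glue K E) := by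
  apply isClosed_of_closure_subset
  unfold glue
  rw [closure_union, h.hK.closure_eq]
  apply union_subset subset_union_left
  refine (h.closure_all (fun _ _ => Subset.rfl)).trans ?_
  rintro y (hy | hy)
  · rw [mem_singleton_iff.1 hy]; exact Or.inl h.hx
  · obtain ⟨k, hk⟩ := mem_iUnion.1 hy
    rcases h.closure_row (fun _ _ => Subset.rfl) k hk with h1 | h1
    · rw [mem_singleton_iff.1 h1]; exact Or.inl (h.hp k)
    · exact Or.inr (mem_iUnion.2 ⟨k, h1⟩)

theorem CB_inter (h : Attach K x p E O ν) (m k j : ℕ) :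
    CB m (glue K E) ∩ O k j = CB m (E k j) := by
  rw [← CB_inter_open _ (h.hO k j), h.inter_O]

theorem Lev_inter (h : Attach K x p E O ν) (m k j : ℕ) :
    Lev m (glue K E) ∩ O k j = Lev m (E k j) := by
  rw [← Lev_inter_open _ (h.hO k j), h.inter_O]

theorem not_mem_Lev (h : Attach K x p E O ν) (m : ℕ) {y : X} (hy : y ∈ K) :
    y ∉ Lev m (glue K E) := by
  intro h1
  have := isoPts_mono (perfect_subset_CB h.hK0 K_subset m) ⟨h1, hy⟩
  rw [h.hK0] at this
  exact this

theorem Lev_eq (h : Attach K x p E O ν) (m : ℕ) :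
    Lev m (glue K E) = ⋃ k, ⋃ j, Lev m (E k j) := by
  apply Subset.antisymm
  · intro y hy
    rcases Lev_subset m _ hy with h1 | h1
    · exact absurd hy (h.not_mem_Lev m h1)
    · simp only [mem_iUnion] at h1 ⊢
      obtain ⟨k, j, hkj⟩ := h1
      refine ⟨k, j, ?_⟩
      rw [← h.Lev_inter]
      exact ⟨hy, h.hEO k j hkj⟩
  · simp only [iUnion_subset_iff]
    intro k j
    rw [← h.Lev_inter]
    exact inter_subset_left

theorem Ker_eq (h : Attach K x p E O ν) : Ker (glue K E) = K := by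
  apply Subset.antisymm
  · intro y hy
    rcases Ker_subset _ hy with h1 | h1
    · exact h1
    · exfalso
      simp only [mem_iUnion] at h1
      obtain ⟨k, j, hkj⟩ := h1
      have h2 : y ∈ Ker (glue K E ∩ O k j) := by
        rw [Ker_inter_open _ (h.hO k j)]
        exact ⟨hy, h.hEO k j hkj⟩
      rw [h.inter_O, Ker_empty_of_CB (h.hht' k j)] at h2
      exact h2
  · exact subset_Ker K_subset h.hK0

theorem not_mem_E (h : Attach K x p E O ν) {z : X} (hz : z ∈ K) (k j : ℕ) : z ∉ E k j :=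
  fun h1 => disjoint_left.1 (h.hOK k j) (h.hEO k j h1) hz

theorem mem_closure_Lev [T2Space X] (h : Attach K x p E O ν) {m : ℕ} {z : X} (hz : z ∈ K)
    (hz' : z ∈ closure (Lev m (glue K E))) : z = x ∨ ∃ k, z = p k ∧ m ≤ ν k := by
  rw [h.Lev_eq] at hz'
  rcases h.closure_all (fun k j => Lev_subset m (E k j)) hz' with h1 | h1
  · exact Or.inl h1
  · right
    obtain ⟨k, hk⟩ := mem_iUnion.1 h1
    refine ⟨k, ?_, ?_⟩
    · rcases h.closure_row (fun k j => Lev_subset m (E k j)) k hk with h2 | h2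
      · exact h2
      · obtain ⟨j, hj⟩ := mem_iUnion.1 h2
        exact absurd hj (h.not_mem_E hz k j)
    · have : (⋃ j, Lev m (E k j)).Nonempty := closure_nonempty_iff.1 ⟨z, hk⟩
      obtain ⟨y, hy⟩ := this
      obtain ⟨j, hj⟩ := mem_iUnion.1 hy
      exact le_of_Lev_nonempty (h.hht' k j) ⟨y, hj⟩

theorem p_mem_closure_Lev (h : Attach K x p E O ν) {m k : ℕ} (hm : m ≤ ν k) :
    p k ∈ closure (Lev m (glue K E)) := by
  rw [h.Lev_eq]
  have h1 : p k ∈ closure (⋃ j, Lev m (E k j)) := by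
    apply ((h.hcp k).mono (fun j => Lev_subset m (E k j))).mem_closure
    apply Eventually.frequently
    exact Eventually.of_forall fun j => Lev_nonempty_of_le (h.hht k j) (h.hht' k j) hm
  exact closure_mono (subset_iUnion (fun k => ⋃ j, Lev m (E k j)) k) h1

theorem exists_of_x_mem [T2Space X] (h : Attach K x p E O ν) {m : ℕ}
    (hx : x ∈ closure (Lev m (glue K E))) : ∃ k, m ≤ ν k := by
  have : (Lev m (glue K E)).Nonempty := closure_nonempty_iff.1 ⟨x, hx⟩
  rw [h.Lev_eq] at this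
  obtain ⟨y, hy⟩ := this
  simp only [mem_iUnion] at hy
  obtain ⟨k, j, hkj⟩ := hy
  exact ⟨k, le_of_Lev_nonempty (h.hht' k j) ⟨y, hkj⟩⟩

theorem x_mem_closure (h : Attach K x p E O ν) {S : Set X} {k : ℕ}
    (hS : ∀ l, ν l = ν k → p l ∈ S) : x ∈ closure S := by
  rw [mem_closure_iff_nhds]
  intro V hV
  obtain ⟨l, hl, hV'⟩ := ((h.hν k).and_eventually (h.hcx V hV)).exists
  exact ⟨p l, hV' rfl, hS l hl⟩

theorem x_mem_closure_Lev (h : Attach K x p E O ν) {m k : ℕ} (hm : m ≤ ν k) :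
    x ∈ closure (Lev m (glue K E)) := by
  have := h.x_mem_closure (S := closure (Lev m (glue K E))) (k := k)
    (fun l hl => h.p_mem_closure_Lev (by rw [hl]; exact hm))
  rwa [closure_closure] at this

theorem p_mem_lam [T2Space X] (h : Attach K x p E O ν) (k : ℕ) :
    p k ∈ lam (ν k) (glue K E) := by
  refine ⟨⟨?_, h.p_mem_closure_Lev le_rfl⟩, ?_⟩
  · rw [h.Ker_eq]; exact h.hp k
  · intro h1
    rcases h.mem_closure_Lev (h.hp k) h1 with h2 | ⟨l, h2, h3⟩
    · exact h.hpx k h2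
    · rw [h.hinj h2] at h3; omega

theorem lam_subset [T2Space X] (h : Attach K x p E O ν) {m : ℕ} {z : X}
    (hz : z ∈ lam m (glue K E)) : (z = x ∧ ∃ k, ν k = m) ∨ ∃ k, z = p k ∧ ν k = m := by
  obtain ⟨⟨h1, h2⟩, h3⟩ := hz
  rw [h.Ker_eq] at h1
  rcases h.mem_closure_Lev h1 h2 with h4 | ⟨k, h4, h5⟩
  · left
    refine ⟨h4, ?_⟩
    subst h4
    obtain ⟨k, hk⟩ := h.exists_of_x_mem h2
    refine ⟨k, ?_⟩
    by_contra hne
    exact h3 (h.x_mem_closure_Lev (k := k) (by omega))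
  · right
    refine ⟨k, h4, ?_⟩
    subst h4
    by_contra hne
    exact h3 (h.p_mem_closure_Lev (k := k) (by omega))

theorem tau_x [T2Space X] (h : Attach K x p E O ν) : tau (glue K E) x = range ν := by
  ext m
  constructor
  · intro hm
    have : (lam m (glue K E)).Nonempty := closure_nonempty_iff.1 ⟨x, hm⟩
    obtain ⟨z, hz⟩ := this
    rcases h.lam_subset hz with ⟨_, k, hk⟩ | ⟨k, _, hk⟩
    · exact ⟨k, hk⟩
    · exact ⟨k, hk⟩
  · rintro ⟨k, rfl⟩
    exact h.x_mem_closure (k := k) (fun l hl => by rw [← hl]; exact h.p_mem_lam l)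

theorem tau_ne [T2Space X] (h : Attach K x p E O ν) {z : X} (hz : z ≠ x) {m : ℕ}
    (hm : m ∈ tau (glue K E) z) : ∃ k, z = p k ∧ ν k = m := by
  have h1 : lam m (glue K E) ⊆ {x} ∪ ⋃ k, {y | y = p k ∧ ν k = m} := by
    intro y hy
    rcases h.lam_subset hy with ⟨h1, _⟩ | ⟨k, h1, h2⟩
    · exact Or.inl h1
    · exact Or.inr (mem_iUnion.2 ⟨k, h1, h2⟩)
  have h2 : Conv (fun k => {y | y = p k ∧ ν k = m}) x := by
    apply h.hcx.mono
    rintro k y ⟨hy, _⟩
    exact hy
  have h3 := closure_mono h1 hm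
  rw [closure_union, closure_singleton] at h3
  rcases h3 with h3 | h3
  · exact absurd h3 hz
  · rcases h2.closure_subset h3 with h4 | h4
    · exact absurd h4 hz
    · obtain ⟨k, hk⟩ := mem_iUnion.1 h4
      have h5 : IsClosed {y | y = p k ∧ ν k = m} := by
        by_cases hkm : ν k = m
        · have : {y | y = p k ∧ ν k = m} = {p k} := by ext y; simp [hkm]
          rw [this]; exact isClosed_singleton
        · have : {y | y = p k ∧ ν k = m} = ∅ := by ext y; simp [hkm]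
          rw [this]; exact isClosed_empty
      rw [h5.closure_eq] at hk
      exact ⟨k, hk.1, hk.2⟩

theorem tau_subsingleton [T2Space X] (h : Attach K x p E O ν) {z : X} (hz : z ≠ x) :
    (tau (glue K E) z).Subsingleton := by
  intro a ha b hb
  obtain ⟨k, hk, rfl⟩ := h.tau_ne hz ha
  obtain ⟨l, hl, rfl⟩ := h.tau_ne hz hb
  rw [h.hinj (hk.symm.trans hl)]

end Attach

end ConvSec

end Run7.h123
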