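import Pool.Agent.Run7.h123.Bridge

open Set Topology Filter Cardinal TopologicalSpace

namespace Run7.h123

universe u v

section CountSec

variable {X : Type u} [TopologicalSpace X]

theorem exists_finset_between {𝓑 : Set (Set X)} (h𝓑 : IsTopologicalBasis 𝓑) {C O : Set X}
    (hC : IsCompact C) (hO : IsOpen O) (hCO : C ⊆ O) :
    ∃ t : Finset 𝓑, C ⊆ ⋃ b ∈ t, (b : Set X) ∧ (⋃ b ∈ t, (b : Set X)) ⊆ O := by
  classical
  have h1 : ∀ z ∈ C, ∃ b ∈ 𝓑, z ∈ b ∧ b ⊆ O := fun z hz =>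
    h𝓑.exists_subset_of_mem_open (hCO hz) hO
  choose! b hb hzb hbO using h1
  obtain ⟨t, hCt⟩ := hC.elim_nhds_subcover' (fun z _ => b z)
    (fun z hz => (h𝓑.isOpen (hb z hz)).mem_nhds (hzb z hz))
  refine ⟨Finset.univ.image (fun z : t => (⟨b z.1.1, hb z.1.1 z.1.2⟩ : 𝓑)), ?_, ?_⟩
  · intro z hz
    obtain ⟨w, hw, hzw⟩ := mem_iUnion₂.1 (hCt hz)
    refine mem_iUnion₂.2 ⟨⟨b w.1, hb w.1 w.2⟩, ?_, hzw⟩
    exact Finset.mem_image.2 ⟨⟨w, hw⟩, Finset.mem_univ _, rfl⟩
  · intro z hz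
    obtain ⟨w, hw, hzw⟩ := mem_iUnion₂.1 hz
    obtain ⟨s, _, rfl⟩ := Finset.mem_image.1 hw
    exact hbO s.1.1 s.1.2 hzw

theorem isolated_iff_of_closure [T1Space X] {E : Set X}
    (hE : ∀ x ∈ E, ∃ V, IsOpen V ∧ V ∩ E = {x}) (x : closure E) :
    IsOpen ({x} : Set (closure E)) ↔ (x : X) ∈ E := by
  constructor
  · intro h
    obtain ⟨V, hV, hVx⟩ := isOpen_induced_iff.1 h
    have hxV : (x : X) ∈ V := by
      have : x ∈ (Subtype.val ⁻¹' V : Set (closure E)) := by rw [hVx]; rfl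
      exact this
    obtain ⟨y, hyV, hyE⟩ := mem_closure_iff.1 x.2 V hV hxV
    have : (⟨y, subset_closure hyE⟩ : closure E) ∈ (Subtype.val ⁻¹' V : Set (closure E)) := hyV
    rw [hVx] at this
    have h2 : y = (x : X) := Subtype.ext_iff.1 (mem_singleton_iff.1 this)
    rw [← h2]; exact hyE
  · intro hx
    obtain ⟨V, hV, hVx⟩ := hE x hx
    have h3 : closure E ∩ V ⊆ {(x : X)} := by
      rintro z ⟨hz, hzU⟩
      have h4 : z ∈ closure (E ∩ V) := by
        have := Set.ext_iff.1 (closure_inter_open_inter E hV) z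
        exact (this.2 ⟨hz, hzU⟩).1
      rw [inter_comm, hVx, closure_singleton] at h4
      exact h4
    have h5 : ({x} : Set (closure E)) = Subtype.val ⁻¹' V := by
      ext w
      simp only [mem_singleton_iff, mem_preimage]
      constructor
      · rintro rfl
        have : (w : X) ∈ V ∩ E := by rw [hVx]; rfl
        exact this.1
      · intro hw; exact Subtype.ext (h3 ⟨w.2, hw⟩)
    rw [h5]
    exact hV.preimage continuous_subtype_val

/-- the counting lemma: a relatively discrete set on which a continuous map to a second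
countable space is injective is small -/
theorem two_power_le [CompactSpace X] [T2Space X] (hco : IsCO X) {M : Type v}
    [TopologicalSpace M] [T3Space M] [SecondCountableTopology M] {f : X → M}
    (hf : Continuous f) {𝓑 : Set (Set X)} (h𝓑 : IsTopologicalBasis 𝓑) {κ : Cardinal.{u}}
    (hκ : ℵ₀ ≤ κ) (hκ𝓑 : #𝓑 ≤ κ) {E₀ : Set X} (hE₀ : ∀ x ∈ E₀, ∃ V, IsOpen V ∧ V ∩ E₀ = {x})
    (hinj : InjOn f E₀) : 2 ^ #E₀ ≤ κ ^ ℵ₀ := by
  classical
  obtain ⟨b, hb⟩ := countable_iff_exists_subset_range.1 (countable_countableBasis M)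
  have hdisc : ∀ E : Set E₀, ∀ x ∈ (Subtype.val '' E : Set X),
      ∃ V, IsOpen V ∧ V ∩ (Subtype.val '' E : Set X) = {x} := by
    rintro E x ⟨⟨x', hx'⟩, hxE, rfl⟩
    obtain ⟨V, hV, hVx⟩ := hE₀ x' hx'
    refine ⟨V, hV, ?_⟩
    have hxV : x' ∈ V := by
      have : x' ∈ V ∩ E₀ := by rw [hVx]; rfl
      exact this.1
    apply Subset.antisymm
    · rintro _ ⟨hzV, ⟨⟨z, hz⟩, hzE, rfl⟩⟩
      have : z ∈ V ∩ E₀ := ⟨hzV, hz⟩
      rw [hVx] at this
      exact this
    · intro z hz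
      rw [mem_singleton_iff.1 hz]
      exact ⟨hxV, ⟨⟨x', hx'⟩, hxE, rfl⟩⟩
  have h1 := fun E : Set E₀ => hco (closure (Subtype.val '' E)) isClosed_closure
  choose U hU e using h1
  let e' : ∀ E : Set E₀, (closure (Subtype.val '' E : Set X) : Set X) ≃ₜ U E :=
    fun E => (e E).some
  -- the sets between
  have h2 : ∀ (E : Set E₀) (n : ℕ × ℕ), ∃ t : Finset 𝓑, closure (b n.1) ⊆ b n.2 →
      IsOpen (b n.2) →
      ∀ z (hz : z ∈ U E), (f ((e' E).symm ⟨z, hz⟩) ∈ closure (b n.1) →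
        z ∈ ⋃ b ∈ t, (b : Set X)) ∧ (z ∈ (⋃ b ∈ t, (b : Set X)) →
          f ((e' E).symm ⟨z, hz⟩) ∈ b n.2) := by
    intro E n
    by_cases hn : closure (b n.1) ⊆ b n.2 ∧ IsOpen (b n.2)
    · have hψ : Continuous (fun z : U E => f ((e' E).symm z)) :=
        hf.comp (continuous_subtype_val.comp (e' E).symm.continuous)
      have hC : IsClosed (Subtype.val '' ((fun z : U E => f ((e' E).symm z)) ⁻¹'
          closure (b n.1)) : Set X) :=
        (hU E).1.isClosedMap_subtype_val _ (isClosed_closure.preimage hψ)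
      have hO : IsOpen (Subtype.val '' ((fun z : U E => f ((e' E).symm z)) ⁻¹'
          (b n.2)) : Set X) :=
        (hU E).2.isOpenMap_subtype_val _ (hn.2.preimage hψ)
      obtain ⟨t, ht1, ht2⟩ := exists_finset_between h𝓑 hC.isCompact hO
        (image_mono (preimage_mono hn.1))
      refine ⟨t, fun _ _ z hz => ⟨fun h => ht1 ⟨⟨z, hz⟩, h, rfl⟩, fun h => ?_⟩⟩
      obtain ⟨⟨w, hw⟩, hw1, hw2⟩ := ht2 h
      subst hw2
      exact hw1
    · exact ⟨∅, fun h h' => absurd ⟨h, h'⟩ hn⟩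
  choose W hW using h2
  have h3 : ∀ E : Set E₀, ∃ t : Finset 𝓑, U E = ⋃ b ∈ t, (b : Set X) := by
    intro E
    obtain ⟨t, ht1, ht2⟩ := exists_finset_between h𝓑 (hU E).1.isCompact (hU E).2 Subset.rfl
    exact ⟨t, Subset.antisymm ht1 ht2⟩
  choose T hT using h3
  let Φ : Set E₀ → Finset 𝓑 × (ℕ × ℕ → Finset 𝓑) := fun E => (T E, W E)
  have key : ∀ E E' : Set E₀, Φ E = Φ E' → E ⊆ E' := by
    intro E E' hΦ
    have hTT : T E = T E' := (Prod.ext_iff.1 hΦ).1
    have hUU : U E = U E' := by rw [hT, hT, hTT]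
    have hWW : W E = W E' := (Prod.ext_iff.1 hΦ).2
    have hψ : ∀ z (hz : z ∈ U E) (hz' : z ∈ U E'),
        f ((e' E).symm ⟨z, hz⟩) = f ((e' E').symm ⟨z, hz'⟩) := by
      intro z hz hz'
      by_contra hne
      set p := f ((e' E).symm ⟨z, hz⟩) with hp
      set q := f ((e' E').symm ⟨z, hz'⟩) with hq
      have hb' := isBasis_countableBasis M
      obtain ⟨B, hB, hpB, hBq⟩ := hb'.exists_subset_of_mem_open
        (show p ∈ ({q} : Set M)ᶜ from hne) isOpen_compl_singleton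
      obtain ⟨C, hC, hCc, hCs⟩ := exists_mem_nhds_isClosed_subset
        ((hb'.isOpen hB).mem_nhds hpB)
      obtain ⟨A, hA, hpA, hAC⟩ := hb'.exists_subset_of_mem_open
        (mem_interior_iff_mem_nhds.2 hC) isOpen_interior
      obtain ⟨n, rfl⟩ := hb hA
      obtain ⟨m, rfl⟩ := hb hB
      have hcl : closure (b n) ⊆ b m :=
        ((hCc.closure_subset_iff.2 (hAC.trans interior_subset))).trans hCs
      have h5 := (hW E (n, m) hcl (hb'.isOpen hB) z hz).1 (subset_closure hpA)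
      rw [hWW] at h5
      have h6 := (hW E' (n, m) hcl (hb'.isOpen hB) z hz').2 h5
      exact hBq h6 rfl
    intro x hxE
    have hx1 : (x : X) ∈ closure (Subtype.val '' E : Set X) := subset_closure ⟨x, hxE, rfl⟩
    set z : U E := e' E ⟨x, hx1⟩ with hz
    have hzU' : (z : X) ∈ U E' := hUU ▸ z.2
    have hz1 : IsOpen ({z} : Set (U E)) := by
      have := (isolated_iff_of_closure (hdisc E) ⟨x, hx1⟩).2 ⟨x, hxE, rfl⟩
      have h7 := (e' E).isOpenMap _ this
      rwa [image_singleton] at h7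
    have hz2 : IsOpen ({(z : X)} : Set X) := by
      have := (hU E).2.isOpenMap_subtype_val _ hz1
      rwa [image_singleton] at this
    have hz3 : IsOpen ({⟨z, hzU'⟩} : Set (U E')) := by
      have := hz2.preimage (continuous_subtype_val (p := fun w => w ∈ U E'))
      convert this using 1
      ext w
      simp only [mem_singleton_iff, mem_preimage]
      exact ⟨fun h => by rw [h], fun h => Subtype.ext h⟩
    set x' := (e' E').symm ⟨z, hzU'⟩ with hx'
    have hx'o : IsOpen ({x'} : Set (closure (Subtype.val '' E' : Set X))) := by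
      have h7 := (e' E').symm.isOpenMap _ hz3
      rwa [image_singleton] at h7
    obtain ⟨w, hw, hwx⟩ := (isolated_iff_of_closure (hdisc E') x').1 hx'o
    have h8 : f (x : X) = f (w : X) := by
      have := hψ z z.2 hzU'
      rw [← hx', ← hwx] at this
      rw [← this]
      simp [hz]
    have h9 : x = w := Subtype.ext (hinj x.2 w.2 h8)
    rw [h9]; exact hw
  have hinjΦ : Function.Injective Φ := fun E E' h =>
    Subset.antisymm (key E E' h) (key E' E h.symm)
  have hfin : #(Finset 𝓑) ≤ κ := by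
    rcases finite_or_infinite 𝓑 with h | h
    · have : #(Finset 𝓑) < ℵ₀ := lt_aleph0_of_finite _
      exact this.le.trans hκ
    · rw [mk_finset_of_infinite]; exact hκ𝓑
  calc 2 ^ #E₀ = #(Set E₀) := by rw [mk_set]
    _ ≤ #(Finset 𝓑 × (ℕ × ℕ → Finset 𝓑)) := mk_le_of_injective hinjΦ
    _ = #(Finset 𝓑) * #(Finset 𝓑) ^ ℵ₀ := by simp
    _ ≤ κ * κ ^ ℵ₀ := mul_le_mul' hfin (power_le_power_right hfin)
    _ ≤ κ ^ ℵ₀ * κ ^ ℵ₀ := mul_le_mul' (self_le_power κ one_le_aleph0) le_rfl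
    _ = κ ^ ℵ₀ := mul_eq_self (hκ.trans (self_le_power κ one_le_aleph0))

end CountSec

end Run7.h123
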