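import Pool.Agent.Run7.h123.NewLabels
import Pool.Agent.Run7.h123.Count

open Set Topology Filter Cardinal

namespace Run7.h123

universe u

set_option linter.unusedSectionVars false

section CorBaseSec

variable {X : Type u} [TopologicalSpace X] {Γ : Type u} {φ : X → Γ → ℝ}

theorem countable_dom {Z : Set Γ} (hZ : Z.Countable) :
    {s : Finset (Γ × ℚ × ℚ) | dom s ⊆ Z}.Countable := by
  rw [← le_aleph0_iff_set_countable]
  exact (mk_dom_le Z).trans (max_le (le_aleph0_iff_set_countable.2 hZ) le_rfl)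

theorem countable_Supp (hφ : Cors φ) {A : Set X} (hA : A.Countable) : (Supp φ A).Countable := by
  have : Supp φ A = ⋃ x ∈ A, supp φ x := by
    ext γ; simp [Supp, supp]
  rw [this]
  exact hA.biUnion fun x _ => hφ.ctb x

theorem finite_subset_iUnion_mono {A : ℕ → Set Γ} (hm : Monotone A) {t : Set Γ} (ht : t.Finite)
    (h : t ⊆ ⋃ n, A n) : ∃ n, t ⊆ A n := by
  induction t, ht using Set.Finite.induction_on with
  | empty => exact ⟨0, empty_subset _⟩
  | insert _ _ ih =>
    obtain ⟨j, hj⟩ := ih ((subset_insert _ _).trans h)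
    obtain ⟨k, hk⟩ := mem_iUnion.1 (h (mem_insert _ _))
    exact ⟨max j k, insert_subset (hm (le_max_right _ _) hk) (hj.trans (hm (le_max_left _ _)))⟩

theorem exists_P0 (hφ : Cors φ) {S : Set X} (hS : S.Nonempty) (hS0 : isoPts S = ∅) :
    ∃ P : Set X, IsClosed P ∧ isoPts P = ∅ ∧ P.Nonempty ∧ (Supp φ P).Countable := by
  classical
  obtain ⟨x₀, hx₀⟩ := hS
  have h1 : ∀ (x : X) (s : Finset (Γ × ℚ × ℚ)), ∃ z ∈ S, x ∈ S → x ∈ obox φ s →
      z ≠ x ∧ z ∈ obox φ s := by
    intro x s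
    by_cases h : x ∈ S ∧ x ∈ obox φ s
    · by_contra hcon
      push Not at hcon
      have : x ∈ isoPts S := by
        refine ⟨obox φ s, isOpen_obox hφ s, ?_⟩
        apply Subset.antisymm
        · rintro z ⟨hz1, hz2⟩
          by_contra hne
          exact (hcon z hz2).2.2 hne hz1
        · rintro z rfl; exact ⟨h.2, h.1⟩
      rw [hS0] at this
      exact this
    · exact ⟨x₀, hx₀, fun h1 h2 => absurd ⟨h1, h2⟩ h⟩
  choose g hgS hg using h1
  let stp : Set X → Set X := fun B => B ∪ ⋃ x ∈ B, ⋃ s ∈ {s | dom s ⊆ Supp φ B}, {g x s}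
  let B : ℕ → Set X := fun n => stp^[n] {x₀}
  have hBs : ∀ n, B (n + 1) = B n ∪ ⋃ x ∈ B n, ⋃ s ∈ {s | dom s ⊆ Supp φ (B n)}, {g x s} := by
    intro n
    show stp^[n + 1] _ = _
    rw [Function.iterate_succ_apply']
  have hBS : ∀ n, B n ⊆ S := by
    intro n
    induction n with
    | zero => exact singleton_subset_iff.2 hx₀
    | succ n ih =>
      rw [hBs]
      refine union_subset ih (iUnion₂_subset fun x hx => iUnion₂_subset fun s hs => ?_)
      exact singleton_subset_iff.2 (hgS x s)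
  have hBc : ∀ n, (B n).Countable := by
    intro n
    induction n with
    | zero => exact countable_singleton _
    | succ n ih =>
      rw [hBs]
      refine ih.union (ih.biUnion fun x _ => ?_)
      exact (countable_dom (countable_Supp hφ ih)).biUnion fun s _ => countable_singleton _
  have hmono : Monotone B := monotone_nat_of_le_succ fun n => by
    rw [hBs]; exact subset_union_left
  set Bt : Set X := ⋃ n, B n with hBt
  have hSB : Supp φ Bt = ⋃ n, Supp φ (B n) := by
    ext γ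
    simp only [Supp, hBt, mem_iUnion, mem_ofPred_eq]
    constructor
    · rintro ⟨x, ⟨n, hn⟩, hx⟩; exact ⟨n, x, hn, hx⟩
    · rintro ⟨n, x, hn, hx⟩; exact ⟨x, ⟨n, hn⟩, hx⟩
  have hiso : isoPts Bt = ∅ := by
    rw [eq_empty_iff_forall_notMem]
    rintro x ⟨V, hV, hVx⟩
    have hx : x ∈ V ∩ Bt := by rw [hVx]; rfl
    obtain ⟨s, hs, hsV⟩ := exists_box hφ (hV.mem_nhds hx.1)
    set s' := s.filter (fun c => c.1 ∈ Supp φ Bt) with hs'
    have hxs' : x ∈ obox φ s' := fun c hc => hs c (Finset.mem_filter.1 hc).1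
    have hdom : dom s' ⊆ ⋃ n, Supp φ (B n) := by
      rw [← hSB]
      rintro γ ⟨c, hc, rfl⟩
      exact (Finset.mem_filter.1 hc).2
    obtain ⟨n, hn⟩ := finite_subset_iUnion_mono (fun a b hab => Supp_mono (hmono hab))
      (dom_finite s') hdom
    obtain ⟨m, hm⟩ := mem_iUnion.1 hx.2
    set N := max n m with hN
    have hxN : x ∈ B N := hmono (le_max_right _ _) hm
    have hsN : dom s' ⊆ Supp φ (B N) := hn.trans (Supp_mono (hmono (le_max_left _ _)))
    have hz : g x s' ∈ B (N + 1) := by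
      rw [hBs]
      exact Or.inr (mem_iUnion₂.2 ⟨x, hxN, mem_iUnion₂.2 ⟨s', hsN, rfl⟩⟩)
    obtain ⟨h2, h3⟩ := hg x s' (hBS N hxN) hxs'
    have hzB : g x s' ∈ Bt := mem_iUnion.2 ⟨_, hz⟩
    have h4 : g x s' ∈ obox φ s := by
      apply mem_obox_of_filter hx.2 hzB hs (s' := s') _ h3
      intro c hc hcB
      exact Finset.mem_filter.2 ⟨hc, hcB⟩
    have h5 : g x s' ∈ V ∩ Bt := ⟨hsV (obox_subset_box _ h4), hzB⟩
    rw [hVx] at h5
    exact h2 h5
  refine ⟨closure Bt, isClosed_closure, isoPts_closure_empty hiso, ?_, ?_⟩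
  · exact ⟨x₀, subset_closure (mem_iUnion.2 ⟨0, rfl⟩)⟩
  · refine (countable_Supp hφ (A := Bt) ?_).mono (Supp_closure hφ Bt)
    exact countable_iUnion hBc

theorem FCP_of_countable [T1Space X] (hφ : Cors φ) {P : Set X} (hP : (Supp φ P).Countable) :
    FCP P := by
  classical
  apply FCP.of_gδ
  intro Q hQP hQ ⟨x, hx⟩
  refine ⟨Q, Subset.rfl, hQ, x, hx,
    ⋂ s ∈ {s : Finset (Γ × ℚ × ℚ) | dom s ⊆ Supp φ P ∧ x ∈ obox φ s}, obox φ s, ?_, ?_⟩
  · apply IsGδ.biInter
    · exact (countable_dom hP).mono fun s hs => hs.1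
    · exact fun s _ => (isOpen_obox hφ s).isGδ
  · ext z
    simp only [mem_inter_iff, mem_iInter, mem_singleton_iff]
    constructor
    · rintro ⟨hzQ, hz⟩
      by_contra hne
      obtain ⟨s, hs, hsz⟩ := exists_box hφ
        (isOpen_compl_singleton.mem_nhds (show x ∈ ({z} : Set X)ᶜ from fun h => hne h.symm))
      set s' := s.filter (fun c => c.1 ∈ Supp φ P) with hs'
      have h1 : s' ∈ {s : Finset (Γ × ℚ × ℚ) | dom s ⊆ Supp φ P ∧ x ∈ obox φ s} := by
        refine ⟨?_, fun c hc => hs c (Finset.mem_filter.1 hc).1⟩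
        rintro γ ⟨c, hc, rfl⟩
        exact (Finset.mem_filter.1 hc).2
      have h2 : z ∈ obox φ s := by
        apply mem_obox_of_filter (hQP hx) (hQP hzQ) hs (s' := s') _ (hz s' h1)
        intro c hc hcB
        exact Finset.mem_filter.2 ⟨hc, hcB⟩
      exact hsz (obox_subset_box _ h2) rfl
    · rintro rfl
      exact ⟨hx, fun s hs => hs.2⟩

/-- the first labels -/
theorem baseLabels [CompactSpace X] [T2Space X] (hco : IsCO X) (hφ : Cors φ) {κ : Cardinal.{u}}
    (hκc : κ ≤ 𝔠) {S : Set X} (hS : S.Nonempty) (hS0 : isoPts S = ∅) :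
    ∃ (ι : Type u) (U : ι → Set X) (y : ι → X), #ι = κ ∧ Lab (Order.succ ℵ₀) U y := by
  obtain ⟨P, hPc, hP0, hPne, hPS⟩ := exists_P0 hφ hS hS0
  have hFC : FCP P := FCP_of_countable hφ hPS
  obtain ⟨y, U, F, e, h⟩ := exists_family hco (hFC.hasAttach (perfect_iff'.2 ⟨hPc, hP0⟩) hPne)
  have hcard : #(ULift.{u} (Set ℕ)) = 𝔠 := by
    rw [mk_uLift, mk_set_nat, lift_continuum]
  obtain ⟨ι, hι⟩ := le_mk_iff_exists_set.1 (hcard.symm ▸ hκc)
  refine ⟨ι, fun i => U i.1.down, fun i => y i.1.down, hι, fun i => h.hU _, fun i => h.hyU _,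
    ?_, ?_⟩
  · intro i
    obtain ⟨A, hAF, hFA, hA⟩ := exists_dense hφ (F i.1.down)
    refine ⟨_, ?_, dense_image (e i.1.down) hAF hFA⟩
    refine mk_range_le.trans_lt (hA.trans_lt (Order.lt_succ_of_le (max_le ?_ le_rfl)))
    refine (mk_le_mk_of_subset (Supp_mono (h.hFP _))).trans ?_
    exact le_aleph0_iff_set_countable.2 hPS
  · intro i j z hz hg
    have h1 : tau (Set.univ : Set X) z = code i.1.down := by
      rw [← tau_of_GE hg, h.htau]
    have h2 := (h.eq_of_tau hz h1).2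
    exact Subtype.ext (ULift.down_injective h2)

theorem Lab.card_le [CompactSpace X] {𝓑 : Set (Set X)} (h𝓑 : TopologicalSpace.IsTopologicalBasis 𝓑)
    {κ : Cardinal.{u}} {ι : Type u} {U : ι → Set X} {y : ι → X} (h : Lab κ U y) :
    #ι ≤ max #𝓑 ℵ₀ := by
  have hinj : Function.Injective U := by
    intro i j hij
    exact h.mem_iff j i (hij ▸ h.hy i)
  have h1 : ∀ i, ∃ t : Finset 𝓑, U i = ⋃ b ∈ t, (b : Set X) := by
    intro i
    obtain ⟨t, ht1, ht2⟩ := exists_finset_between h𝓑 (h.hU i).1.isCompact (h.hU i).2 Subset.rfl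
    exact ⟨t, Subset.antisymm ht1 ht2⟩
  choose t ht using h1
  have h2 : Function.Injective t := by
    intro i j hij
    apply hinj
    rw [ht i, ht j, hij]
  exact (mk_le_of_injective h2).trans (mk_finset_le _)

end CorBaseSec

end Run7.h123
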