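import Pool.Agent.Run7.h123.Corson

open Set Topology Filter Cardinal

namespace Run7.h123

universe u

set_option linter.unusedSectionVars false

theorem mk_finset_le (α : Type u) : #(Finset α) ≤ max #α ℵ₀ := by
  rcases finite_or_infinite α with h | h
  · exact (lt_aleph0_of_finite _).le.trans (le_max_right _ _)
  · rw [mk_finset_of_infinite]; exact le_max_left _ _

section CorCardSec

variable {X : Type u} [TopologicalSpace X] {Γ : Type u} {φ : X → Γ → ℝ}

theorem mk_dom_le (Z : Set Γ) :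
    #{s : Finset (Γ × ℚ × ℚ) | dom s ⊆ Z} ≤ max #Z ℵ₀ := by
  classical
  let g : Z × ℚ × ℚ → Γ × ℚ × ℚ := fun p => (p.1.1, p.2)
  have hg : Function.Injective g := by
    rintro ⟨⟨a, ha⟩, b⟩ ⟨⟨a', ha'⟩, b'⟩ h
    simp only [g, Prod.mk.injEq] at h
    obtain ⟨rfl, rfl⟩ := h
    rfl
  let f : Finset (Z × ℚ × ℚ) → {s : Finset (Γ × ℚ × ℚ) | dom s ⊆ Z} := fun t =>
    ⟨t.image g, by
      rintro γ ⟨c, hc, rfl⟩
      obtain ⟨p, _, rfl⟩ := Finset.mem_image.1 hc
      exact p.1.2⟩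
  have hf : Function.Surjective f := by
    rintro ⟨s, hs⟩
    refine ⟨s.preimage g hg.injOn, Subtype.ext ?_⟩
    ext c
    simp only [f, Finset.mem_image, Finset.mem_preimage]
    constructor
    · rintro ⟨p, hp, rfl⟩; exact hp
    · intro hc
      exact ⟨(⟨c.1, hs ⟨c, hc, rfl⟩⟩, c.2), hc, rfl⟩
  refine (mk_le_of_surjective hf).trans ((mk_finset_le _).trans ?_)
  apply max_le _ (le_max_right _ _)
  have : #(Z × ℚ × ℚ) = #Z * ℵ₀ := by simp
  rw [this]
  exact (mul_le_max _ _).trans (by simp)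

theorem mem_obox_of_filter {C : Set X} {x z : X} (hx : x ∈ C) (hz : z ∈ C)
    {s : Finset (Γ × ℚ × ℚ)} (hxs : x ∈ obox φ s) {s' : Finset (Γ × ℚ × ℚ)}
    (hs' : ∀ c ∈ s, c.1 ∈ Supp φ C → c ∈ s') (h : z ∈ obox φ s') : z ∈ obox φ s := by
  intro c hc
  by_cases hcC : c.1 ∈ Supp φ C
  · exact h c (hs' c hc hcC)
  · have h1 : ∀ w ∈ C, φ w c.1 = 0 := by
      intro w hw
      by_contra hne
      exact hcC ⟨w, hw, hne⟩
    have := hxs c hc
    rw [h1 x hx] at this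
    rw [h1 z hz]
    exact this

theorem mk_le_of_disc (hφ : Cors φ) {ι : Type u} {y : ι → X} {V : ι → Set X}
    (hV : ∀ i, IsOpen (V i)) (hy : ∀ i, y i ∈ V i) (hne : ∀ i j, y j ∈ V i → j = i)
    (C : Set X) : #{i | y i ∈ C} ≤ max #(Supp φ C) ℵ₀ := by
  classical
  have h1 : ∀ i, ∃ s, y i ∈ obox φ s ∧ box φ s ⊆ V i := fun i =>
    exists_box hφ ((hV i).mem_nhds (hy i))
  choose s hs hsV using h1
  let g : {i | y i ∈ C} → {s : Finset (Γ × ℚ × ℚ) | dom s ⊆ Supp φ C} := fun i =>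
    ⟨(s i).filter (fun c => c.1 ∈ Supp φ C), by
      rintro γ ⟨c, hc, rfl⟩
      exact (Finset.mem_filter.1 hc).2⟩
  have hg : Function.Injective g := by
    rintro ⟨i, hi⟩ ⟨j, hj⟩ hij
    have h2 : (s i).filter (fun c => c.1 ∈ Supp φ C) = (s j).filter (fun c => c.1 ∈ Supp φ C) :=
      congrArg Subtype.val hij
    have h3 : y j ∈ obox φ (s i) := by
      apply mem_obox_of_filter (C := C) (x := y i) (z := y j) hi hj (hs i)
        (s' := (s i).filter (fun c => c.1 ∈ Supp φ C))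
      · intro c hc hcC
        exact Finset.mem_filter.2 ⟨hc, hcC⟩
      · rw [h2]
        intro c hc
        exact hs j c (Finset.mem_filter.1 hc).1
    exact Subtype.ext (hne i j (hsV i (obox_subset_box _ h3))).symm
  exact (mk_le_of_injective hg).trans (mk_dom_le _)

theorem exists_dense (hφ : Cors φ) (C : Set X) :
    ∃ A ⊆ C, C ⊆ closure A ∧ #A ≤ max #(Supp φ C) ℵ₀ := by
  classical
  let T : Set (Finset (Γ × ℚ × ℚ)) := {s | dom s ⊆ Supp φ C ∧ (obox φ s ∩ C).Nonempty}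
  have h1 : ∀ s : T, ∃ x, x ∈ obox φ s.1 ∧ x ∈ C := fun s => s.2.2
  choose f hf hfC using h1
  refine ⟨range f, ?_, ?_, ?_⟩
  · rintro _ ⟨s, rfl⟩; exact hfC s
  · intro x hx
    rw [mem_closure_iff]
    intro O hO hxO
    obtain ⟨s, hs, hsO⟩ := exists_box hφ (hO.mem_nhds hxO)
    set s' := s.filter (fun c => c.1 ∈ Supp φ C) with hs'
    have hT : s' ∈ T := by
      refine ⟨?_, x, ?_, hx⟩
      · rintro γ ⟨c, hc, rfl⟩
        exact (Finset.mem_filter.1 hc).2
      · intro c hc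
        exact hs c (Finset.mem_filter.1 hc).1
    refine ⟨f ⟨s', hT⟩, ?_, ⟨s', hT⟩, rfl⟩
    apply hsO
    apply obox_subset_box
    apply mem_obox_of_filter hx (hfC ⟨s', hT⟩) hs (s' := s')
    · intro c hc hcC
      exact Finset.mem_filter.2 ⟨hc, hcC⟩
    · exact hf ⟨s', hT⟩
  · refine mk_range_le.trans ((mk_le_mk_of_subset ?_).trans (mk_dom_le (Supp φ C)))
    intro s hs
    exact hs.1

theorem mk_Supp_le (hφ : Cors φ) {C A : Set X} (h : C ⊆ closure A) :
    #(Supp φ C) ≤ max #A ℵ₀ := by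
  have h1 : Supp φ C ⊆ ⋃ x : A, supp φ (x : X) := by
    intro γ hγ
    obtain ⟨x, hx, hxγ⟩ := Supp_closure hφ A (Supp_mono h hγ)
    exact mem_iUnion.2 ⟨⟨x, hx⟩, hxγ⟩
  calc #(Supp φ C) ≤ #(⋃ x : A, supp φ (x : X) : Set Γ) := mk_le_mk_of_subset h1
    _ ≤ Cardinal.sum (fun x : A => #(supp φ (x : X))) := mk_iUnion_le_sum_mk
    _ ≤ Cardinal.sum (fun _ : A => ℵ₀) :=
        sum_le_sum _ _ fun x => le_aleph0_iff_set_countable.2 (hφ.ctb x)
    _ = #A * ℵ₀ := by simp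
    _ ≤ max #A ℵ₀ := (mul_le_max _ _).trans (by simp)

end CorCardSec

section ClSec

variable {Γ : Type u}

def IsCl (c : Finset (Γ × ℚ × ℚ) → Set Γ) (Z : Set Γ) : Prop := ∀ s, dom s ⊆ Z → c s ⊆ Z

def cl (c : Finset (Γ × ℚ × ℚ) → Set Γ) (Z : Set Γ) : Set Γ := ⋂₀ {Z' | Z ⊆ Z' ∧ IsCl c Z'}

theorem subset_cl (c : Finset (Γ × ℚ × ℚ) → Set Γ) (Z : Set Γ) : Z ⊆ cl c Z :=
  subset_sInter fun _ h => h.1

theorem isCl_cl (c : Finset (Γ × ℚ × ℚ) → Set Γ) (Z : Set Γ) : IsCl c (cl c Z) := by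
  intro s hs
  refine subset_sInter fun Z' h => ?_
  exact h.2 s (hs.trans (sInter_subset_of_mem h))

theorem cl_min {c : Finset (Γ × ℚ × ℚ) → Set Γ} {Z Z' : Set Γ} (h : Z ⊆ Z') (h' : IsCl c Z') :
    cl c Z ⊆ Z' := sInter_subset_of_mem ⟨h, h'⟩

theorem cl_mono {c : Finset (Γ × ℚ × ℚ) → Set Γ} {Z Z' : Set Γ} (h : Z ⊆ Z') :
    cl c Z ⊆ cl c Z' := cl_min (h.trans (subset_cl c Z')) (isCl_cl c Z')

theorem dom_finite (s : Finset (Γ × ℚ × ℚ)) : (dom s).Finite := by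
  have : dom s = Prod.fst '' (s : Set (Γ × ℚ × ℚ)) := by
    ext γ; simp [dom]
  rw [this]; exact s.finite_toSet.image _

/-- directed unions of closed sets are closed -/
theorem IsCl.iUnion {c : Finset (Γ × ℚ × ℚ) → Set Γ} {J : Type*} [Nonempty J] {Z : J → Set Γ}
    (hd : Directed (· ⊆ ·) Z) (h : ∀ j, IsCl c (Z j)) : IsCl c (⋃ j, Z j) := by
  intro s hs
  have key : ∀ t : Set Γ, t.Finite → t ⊆ ⋃ j, Z j → ∃ j, t ⊆ Z j := by
    intro t ht
    induction t, ht using Set.Finite.induction_on with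
    | empty => intro _; exact ⟨Classical.arbitrary J, empty_subset _⟩
    | insert _ _ ih =>
      intro h2
      obtain ⟨j, hj⟩ := ih ((subset_insert _ _).trans h2)
      obtain ⟨k, hk⟩ := mem_iUnion.1 (h2 (mem_insert _ _))
      obtain ⟨l, hl1, hl2⟩ := hd j k
      exact ⟨l, insert_subset (hl2 hk) (hj.trans hl1)⟩
  obtain ⟨j, hj⟩ := key _ (dom_finite s) hs
  exact (h j s hj).trans (subset_iUnion _ j)

theorem mk_cl_lt {c : Finset (Γ × ℚ × ℚ) → Set Γ} {κ : Cardinal.{u}} (hκ : κ.IsRegular)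
    (hκ0 : ℵ₀ < κ) (hc : ∀ s, #(c s) < κ) {Z : Set Γ} (hZ : #Z < κ) : #(cl c Z) < κ := by
  classical
  let stp : Set Γ → Set Γ := fun Z => Z ∪ ⋃ s : {s : Finset (Γ × ℚ × ℚ) | dom s ⊆ Z}, c s.1
  let A : ℕ → Set Γ := fun n => stp^[n] Z
  have hA0 : A 0 = Z := rfl
  have hAs : ∀ n, A (n + 1) = A n ∪ ⋃ s : {s : Finset (Γ × ℚ × ℚ) | dom s ⊆ A n}, c s.1 := by
    intro n
    show stp^[n + 1] Z = _
    rw [Function.iterate_succ_apply']
  have hA : ∀ n, #(A n) < κ := by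
    intro n
    induction n with
    | zero => exact hZ
    | succ n ih =>
      rw [hAs]
      refine (mk_union_le _ _).trans_lt (add_lt_of_lt hκ.aleph0_le ih ?_)
      have h1 : #{s : Finset (Γ × ℚ × ℚ) | dom s ⊆ A n} < κ :=
        (mk_dom_le _).trans_lt (max_lt ih hκ0)
      exact (card_iUnion_lt_iff_forall_of_isRegular hκ h1).2 (fun s => hc s.1)
  have hmono : Monotone A := monotone_nat_of_le_succ fun n => by
    rw [hAs]; exact subset_union_left
  have hcl : cl c Z ⊆ ⋃ n, A n := by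
    apply cl_min
    · exact subset_iUnion A 0
    · intro s hs
      have : ∃ n, dom s ⊆ A n := by
        have key : ∀ t : Set Γ, t.Finite → t ⊆ ⋃ j, A j → ∃ j, t ⊆ A j := by
          intro t ht
          induction t, ht using Set.Finite.induction_on with
          | empty => intro _; exact ⟨0, empty_subset _⟩
          | insert _ _ ih =>
            intro h2
            obtain ⟨j, hj⟩ := ih ((subset_insert _ _).trans h2)
            obtain ⟨k, hk⟩ := mem_iUnion.1 (h2 (mem_insert _ _))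
            exact ⟨max j k, insert_subset (hmono (le_max_right _ _) hk)
              (hj.trans (hmono (le_max_left _ _)))⟩
        exact key _ (dom_finite s) hs
      obtain ⟨n, hn⟩ := this
      refine subset_iUnion_of_subset (n + 1) ?_
      rw [hAs]
      refine subset_union_of_subset_right ?_ _
      exact subset_iUnion (fun s : {s : Finset (Γ × ℚ × ℚ) | dom s ⊆ A n} => c s.1) ⟨s, hn⟩
  refine (mk_le_mk_of_subset hcl).trans_lt ?_
  have h2 : (⋃ n, A n) = ⋃ n : ULift.{u} ℕ, A n.down := by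
    ext γ
    simp only [mem_iUnion]
    exact ⟨fun ⟨n, hn⟩ => ⟨⟨n⟩, hn⟩, fun ⟨n, hn⟩ => ⟨n.down, hn⟩⟩
  rw [h2]
  refine (card_iUnion_lt_iff_forall_of_isRegular (t := fun n : ULift.{u} ℕ => A n.down) hκ
    ?_).2 (fun n => hA n.down)
  simpa using hκ0

end ClSec

end Run7.h123
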