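import Pool.Agent.Run7.h123.Germ

open Set Topology Filter Cardinal

namespace Run7.h123

universe u

set_option linter.unusedSectionVars false

section CorsonSec

variable {X : Type u} [TopologicalSpace X] {Γ : Type u} (φ : X → Γ → ℝ)

/-- an embedding into a `Σ`-product of lines -/
structure Cors (φ : X → Γ → ℝ) : Prop where
  emb : IsEmbedding φ
  ctb : ∀ x, {γ | φ x γ ≠ 0}.Countable

def supp (x : X) : Set Γ := {γ | φ x γ ≠ 0}

def Supp (A : Set X) : Set Γ := {γ | ∃ x ∈ A, φ x γ ≠ 0}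

def XG (Z : Set Γ) : Set X := {x | supp φ x ⊆ Z}

def box (s : Finset (Γ × ℚ × ℚ)) : Set X :=
  {x | ∀ c ∈ s, (c.2.1 : ℝ) ≤ φ x c.1 ∧ φ x c.1 ≤ (c.2.2 : ℝ)}

def obox (s : Finset (Γ × ℚ × ℚ)) : Set X :=
  {x | ∀ c ∈ s, (c.2.1 : ℝ) < φ x c.1 ∧ φ x c.1 < (c.2.2 : ℝ)}

def dom (s : Finset (Γ × ℚ × ℚ)) : Set Γ := {γ | ∃ c ∈ s, c.1 = γ}

variable {φ}

theorem Supp_subset_iff {A : Set X} {Z : Set Γ} : Supp φ A ⊆ Z ↔ A ⊆ XG φ Z := by
  constructor
  · intro h x hx γ hγ; exact h ⟨x, hx, hγ⟩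
  · rintro h γ ⟨x, hx, hγ⟩; exact h hx hγ

theorem Supp_mono {A B : Set X} (h : A ⊆ B) : Supp φ A ⊆ Supp φ B := by
  rintro γ ⟨x, hx, hγ⟩; exact ⟨x, h hx, hγ⟩

theorem XG_mono {Z Z' : Set Γ} (h : Z ⊆ Z') : XG φ Z ⊆ XG φ Z' := fun _ hx => hx.trans h

theorem subset_XG_Supp (A : Set X) : A ⊆ XG φ (Supp φ A) := Supp_subset_iff.1 Subset.rfl

theorem Cors.continuous_apply (hφ : Cors φ) (γ : Γ) : Continuous (fun x => φ x γ) :=
  (_root_.continuous_apply γ).comp hφ.emb.continuous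

theorem isClosed_XG (hφ : Cors φ) (Z : Set Γ) : IsClosed (XG φ Z) := by
  have : XG φ Z = ⋂ γ ∈ Zᶜ, {x | φ x γ = 0} := by
    ext x
    simp only [XG, supp, mem_ofPred_eq, mem_iInter, mem_compl_iff]
    constructor
    · intro h γ hγ
      by_contra hne
      exact hγ (h hne)
    · intro h γ hγ
      by_contra hne
      exact hγ (h γ hne)
  rw [this]
  exact isClosed_biInter fun γ _ => isClosed_eq (hφ.continuous_apply γ) continuous_const

theorem Supp_closure (hφ : Cors φ) (A : Set X) : Supp φ (closure A) ⊆ Supp φ A := by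
  rw [Supp_subset_iff]
  exact (isClosed_XG hφ _).closure_subset_iff.2 (subset_XG_Supp A)

theorem isClosed_box (hφ : Cors φ) (s : Finset (Γ × ℚ × ℚ)) : IsClosed (box φ s) := by
  have : box φ s = ⋂ c ∈ s, {x | (c.2.1 : ℝ) ≤ φ x c.1} ∩ {x | φ x c.1 ≤ (c.2.2 : ℝ)} := by
    ext x; simp [box]
  rw [this]
  refine isClosed_biInter fun c _ => ?_
  exact (isClosed_le continuous_const (hφ.continuous_apply _)).inter
    (isClosed_le (hφ.continuous_apply _) continuous_const)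

theorem isOpen_obox (hφ : Cors φ) (s : Finset (Γ × ℚ × ℚ)) : IsOpen (obox φ s) := by
  have : obox φ s = ⋂ c ∈ s, {x | (c.2.1 : ℝ) < φ x c.1} ∩ {x | φ x c.1 < (c.2.2 : ℝ)} := by
    ext x; simp [obox]
  rw [this]
  refine isOpen_biInter_finset fun c _ => ?_
  exact (isOpen_lt continuous_const (hφ.continuous_apply _)).inter
    (isOpen_lt (hφ.continuous_apply _) continuous_const)

theorem obox_subset_box (s : Finset (Γ × ℚ × ℚ)) : obox φ s ⊆ box φ s :=
  fun _ hx c hc => ⟨(hx c hc).1.le, (hx c hc).2.le⟩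

theorem exists_box (hφ : Cors φ) {x : X} {G : Set X} (hG : G ∈ 𝓝 x) :
    ∃ s, x ∈ obox φ s ∧ box φ s ⊆ G := by
  classical
  rw [hφ.emb.isInducing.nhds_eq_comap, mem_comap] at hG
  obtain ⟨O, hO, hOG⟩ := hG
  rw [nhds_pi, Filter.mem_pi'] at hO
  obtain ⟨I, t, ht, hIt⟩ := hO
  have h1 : ∀ i, ∃ p q : ℚ, (p : ℝ) < φ x i ∧ φ x i < (q : ℝ) ∧ Icc (p : ℝ) q ⊆ t i := by
    intro i
    obtain ⟨l, r, ⟨hl, hr⟩, hlr⟩ := mem_nhds_iff_exists_Ioo_subset.1 (ht i)
    obtain ⟨p, hp1, hp2⟩ := exists_rat_btwn hl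
    obtain ⟨q, hq1, hq2⟩ := exists_rat_btwn hr
    refine ⟨p, q, hp2, hq1, ?_⟩
    intro z hz
    exact hlr ⟨hp1.trans_le hz.1, hz.2.trans_lt hq2⟩
  choose p q hp hq hpq using h1
  refine ⟨I.image (fun i => (i, p i, q i)), ?_, ?_⟩
  · intro c hc
    obtain ⟨i, _, rfl⟩ := Finset.mem_image.1 hc
    exact ⟨hp i, hq i⟩
  · intro z hz
    apply hOG
    apply hIt
    intro i hi
    have := hz (i, p i, q i) (Finset.mem_image.2 ⟨i, hi, rfl⟩)
    exact hpq i ⟨this.1, this.2⟩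

/-- ideals of sets -/
structure IsIdl (𝓘 : Set (Set X)) : Prop where
  mono : ∀ A B, A ⊆ B → B ∈ 𝓘 → A ∈ 𝓘
  union : ∀ A B, A ∈ 𝓘 → B ∈ 𝓘 → A ∪ B ∈ 𝓘
  empty : ∅ ∈ 𝓘

theorem IsIdl.biUnion {𝓘 : Set (Set X)} (h : IsIdl 𝓘) {ι : Type*} (t : Finset ι)
    (f : ι → Set X) (hf : ∀ i ∈ t, f i ∈ 𝓘) : (⋃ i ∈ t, f i) ∈ 𝓘 := by
  classical
  induction t using Finset.induction_on with
  | empty => simpa using h.empty
  | insert a t _ ih =>
    rw [Finset.set_biUnion_insert]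
    exact h.union _ _ (hf a (Finset.mem_insert_self a t))
      (ih fun i hi => hf i (Finset.mem_insert_of_mem hi))

/-- the closing-off lemma for a local smallness notion -/
theorem exists_c0 [CompactSpace X] (hφ : Cors φ) {𝓘 : Set (Set X)} (h𝓘 : IsIdl 𝓘) :
    ∃ c₀ : Finset (Γ × ℚ × ℚ) → Set Γ, (∀ s, (c₀ s).Countable) ∧
      ∀ Z : Set Γ, (∀ s, dom s ⊆ Z → c₀ s ⊆ Z) → ∀ x, supp φ x ⊆ Z →
        (∃ s, x ∈ obox φ s ∧ box φ s ∈ 𝓘) → ∃ s, dom s ⊆ Z ∧ x ∈ obox φ s ∧ box φ s ∈ 𝓘 := by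
  classical
  let 𝓑 : Finset (Γ × ℚ × ℚ) → Set (Finset (Γ × ℚ × ℚ)) := fun sa =>
    {t | (∀ c ∈ t, c.2.1 < 0 ∧ 0 < c.2.2) ∧ box φ sa ∩ obox φ t ∈ 𝓘}
  have hmax : ∀ sa, ∃ 𝓓 : Set (Finset (Γ × ℚ × ℚ)),
      Maximal (· ∈ {𝓓 : Set (Finset (Γ × ℚ × ℚ)) | 𝓓 ⊆ 𝓑 sa ∧ 𝓓.PairwiseDisjoint dom}) 𝓓 := by
    intro sa
    apply zorn_subset
    intro c hc hchain
    refine ⟨⋃₀ c, ⟨sUnion_subset fun t ht => (hc ht).1, ?_⟩, fun t ht => subset_sUnion_of_mem ht⟩
    rw [Set.pairwiseDisjoint_sUnion hchain.directedOn]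
    exact fun t ht => (hc ht).2
  choose 𝓓 h𝓓 using hmax
  refine ⟨fun sa => if (𝓓 sa).Countable then ⋃ t ∈ 𝓓 sa, dom t else ∅, ?_, ?_⟩
  · intro sa
    by_cases h : (𝓓 sa).Countable
    · simp only [h, if_true]
      refine h.biUnion fun t _ => ?_
      have : dom t = (t.image Prod.fst : Finset Γ) := by
        ext γ; simp [dom]
      rw [this]; exact Finset.countable_toSet _
    · simp only [h, if_false]; exact countable_empty
  · intro Z hZ x hxZ ⟨s, hxs, hs⟩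
    set sa := s.filter (fun c => c.1 ∈ Z) with hsa
    set t := s.filter (fun c => c.1 ∉ Z) with ht
    have hdom : dom sa ⊆ Z := by
      rintro γ ⟨c, hc, rfl⟩
      exact (Finset.mem_filter.1 hc).2
    have hxsa : x ∈ obox φ sa := fun c hc => hxs c (Finset.mem_filter.1 hc).1
    have hx0 : ∀ γ, γ ∉ Z → φ x γ = 0 := by
      intro γ hγ
      by_contra hne
      exact hγ (hxZ hne)
    have htB : t ∈ 𝓑 sa := by
      refine ⟨?_, ?_⟩
      · intro c hc
        obtain ⟨hc1, hc2⟩ := Finset.mem_filter.1 hc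
        have := hxs c hc1
        rw [hx0 _ hc2] at this
        exact_mod_cast this
      · apply h𝓘.mono _ _ _ hs
        rintro z ⟨hz1, hz2⟩ c hc
        by_cases hcZ : c.1 ∈ Z
        · exact hz1 c (Finset.mem_filter.2 ⟨hc, hcZ⟩)
        · have := hz2 c (Finset.mem_filter.2 ⟨hc, hcZ⟩)
          exact ⟨this.1.le, this.2.le⟩
    refine ⟨sa, hdom, hxsa, ?_⟩
    by_cases hcount : (𝓓 sa).Countable
    · have hsub : (⋃ t ∈ 𝓓 sa, dom t) ⊆ Z := by
        have := hZ sa hdom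
        simp only [hcount, if_true] at this
        exact this
      have hdisj : ∀ t' ∈ 𝓓 sa, Disjoint (dom t) (dom t') := by
        intro t' ht'
        rw [Set.disjoint_left]
        rintro γ ⟨c, hc, rfl⟩ hγ'
        exact (Finset.mem_filter.1 hc).2 (hsub (mem_iUnion₂.2 ⟨t', ht', hγ'⟩))
      have hmem : t ∈ 𝓓 sa := by
        have h1 : insert t (𝓓 sa) ∈ {𝓓 : Set (Finset (Γ × ℚ × ℚ)) | 𝓓 ⊆ 𝓑 sa ∧
            𝓓.PairwiseDisjoint dom} := by
          refine ⟨insert_subset htB (h𝓓 sa).prop.1, ?_⟩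
          refine (h𝓓 sa).prop.2.insert ?_
          intro t' ht' _
          exact hdisj t' ht'
        exact (h𝓓 sa).le_of_ge h1 (subset_insert _ _) (mem_insert _ _)
      have hempty : t = ∅ := by
        rw [Finset.eq_empty_iff_forall_notMem]
        intro c hc
        have h1 : c.1 ∈ dom t := ⟨c, hc, rfl⟩
        exact (Finset.mem_filter.1 hc).2 (hsub (mem_iUnion₂.2 ⟨t, hmem, h1⟩))
      have h2 := htB.2
      rw [hempty] at h2
      have h3 : obox φ (∅ : Finset (Γ × ℚ × ℚ)) = Set.univ := by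
        ext z; simp [obox]
      rwa [h3, inter_univ] at h2
    · have hcov : ∀ x' ∈ box φ sa, ∃ t' ∈ 𝓓 sa, x' ∈ obox φ t' := by
        intro x' _
        by_contra hcon
        push Not at hcon
        apply hcount
        have h1 : ∀ t' ∈ 𝓓 sa, ∃ γ, γ ∈ dom t' ∧ γ ∈ supp φ x' := by
          intro t' ht'
          by_contra hcon2
          push Not at hcon2
          apply hcon t' ht'
          intro c hc
          have h2 : φ x' c.1 = 0 := by
            by_contra hne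
            exact hcon2 c.1 ⟨c, hc, rfl⟩ hne
          have h3 := ((h𝓓 sa).prop.1 ht').1 c hc
          rw [h2]
          exact_mod_cast h3
        have hΓ : Nonempty Γ := by
          by_contra hΓ
          apply hcount
          have : 𝓓 sa = ∅ := by
            rw [eq_empty_iff_forall_notMem]
            intro t' ht'
            exact hΓ ⟨(h1 t' ht').choose⟩
          rw [this]; exact countable_empty
        choose! g hg1 hg2 using h1
        refine MapsTo.countable_of_injOn (f := g) (t := supp φ x') (fun t' ht' => hg2 t' ht') ?_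
          (hφ.ctb x')
        intro t₁ ht₁ t₂ ht₂ hgg
        by_contra hne
        have := (h𝓓 sa).prop.2 ht₁ ht₂ hne
        exact Set.disjoint_left.1 this (hg1 t₁ ht₁) (hgg ▸ hg1 t₂ ht₂)
      choose! τ hτ1 hτ2 using hcov
      obtain ⟨T, hT1, hT2⟩ := (isClosed_box hφ sa).isCompact.elim_nhds_subcover
        (fun x' => obox φ (τ x')) (fun x' hx' => (isOpen_obox hφ _).mem_nhds (hτ2 x' hx'))
      apply h𝓘.mono _ _ _ (h𝓘.biUnion T (fun x' => box φ sa ∩ obox φ (τ x'))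
        (fun x' hx' => ((h𝓓 sa).prop.1 (hτ1 x' (hT1 x' hx'))).2))
      intro z hz
      obtain ⟨x', hx', hz'⟩ := mem_iUnion₂.1 (hT2 hz)
      exact mem_iUnion₂.2 ⟨x', hx', hz, hz'⟩

end CorsonSec

end Run7.h123
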