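import Pool.Agent.Run7.h123.Bridge

open Set Topology Filter Cardinal TopologicalSpace

namespace Run7.h123

universe u

/-- `cov(M)`: the least cardinality of a family of meagre sets covering the Cantor space -/
noncomputable def covM : Cardinal.{0} :=
  sInf {κ | ∃ 𝒩 : Set (Set (ℕ → Bool)), (∀ N ∈ 𝒩, IsMeagre N) ∧ ⋃₀ 𝒩 = Set.univ ∧ #𝒩 = κ}

theorem exists_notMem_of_covM {ι : Type u} (N : ι → Set (ℕ → Bool)) (hN : ∀ i, IsMeagre (N i))
    (hι : #ι < Cardinal.lift.{u, 0} covM) : ∃ b, ∀ i, b ∉ N i := by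
  by_contra hcon
  push Not at hcon
  have h1 : covM ≤ #(range N) := by
    apply csInf_le'
    refine ⟨range N, by rintro _ ⟨i, rfl⟩; exact hN i, ?_, rfl⟩
    ext b
    simp only [mem_univ, iff_true, mem_sUnion]
    obtain ⟨i, hi⟩ := hcon b
    exact ⟨N i, ⟨i, rfl⟩, hi⟩
  have h2 : Cardinal.lift.{u, 0} #(range N) ≤ Cardinal.lift.{0, u} #ι := mk_range_le_lift
  have h3 : Cardinal.lift.{u, 0} covM ≤ Cardinal.lift.{u, 0} #(range N) := lift_le.2 h1
  rw [lift_id'] at h2
  exact absurd (h3.trans h2) (not_le.2 hι)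

theorem not_isOpen_singleton_cantor (b : ℕ → Bool) : ¬ IsOpen ({b} : Set (ℕ → Bool)) := by
  intro h
  obtain ⟨t, u, h1, h2⟩ := isOpen_pi_iff.1 h b rfl
  obtain ⟨n, hn⟩ := Infinite.exists_notMem_finset t
  have h3 : Function.update b n (!b n) ∈ ({b} : Set (ℕ → Bool)) := by
    apply h2
    intro i hi
    have hne : i ≠ n := fun h => hn (h ▸ hi)
    rw [Function.update_of_ne hne]
    exact (h1 i hi).2
  have h4 := congrFun (mem_singleton_iff.1 h3) n
  simp at h4

theorem nowhereDense_singleton_cantor (b : ℕ → Bool) : IsNowhereDense ({b} : Set (ℕ → Bool)) := by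
  unfold IsNowhereDense
  rw [closure_singleton]
  by_contra hne
  obtain ⟨c, hc⟩ := nonempty_iff_ne_empty.2 hne
  have hcb : c = b := mem_singleton_iff.1 (interior_subset hc)
  apply not_isOpen_singleton_cantor b
  have : interior ({b} : Set (ℕ → Bool)) = {b} := by
    apply Subset.antisymm interior_subset
    intro z hz
    rw [mem_singleton_iff.1 hz]; rw [hcb] at hc; exact hc
  rw [← this]; exact isOpen_interior

theorem covM_le_continuum : covM ≤ 𝔠 := by
  have h1 : covM ≤ #(range (fun b : ℕ → Bool => ({b} : Set (ℕ → Bool)))) := by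
    apply csInf_le'
    refine ⟨_, ?_, ?_, rfl⟩
    · rintro _ ⟨b, rfl⟩
      exact (nowhereDense_singleton_cantor b).isMeagre
    · ext b
      simp
  refine h1.trans (mk_range_le.trans ?_)
  simp

/-- no countable family of meagre sets covers -/
theorem exists_notMem_of_countable {ι : Type u} [Countable ι] (N : ι → Set (ℕ → Bool))
    (hN : ∀ i, IsMeagre (N i)) : ∃ b, ∀ i, b ∉ N i := by
  have h1 : IsMeagre (⋃ i, N i) := isMeagre_iUnion hN
  obtain ⟨b, hb⟩ := (dense_of_mem_residual h1).nonempty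
  exact ⟨b, fun i hi => hb (mem_iUnion.2 ⟨i, hi⟩)⟩

theorem exists_min_surj {D : Type*} {A : Type*} [TopologicalSpace D] [TopologicalSpace A]
    [T1Space A] [CompactSpace D] {π : D → A} (hc : Continuous π) (hs : π.Surjective) :
    ∃ E : Set D, IsClosed E ∧ (∀ b, ∃ p ∈ E, π p = b) ∧
      ∀ E₀ : Set D, E₀ ⊆ E → IsClosed E₀ → (∀ b, ∃ p ∈ E₀, π p = b) → E₀ = E := by
  let S : Set (Set D) := {E | IsClosed E ∧ ∀ b, ∃ p ∈ E, π p = b}
  have hz : ∀ c ⊆ S, IsChain (· ⊆ ·) c → ∃ s ∈ S, ∀ s' ∈ c, s ⊆ s' := by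
    intro c hcS hch
    rcases c.eq_empty_or_nonempty with rfl | hne
    · refine ⟨Set.univ, ⟨isClosed_univ, fun b => ?_⟩, by simp⟩
      obtain ⟨p, hp⟩ := hs b
      exact ⟨p, trivial, hp⟩
    · refine ⟨⋂₀ c, ⟨isClosed_sInter fun s hs => (hcS hs).1, ?_⟩, fun s hs => sInter_subset_of_mem hs⟩
      intro b
      have : Nonempty c := hne.to_subtype
      have h1 : (⋂ s : c, ((s : Set D) ∩ π ⁻¹' {b})).Nonempty := by
        apply IsCompact.nonempty_iInter_of_directed_nonempty_isCompact_isClosed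
        · rintro ⟨s, hs⟩ ⟨t, ht⟩
          rcases eq_or_ne s t with h | h
          · subst h
            exact ⟨⟨s, hs⟩, Subset.rfl, Subset.rfl⟩
          · rcases hch hs ht h with h' | h'
            · exact ⟨⟨s, hs⟩, Subset.rfl, inter_subset_inter_left _ h'⟩
            · exact ⟨⟨t, ht⟩, inter_subset_inter_left _ h', Subset.rfl⟩
        · rintro ⟨s, hs⟩
          obtain ⟨p, hp, hpb⟩ := (hcS hs).2 b
          exact ⟨p, hp, hpb⟩
        · rintro ⟨s, hs⟩
          exact ((hcS hs).1.inter (isClosed_singleton.preimage hc)).isCompact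
        · rintro ⟨s, hs⟩
          exact (hcS hs).1.inter (isClosed_singleton.preimage hc)
      obtain ⟨p, hp⟩ := h1
      rw [mem_iInter] at hp
      refine ⟨p, fun s hs => (hp ⟨s, hs⟩).1, ?_⟩
      obtain ⟨s, hs⟩ := hne
      exact (hp ⟨s, hs⟩).2
  obtain ⟨E, hE⟩ := zorn_superset S hz
  refine ⟨E, hE.prop.1, hE.prop.2, fun E₀ h0 hcl hsurj => ?_⟩
  exact Subset.antisymm h0 (hE.le_of_le ⟨hcl, hsurj⟩ h0)

section Scheme

variable {X : Type u} [TopologicalSpace X]

theorem exists_scheme [CompactSpace X] [T2Space X] {Q : Set X} (hQ : Perfect Q)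
    (hne : Q.Nonempty) :
    ∃ C : List Bool → Set X, C [] = Q ∧ (∀ s, IsClosed (C s) ∧ (C s).Nonempty) ∧
      (∀ s b, C (b :: s) ⊆ C s) ∧ ∀ s, Disjoint (C (true :: s)) (C (false :: s)) := by
  classical
  have h1 : ∀ A : {A : Set X // Perfect A ∧ A.Nonempty},
      ∃ B : Bool → {A : Set X // Perfect A ∧ A.Nonempty},
        (∀ b, (B b : Set X) ⊆ A) ∧ Disjoint (B true : Set X) (B false) := by
    rintro ⟨A, hA, hAne⟩
    obtain ⟨C₀, C₁, ⟨h0, h0n, h0s⟩, ⟨h1, h1n, h1s⟩, hd⟩ := hA.splitting hAne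
    refine ⟨fun b => if b then ⟨C₀, h0, h0n⟩ else ⟨C₁, h1, h1n⟩, ?_, ?_⟩
    · intro b
      cases b <;> simp [h0s, h1s]
    · simpa using hd
  choose B hB hBd using h1
  let C : List Bool → {A : Set X // Perfect A ∧ A.Nonempty} := fun s =>
    s.rec ⟨Q, hQ, hne⟩ (fun b _ A => B A b)
  have hC2 : ∀ s, IsClosed (C s).1 ∧ (C s).1.Nonempty := by
    intro s
    obtain ⟨h1, h2⟩ := (C s).2
    exact ⟨h1.closed, h2⟩
  refine ⟨fun s => (C s).1, rfl, hC2, ?_, ?_⟩
  · intro s b
    exact hB (C s) b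
  · intro s
    exact hBd (C s)

/-- the graph of the scheme -/
def gr (C : List Bool → Set X) : Set ((ℕ → Bool) × X) := {p | ∀ n, p.2 ∈ C (PiNat.res p.1 n)}

theorem isClosed_gr {C : List Bool → Set X} (hC : ∀ s, IsClosed (C s)) : IsClosed (gr C) := by
  have : gr C = ⋂ n, {p | p.2 ∈ C (PiNat.res p.1 n)} := by
    ext p; simp [gr]
  rw [this]
  refine isClosed_iInter fun n => ?_
  rw [← isOpen_compl_iff, isOpen_prod_iff]
  intro a x h
  refine ⟨PiNat.cylinder a n, (C (PiNat.res a n))ᶜ, PiNat.isOpen_cylinder _ _ _,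
    (hC _).isOpen_compl, PiNat.self_mem_cylinder _ _, h, ?_⟩
  rintro ⟨b, y⟩ ⟨hb, hy⟩
  have h2 : PiNat.res b n = PiNat.res a n := PiNat.res_eq_res.2 (fun m hm => hb m hm)
  intro h3
  apply hy
  have h4 : y ∈ C (PiNat.res b n) := h3
  rwa [h2] at h4

omit [TopologicalSpace X] in
theorem gr_inj {C : List Bool → Set X} 
    (hd : ∀ s, Disjoint (C (true :: s)) (C (false :: s))) {p q : (ℕ → Bool) × X}
    (hp : p ∈ gr C) (hq : q ∈ gr C) (h : p.2 = q.2) : p = q := by
  have h1 : ∀ n, PiNat.res p.1 n = PiNat.res q.1 n := by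
    intro n
    induction n with
    | zero => rfl
    | succ n ih =>
      rw [PiNat.res_succ, PiNat.res_succ, ih]
      congr 1
      have hpn := hp (n + 1)
      have hqn := hq (n + 1)
      rw [PiNat.res_succ] at hpn hqn
      rw [ih] at hpn
      rw [← h] at hqn
      have hdn := hd (PiNat.res q.1 n)
      rw [Set.disjoint_left] at hdn
      cases hb : p.1 n <;> cases hc : q.1 n
      · rfl
      · rw [hb] at hpn; rw [hc] at hqn
        exact absurd hpn (hdn hqn)
      · rw [hb] at hpn; rw [hc] at hqn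
        exact absurd hqn (hdn hpn)
      · rfl
  refine Prod.ext ?_ h
  ext n
  have := PiNat.res_eq_res.1 (h1 (n + 1)) (Nat.lt_succ_self n)
  rw [this]

theorem gr_surj [CompactSpace X] {C : List Bool → Set X}
    (hC : ∀ s, IsClosed (C s) ∧ (C s).Nonempty) (hm : ∀ s b, C (b :: s) ⊆ C s) (b : ℕ → Bool) :
    ∃ x, (b, x) ∈ gr C := by
  have h1 : (⋂ n, C (PiNat.res b n)).Nonempty := by
    apply IsCompact.nonempty_iInter_of_sequence_nonempty_isCompact_isClosed
    · intro n
      rw [PiNat.res_succ]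
      exact hm _ _
    · exact fun n => (hC _).2
    · exact (hC _).1.isCompact
    · exact fun n => (hC _).1
  obtain ⟨x, hx⟩ := h1
  exact ⟨x, fun n => mem_iInter.1 hx n⟩

/-- a compact Hausdorff space all of whose base is smaller than `cov(M)` has, in every nonempty
perfect set, a nonempty perfect set with a relative `G_δ` point. -/
theorem exists_gδ_of_covM [CompactSpace X] [T2Space X] {𝓑 : Set (Set X)}
    (h𝓑 : IsTopologicalBasis 𝓑) (hw : #𝓑 < Cardinal.lift.{u, 0} covM) {Q : Set X}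
    (hQ : Perfect Q) (hne : Q.Nonempty) :
    ∃ Q' : Set X, Q' ⊆ Q ∧ Perfect Q' ∧ ∃ x ∈ Q', ∃ G : Set X, IsGδ G ∧ Q' ∩ G = {x} := by
  classical
  obtain ⟨C, hC0, hC, hm, hd⟩ := exists_scheme hQ hne
  have hgr := isClosed_gr (fun s => (hC s).1)
  have : CompactSpace (gr C) := isCompact_iff_compactSpace.1 hgr.isCompact
  let π : gr C → (ℕ → Bool) := fun p => p.1.1
  have hπ : Continuous π := continuous_fst.comp continuous_subtype_val
  have hπs : π.Surjective := fun b => by
    obtain ⟨x, hx⟩ := gr_surj hC hm b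
    exact ⟨⟨(b, x), hx⟩, rfl⟩
  obtain ⟨E, hEcl, hEs, hEm⟩ := exists_min_surj hπ hπs
  have hEc : CompactSpace E := isCompact_iff_compactSpace.1 hEcl.isCompact
  let g : E → X := fun p => p.1.1.2
  have hg : Continuous g :=
    continuous_snd.comp (continuous_subtype_val.comp continuous_subtype_val)
  have hginj : Function.Injective g := fun p q h =>
    Subtype.ext (Subtype.ext (gr_inj hd p.1.2 q.1.2 h))
  let f : E → (ℕ → Bool) := fun p => p.1.1.1
  have hf : Continuous f := hπ.comp continuous_subtype_val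
  have hfs : ∀ b, ∃ p, f p = b := by
    intro b
    obtain ⟨p, hp, hpb⟩ := hEs b
    exact ⟨⟨p, hp⟩, hpb⟩
  have hEm' : ∀ E₀ : Set E, IsClosed E₀ → (∀ b, ∃ p ∈ E₀, f p = b) → E₀ = Set.univ := by
    intro E₀ hE₀ hs
    have h1 := hEm (Subtype.val '' E₀) (by rintro _ ⟨p, _, rfl⟩; exact p.2)
      (hEcl.isClosedMap_subtype_val _ hE₀) (by
        intro b
        obtain ⟨p, hp, hpb⟩ := hs b
        exact ⟨p, ⟨p, hp, rfl⟩, hpb⟩)
    rw [eq_univ_iff_forall]
    intro p
    have h2 : (p : gr C) ∈ Subtype.val '' E₀ := by rw [h1]; exact p.2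
    obtain ⟨q, hq, hqp⟩ := h2
    rwa [← Subtype.ext hqp]
  have hgc : ∀ A : Set E, IsClosed A → IsClosed (g '' A) := fun A hA =>
    (hA.isCompact.image hg).isClosed
  -- the nowhere dense sets
  let N : 𝓑 × 𝓑 → Set (ℕ → Bool) := fun p =>
    f '' (g ⁻¹' closure (p.1 : Set X)) ∩ f '' (g ⁻¹' closure (p.2 : Set X))
  have hN : ∀ p : 𝓑 × 𝓑, Disjoint (closure (p.1 : Set X)) (closure (p.2 : Set X)) →
      IsNowhereDense (N p) := by
    intro p hp
    have hcl : IsClosed (N p) := by
      have h1 : ∀ A : Set X, IsClosed A → IsClosed (f '' (g ⁻¹' A)) := fun A hA =>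
        ((hA.preimage hg).isCompact.image hf).isClosed
      exact (h1 _ isClosed_closure).inter (h1 _ isClosed_closure)
    unfold IsNowhereDense
    rw [hcl.closure_eq]
    by_contra hne
    obtain ⟨b, hb⟩ := nonempty_iff_ne_empty.2 hne
    set W := interior (N p) with hW
    have hWo : IsOpen W := isOpen_interior
    have key : ∀ A : Set X, IsClosed A → W ⊆ f '' (g ⁻¹' A) → f ⁻¹' W ⊆ g ⁻¹' A := by
      intro A hA hWA
      have h1 : IsClosed ((f ⁻¹' W)ᶜ ∪ g ⁻¹' A) :=
        ((hWo.preimage hf).isClosed_compl).union (hA.preimage hg)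
      have h2 := hEm' _ h1 (by
        intro c
        by_cases hc : c ∈ W
        · obtain ⟨q, hq, hqc⟩ := hWA hc
          exact ⟨q, Or.inr hq, hqc⟩
        · obtain ⟨q, hqc⟩ := hfs c
          refine ⟨q, Or.inl ?_, hqc⟩
          intro h3
          rw [mem_preimage, hqc] at h3
          exact hc h3)
      intro q hq
      have : q ∈ (f ⁻¹' W)ᶜ ∪ g ⁻¹' A := by rw [h2]; trivial
      rcases this with h | h
      · exact absurd hq h
      · exact h
    obtain ⟨q, hqb⟩ := hfs b
    have hqW : q ∈ f ⁻¹' W := by rw [mem_preimage, hqb]; exact hb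
    have h1 := key _ isClosed_closure (fun c hc => (interior_subset hc).1) hqW
    have h2 := key _ isClosed_closure (fun c hc => (interior_subset hc).2) hqW
    exact Set.disjoint_left.1 hp h1 h2
  -- choose a good fibre
  have hb : ∃ b : ℕ → Bool, ∀ p : 𝓑 × 𝓑,
      Disjoint (closure (p.1 : Set X)) (closure (p.2 : Set X)) → b ∉ N p := by
    let N' : 𝓑 × 𝓑 → Set (ℕ → Bool) := fun p =>
      if Disjoint (closure (p.1 : Set X)) (closure (p.2 : Set X)) then N p else ∅
    have hN' : ∀ p, IsMeagre (N' p) := by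
      intro p
      by_cases hp : Disjoint (closure (p.1 : Set X)) (closure (p.2 : Set X))
      · simp only [N', if_pos hp]; exact (hN p hp).isMeagre
      · simp only [N', if_neg hp]; exact IsMeagre.empty
    have hb' : ∃ b, ∀ p, b ∉ N' p := by
      rcases finite_or_infinite 𝓑 with h | h
      · exact exists_notMem_of_countable N' hN'
      · apply exists_notMem_of_covM N' hN'
        rw [mk_prod, lift_id, mul_eq_self (aleph0_le_mk 𝓑)]
        exact hw
    obtain ⟨b, hb⟩ := hb'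
    refine ⟨b, fun p hp h => hb p ?_⟩
    simp only [N', if_pos hp]
    exact h
  obtain ⟨b, hb⟩ := hb
  obtain ⟨p₀, hp₀⟩ := hfs b
  have huniq : ∀ q, f q = b → q = p₀ := by
    intro q hq
    by_contra hne
    have hne' : g q ≠ g p₀ := fun h => hne (hginj h)
    obtain ⟨U, hxU, hU, V, hyV, hV, hUV⟩ := exists_open_nhds_disjoint_closure hne'
    obtain ⟨B₁, hB₁, hqB, hBU⟩ := h𝓑.exists_subset_of_mem_open hxU hU
    obtain ⟨B₂, hB₂, hpB, hBV⟩ := h𝓑.exists_subset_of_mem_open hyV hV
    refine hb (⟨B₁, hB₁⟩, ⟨B₂, hB₂⟩) (hUV.mono (closure_mono hBU) (closure_mono hBV)) ?_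
    exact ⟨⟨q, subset_closure hqB, hq⟩, ⟨p₀, subset_closure hpB, hp₀⟩⟩
  refine ⟨range g, ?_, ?_, g p₀, ⟨p₀, rfl⟩,
    ⋂ n, (g '' (f ⁻¹' (PiNat.cylinder b n)ᶜ))ᶜ, ?_, ?_⟩
  · rintro _ ⟨p, rfl⟩
    have := p.1.2 0
    rw [PiNat.res_zero, hC0] at this
    exact this
  · rw [perfect_iff']
    refine ⟨?_, ?_⟩
    · rw [← image_univ]; exact hgc _ isClosed_univ
    · rw [eq_empty_iff_forall_notMem]
      rintro _ ⟨V, hV, hVx⟩
      rename_i x
      have hx : x ∈ V ∩ range g := by rw [hVx]; rfl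
      obtain ⟨hxV, ⟨p, rfl⟩⟩ := hx
      have hsing : ∀ q, g q ∈ V → q = p := by
        intro q hq
        have : g q ∈ V ∩ range g := ⟨hq, q, rfl⟩
        rw [hVx] at this
        exact hginj this
      have hcl : IsClosed ((g ⁻¹' V)ᶜ) := (hV.preimage hg).isClosed_compl
      have hne : (g ⁻¹' V)ᶜ ≠ Set.univ := by
        intro h
        have : p ∈ (g ⁻¹' V)ᶜ := by rw [h]; trivial
        exact this hxV
      have hnot : ¬ ∀ c, ∃ q ∈ (g ⁻¹' V)ᶜ, f q = c := fun h => hne (hEm' _ hcl h)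
      push Not at hnot
      obtain ⟨c, hc⟩ := hnot
      apply not_isOpen_singleton_cantor c
      have himg : ({c} : Set (ℕ → Bool)) = (f '' ((g ⁻¹' V)ᶜ))ᶜ := by
        ext c'
        simp only [mem_singleton_iff, mem_compl_iff]
        constructor
        · rintro rfl ⟨q, hq, hqc⟩
          exact hc q hq hqc
        · intro h
          obtain ⟨q, hq⟩ := hfs c'
          obtain ⟨q', hq'⟩ := hfs c
          have h1 : q = p := by
            apply hsing
            by_contra hqV
            exact h ⟨q, hqV, hq⟩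
          have h2 : q' = p := by
            apply hsing
            by_contra hqV
            exact hc q' hqV hq'
          rw [← hq, ← hq', h1, h2]
      rw [himg]
      exact ((hcl.isCompact.image hf).isClosed).isOpen_compl
  · apply IsGδ.iInter
    intro n
    apply IsOpen.isGδ
    rw [isOpen_compl_iff]
    apply hgc
    exact (((PiNat.isOpen_cylinder _ b n).isClosed_compl).preimage hf)
  · ext x
    simp only [mem_inter_iff, mem_iInter, mem_compl_iff, mem_singleton_iff]
    constructor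
    · rintro ⟨⟨q, rfl⟩, hq⟩
      rw [huniq q]
      ext n
      by_contra hne
      apply hq (n + 1)
      refine ⟨q, ?_, rfl⟩
      intro h
      exact hne (h n (Nat.lt_succ_self n))
    · rintro rfl
      refine ⟨⟨p₀, rfl⟩, ?_⟩
      rintro n ⟨q, hq, hqp⟩
      rw [hginj hqp] at hq
      apply hq
      rw [hp₀]
      exact PiNat.self_mem_cylinder _ _

end Scheme

end Run7.h123
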