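import Mathlib

set_option autoImplicit false

/-!
Nontrivial modules of small structures given by a laminar family of homogeneous sets.
-/

namespace Run7.h123.DH

/-- Six values as a symmetric function. -/
def mk4 (a b c d e f : Bool) (i j : Fin 4) : Bool :=
  match i.val, j.val with
  | 0, 1 => a | 1, 0 => a
  | 0, 2 => b | 2, 0 => b
  | 0, 3 => c | 3, 0 => c
  | 1, 2 => d | 2, 1 => d
  | 1, 3 => e | 3, 1 => e
  | 2, 3 => f | 3, 2 => f
  | _, _ => false

/-- Three values as a symmetric function. -/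
def mk3 (a b c : Bool) (i j : Fin 3) : Bool :=
  match i.val, j.val with
  | 0, 1 => a | 1, 0 => a
  | 0, 2 => b | 2, 0 => b
  | 1, 2 => c | 2, 1 => c
  | _, _ => false

/-- An induced path or a nontrivial module. -/
def Alt (n : ℕ) (q : Fin n → Fin n → Bool) : Prop :=
  (∃ a b c d : Fin n, q a b = true ∧ q b c = true ∧ q c d = true ∧ q a c = false ∧
    q b d = false ∧ q a d = false ∧ a ≠ d) ∨
  ∃ X : Finset (Fin n), 1 < X.card ∧ X.card < n ∧
    ∀ u ∈ X, ∀ v ∈ X, ∀ w, w ∉ X → q u w = q v w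

instance (n : ℕ) (q : Fin n → Fin n → Bool) : Decidable (Alt n q) := by
  unfold Alt; infer_instance

theorem alt3 : ∀ a b c : Bool, Alt 3 (mk3 a b c) := by decide +kernel

theorem alt4 : ∀ a b c d e f : Bool, Alt 4 (mk4 a b c d e f) := by decide +kernel

theorem alt_of (n : ℕ) (hn : n = 3 ∨ n = 4) (q : Fin n → Fin n → Bool)
    (hs : ∀ i j, q i j = q j i) (hi : ∀ i, q i i = false) : Alt n q := by
  rcases hn with rfl | rfl
  · have h : q = mk3 (q 0 1) (q 0 2) (q 1 2) := by
      funext i j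
      fin_cases i <;> fin_cases j <;> first | exact hi _ | rfl | exact hs _ _
    rw [h]
    exact alt3 _ _ _
  · have h : q = mk4 (q 0 1) (q 0 2) (q 0 3) (q 1 2) (q 1 3) (q 2 3) := by
      funext i j
      fin_cases i <;> fin_cases j <;> first | exact hi _ | rfl | exact hs _ _
    rw [h]
    exact alt4 _ _ _ _ _ _

variable {V : Type*}

/-- Small graphs without induced path on four vertices have a nontrivial module. -/
theorem graph_module (F : Finset V) (hF : F.card = 3 ∨ F.card = 4) (Q : V → V → Prop)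
    (hs : ∀ u ∈ F, ∀ v ∈ F, Q u v → Q v u) (hi : ∀ u ∈ F, ¬ Q u u)
    (h4 : ∀ a ∈ F, ∀ b ∈ F, ∀ c ∈ F, ∀ d ∈ F, Q a b → Q b c → Q c d → ¬ Q a c → ¬ Q b d →
      ¬ Q a d → a ≠ d → False) :
    ∃ X ⊆ F, 1 < X.card ∧ X.card < F.card ∧ ∀ u ∈ X, ∀ v ∈ X, ∀ w ∈ F, w ∉ X →
      (Q u w ↔ Q v w) := by
  classical
  let e := F.equivFin
  let g : Fin F.card → V := fun i => (e.symm i : V)
  have hg : ∀ i, g i ∈ F := fun i => (e.symm i).2
  have hinj : Function.Injective g := fun i j h => e.symm.injective (Subtype.ext h)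
  have hsurj : ∀ w ∈ F, ∃ i, g i = w := fun w hw => ⟨e ⟨w, hw⟩, by
    show ((e.symm (e ⟨w, hw⟩) : F) : V) = w
    rw [Equiv.symm_apply_apply]⟩
  let q : Fin F.card → Fin F.card → Bool := fun i j => decide (Q (g i) (g j))
  have hq : ∀ i j, q i j = true ↔ Q (g i) (g j) := fun i j => decide_eq_true_iff
  have hq' : ∀ i j, q i j = false ↔ ¬ Q (g i) (g j) := fun i j => decide_eq_false_iff_not
  rcases alt_of F.card hF q (fun i j => by
      rw [Bool.eq_iff_iff, hq, hq]
      exact ⟨hs _ (hg i) _ (hg j), hs _ (hg j) _ (hg i)⟩) (fun i => by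
      rw [hq']; exact hi _ (hg i)) with ⟨a, b, c, d, h1, h2, h3, h5, h6, h7, h8⟩ |
      ⟨X, h1, h2, h3⟩
  · exact (h4 _ (hg a) _ (hg b) _ (hg c) _ (hg d) ((hq _ _).1 h1) ((hq _ _).1 h2)
      ((hq _ _).1 h3) ((hq' _ _).1 h5) ((hq' _ _).1 h6) ((hq' _ _).1 h7)
      (fun h => h8 (hinj h))).elim
  · refine ⟨X.image g, ?_, ?_, ?_, ?_⟩
    · intro w hw
      obtain ⟨i, _, rfl⟩ := Finset.mem_image.1 hw
      exact hg i
    · rw [Finset.card_image_of_injective _ hinj]; exact h1
    · rw [Finset.card_image_of_injective _ hinj]; exact h2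
    · intro u hu v hv w hw hwX
      obtain ⟨i, hi1, rfl⟩ := Finset.mem_image.1 hu
      obtain ⟨j, hj1, rfl⟩ := Finset.mem_image.1 hv
      obtain ⟨k, rfl⟩ := hsurj w hw
      have hk : k ∉ X := fun h => hwX (Finset.mem_image_of_mem _ h)
      rw [← hq, ← hq, h3 i hi1 j hj1 k hk]

/-- The relations between two of the sets. -/
def Same (E : V → V → Prop) (A : V → Set V) (u v w : V) : Prop :=
  (A u ⊆ A w ↔ A v ⊆ A w) ∧ (A w ⊆ A u ↔ A w ⊆ A v) ∧
    ((Disjoint (A u) (A w) ∧ ∃ t ∈ A u, ∃ s ∈ A w, E t s) ↔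
      (Disjoint (A v) (A w) ∧ ∃ t ∈ A v, ∃ s ∈ A w, E t s))

theorem same_of_eq (E : V → V → Prop) (A : V → Set V) {u v : V} (w : V) (h : A u = A v) :
    Same E A u v w := by
  unfold Same
  rw [h]
  exact ⟨Iff.rfl, Iff.rfl, Iff.rfl⟩

theorem family_module (E : V → V → Prop) (hE : ∀ u v, E u v → E v u) (hE' : ∀ u, ¬ E u u)
    (F : Finset V) (hF : F.card = 3 ∨ F.card = 4)
    (A : V → Set V) (hne : ∀ u ∈ F, (A u).Nonempty)
    (hnd : ∀ u ∈ F, ∀ w ∈ F, u ≠ w → A u ⊆ A w ∨ A w ⊆ A u ∨ Disjoint (A u) (A w))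
    (hhom : ∀ u ∈ F, ∀ w ∈ F, u ≠ w → Disjoint (A u) (A w) → ∀ t ∈ A w, ∀ a ∈ A u, ∀ b ∈ A u,
      E t a → E t b)
    (hp4 : ∀ x ∈ F, ∀ y ∈ F, ∀ z ∈ F, ∀ v ∈ F, ∀ a ∈ A x, ∀ b ∈ A y, ∀ c ∈ A z, ∀ d ∈ A v,
      E a b → E b c → E c d → ¬ E a c → ¬ E b d → ¬ E a d → a ≠ d → False) :
    ∃ X ⊆ F, 1 < X.card ∧ X.card < F.card ∧ ∀ u ∈ X, ∀ v ∈ X, ∀ w ∈ F, w ∉ X →
      Same E A u v w := by
  classical
  by_cases hc : ∃ u ∈ F, ∃ w ∈ F, w ≠ u ∧ A w ⊆ A u
  · -- a maximal such set
    let P : Finset V := F.filter fun u => ∃ w ∈ F, w ≠ u ∧ A w ⊆ A u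
    have hP : P.Nonempty := by
      obtain ⟨u, hu, h⟩ := hc
      exact ⟨u, Finset.mem_filter.2 ⟨hu, h⟩⟩
    obtain ⟨u0, hu0, hmax⟩ : ∃ u0 ∈ P, ∀ v ∈ P, A u0 ⊆ A v → A v ⊆ A u0 := by
      obtain ⟨u0, h⟩ := P.exists_maximalFor A hP
      exact ⟨u0, h.1, fun v hv h2 => h.2 hv h2⟩
    obtain ⟨hu0F, w0, hw0F, hw0, hw0A⟩ := Finset.mem_filter.1 hu0
    have hmax' : ∀ v ∈ F, A u0 ⊆ A v → A v ⊆ A u0 := by
      intro v hv h
      by_cases hv0 : u0 = v
      · rw [hv0]
      · exact hmax v (Finset.mem_filter.2 ⟨hv, u0, hu0F, hv0, h⟩) h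
    let X : Finset V := F.filter fun v => A v ⊆ A u0
    have hXF : X ⊆ F := Finset.filter_subset _ _
    have hu0X : u0 ∈ X := Finset.mem_filter.2 ⟨hu0F, subset_rfl⟩
    have hw0X : w0 ∈ X := Finset.mem_filter.2 ⟨hw0F, hw0A⟩
    have hX1 : 1 < X.card := Finset.one_lt_card.2 ⟨w0, hw0X, u0, hu0X, hw0⟩
    by_cases hXe : X = F
    · let Z : Finset V := F.filter fun v => A v = A u0
      have hZF : Z ⊆ F := Finset.filter_subset _ _
      have hu0Z : u0 ∈ Z := Finset.mem_filter.2 ⟨hu0F, rfl⟩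
      have hall : ∀ v ∈ F, A v ⊆ A u0 := by
        intro v hv
        rw [← hXe] at hv
        exact (Finset.mem_filter.1 hv).2
      by_cases hZ1 : Z = {u0}
      · refine ⟨F.erase u0, Finset.erase_subset _ _, ?_, ?_, ?_⟩
        · rw [Finset.card_erase_of_mem hu0F]; omega
        · rw [Finset.card_erase_of_mem hu0F]; omega
        · intro u hu v hv w hw hwX
          have hwu : w = u0 := by
            by_contra h
            exact hwX (Finset.mem_erase.2 ⟨h, hw⟩)
          subst hwu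
          obtain ⟨hu1, hu2⟩ := Finset.mem_erase.1 hu
          obtain ⟨hv1, hv2⟩ := Finset.mem_erase.1 hv
          have hnot : ∀ x ∈ F, x ≠ w → ¬ A w ⊆ A x := by
            intro x hx hxw h
            have : x ∈ Z := Finset.mem_filter.2 ⟨hx, Set.Subset.antisymm (hall x hx) h⟩
            rw [hZ1, Finset.mem_singleton] at this
            exact hxw this
          have hnd' : ∀ x ∈ F, ¬ Disjoint (A x) (A w) := by
            intro x hx hd
            obtain ⟨t, ht⟩ := hne x hx
            exact Set.disjoint_left.1 hd ht (hall x hx ht)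
          exact ⟨iff_of_true (hall u hu2) (hall v hv2),
            iff_of_false (hnot u hu2 hu1) (hnot v hv2 hv1),
            iff_of_false (fun h => hnd' u hu2 h.1) (fun h => hnd' v hv2 h.1)⟩
      · have hZ2 : 1 < Z.card := by
          by_contra h
          apply hZ1
          have h1 : Z.card = 1 := by
            have := Finset.card_pos.2 ⟨u0, hu0Z⟩
            omega
          obtain ⟨x, hx⟩ := Finset.card_eq_one.1 h1
          rw [hx, Finset.mem_singleton] at hu0Z
          rw [hx, hu0Z]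
        by_cases hZ3 : Z = F
        · refine ⟨{w0, u0}, ?_, ?_, ?_, ?_⟩
          · intro x hx
            rcases Finset.mem_insert.1 hx with rfl | hx
            · exact hw0F
            · rw [Finset.mem_singleton.1 hx]; exact hu0F
          · rw [Finset.card_pair hw0]; omega
          · rw [Finset.card_pair hw0]; omega
          · intro u hu v hv w _ _
            have hh : ∀ x ∈ ({w0, u0} : Finset V), A x = A u0 := by
              intro x hx
              rcases Finset.mem_insert.1 hx with rfl | hx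
              · have : x ∈ Z := by rw [hZ3]; exact hw0F
                exact (Finset.mem_filter.1 this).2
              · rw [Finset.mem_singleton.1 hx]
            exact same_of_eq E A w ((hh u hu).trans (hh v hv).symm)
        · refine ⟨Z, hZF, hZ2, ?_, ?_⟩
          · exact Finset.card_lt_card (Finset.ssubset_iff_subset_ne.2 ⟨hZF, hZ3⟩)
          · intro u hu v hv w _ _
            exact same_of_eq E A w ((Finset.mem_filter.1 hu).2.trans
              (Finset.mem_filter.1 hv).2.symm)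
    · refine ⟨X, hXF, hX1, Finset.card_lt_card (Finset.ssubset_iff_subset_ne.2 ⟨hXF, hXe⟩), ?_⟩
      -- points outside are attached disjointly
      have hout : ∀ w ∈ F, w ∉ X → Disjoint (A u0) (A w) := by
        intro w hw hwX
        have h1 : ¬ A w ⊆ A u0 := fun h => hwX (Finset.mem_filter.2 ⟨hw, h⟩)
        have h2 : u0 ≠ w := by rintro rfl; exact h1 subset_rfl
        rcases hnd u0 hu0F w hw h2 with h | h | h
        · exact absurd (hmax' w hw h) h1
        · exact absurd h h1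
        · exact h
      have key : ∀ u ∈ X, ∀ w ∈ F, w ∉ X → Same E A u u0 w := by
        intro u hu w hw hwX
        obtain ⟨huF, huA⟩ := Finset.mem_filter.1 hu
        have hd := hout w hw hwX
        have hd' : Disjoint (A u) (A w) := hd.mono_left huA
        have hnw : u0 ≠ w := by rintro rfl; exact hwX hu0X
        have n1 : ∀ x ∈ F, Disjoint (A x) (A w) → ¬ A x ⊆ A w := by
          intro x hx h1 h2
          obtain ⟨t, ht⟩ := hne x hx
          exact Set.disjoint_left.1 h1 ht (h2 ht)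
        have n2 : ∀ x ∈ F, Disjoint (A x) (A w) → ¬ A w ⊆ A x := by
          intro x hx h1 h2
          obtain ⟨t, ht⟩ := hne w hw
          exact Set.disjoint_left.1 h1 (h2 ht) ht
        refine ⟨iff_of_false (n1 u huF hd') (n1 u0 hu0F hd),
          iff_of_false (n2 u huF hd') (n2 u0 hu0F hd), ?_, ?_⟩
        · rintro ⟨_, t, ht, s, hs, h⟩
          exact ⟨hd, t, huA ht, s, hs, h⟩
        · rintro ⟨_, t, ht, s, hs, h⟩
          obtain ⟨t', ht'⟩ := hne u huF
          exact ⟨hd', t', ht', s, hs, hE _ _ (hhom u0 hu0F w hw hnw hd s hs t ht t' (huA ht')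
            (hE _ _ h))⟩
      intro u hu v hv w hw hwX
      obtain ⟨a1, a2, a3⟩ := key u hu w hw hwX
      obtain ⟨b1, b2, b3⟩ := key v hv w hw hwX
      exact ⟨a1.trans b1.symm, a2.trans b2.symm, a3.trans b3.symm⟩
  · -- all sets are disjoint
    push Not at hc
    have hdis : ∀ u ∈ F, ∀ w ∈ F, u ≠ w → Disjoint (A u) (A w) := by
      intro u hu w hw huw
      rcases hnd u hu w hw huw with h | h | h
      · exact absurd h (hc w hw u hu huw)
      · exact absurd h (hc u hu w hw (Ne.symm huw))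
      · exact h
    choose! a ha using hne
    have hhom' : ∀ u ∈ F, ∀ w ∈ F, u ≠ w → ∀ t ∈ A u, ∀ s ∈ A w, E t s → E (a u) (a w) := by
      intro u hu w hw huw t ht s hs h
      have h1 : E s (a u) := hhom u hu w hw huw (hdis u hu w hw huw) s hs t ht (a u) (ha u hu)
        (hE _ _ h)
      exact hhom w hw u hu (Ne.symm huw) (hdis w hw u hu (Ne.symm huw)) (a u) (ha u hu) s hs
        (a w) (ha w hw) (hE _ _ h1)
    obtain ⟨X, h1, h2, h3, h4⟩ := graph_module F hF (fun u w => E (a u) (a w))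
      (fun u _ v _ h => hE _ _ h) (fun u _ => hE' _)
      (fun x hx y hy z hz v hv g1 g2 g3 g4 g5 g6 g7 =>
        hp4 x hx y hy z hz v hv _ (ha x hx) _ (ha y hy) _ (ha z hz) _ (ha v hv) g1 g2 g3 g4 g5
          g6 (fun h => by
            have h8 := ha v hv
            rw [← h] at h8
            exact Set.disjoint_left.1 (hdis x hx v hv g7) (ha x hx) h8))
    refine ⟨X, h1, h2, h3, fun u hu v hv w hw hwX => ?_⟩
    have huw : u ≠ w := by rintro rfl; exact hwX hu
    have hvw : v ≠ w := by rintro rfl; exact hwX hv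
    refine ⟨iff_of_false (hc w hw u (h1 hu) huw) (hc w hw v (h1 hv) hvw),
      iff_of_false (hc u (h1 hu) w hw (Ne.symm huw)) (hc v (h1 hv) w hw (Ne.symm hvw)), ?_⟩
    have key : ∀ x ∈ F, x ≠ w → ((Disjoint (A x) (A w) ∧ ∃ t ∈ A x, ∃ s ∈ A w, E t s) ↔
        E (a x) (a w)) := by
      intro x hx hxw
      constructor
      · rintro ⟨_, t, ht, s, hs, h⟩
        exact hhom' x hx w hw hxw t ht s hs h
      · exact fun h => ⟨hdis x hx w hw hxw, a x, ha x hx, a w, ha w hw, h⟩
    rw [key u (h1 hu) huw, key v (h1 hv) hvw]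
    exact h4 u hu v hv w hw hwX

end Run7.h123.DH
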