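import Pool.Agent.Run7.h123.DhComb

set_option autoImplicit false

/-!
Naturality and measurability of the relations defined from a root.
-/

namespace Run7.h123.DH

section Nat

variable {V : Type*} {E E' : V → V → Prop} {τ : Equiv.Perm V} {r r' : V}

theorem ex_nat (τ : Equiv.Perm V) {P Q : V → Prop} (h : ∀ u, P u ↔ Q (τ u)) :
    (∃ u, P u) ↔ ∃ u, Q u := (exists_congr h).trans τ.surjective.exists.symm

theorem all_nat (τ : Equiv.Perm V) {P Q : V → Prop} (h : ∀ u, P u ↔ Q (τ u)) :
    (∀ u, P u) ↔ ∀ u, Q u := (forall_congr' h).trans τ.surjective.forall.symm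

theorem wk_nat (hE : ∀ u w, E' u w ↔ E (τ u) (τ w)) (hr : τ r' = r) (n : ℕ) (v : V) :
    Wk E' r' n v ↔ Wk E r n (τ v) := by
  induction n generalizing v with
  | zero =>
    show v = r' ↔ τ v = r
    rw [← hr, τ.injective.eq_iff]
  | succ n ih => exact ex_nat τ fun u => and_congr (ih u) (hE u v)

theorem lg_nat (hE : ∀ u w, E' u w ↔ E (τ u) (τ w)) (hr : τ r' = r) (i : ℕ) (v : V) :
    Lg E' r' i v ↔ Lg E r i (τ v) :=
  forall_congr' fun j => forall_congr' fun _ => not_congr (wk_nat hE hr j v)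

theorem rw_nat (hE : ∀ u w, E' u w ↔ E (τ u) (τ w)) (hr : τ r' = r) (i n : ℕ) (u w : V) :
    Rw E' r' i n u w ↔ Rw E r i n (τ u) (τ w) := by
  induction n generalizing w with
  | zero =>
    show (u = w ∧ Lg E' r' i u) ↔ (τ u = τ w ∧ Lg E r i (τ u))
    rw [τ.injective.eq_iff, lg_nat hE hr]
  | succ n ih => exact ex_nat τ fun v => and_congr (ih v) (and_congr (hE v w) (lg_nat hE hr i w))

theorem K_nat (hE : ∀ u w, E' u w ↔ E (τ u) (τ w)) (hr : τ r' = r) (i : ℕ) (u w : V) :
    K E' r' i u w ↔ K E r i (τ u) (τ w) :=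
  exists_congr fun n => rw_nat hE hr i n u w

theorem at_nat (hE : ∀ u w, E' u w ↔ E (τ u) (τ w)) (hr : τ r' = r) (i : ℕ) (u t : V) :
    At E' r' i u t ↔ At E r i (τ u) (τ t) := by
  unfold At
  rw [lg_nat hE hr, lg_nat hE hr, τ.injective.eq_iff]
  exact and_congr Iff.rfl (and_congr Iff.rfl (or_congr Iff.rfl
    (ex_nat τ fun v => and_congr (K_nat hE hr _ _ _) (hE v t))))

theorem sb_nat (hE : ∀ u w, E' u w ↔ E (τ u) (τ w)) (hr : τ r' = r) (u w : V) :
    Sb E' r' u w ↔ Sb E r (τ u) (τ w) :=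
  exists_congr fun _ => and_congr (K_nat hE hr _ _ _) (and_congr
    (not_congr (K_nat hE hr _ _ _))
    (all_nat τ fun _ => imp_congr (at_nat hE hr _ _ _) (at_nat hE hr _ _ _)))

theorem aq_nat (hE : ∀ u w, E' u w ↔ E (τ u) (τ w)) (hr : τ r' = r) (u w : V) :
    Aq E' r' u w ↔ Aq E r (τ u) (τ w) :=
  exists_congr fun _ => and_congr (K_nat hE hr _ _ _) (and_congr
    (not_congr (K_nat hE hr _ _ _)) (and_congr
    (all_nat τ fun _ => imp_congr (at_nat hE hr _ _ _) (not_congr (at_nat hE hr _ _ _)))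
    (ex_nat τ fun t => ex_nat τ fun s => and_congr (at_nat hE hr _ _ _)
      (and_congr (at_nat hE hr _ _ _) (hE t s)))))

end Nat

section Meas

variable {X : Type*} [MeasurableSpace X]

theorem ms_ex {ι : Type*} [Countable ι] {P : ι → X → Prop}
    (h : ∀ i, MeasurableSet {x | P i x}) : MeasurableSet {x | ∃ i, P i x} := by
  rw [Set.ofPred_exists]
  exact MeasurableSet.iUnion h

theorem ms_all {ι : Type*} [Countable ι] {P : ι → X → Prop}
    (h : ∀ i, MeasurableSet {x | P i x}) : MeasurableSet {x | ∀ i, P i x} := by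
  rw [Set.ofPred_forall]
  exact MeasurableSet.iInter h

theorem ms_and {P Q : X → Prop} (h1 : MeasurableSet {x | P x}) (h2 : MeasurableSet {x | Q x}) :
    MeasurableSet {x | P x ∧ Q x} := h1.inter h2

theorem ms_or {P Q : X → Prop} (h1 : MeasurableSet {x | P x}) (h2 : MeasurableSet {x | Q x}) :
    MeasurableSet {x | P x ∨ Q x} := h1.union h2

theorem ms_not {P : X → Prop} (h1 : MeasurableSet {x | P x}) :
    MeasurableSet {x | ¬ P x} := h1.compl

theorem ms_imp {P Q : X → Prop} (h1 : MeasurableSet {x | P x}) (h2 : MeasurableSet {x | Q x}) :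
    MeasurableSet {x | P x → Q x} := by
  have : {x | P x → Q x} = {x | ¬ P x ∨ Q x} := by
    ext x
    exact imp_iff_not_or
  rw [this]
  exact ms_or (ms_not h1) h2

theorem ms_const (p : Prop) : MeasurableSet {_x : X | p} := MeasurableSet.const p

theorem ms_bool {f : X → Bool} (h : MeasurableSet {x | f x = true}) : Measurable f :=
  measurable_to_bool h

variable {V : Type*} [Countable V] {E : X → V → V → Prop} {r : V}

theorem ms_wk (hE : ∀ u w, MeasurableSet {x | E x u w}) (n : ℕ) (v : V) :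
    MeasurableSet {x | Wk (E x) r n v} := by
  induction n generalizing v with
  | zero => exact ms_const _
  | succ n ih => exact ms_ex fun u => ms_and (ih u) (hE u v)

theorem ms_lg (hE : ∀ u w, MeasurableSet {x | E x u w}) (i : ℕ) (v : V) :
    MeasurableSet {x | Lg (E x) r i v} :=
  ms_all fun j => ms_imp (ms_const _) (ms_not (ms_wk hE j v))

theorem ms_rw (hE : ∀ u w, MeasurableSet {x | E x u w}) (i n : ℕ) (u w : V) :
    MeasurableSet {x | Rw (E x) r i n u w} := by
  induction n generalizing w with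
  | zero => exact ms_and (ms_const _) (ms_lg hE i u)
  | succ n ih => exact ms_ex fun v => ms_and (ih v) (ms_and (hE v w) (ms_lg hE i w))

theorem ms_K (hE : ∀ u w, MeasurableSet {x | E x u w}) (i : ℕ) (u w : V) :
    MeasurableSet {x | K (E x) r i u w} := ms_ex fun n => ms_rw hE i n u w

theorem ms_at (hE : ∀ u w, MeasurableSet {x | E x u w}) (i : ℕ) (u t : V) :
    MeasurableSet {x | At (E x) r i u t} :=
  ms_and (ms_lg hE i t) (ms_and (ms_not (ms_lg hE (i + 1) t)) (ms_or (ms_const _)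
    (ms_ex fun v => ms_and (ms_K hE (i + 1) u v) (hE v t))))

theorem ms_sb (hE : ∀ u w, MeasurableSet {x | E x u w}) (u w : V) :
    MeasurableSet {x | Sb (E x) r u w} :=
  ms_ex fun i => ms_and (ms_K hE i u w) (ms_and (ms_not (ms_K hE (i + 1) u w))
    (ms_all fun t => ms_imp (ms_at hE i u t) (ms_at hE i w t)))

theorem ms_aq (hE : ∀ u w, MeasurableSet {x | E x u w}) (u w : V) :
    MeasurableSet {x | Aq (E x) r u w} :=
  ms_ex fun i => ms_and (ms_K hE i u w) (ms_and (ms_not (ms_K hE (i + 1) u w))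
    (ms_and (ms_all fun t => ms_imp (ms_at hE i u t) (ms_not (ms_at hE i w t)))
      (ms_ex fun t => ms_ex fun s => ms_and (ms_at hE i u t) (ms_and (ms_at hE i w s)
        (hE t s)))))

end Meas

end Run7.h123.DH
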