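import Pool.Agent.TH425.FF.Cun
import Pool.Agent.Run7.h123.DhNat
import Pool.Agent.Run7.h123.DhModule

set_option autoImplicit false

/-!
The coding of connected distance-hereditary graphs with unary predicates by completely decomposable
structures, with one parameter.
-/

namespace Run7.h123.DH

open Set MeasureTheory
open Pool.Agent.H533R2.VO (RS RIso VC Dich)
open Pool.Agent.H533R2.VS
open Pool.Agent.TH425.FF (PCanon PExp pexp_vcu pexp_coan pexp_inv)

/-- Only binary relations. -/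
abbrev B2 : ℕ → ℕ := fun _ => 2

/-- The relation number `i`. -/
def rl (x : RS B2) (i : ℕ) (u w : ℕ) : Prop := x i (p2 u w) = true

theorem p2_eta (v : Fin 2 → ℕ) : (p2 (v 0) (v 1) : Fin 2 → ℕ) = v := by
  funext j
  fin_cases j <;> rfl

theorem rl_iff (x : RS B2) (i : ℕ) (v : Fin (B2 i) → ℕ) : rl x i (v 0) (v 1) ↔ x i v = true := by
  unfold rl
  rw [show (p2 (v 0) (v 1) : Fin (B2 i) → ℕ) = v from p2_eta v]

theorem rl_act (σ : Equiv.Perm ℕ) (x : RS B2) (i u w : ℕ) :
    rl (act σ x) i u w ↔ rl x i (σ.symm u) (σ.symm w) := by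
  unfold rl act
  rw [← nis_p2]

theorem rs_ext {x y : RS B2} (h : ∀ i u w, rl x i u w ↔ rl y i u w) : x = y := by
  funext i v
  rw [Bool.eq_iff_iff, ← rl_iff, ← rl_iff]
  exact h i _ _

open Classical in
/-- The structure with given relations. -/
noncomputable def mkS (R : ℕ → ℕ → ℕ → Prop) : RS B2 := fun i v => decide (R i (v 0) (v 1))

theorem mk_iff (R : ℕ → ℕ → ℕ → Prop) (i : ℕ) (v : Fin (B2 i) → ℕ) :
    mkS R i v = true ↔ R i (v 0) (v 1) := by
  classical
  unfold mkS
  exact decide_eq_true_iff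

theorem rl_mk (R : ℕ → ℕ → ℕ → Prop) (i u w : ℕ) : rl (mkS R) i u w ↔ R i u w :=
  mk_iff R i _

theorem ms_rl (i u w : ℕ) : MeasurableSet {x : RS B2 | rl x i u w} := by
  have h : Measurable fun x : RS B2 => x i (p2 u w) :=
    (measurable_pi_apply (p2 u w)).comp (measurable_pi_apply i)
  exact h (measurableSet_singleton true)

theorem meas_mk {R : RS B2 → ℕ → ℕ → ℕ → Prop}
    (h : ∀ i u w, MeasurableSet {x | R x i u w}) : Measurable fun x => mkS (R x) := by
  refine measurable_pi_iff.2 fun i => measurable_pi_iff.2 fun v => ms_bool ?_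
  have h1 := h i (v 0) (v 1)
  have h2 : {x | mkS (R x) i v = true} = {x | R x i (v 0) (v 1)} := by
    ext x
    exact mk_iff (R x) i v
  rw [h2]
  exact h1

/-- A map given by relations is equivariant. -/
theorem act_mk (σ : Equiv.Perm ℕ) {R R' : ℕ → ℕ → ℕ → Prop}
    (h : ∀ i u w, R' i u w ↔ R i (σ.symm u) (σ.symm w)) : mkS R' = act σ (mkS R) := by
  refine rs_ext fun i u w => ?_
  rw [rl_act, rl_mk, rl_mk, h]

/-! ### The coding -/

/-- The relations of the code, with the root `r`. -/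
def cR (r : ℕ) (x : RS B2) : ℕ → ℕ → ℕ → Prop
  | 0, u, w => Sb (rl x 0) r u w
  | 1, u, w => Aq (rl x 0) r u w
  | (j + 2), u, w => (j % 2 = 0 ∧ K (rl x 0) r (j / 2) u w) ∨
      (j % 2 = 1 ∧ u = w ∧ rl x (j / 2 + 2) u w)

/-- The code. -/
noncomputable def cD : List ℕ → RS B2 → RS B2
  | [], _ => mkS fun _ _ _ => False
  | r :: _, x => mkS (cR r x)

/-- The decoded edges. -/
def dE (z : RS B2) (u w : ℕ) : Prop :=
  u ≠ w ∧ ∃ i, rl z (2 * i + 2) u w ∧ ¬ rl z (2 * (i + 1) + 2) u w ∧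
    ((¬ rl z (2 * (i + 1) + 2) u u ∧ ¬ rl z (2 * (i + 1) + 2) w w ∧ rl z 1 u w) ∨
      (¬ rl z (2 * (i + 1) + 2) u u ∧ ¬ rl z (2 * (i + 2) + 2) w w ∧ rl z 0 u w) ∨
      (¬ rl z (2 * (i + 1) + 2) w w ∧ ¬ rl z (2 * (i + 2) + 2) u u ∧ rl z 0 w u))

/-- The decoded relations. -/
def dR (z : RS B2) : ℕ → ℕ → ℕ → Prop
  | 0, u, w => dE z u w
  | 1, _, _ => False
  | (j + 2), u, w => u = w ∧ rl z (2 * j + 3) u w

/-- The decoding. -/
noncomputable def dD : List ℕ → RS B2 → RS B2 := fun _ z => mkS (dR z)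

theorem canonD : PCanon cD dD where
  meas := by
    intro p
    cases p with
    | nil => exact measurable_const
    | cons r p =>
      refine meas_mk fun i u w => ?_
      match i with
      | 0 => exact ms_sb (fun u w => ms_rl 0 u w) u w
      | 1 => exact ms_aq (fun u w => ms_rl 0 u w) u w
      | j + 2 =>
        exact ms_or (ms_and (ms_const _) (ms_K (fun u w => ms_rl 0 u w) _ u w))
          (ms_and (ms_const _) (ms_and (ms_const _) (ms_rl _ u w)))
  dmeas := by
    intro p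
    refine meas_mk fun i u w => ?_
    match i with
    | 0 =>
      exact ms_and (ms_const _) (ms_ex fun i => ms_and (ms_rl _ _ _) (ms_and
        (ms_not (ms_rl _ _ _)) (ms_or (ms_and (ms_not (ms_rl _ _ _)) (ms_and
        (ms_not (ms_rl _ _ _)) (ms_rl _ _ _))) (ms_or (ms_and (ms_not (ms_rl _ _ _)) (ms_and
        (ms_not (ms_rl _ _ _)) (ms_rl _ _ _))) (ms_and (ms_not (ms_rl _ _ _)) (ms_and
        (ms_not (ms_rl _ _ _)) (ms_rl _ _ _)))))))
    | 1 => exact ms_const _
    | j + 2 => exact ms_and (ms_const _) (ms_rl _ _ _)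
  cact := by
    intro σ p x
    cases p with
    | nil =>
      exact act_mk (R := fun _ _ _ => False) (R' := fun _ _ _ => False) σ fun i u w => Iff.rfl
    | cons r p =>
      have hE : ∀ u w, rl (act σ x) 0 u w ↔ rl x 0 (σ.symm u) (σ.symm w) :=
        fun u w => rl_act σ x 0 u w
      have hr : σ.symm (σ r) = r := σ.symm_apply_apply r
      refine act_mk σ fun i u w => ?_
      match i with
      | 0 => exact sb_nat hE hr u w
      | 1 => exact aq_nat hE hr u w
      | j + 2 =>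
        refine or_congr (and_congr Iff.rfl (K_nat hE hr _ u w)) (and_congr Iff.rfl
          (and_congr ?_ (rl_act σ x _ u w)))
        exact (σ.symm.injective.eq_iff).symm
  dact := by
    intro σ p z
    refine act_mk σ fun i u w => ?_
    have h := rl_act σ z
    match i with
    | 0 =>
      refine and_congr (not_congr (σ.symm.injective.eq_iff).symm) (exists_congr fun i => ?_)
      rw [h, h, h, h, h, h, h, h, h]
    | 1 => exact Iff.rfl
    | j + 2 =>
      exact and_congr (σ.symm.injective.eq_iff).symm (h _ _ _)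

/-! ### Distance-hereditary graphs with unary predicates -/

/-- `x` is the distance-hereditary graph `G` with unary predicates (given by loops). -/
structure IsDH (x : RS B2) (G : SimpleGraph ℕ) : Prop where
  dh : DistanceHereditary G
  edges : ∀ u w, rl x 0 u w ↔ G.Adj u w
  one : ∀ u w, ¬ rl x 1 u w
  loops : ∀ j u w, rl x (j + 2) u w → u = w

theorem edges_eq {x : RS B2} {G : SimpleGraph ℕ} (h : IsDH x G) : rl x 0 = G.Adj := by
  funext u w
  exact propext (h.edges u w)

theorem decodeD {x : RS B2} {G : SimpleGraph ℕ} (h : IsDH x G) (hG : G.Connected) (r : ℕ) :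
    dD [r] (cD [r] x) = x := by
  refine rs_ext fun i u w => ?_
  have hK : ∀ j u w, rl (cD [r] x) (2 * j + 2) u w ↔ K G.Adj r j u w := by
    intro j u w
    show rl (mkS (cR r x)) (2 * j + 2) u w ↔ _
    rw [rl_mk]
    show ((2 * j) % 2 = 0 ∧ K (rl x 0) r (2 * j / 2) u w) ∨
      ((2 * j) % 2 = 1 ∧ u = w ∧ rl x (2 * j / 2 + 2) u w) ↔ _
    rw [edges_eq h, show 2 * j / 2 = j by omega]
    constructor
    · rintro (⟨_, h1⟩ | ⟨h1, _⟩)
      · exact h1
      · omega
    · exact fun h1 => Or.inl ⟨by omega, h1⟩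
  have h0 : ∀ u w, rl (cD [r] x) 0 u w ↔ Sb G.Adj r u w := by
    intro u w
    show rl (mkS (cR r x)) 0 u w ↔ _
    rw [rl_mk, ← edges_eq h]
    exact Iff.rfl
  have h1 : ∀ u w, rl (cD [r] x) 1 u w ↔ Aq G.Adj r u w := by
    intro u w
    show rl (mkS (cR r x)) 1 u w ↔ _
    rw [rl_mk, ← edges_eq h]
    exact Iff.rfl
  show rl (mkS (dR (cD [r] x))) i u w ↔ _
  rw [rl_mk]
  match i with
  | 0 =>
    rw [h.edges, decode hG h.dh (r := r)]
    show dE (cD [r] x) u w ↔ _
    unfold dE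
    refine and_congr Iff.rfl (exists_congr fun i => ?_)
    rw [hK, hK, hK, hK, hK, hK, h0, h0, h1]
  | 1 => exact iff_of_false (fun h => h) (h.one u w)
  | j + 2 =>
    show (u = w ∧ rl (cD [r] x) (2 * j + 3) u w) ↔ _
    have h2 : rl (cD [r] x) (2 * j + 3) u w ↔ (u = w ∧ rl x (j + 2) u w) := by
      show rl (mkS (cR r x)) (2 * j + 1 + 2) u w ↔ _
      rw [rl_mk]
      show ((2 * j + 1) % 2 = 0 ∧ K (rl x 0) r ((2 * j + 1) / 2) u w) ∨
        ((2 * j + 1) % 2 = 1 ∧ u = w ∧ rl x ((2 * j + 1) / 2 + 2) u w) ↔ _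
      rw [show (2 * j + 1) / 2 = j by omega]
      constructor
      · rintro (⟨h1, _⟩ | ⟨_, h1⟩)
        · omega
        · exact h1
      · exact fun h1 => Or.inr ⟨by omega, h1⟩
    rw [h2]
    exact ⟨fun h3 => h3.2.2, fun h3 => ⟨h.loops j u w h3, h.loops j u w h3, h3⟩⟩

end Run7.h123.DH
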