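import Mathlib

set_option autoImplicit false

/-!
Distance-hereditary graphs seen from a root: levels, components of the graph above a level, and the
sets of attachment.
-/

namespace Run7.h123.DH

variable {V : Type*}

/-- `v` is the end of a walk of length `n` that starts in `r`. -/
def Wk (E : V → V → Prop) (r : V) : ℕ → V → Prop
  | 0, v => v = r
  | (n + 1), v => ∃ u, Wk E r n u ∧ E u v

/-- The distance of `v` from `r` is at least `i`. -/
def Lg (E : V → V → Prop) (r : V) (i : ℕ) (v : V) : Prop := ∀ j, j < i → ¬ Wk E r j v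

/-- `u` and `w` are joined by a walk of length `n` through vertices of distance at least `i`. -/
def Rw (E : V → V → Prop) (r : V) (i : ℕ) : ℕ → V → V → Prop
  | 0, u, w => u = w ∧ Lg E r i u
  | (n + 1), u, w => ∃ v, Rw E r i n u v ∧ E v w ∧ Lg E r i w

/-- `u` and `w` are connected through vertices of distance at least `i`. -/
def K (E : V → V → Prop) (r : V) (i : ℕ) (u w : V) : Prop := ∃ n, Rw E r i n u w

/-- The representatives of `u` on level `i`. -/
def At (E : V → V → Prop) (r : V) (i : ℕ) (u t : V) : Prop :=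
  Lg E r i t ∧ ¬ Lg E r (i + 1) t ∧ (t = u ∨ ∃ v, K E r (i + 1) u v ∧ E v t)

/-- The component of `u` is attached below that of `w`. -/
def Sb (E : V → V → Prop) (r : V) (u w : V) : Prop :=
  ∃ i, K E r i u w ∧ ¬ K E r (i + 1) u w ∧ ∀ t, At E r i u t → At E r i w t

/-- The representatives are different and adjacent. -/
def Aq (E : V → V → Prop) (r : V) (u w : V) : Prop :=
  ∃ i, K E r i u w ∧ ¬ K E r (i + 1) u w ∧ (∀ t, At E r i u t → ¬ At E r i w t) ∧
    ∃ t s, At E r i u t ∧ At E r i w s ∧ E t s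

/-! ### Generalities -/

section General

variable {E : V → V → Prop} {r : V}

theorem Lg.mono {i j : ℕ} {v : V} (h : Lg E r j v) (hij : i ≤ j) : Lg E r i v :=
  fun k hk => h k (lt_of_lt_of_le hk hij)

theorem Rw.right {i n : ℕ} {u w : V} (h : Rw E r i n u w) : Lg E r i w := by
  cases n with
  | zero => obtain ⟨h1, h2⟩ := h; subst h1; exact h2
  | succ n => obtain ⟨v, _, _, h3⟩ := h; exact h3

theorem Rw.left {i n : ℕ} {u w : V} (h : Rw E r i n u w) : Lg E r i u := by
  induction n generalizing w with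
  | zero => exact h.2
  | succ n ih => obtain ⟨v, h1, _, _⟩ := h; exact ih h1

theorem Rw.add {i m n : ℕ} {u v w : V} (h1 : Rw E r i m u v) (h2 : Rw E r i n v w) :
    Rw E r i (m + n) u w := by
  induction n generalizing w with
  | zero => obtain ⟨h3, _⟩ := h2; subst h3; exact h1
  | succ n ih => obtain ⟨x, h3, h4, h5⟩ := h2; exact ⟨x, ih h3, h4, h5⟩

theorem Rw.symm (hE : ∀ u v, E u v → E v u) {i n : ℕ} {u w : V} (h : Rw E r i n u w) :
    Rw E r i n w u := by
  induction n generalizing w with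
  | zero => obtain ⟨h1, h2⟩ := h; subst h1; exact ⟨rfl, h2⟩
  | succ n ih =>
    obtain ⟨v, h1, h2, h3⟩ := h
    have h4 : Rw E r i 1 w v := ⟨w, ⟨rfl, h3⟩, hE _ _ h2, h1.right⟩
    have h5 := h4.add (ih h1)
    rwa [add_comm] at h5

theorem K.left {i : ℕ} {u w : V} (h : K E r i u w) : Lg E r i u := h.choose_spec.left
theorem K.right {i : ℕ} {u w : V} (h : K E r i u w) : Lg E r i w := h.choose_spec.right

theorem K.symm (hE : ∀ u v, E u v → E v u) {i : ℕ} {u w : V} (h : K E r i u w) :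
    K E r i w u := by
  obtain ⟨n, h⟩ := h
  exact ⟨n, h.symm hE⟩

theorem K.trans {i : ℕ} {u v w : V} (h1 : K E r i u v) (h2 : K E r i v w) : K E r i u w := by
  obtain ⟨m, h1⟩ := h1
  obtain ⟨n, h2⟩ := h2
  exact ⟨m + n, h1.add h2⟩

theorem K.refl {i : ℕ} {u : V} (h : Lg E r i u) : K E r i u u := ⟨0, rfl, h⟩

theorem K.edge {i : ℕ} {u w : V} (h1 : Lg E r i u) (h2 : Lg E r i w) (h : E u w) :
    K E r i u w := ⟨1, u, ⟨rfl, h1⟩, h, h2⟩

theorem K.mono {i j : ℕ} {u w : V} (h : K E r j u w) (hij : i ≤ j) : K E r i u w := by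
  obtain ⟨n, h⟩ := h
  refine ⟨n, ?_⟩
  induction n generalizing w with
  | zero => exact ⟨h.1, h.2.mono hij⟩
  | succ n ih => obtain ⟨v, h1, h2, h3⟩ := h; exact ⟨v, ih h1, h2, h3.mono hij⟩

/-- The level at which two points are separated is unique. -/
theorem K.unique {i j : ℕ} {u w : V} (h1 : K E r i u w) (h2 : ¬ K E r (i + 1) u w)
    (h3 : K E r j u w) (h4 : ¬ K E r (j + 1) u w) : i = j := by
  rcases lt_trichotomy i j with h | h | h
  · exact absurd (h3.mono h) h2
  · exact h
  · exact absurd (h1.mono h) h4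

theorem K.iff_le {i j : ℕ} {u w : V} (h1 : K E r i u w) (h2 : ¬ K E r (i + 1) u w) :
    K E r j u w ↔ j ≤ i := by
  refine ⟨fun h => ?_, fun h => h1.mono h⟩
  by_contra hc
  exact h2 (h.mono (by omega))

theorem sb_iff {i : ℕ} {u w : V} (h1 : K E r i u w) (h2 : ¬ K E r (i + 1) u w) :
    Sb E r u w ↔ ∀ t, At E r i u t → At E r i w t := by
  constructor
  · rintro ⟨j, h3, h4, h5⟩
    have := K.unique h1 h2 h3 h4
    subst this
    exact h5
  · exact fun h => ⟨i, h1, h2, h⟩

theorem aq_iff {i : ℕ} {u w : V} (h1 : K E r i u w) (h2 : ¬ K E r (i + 1) u w) :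
    Aq E r u w ↔ (∀ t, At E r i u t → ¬ At E r i w t) ∧
      ∃ t s, At E r i u t ∧ At E r i w s ∧ E t s := by
  constructor
  · rintro ⟨j, h3, h4, h5⟩
    have := K.unique h1 h2 h3 h4
    subst this
    exact h5
  · exact fun h => ⟨i, h1, h2, h⟩

end General

/-! ### Distance-hereditary graphs -/

/-- Distance-hereditary graphs (Howorka): all connected induced subgraphs are isometric. -/
def DistanceHereditary (G : SimpleGraph V) : Prop :=
  ∀ S : Set V, (G.induce S).Connected → ∀ u v : S, (G.induce S).dist u v = G.dist u v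

section DHG

variable {G : SimpleGraph V} {r : V}

theorem wk_iff (n : ℕ) (v : V) : Wk G.Adj r n v ↔ ∃ p : G.Walk r v, p.length = n := by
  induction n generalizing v with
  | zero =>
    constructor
    · intro h
      have h' : v = r := h
      subst h'
      exact ⟨SimpleGraph.Walk.nil, rfl⟩
    · rintro ⟨p, hp⟩
      exact (SimpleGraph.Walk.eq_of_length_eq_zero hp).symm
  | succ n ih =>
    constructor
    · rintro ⟨u, h1, h2⟩
      obtain ⟨p, hp⟩ := (ih u).1 h1
      exact ⟨p.concat h2, by rw [SimpleGraph.Walk.length_concat, hp]⟩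
    · rintro ⟨p, hp⟩
      have hnil : ¬ p.Nil := by
        intro h
        rw [← SimpleGraph.Walk.length_eq_zero_iff] at h
        omega
      refine ⟨p.penultimate, (ih _).2 ⟨p.dropLast, ?_⟩, p.adj_penultimate hnil⟩
      have h1 := SimpleGraph.Walk.length_dropLast_add_one hnil
      omega

theorem lg_iff (hG : G.Connected) (i : ℕ) (v : V) : Lg G.Adj r i v ↔ i ≤ G.dist r v := by
  constructor
  · intro h
    by_contra hc
    obtain ⟨p, hp⟩ := hG.exists_walk_length_eq_dist r v
    exact h (G.dist r v) (by omega) ((wk_iff _ _).2 ⟨p, hp⟩)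
  · intro h j hj hw
    obtain ⟨p, hp⟩ := (wk_iff _ _).1 hw
    have := SimpleGraph.dist_le p
    omega


/-- Two points of a connected set with a common neighbour have a common neighbour in the set. -/
theorem two_step (hD : DistanceHereditary G) {a b : V} (p : G.Walk a b) {x y c : V}
    (hx : x ∈ p.support) (hy : y ∈ p.support) (hne : x ≠ y) (hna : ¬ G.Adj x y)
    (h1 : G.Adj x c) (h2 : G.Adj c y) : ∃ z ∈ p.support, G.Adj x z ∧ G.Adj z y := by
  have hS := p.connected_induce_support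
  have h3 := hD {v | v ∈ p.support} hS ⟨x, hx⟩ ⟨y, hy⟩
  obtain ⟨q, hq⟩ := hS.exists_walk_length_eq_dist ⟨x, hx⟩ ⟨y, hy⟩
  have h4 : G.dist x y ≤ 2 := by
    have := SimpleGraph.dist_le (SimpleGraph.Walk.cons h1 (SimpleGraph.Walk.cons h2
      SimpleGraph.Walk.nil))
    simpa using this
  rw [h3] at hq
  cases q with
  | nil => exact absurd rfl hne
  | @cons _ m _ e1 q =>
    cases q with
    | nil => exact absurd e1 hna
    | @cons _ m2 _ e2 q =>
      cases q with
      | nil => exact ⟨m.1, m.2, e1, e2⟩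
      | cons e3 q =>
        simp only [SimpleGraph.Walk.length_cons] at hq
        omega

theorem rw_walk {i n : ℕ} {u w : V} (h : Rw G.Adj r i n u w) :
    ∃ p : G.Walk u w, ∀ v ∈ p.support, Lg G.Adj r i v := by
  induction n generalizing w with
  | zero =>
    obtain ⟨h1, h2⟩ := h
    subst h1
    refine ⟨SimpleGraph.Walk.nil, fun v hv => ?_⟩
    simp only [SimpleGraph.Walk.support_nil, List.mem_singleton] at hv
    subst hv
    exact h2
  | succ n ih =>
    obtain ⟨v, h1, h2, h3⟩ := h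
    obtain ⟨p, hp⟩ := ih h1
    refine ⟨p.concat h2, fun x hx => ?_⟩
    rw [SimpleGraph.Walk.support_concat] at hx
    simp only [List.mem_append, List.mem_singleton] at hx
    rcases hx with hx | hx
    · exact hp x hx
    · subst hx
      exact h3

/-- Predecessors. -/
theorem exists_pred (hG : G.Connected) {u : V} {d : ℕ} (h : G.dist r u = d + 1) :
    ∃ z, G.Adj u z ∧ G.dist r z = d := by
  obtain ⟨p, hp⟩ := hG.exists_walk_length_eq_dist r u
  rw [h] at hp
  obtain ⟨z, h1, h2⟩ := (wk_iff (d + 1) u).2 ⟨p, hp⟩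
  refine ⟨z, h2.symm, ?_⟩
  obtain ⟨q, hq⟩ := (wk_iff d z).1 h1
  have h3 := SimpleGraph.dist_le q
  have h4 := hG.dist_triangle (u := r) (v := z) (w := u)
  have h5 : G.dist z u = 1 := SimpleGraph.dist_eq_one_iff_adj.2 h2
  omega

theorem adj_level (hG : G.Connected) {u v : V} (h : G.Adj u v) :
    G.dist r u ≤ G.dist r v + 1 := by
  have h4 := hG.dist_triangle (u := r) (v := v) (w := u)
  have h5 : G.dist v u = 1 := SimpleGraph.dist_eq_one_iff_adj.2 h.symm
  omega

/-- The attachment of a component above level `i` is uniform. -/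
theorem uniform (hG : G.Connected) (hD : DistanceHereditary G) {i : ℕ} {u w z : V}
    (hK : K G.Adj r i u w) (hw : G.dist r w = i) (hz : G.dist r z + 1 = i)
    (h : G.Adj u z) : G.Adj w z := by
  classical
  obtain ⟨n, hn⟩ := hK
  obtain ⟨q, hq⟩ := rw_walk hn
  obtain ⟨g, hg⟩ := hG.exists_walk_length_eq_dist z r
  rw [SimpleGraph.dist_comm] at hg
  let p : G.Walk w r := q.reverse.append (SimpleGraph.Walk.cons h g)
  have hsup : ∀ v, v ∈ p.support → (i ≤ G.dist r v ∨ v ∈ g.support) := by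
    intro v hv
    rw [SimpleGraph.Walk.mem_support_append_iff] at hv
    rcases hv with hv | hv
    · left
      rw [SimpleGraph.Walk.support_reverse, List.mem_reverse] at hv
      exact (lg_iff hG i v).1 (hq v hv)
    · rw [SimpleGraph.Walk.support_cons, List.mem_cons] at hv
      rcases hv with hv | hv
      · left
        subst hv
        exact (lg_iff hG i v).1 (hq v q.start_mem_support)
      · exact Or.inr hv
  have hS := p.connected_induce_support
  have hw' : w ∈ p.support := p.start_mem_support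
  have hr' : r ∈ p.support := p.end_mem_support
  have h3 := hD {v | v ∈ p.support} hS ⟨w, hw'⟩ ⟨r, hr'⟩
  obtain ⟨s, hs⟩ := hS.exists_walk_length_eq_dist ⟨w, hw'⟩ ⟨r, hr'⟩
  rw [h3, SimpleGraph.dist_comm, hw] at hs
  cases s with
  | nil =>
    simp only [SimpleGraph.Walk.length_nil] at hs
    omega
  | @cons _ m _ e1 s =>
    have e1' : G.Adj w m.1 := e1
    simp only [SimpleGraph.Walk.length_cons] at hs
    have h4 : G.dist r m.1 ≤ s.length := by
      have h5 := SimpleGraph.dist_le (s.map (SimpleGraph.Embedding.induce _).toHom)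
      rw [SimpleGraph.Walk.length_map] at h5
      rw [SimpleGraph.dist_comm]
      exact h5
    have h6 := hsup m.1 m.2
    rcases h6 with h6 | h6
    · omega
    · have h7 := adj_level (r := r) hG e1'
      have h8 : m.1 = z := by
        have hlen := congrArg SimpleGraph.Walk.length (g.take_spec h6)
        rw [SimpleGraph.Walk.length_append] at hlen
        have h9 := SimpleGraph.dist_le (g.dropUntil m.1 h6)
        rw [SimpleGraph.dist_comm] at h9
        have h10 : (g.takeUntil m.1 h6).length = 0 := by omega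
        exact (SimpleGraph.Walk.eq_of_length_eq_zero h10).symm
      rw [← h8]
      exact e1'

theorem lv {i : ℕ} (hG : G.Connected) {t : V} :
    (Lg G.Adj r i t ∧ ¬ Lg G.Adj r (i + 1) t) ↔ G.dist r t = i := by
  rw [lg_iff hG, lg_iff hG]
  omega

theorem exists_low (hG : G.Connected) {i d : ℕ} : ∀ {u : V}, G.dist r u = d → i + 1 ≤ d →
    ∃ v, K G.Adj r (i + 1) u v ∧ G.dist r v = i + 1 := by
  induction d with
  | zero => intro u _ h; omega
  | succ d ih =>
    intro u hu hd
    rcases Nat.lt_or_ge i d with h | h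
    · obtain ⟨z, h1, h2⟩ := exists_pred hG hu
      obtain ⟨v, h3, h4⟩ := ih h2 (by omega)
      exact ⟨v, (K.edge ((lg_iff hG _ _).2 (by omega)) ((lg_iff hG _ _).2 (by omega)) h1).trans
        h3, h4⟩
    · exact ⟨u, K.refl ((lg_iff hG _ _).2 (by omega)), by omega⟩

/-- The sets of representatives. -/
theorem at_cases (hG : G.Connected) (hD : DistanceHereditary G) {i : ℕ} {u : V}
    (hu : i ≤ G.dist r u) :
    (G.dist r u = i ∧ ∀ t, At G.Adj r i u t ↔ t = u) ∨
    ∃ v, G.dist r v = i + 1 ∧ K G.Adj r (i + 1) u v ∧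
      ∀ t, At G.Adj r i u t ↔ (G.dist r t = i ∧ G.Adj v t) := by
  rcases Nat.eq_or_lt_of_le hu with h | h
  · left
    refine ⟨h.symm, fun t => ?_⟩
    constructor
    · rintro ⟨_, _, h3 | ⟨v, h3, _⟩⟩
      · exact h3
      · have h4 := (lg_iff hG _ _).1 h3.left
        omega
    · intro ht
      subst ht
      obtain ⟨h1, h2⟩ := (lv hG).2 h.symm
      exact ⟨h1, h2, Or.inl rfl⟩
  · right
    obtain ⟨v, h1, h2⟩ := exists_low hG rfl h
    refine ⟨v, h2, h1, fun t => ?_⟩
    constructor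
    · rintro ⟨h3, h4, h5⟩
      have h6 : G.dist r t = i := (lv hG).1 ⟨h3, h4⟩
      refine ⟨h6, ?_⟩
      rcases h5 with h5 | ⟨w, h5, h7⟩
      · subst h5
        omega
      · have h8 : K G.Adj r (i + 1) w v := (h5.symm fun _ _ h => h.symm).trans h1
        exact uniform hG hD h8 h2 (by omega) h7
    · rintro ⟨h3, h4⟩
      obtain ⟨h5, h6⟩ := (lv hG).2 h3
      exact ⟨h5, h6, Or.inr ⟨v, h1, h4⟩⟩

theorem at_lv (hG : G.Connected) {i : ℕ} {u t : V} (h : At G.Adj r i u t) : G.dist r t = i :=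
  (lv hG).1 ⟨h.1, h.2.1⟩

theorem at_K (hG : G.Connected) {i : ℕ} {u t : V} (h : At G.Adj r i u t) :
    K G.Adj r i u t := by
  obtain ⟨h1, h2, h3⟩ := h
  rcases h3 with h3 | ⟨v, h3, h4⟩
  · subst h3
    exact K.refl h1
  · exact (h3.mono (Nat.le_succ i)).trans
      (K.edge ((lg_iff hG _ _).2 (le_trans (Nat.le_succ i) ((lg_iff hG _ _).1 h3.right))) h1 h4)

theorem at_nonempty (hG : G.Connected) (hD : DistanceHereditary G) {i : ℕ} {u : V}
    (hu : i ≤ G.dist r u) : ∃ t, At G.Adj r i u t := by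
  rcases at_cases hG hD hu with ⟨_, h⟩ | ⟨v, h1, h2, h3⟩
  · exact ⟨u, (h u).2 rfl⟩
  · obtain ⟨z, h4, h5⟩ := exists_pred hG h1
    exact ⟨z, (h3 z).2 ⟨h5, h4⟩⟩

/-- Two different representatives exist only on positive levels. -/
theorem level_pos (hG : G.Connected) {i : ℕ} {a b : V} (ha : G.dist r a = i)
    (hb : G.dist r b = i) (hab : a ≠ b) : 0 < i := by
  rcases Nat.eq_zero_or_pos i with h | h
  · subst h
    have h1 := (hG.dist_eq_zero_iff).1 ha
    have h2 := (hG.dist_eq_zero_iff).1 hb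
    exact absurd (h1.symm.trans h2) hab
  · exact h

/-- The common neighbour below. -/
theorem common (hG : G.Connected) (hD : DistanceHereditary G) {i : ℕ} (hi : 0 < i) {t : V}
    (ht : G.dist r t = i) :
    ∃ s, G.dist r s + 1 = i ∧ ∀ x, G.dist r x = i → K G.Adj r i t x → G.Adj x s := by
  obtain ⟨j, rfl⟩ : ∃ j, i = j + 1 := ⟨i - 1, by omega⟩
  obtain ⟨s, h1, h2⟩ := exists_pred hG ht
  exact ⟨s, by omega, fun x hx hk => uniform hG hD hk hx (by omega) h1⟩

theorem homog (hG : G.Connected) (hD : DistanceHereditary G) {i : ℕ} {u t a b : V}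
    (hu : i ≤ G.dist r u) (ht : G.dist r t = i) (hK : K G.Adj r i u t)
    (hn : ¬ At G.Adj r i u t) (ha : At G.Adj r i u a) (hb : At G.Adj r i u b)
    (h : G.Adj t a) : G.Adj t b := by
  rcases at_cases hG hD hu with ⟨_, h1⟩ | ⟨v, h1, h2, h3⟩
  · rw [(h1 b).1 hb, ← (h1 a).1 ha]
    exact h
  · have hta : t ≠ a := h.ne
    have hi := level_pos hG ht (at_lv hG ha) hta
    obtain ⟨s, hs1, hs2⟩ := common hG hD hi ht
    have hts : G.Adj t s := hs2 t ht (K.refl ((lv hG).2 ht).1)
    have hbs : G.Adj b s := hs2 b (at_lv hG hb)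
      ((hK.symm fun _ _ h => h.symm).trans (at_K hG hb))
    have hva := ((h3 a).1 ha).2
    have hvb := ((h3 b).1 hb).2
    have hvt : ¬ G.Adj v t := fun h => hn ((h3 t).2 ⟨ht, h⟩)
    let p : G.Walk t v := SimpleGraph.Walk.cons hts (SimpleGraph.Walk.cons hbs.symm
      (SimpleGraph.Walk.cons hvb.symm SimpleGraph.Walk.nil))
    obtain ⟨z, hz, h4, h5⟩ := two_step hD p p.start_mem_support p.end_mem_support
      (by rintro rfl; omega) (fun h => hvt h.symm) h hva.symm
    simp only [p, SimpleGraph.Walk.support_cons, SimpleGraph.Walk.support_nil, List.mem_cons,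
      List.not_mem_nil, or_false] at hz
    rcases hz with rfl | rfl | rfl | rfl
    · exact absurd rfl h4.ne
    · have := adj_level (r := r) hG h5.symm
      omega
    · exact h4
    · exact absurd rfl h5.ne

theorem nested (hG : G.Connected) (hD : DistanceHereditary G) {i : ℕ} {u w : V}
    (hK : K G.Adj r i u w) (hn : ¬ K G.Adj r (i + 1) u w) :
    (∀ t, At G.Adj r i u t → At G.Adj r i w t) ∨ (∀ t, At G.Adj r i w t → At G.Adj r i u t) ∨
      (∀ t, At G.Adj r i u t → ¬ At G.Adj r i w t) := by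
  by_contra hc
  push Not at hc
  obtain ⟨⟨a, ha1, ha2⟩, ⟨b, hb1, hb2⟩, c, hc1, hc2⟩ := hc
  have hu := (lg_iff hG _ _).1 hK.left
  have hw := (lg_iff hG _ _).1 hK.right
  rcases at_cases hG hD hu with ⟨_, h1⟩ | ⟨v0, h1, h2, h3⟩
  · rw [(h1 a).1 ha1, ← (h1 c).1 hc1] at ha2
    exact ha2 hc2
  rcases at_cases hG hD hw with ⟨_, g1⟩ | ⟨v1, g1, g2, g3⟩
  · rw [(g1 b).1 hb1, ← (g1 c).1 hc2] at hb2
    exact hb2 hc1
  have hac : a ≠ c := by rintro rfl; exact ha2 hc2
  have hi := level_pos hG (at_lv hG ha1) (at_lv hG hc1) hac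
  obtain ⟨s, hs1, hs2⟩ := common hG hD hi (at_lv hG hc1)
  have hsym : ∀ u v, G.Adj u v → G.Adj v u := fun _ _ h => h.symm
  have has : G.Adj a s := hs2 a (at_lv hG ha1) (((at_K hG hc1).symm hsym).trans (at_K hG ha1))
  have hbs : G.Adj b s := hs2 b (at_lv hG hb1) (((at_K hG hc2).symm hsym).trans (at_K hG hb1))
  have e1 := ((h3 a).1 ha1).2
  have e2 := ((h3 c).1 hc1).2
  have e3 := ((g3 b).1 hb1).2
  have e4 := ((g3 c).1 hc2).2
  have n1 : ¬ G.Adj v0 b := fun h => hb2 ((h3 b).2 ⟨at_lv hG hb1, h⟩)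
  have n2 : ¬ G.Adj v1 a := fun h => ha2 ((g3 a).2 ⟨at_lv hG ha1, h⟩)
  have n3 : ¬ G.Adj v0 v1 := fun h => hn (h2.trans ((K.edge h2.right g2.right h).trans
    (g2.symm hsym)))
  have n4 : v0 ≠ v1 := by
    rintro rfl
    exact hn (h2.trans (g2.symm hsym))
  let p : G.Walk v0 v1 := SimpleGraph.Walk.cons e1 (SimpleGraph.Walk.cons has
    (SimpleGraph.Walk.cons hbs.symm (SimpleGraph.Walk.cons e3.symm SimpleGraph.Walk.nil)))
  obtain ⟨z, hz, h4, h5⟩ := two_step hD p p.start_mem_support p.end_mem_support n4 n3 e2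
    e4.symm
  simp only [p, SimpleGraph.Walk.support_cons, SimpleGraph.Walk.support_nil, List.mem_cons,
    List.not_mem_nil, or_false] at hz
  rcases hz with rfl | rfl | rfl | rfl | rfl
  · exact absurd rfl h4.ne
  · exact n2 h5.symm
  · have := adj_level (r := r) hG h4
    omega
  · exact n1 h4
  · exact absurd rfl h5.ne

/-- No level set of a component contains an induced path with four vertices. -/
theorem no_p4 (hG : G.Connected) (hD : DistanceHereditary G) {i : ℕ} {a b c d : V}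
    (ha : G.dist r a = i) (hb : G.dist r b = i) (hd : G.dist r d = i)
    (hK : K G.Adj r i a d) (h1 : G.Adj a b) (h2 : G.Adj b c) (h3 : G.Adj c d)
    (n1 : ¬ G.Adj a c) (n2 : ¬ G.Adj b d) (n3 : ¬ G.Adj a d) (n4 : a ≠ d) : False := by
  have hi := level_pos hG ha hb h1.ne
  obtain ⟨s, hs1, hs2⟩ := common hG hD hi ha
  have has : G.Adj a s := hs2 a ha (K.refl ((lv hG).2 ha).1)
  have hds : G.Adj d s := hs2 d hd hK
  let p : G.Walk a d := SimpleGraph.Walk.cons h1 (SimpleGraph.Walk.cons h2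
    (SimpleGraph.Walk.cons h3 SimpleGraph.Walk.nil))
  obtain ⟨z, hz, h4, h5⟩ := two_step hD p p.start_mem_support p.end_mem_support n4 n3 has
    hds.symm
  simp only [p, SimpleGraph.Walk.support_cons, SimpleGraph.Walk.support_nil, List.mem_cons,
    List.not_mem_nil, or_false] at hz
  rcases hz with rfl | rfl | rfl | rfl
  · exact absurd rfl h4.ne
  · exact n2 h5
  · exact n1 h4
  · exact absurd rfl h5.ne

/-- The graph can be recovered. -/
theorem decode (hG : G.Connected) (hD : DistanceHereditary G) (u w : V) :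
    G.Adj u w ↔ u ≠ w ∧ ∃ i, K G.Adj r i u w ∧ ¬ K G.Adj r (i + 1) u w ∧
      ((¬ K G.Adj r (i + 1) u u ∧ ¬ K G.Adj r (i + 1) w w ∧ Aq G.Adj r u w) ∨
        (¬ K G.Adj r (i + 1) u u ∧ ¬ K G.Adj r (i + 2) w w ∧ Sb G.Adj r u w) ∨
        (¬ K G.Adj r (i + 1) w w ∧ ¬ K G.Adj r (i + 2) u u ∧ Sb G.Adj r w u)) := by
  have hsym : ∀ u v, G.Adj u v → G.Adj v u := fun _ _ h => h.symm
  have hkk : ∀ (j : ℕ) (x : V), K G.Adj r j x x ↔ j ≤ G.dist r x := fun j x =>
    ⟨fun h => (lg_iff hG _ _).1 h.left, fun h => K.refl ((lg_iff hG _ _).2 h)⟩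
  -- the second alternative, from left to right and back
  have key1 : ∀ u w, G.Adj u w → G.dist r w = G.dist r u + 1 →
      K G.Adj r (G.dist r u) u w ∧ ¬ K G.Adj r (G.dist r u + 1) u w ∧ Sb G.Adj r u w := by
    intro u w h hl
    have h1 : K G.Adj r (G.dist r u) u w :=
      K.edge ((lg_iff hG _ _).2 le_rfl) ((lg_iff hG _ _).2 (by omega)) h
    have h2 : ¬ K G.Adj r (G.dist r u + 1) u w := fun h3 => by
      have := (lg_iff hG _ _).1 h3.left
      omega
    refine ⟨h1, h2, (sb_iff h1 h2).2 fun t ht => ?_⟩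
    rcases at_cases hG hD (le_refl (G.dist r u)) with ⟨_, h3⟩ | ⟨v, h3, h4, _⟩
    · rw [h3] at ht
      subst ht
      obtain ⟨h5, h6⟩ := (lv (r := r) hG).2 (rfl : G.dist r t = G.dist r t)
      exact ⟨h5, h6, Or.inr ⟨w, K.refl ((lg_iff hG _ _).2 (by omega)), h.symm⟩⟩
    · have := (lg_iff hG _ _).1 h4.left
      omega
  have key2 : ∀ u w, u ≠ w → ∀ i, K G.Adj r i u w → ¬ K G.Adj r (i + 1) u w →
      ¬ K G.Adj r (i + 1) u u → ¬ K G.Adj r (i + 2) w w → Sb G.Adj r u w → G.Adj u w := by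
    intro u w hne i h1 h2 h3 h4 h5
    rw [hkk] at h3 h4
    have h6 := (lg_iff hG _ _).1 h1.left
    have h7 := (lg_iff hG _ _).1 h1.right
    have h8 : At G.Adj r i w u := by
      refine (sb_iff h1 h2).1 h5 u ?_
      obtain ⟨h9, h10⟩ := (lv (r := r) hG).2 (show G.dist r u = i by omega)
      exact ⟨h9, h10, Or.inl rfl⟩
    obtain ⟨_, _, h9 | ⟨v, h9, h10⟩⟩ := h8
    · exact absurd h9 hne
    · have h11 := (lg_iff hG _ _).1 h9.left
      exact (uniform hG hD (h9.symm hsym) (by omega) (by omega) h10).symm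
  constructor
  · intro h
    refine ⟨h.ne, ?_⟩
    have l1 := adj_level (r := r) hG h
    have l2 := adj_level (r := r) hG h.symm
    rcases lt_trichotomy (G.dist r u) (G.dist r w) with hl | hl | hl
    · obtain ⟨h1, h2, h3⟩ := key1 u w h (by omega)
      refine ⟨_, h1, h2, Or.inr (Or.inl ⟨?_, ?_, h3⟩)⟩
      · rw [hkk]; omega
      · rw [hkk]; omega
    · have h1 : K G.Adj r (G.dist r u) u w :=
        K.edge ((lg_iff hG _ _).2 le_rfl) ((lg_iff hG _ _).2 (by omega)) h
      have h2 : ¬ K G.Adj r (G.dist r u + 1) u w := fun h3 => by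
        have := (lg_iff hG _ _).1 h3.left
        omega
      refine ⟨_, h1, h2, Or.inl ⟨?_, ?_, ?_⟩⟩
      · rw [hkk]; omega
      · rw [hkk]; omega
      · rw [aq_iff h1 h2]
        obtain ⟨h5, h6⟩ := (lv (r := r) hG).2 (rfl : G.dist r u = G.dist r u)
        obtain ⟨h7, h8⟩ := (lv (r := r) hG).2 hl.symm
        have au : ∀ t, At G.Adj r (G.dist r u) u t → t = u := by
          rcases at_cases hG hD (le_refl (G.dist r u)) with ⟨_, h3⟩ | ⟨v, h3, h4, _⟩
          · exact fun t ht => (h3 t).1 ht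
          · have := (lg_iff hG _ _).1 h4.left
            omega
        have aw : ∀ t, At G.Adj r (G.dist r u) w t → t = w := by
          rcases at_cases hG hD (le_of_eq hl) with ⟨_, h3⟩ | ⟨v, h3, h4, _⟩
          · exact fun t ht => (h3 t).1 ht
          · have := (lg_iff hG _ _).1 h4.left
            omega
        refine ⟨fun t h9 h10 => h.ne ((au t h9).symm.trans (aw t h10)), u, w,
          ⟨h5, h6, Or.inl rfl⟩, ⟨h7, h8, Or.inl rfl⟩, h⟩
    · obtain ⟨h1, h2, h3⟩ := key1 w u h.symm (by omega)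
      refine ⟨_, h1.symm hsym, fun h4 => h2 (h4.symm hsym), Or.inr (Or.inr ⟨?_, ?_, h3⟩)⟩
      · rw [hkk]; omega
      · rw [hkk]; omega
  · rintro ⟨hne, i, h1, h2, ⟨h3, h4, h5⟩ | ⟨h3, h4, h5⟩ | ⟨h3, h4, h5⟩⟩
    · rw [hkk] at h3 h4
      have h6 := (lg_iff hG _ _).1 h1.left
      have h7 := (lg_iff hG _ _).1 h1.right
      rw [aq_iff h1 h2] at h5
      obtain ⟨_, t, s, h8, h9, h10⟩ := h5
      have e1 : t = u := by
        rcases at_cases hG hD h6 with ⟨_, h3⟩ | ⟨v, h3, h4, _⟩
        · exact (h3 t).1 h8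
        · have := (lg_iff hG _ _).1 h4.left
          omega
      have e2 : s = w := by
        rcases at_cases hG hD h7 with ⟨_, h3⟩ | ⟨v, h3, h4, _⟩
        · exact (h3 s).1 h9
        · have := (lg_iff hG _ _).1 h4.left
          omega
      rw [← e1, ← e2]
      exact h10
    · exact key2 u w hne i h1 h2 h3 h4 h5
    · exact (key2 w u (Ne.symm hne) i (h1.symm hsym) (fun h => h2 (h.symm hsym)) h3 h4 h5).symm

end DHG

end Run7.h123.DH
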