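import Pool.Agent.Run7.h123.DhCode

set_option autoImplicit false

/-!
The codes of connected distance-hereditary graphs are completely decomposable.
-/

namespace Run7.h123.DH

open Set MeasureTheory
open Pool.Agent.H533R2.VO (RS RIso VC Dich)
open Pool.Agent.H533R2.VS
open Pool.Agent.TH425.FF (PCanon PExp pexp_vcu pexp_coan pexp_inv)

section Gen

variable {V : Type*} {E : V → V → Prop} {r : V}

theorem at_congr (hE : ∀ u v, E u v → E v u) {i : ℕ} {a b : V} (h : K E r (i + 1) a b) (t : V) :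
    At E r i a t ↔ At E r i b t := by
  unfold At
  refine and_congr Iff.rfl (and_congr_right fun ht => ?_)
  have h1 : t ≠ a := by rintro rfl; exact ht h.left
  have h2 : t ≠ b := by rintro rfl; exact ht h.right
  constructor
  · rintro (h3 | ⟨v, h3, h4⟩)
    · exact absurd h3 h1
    · exact Or.inr ⟨v, (h.symm hE).trans h3, h4⟩
  · rintro (h3 | ⟨v, h3, h4⟩)
    · exact absurd h3 h2
    · exact Or.inr ⟨v, h.trans h3, h4⟩

theorem aq_symm (hE : ∀ u v, E u v → E v u) {u w : V} (h : Aq E r u w) : Aq E r w u := by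
  obtain ⟨i, h1, h2, h3, t, s, h4, h5, h6⟩ := h
  exact ⟨i, h1.symm hE, fun h => h2 (h.symm hE), fun t h7 h8 => h3 t h8 h7, s, t, h5, h4,
    hE _ _ h6⟩

/-- From the relations between the sets of representatives to the relations of the code. -/
theorem same_rel (hE : ∀ u v, E u v → E v u) {i : ℕ} {a b w : V} (h1 : K E r i a w)
    (h2 : ¬ K E r (i + 1) a w) (h3 : K E r i b w) (h4 : ¬ K E r (i + 1) b w)
    (h : Same E (fun u => {t | At E r i u t}) a b w) :
    (Sb E r a w ↔ Sb E r b w) ∧ (Sb E r w a ↔ Sb E r w b) ∧ (Aq E r a w ↔ Aq E r b w) ∧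
      (Aq E r w a ↔ Aq E r w b) ∧ (∀ j, K E r j a w ↔ K E r j b w) ∧
      ∀ j, K E r j w a ↔ K E r j w b := by
  obtain ⟨g1, g2, g3⟩ := h
  have hK : ∀ j, K E r j a w ↔ K E r j b w := fun j => by
    rw [K.iff_le h1 h2, K.iff_le h3 h4]
  have hA : ∀ x, K E r i x w → ¬ K E r (i + 1) x w → (Aq E r x w ↔
      (Disjoint {t | At E r i x t} {t | At E r i w t} ∧
        ∃ t ∈ {t | At E r i x t}, ∃ s ∈ {t | At E r i w t}, E t s)) := by
    intro x k1 k2
    rw [aq_iff k1 k2, Set.disjoint_left]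
    refine and_congr Iff.rfl ?_
    constructor
    · rintro ⟨t, s, e1, e2, e3⟩
      exact ⟨t, e1, s, e2, e3⟩
    · rintro ⟨t, e1, s, e2, e3⟩
      exact ⟨t, s, e1, e2, e3⟩
  have hq : Aq E r a w ↔ Aq E r b w := by
    rw [hA a h1 h2, hA b h3 h4]
    exact g3
  refine ⟨?_, ?_, hq, ?_, hK, fun j => ?_⟩
  · rw [sb_iff h1 h2, sb_iff h3 h4]
    exact g1
  · rw [sb_iff (h1.symm hE) (fun h => h2 (h.symm hE)),
      sb_iff (h3.symm hE) (fun h => h4 (h.symm hE))]
    exact g2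
  · exact ⟨fun h => aq_symm hE (hq.1 (aq_symm hE h)), fun h => aq_symm hE (hq.2 (aq_symm hE h))⟩
  · exact ⟨fun h => ((hK j).1 (h.symm hE)).symm hE, fun h => ((hK j).2 (h.symm hE)).symm hE⟩

end Gen

theorem exists_top {V : Type*} {G : SimpleGraph V} (hG : G.Connected) (r : V) (F : Finset V)
    (hF : F.Nonempty) : ∃ i, (∀ u ∈ F, ∀ w ∈ F, K G.Adj r i u w) ∧
      ¬ ∀ u ∈ F, ∀ w ∈ F, K G.Adj r (i + 1) u w := by
  by_contra hc
  push Not at hc
  have h0 : ∀ u ∈ F, ∀ w ∈ F, K G.Adj r 0 u w := by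
    intro u _ w _
    obtain ⟨p⟩ := hG.preconnected u w
    have : ∀ {x y : V} (p : G.Walk x y), K G.Adj r 0 x y := by
      intro x y p
      have hl : ∀ z, Lg G.Adj r 0 z := fun z j hj => absurd hj (Nat.not_lt_zero j)
      induction p with
      | nil => exact K.refl (hl _)
      | cons h p ih => exact (K.edge (hl _) (hl _) h).trans ih
    exact this p
  have h1 : ∀ i, ∀ u ∈ F, ∀ w ∈ F, K G.Adj r i u w := by
    intro i
    induction i with
    | zero => exact h0
    | succ i ih => exact hc i ih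
  obtain ⟨u, hu⟩ := hF
  have h2 := (lg_iff hG _ _).1 (h1 (G.dist r u + 1) u hu u hu).left
  omega

theorem decgD {x : RS B2} {G : SimpleGraph ℕ} (h : IsDH x G) (hG : G.Connected) (r : ℕ) :
    DecG (cD [r] x) := by
  classical
  refine ⟨fun i hi => absurd rfl hi, fun F hF => ?_⟩
  have hsym : ∀ u v, G.Adj u v → G.Adj v u := fun _ _ h => h.symm
  have hFne : F.Nonempty := by
    rw [← Finset.card_pos]
    omega
  obtain ⟨i, hi1, hi2⟩ := exists_top hG r F hFne
  -- it is enough to find a module for the sets of representatives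
  suffices hX : ∃ X ⊆ F, 1 < X.card ∧ X.card < F.card ∧ ∀ u ∈ X, ∀ v ∈ X, ∀ w ∈ F, w ∉ X →
      ¬ K G.Adj r (i + 1) u w ∧ ¬ K G.Adj r (i + 1) v w ∧
        Same G.Adj (fun u => {t | At G.Adj r i u t}) u v w by
    obtain ⟨X, k1, k2, k3, k4⟩ := hX
    refine ⟨X, k1, k2, k3, fun u hu v hv w hw hwX => ?_⟩
    obtain ⟨n1, n2, hS⟩ := k4 u hu v hv w hw hwX
    obtain ⟨e1, e2, e3, e4, e5, e6⟩ := same_rel hsym (hi1 u (k1 hu) w hw) n1
      (hi1 v (k1 hv) w hw) n2 hS
    have huw : u ≠ w := by rintro rfl; exact hwX hu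
    have hvw : v ≠ w := by rintro rfl; exact hwX hv
    have main : ∀ (j : ℕ), (rl (cD [r] x) j u w ↔ rl (cD [r] x) j v w) ∧
        (rl (cD [r] x) j w u ↔ rl (cD [r] x) j w v) := by
      intro j
      show (rl (mkS (cR r x)) j u w ↔ rl (mkS (cR r x)) j v w) ∧
        (rl (mkS (cR r x)) j w u ↔ rl (mkS (cR r x)) j w v)
      rw [rl_mk, rl_mk, rl_mk, rl_mk]
      match j with
      | 0 =>
        show (Sb (rl x 0) r u w ↔ Sb (rl x 0) r v w) ∧ (Sb (rl x 0) r w u ↔ Sb (rl x 0) r w v)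
        rw [edges_eq h]
        exact ⟨e1, e2⟩
      | 1 =>
        show (Aq (rl x 0) r u w ↔ Aq (rl x 0) r v w) ∧ (Aq (rl x 0) r w u ↔ Aq (rl x 0) r w v)
        rw [edges_eq h]
        exact ⟨e3, e4⟩
      | j + 2 =>
        show ((j % 2 = 0 ∧ K (rl x 0) r (j / 2) u w) ∨ (j % 2 = 1 ∧ u = w ∧ _) ↔
          (j % 2 = 0 ∧ K (rl x 0) r (j / 2) v w) ∨ (j % 2 = 1 ∧ v = w ∧ _)) ∧
          ((j % 2 = 0 ∧ K (rl x 0) r (j / 2) w u) ∨ (j % 2 = 1 ∧ w = u ∧ _) ↔
          (j % 2 = 0 ∧ K (rl x 0) r (j / 2) w v) ∨ (j % 2 = 1 ∧ w = v ∧ _))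
        rw [edges_eq h]
        exact ⟨or_congr (and_congr Iff.rfl (e5 _)) (and_congr Iff.rfl
            (iff_of_false (fun h => huw h.1) (fun h => hvw h.1))),
          or_congr (and_congr Iff.rfl (e6 _)) (and_congr Iff.rfl
            (iff_of_false (fun h => huw h.1.symm) (fun h => hvw h.1.symm)))⟩
    intro j
    show (if B2 j = 2 then cD [r] x j (p2 u w) else false) =
        (if B2 j = 2 then cD [r] x j (p2 v w) else false) ∧
      (if B2 j = 2 then cD [r] x j (p2 w u) else false) =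
        (if B2 j = 2 then cD [r] x j (p2 w v) else false)
    rw [if_pos rfl, if_pos rfl, if_pos rfl, if_pos rfl]
    exact ⟨Bool.eq_iff_iff.2 (main j).1, Bool.eq_iff_iff.2 (main j).2⟩
  by_cases hc : ∃ u ∈ F, ∃ v ∈ F, u ≠ v ∧ K G.Adj r (i + 1) u v
  · obtain ⟨u, hu, v, hv, huv, hK⟩ := hc
    refine ⟨F.filter (K G.Adj r (i + 1) u), Finset.filter_subset _ _, ?_, ?_, ?_⟩
    · exact Finset.one_lt_card.2 ⟨u, Finset.mem_filter.2 ⟨hu, K.refl hK.left⟩, v,
        Finset.mem_filter.2 ⟨hv, hK⟩, huv⟩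
    · refine Finset.card_lt_card (Finset.ssubset_iff_subset_ne.2 ⟨Finset.filter_subset _ _,
        fun he => hi2 fun a ha b hb => ?_⟩)
      rw [← he] at ha hb
      exact ((Finset.mem_filter.1 ha).2.symm hsym).trans (Finset.mem_filter.1 hb).2
    · intro a ha b hb w hw hwX
      have ha' := (Finset.mem_filter.1 ha).2
      have hb' := (Finset.mem_filter.1 hb).2
      refine ⟨fun h => hwX (Finset.mem_filter.2 ⟨hw, ha'.trans h⟩),
        fun h => hwX (Finset.mem_filter.2 ⟨hw, hb'.trans h⟩), same_of_eq _ _ _ ?_⟩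
      ext t
      exact at_congr hsym ((ha'.symm hsym).trans hb') t
  · push Not at hc
    have hlev : ∀ u ∈ F, i ≤ G.dist r u := fun u hu => (lg_iff hG _ _).1 (hi1 u hu u hu).left
    obtain ⟨X, k1, k2, k3, k4⟩ := family_module G.Adj hsym (fun u => G.irrefl) F hF
      (fun u => {t | At G.Adj r i u t}) (fun u hu => at_nonempty hG h.dh (hlev u hu))
      (fun u hu w hw huw => by
        rcases nested hG h.dh (hi1 u hu w hw) (hc u hu w hw huw) with h1 | h1 | h1
        · exact Or.inl h1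
        · exact Or.inr (Or.inl h1)
        · exact Or.inr (Or.inr (Set.disjoint_left.2 h1)))
      (fun u hu w hw huw hd t ht a ha b hb hta => homog hG h.dh (hlev u hu) (at_lv hG ht)
        ((hi1 u hu w hw).trans (at_K hG ht)) (fun h1 => Set.disjoint_left.1 hd h1 ht) ha hb hta)
      (fun x hx y hy z hz v hv a ha b hb c hc' d hd e1 e2 e3 n1 n2 n3 n4 =>
        no_p4 hG h.dh (at_lv hG ha) (at_lv hG hb) (at_lv hG hd)
          (((at_K hG ha).symm hsym).trans ((hi1 x hx v hv).trans (at_K hG hd))) e1 e2 e3 n1 n2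
          n3 n4)
    refine ⟨X, k1, k2, k3, fun u hu v hv w hw hwX => ⟨?_, ?_, k4 u hu v hv w hw hwX⟩⟩
    · exact hc u (k1 hu) w hw (by rintro rfl; exact hwX hu)
    · exact hc v (k1 hv) w hw (by rintro rfl; exact hwX hv)

/-- Connected distance-hereditary graphs. -/
theorem conn_mem {x : RS B2} {G : SimpleGraph ℕ} (h : IsDH x G) (hG : G.Connected) :
    PExp cD dD DecG x := ⟨[0], decgD h hG 0, decodeD h hG 0⟩

end Run7.h123.DH
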