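import Pool.Agent.Run7.h123.DhFO

set_option autoImplicit false

/-!
Deletion of vertices, and the form of the dichotomy for Borel classes of graphs.
-/

namespace Run7.h123.DH

open Set MeasureTheory
open Pool.Agent.H533R2.VO (RS RIso VC Dich)
open Pool.Agent.H533R2.VS
open Pool.Agent.N481.VT.PM (DefB FamU fs fs_surj)

variable {V : Type*} {G : SimpleGraph V} {P : Set V}

theorem walk_off {u v : V} (p : (offP G P).Walk u v) : ∀ (hu : u ∈ Pᶜ) (hv : v ∈ Pᶜ),
    ∃ q : (G.induce Pᶜ).Walk ⟨u, hu⟩ ⟨v, hv⟩, q.length = p.length := by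
  induction p with
  | nil => exact fun hu hv => ⟨SimpleGraph.Walk.nil, rfl⟩
  | @cons a b c h p ih =>
    intro hu hv
    obtain ⟨q, hq⟩ := ih h.2.2 hv
    have h1 : (G.induce Pᶜ).Adj ⟨a, hu⟩ ⟨b, h.2.2⟩ := h.1
    exact ⟨SimpleGraph.Walk.cons h1 q, by
      rw [SimpleGraph.Walk.length_cons, SimpleGraph.Walk.length_cons, hq]⟩

theorem off_eq {u v : V} (p : (offP G P).Walk u v) : u ∈ P → u = v := by
  cases p with
  | nil => exact fun _ => rfl
  | cons h p => exact fun hu => absurd hu h.2.1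

/-- The deletion of vertices and of the edges at these vertices. -/
theorem off_dh (h : DistanceHereditary (G.induce Pᶜ)) : DistanceHereditary (offP G P) := by
  intro S hS u v
  have hr : ∀ x y : S, (offP G P).Reachable x y := fun x y =>
    (hS.preconnected x y).map (SimpleGraph.Embedding.induce S).toHom
  refine le_antisymm ?_ (dist_hom_le (SimpleGraph.Embedding.induce S).toHom (hS.preconnected u v))
  by_cases hu : (u : V) ∈ P
  · have h1 : (u : V) = v := by
      obtain ⟨p⟩ := hr u v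
      exact off_eq p hu
    have h2 : u = v := Subtype.ext h1
    rw [h2, SimpleGraph.dist_self]
    exact Nat.zero_le _
  · have hSP : ∀ x : S, (x : V) ∈ Pᶜ := by
      intro x hx
      obtain ⟨p⟩ := hr x u
      exact hu (off_eq p hx ▸ hx)
    let S' : Set (Pᶜ : Set V) := {x | (x : V) ∈ S}
    let ψ : (offP G P).induce S →g (G.induce Pᶜ).induce S' :=
      ⟨fun x => ⟨⟨x, hSP x⟩, x.2⟩, fun h => h.1⟩
    let φ : (G.induce Pᶜ).induce S' →g (offP G P).induce S :=
      ⟨fun x => ⟨x.1, x.2⟩, fun {a b} h => ⟨h, a.1.2, b.1.2⟩⟩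
    have hψ : Function.Surjective ψ := by
      rintro ⟨⟨x, hx⟩, hs⟩
      exact ⟨⟨x, hs⟩, rfl⟩
    have hC : ((G.induce Pᶜ).induce S').Connected := hS.map ψ hψ
    have h1 : ((offP G P).induce S).dist u v ≤ ((G.induce Pᶜ).induce S').dist (ψ u) (ψ v) :=
      dist_hom_le φ (hC.preconnected (ψ u) (ψ v))
    have h2 := h S' hC (ψ u) (ψ v)
    have h3 : (G.induce Pᶜ).dist (ψ u : (Pᶜ : Set V)) (ψ v) ≤ (offP G P).dist u v := by
      obtain ⟨p, hp⟩ := (hr u v).exists_walk_length_eq_dist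
      obtain ⟨q, hq⟩ := walk_off p (hSP u) (hSP v)
      rw [← hp, ← hq]
      exact SimpleGraph.dist_le q
    exact h1.trans (h2.le.trans h3)

/-- The dichotomy for classes of graphs. -/
theorem graph_dichotomy (B : Set (ℕ → ℕ → Bool)) (hB : MeasurableSet B)
    (hi : ∀ x y : ℕ → ℕ → Bool, (∃ σ : Equiv.Perm ℕ, ∀ m n, y (σ m) (σ n) = x m n) →
      (x ∈ B ↔ y ∈ B))
    (hD : ∀ x ∈ B, ∃ H : SimpleGraph ℕ, (∀ m n, H.Adj m n ↔ x m n = true) ∧ AlmostDH H) :
    (∃ f : ℕ → ℕ → ℕ → Bool, ∀ x ∈ B, ∃ n, ∃ σ : Equiv.Perm ℕ, ∀ k l, x (σ k) (σ l) = f n k l) ∨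
    (∃ g : (ℕ → Bool) → ℕ → ℕ → Bool, Continuous g ∧ (∀ c, g c ∈ B) ∧
      ∀ c d, (∃ σ : Equiv.Perm ℕ, ∀ k l, g d (σ k) (σ l) = g c k l) → c = d) := by
  let F : RS B2 → ℕ → ℕ → Bool := fun x m n => x 0 (p2 m n)
  have hF : Continuous F := continuous_pi fun m => continuous_pi fun n =>
    (continuous_apply (p2 m n)).comp (continuous_apply 0)
  let E : (ℕ → ℕ → Bool) → RS B2 := fun y i v => if i = 0 then y (v 0) (v 1) else false
  have hFE : ∀ y, F (E y) = y := fun y => rfl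
  let B' : Set (RS B2) := {x | F x ∈ B ∧ E (F x) = x}
  have hE : Measurable fun x => E (F x) := by
    refine measurable_pi_iff.2 fun i => measurable_pi_iff.2 fun v => ?_
    by_cases h0 : i = 0
    · have e : (fun x => E (F x) i v) = fun x => x 0 (p2 (v 0) (v 1)) := by
        funext x
        show (if i = 0 then _ else _) = _
        rw [if_pos h0]
      rw [e]
      exact (measurable_pi_apply (p2 (v 0) (v 1))).comp (measurable_pi_apply 0)
    · have e : (fun x => E (F x) i v) = fun _ => false := by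
        funext x
        show (if i = 0 then _ else _) = _
        rw [if_neg h0]
      rw [e]
      exact measurable_const
  have hB' : MeasurableSet B' := (hF.measurable hB).inter (measurableSet_eq_fun hE measurable_id)
  have hiF : ∀ (x y : RS B2) (σ : Equiv.Perm ℕ), (∀ i (v : Fin (B2 i) → ℕ), y i (⇑σ ∘ v) = x i v) →
      ∀ m n, F y (σ m) (σ n) = F x m n := by
    intro x y σ h m n
    show y 0 (p2 (σ m) (σ n)) = x 0 (p2 m n)
    rw [nis_p2 (⇑σ)]
    exact h 0 _
  have key : ∀ x y : RS B2, RIso x y → x ∈ B' → y ∈ B' := by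
    rintro x y ⟨σ, h⟩ ⟨h1, h2⟩
    refine ⟨(hi _ _ ⟨σ, hiF x y σ h⟩).1 h1, ?_⟩
    funext i v
    have e : ⇑σ ∘ ⇑σ.symm ∘ v = v := by
      funext j
      simp
    by_cases h0 : i = 0
    · show (if i = 0 then y 0 (p2 (v 0) (v 1)) else false) = y i v
      subst h0
      rw [if_pos rfl, show (p2 (v 0) (v 1) : Fin 2 → ℕ) = v from p2_eta v]
    · show (if i = 0 then y 0 (p2 (v 0) (v 1)) else false) = y i v
      rw [if_neg h0, ← e, h i, ← h2]
      show _ = if i = 0 then _ else false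
      rw [if_neg h0]
  have hsymm : ∀ x y : RS B2, RIso x y → RIso y x := by
    rintro x y ⟨σ, h⟩
    refine ⟨σ.symm, fun i v => ?_⟩
    rw [← h]
    congr 1
    funext j
    simp
  have hG : DefB (fun (_ : List ℕ) (x : RS B2) m n => rl x 0 m n) :=
    ⟨fun p m n => ms_rl 0 m n, fun p x σ m n => by rw [rl_act]; simp⟩
  have hQ : FamU (fun (_ : ℕ) (_ : List ℕ) (_ : RS B2) (_ : ℕ) => False) :=
    ⟨fun k p m => ms_const _, fun k p x σ m => Iff.rfl⟩
  rcases vc_WG (fun _ : ℕ => hG) hQ B' hB' (fun x y h => ⟨key x y h, key y x (hsymm x y h)⟩)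
    (fun x hx => by
      obtain ⟨h1, h2⟩ := hx
      obtain ⟨H, h3, h4⟩ := hD _ h1
      refine ⟨0, [], H, fun m n => h3 m n, h4, fun i => ⟨{0}, fun v w hvw hv => ?_⟩⟩
      rw [← h2] at hv ⊢
      show (if i = 0 then F x (w 0) (w 1) else false) = true
      have hv' : (if i = 0 then F x (v 0) (v 1) else false) = true := hv
      by_cases h0 : i = 0
      · rw [if_pos h0] at hv' ⊢
        exact (hvw 0 (Finset.mem_singleton_self 0) 0 1).1 hv'
      · rw [if_neg h0] at hv'
        exact absurd hv' Bool.false_ne_true) with ⟨f, hf⟩ | ⟨g, hg, hgB, hgi⟩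
  · left
    refine ⟨fun n => F (f n), fun x hx => ?_⟩
    obtain ⟨n, σ, hσ⟩ := hf (E x) ⟨by rw [hFE]; exact hx, by rw [hFE]⟩
    exact ⟨n, σ, fun k l => hiF (f n) (E x) σ hσ k l⟩
  · right
    refine ⟨fun c => F (g c), hF.comp hg, fun c => (hgB c).1, fun c d ⟨σ, h⟩ => ?_⟩
    refine hgi c d ⟨σ, fun i v => ?_⟩
    rw [← (hgB c).2, ← (hgB d).2]
    show (if i = 0 then F (g d) (σ (v 0)) (σ (v 1)) else false) =
      if i = 0 then F (g c) (v 0) (v 1) else false
    by_cases h0 : i = 0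
    · rw [if_pos h0, if_pos h0]
      exact h _ _
    · rw [if_neg h0, if_neg h0]

end Run7.h123.DH
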