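import Pool.Agent.Run7.h123.DhSum
import Pool.Agent.N481.VT.PmFO

set_option autoImplicit false

/-!
Structures with arbitrary arities whose relations are determined by a definable binary relation,
equality and definable sets.
-/

namespace Run7.h123.DH

open Set MeasureTheory
open Pool.Agent.H533R2.VO (RS RIso VC Dich)
open Pool.Agent.H533R2.VS
open Pool.Agent.TH425.FF (PCanon PExp pexp_vcu pexp_coan pexp_inv cun_vcu)
open Pool.Agent.N481.VT.PM (DefB FamU fs fs_surj)

variable {a : ℕ → ℕ}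

/-- The relations that may be used: the binary relation, equality and the sets. -/
def EE (G : ℕ → ℕ → Prop) (Q : ℕ → ℕ → Prop) : ℕ → ℕ → ℕ → Prop
  | 0, m, n => G m n
  | 1, m, n => m = n
  | j + 2, m, _ => Q j m

theorem ee_nat (τ : Equiv.Perm ℕ) {G G' Q Q' : ℕ → ℕ → Prop}
    (hG : ∀ m n, G' m n ↔ G (τ m) (τ n)) (hQ : ∀ j m, Q' j m ↔ Q j (τ m)) (j m n : ℕ) :
    EE G' Q' j m n ↔ EE G Q j (τ m) (τ n) := by
  match j with
  | 0 => exact hG m n
  | 1 => exact τ.injective.eq_iff.symm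
  | j + 2 => exact hQ j m

/-- The relation number `i` of `x` is determined by the relations `E j`, `j ∈ J`. -/
def Dt (E : ℕ → ℕ → ℕ → Prop) (x : RS a) (i : ℕ) (J : Finset ℕ) : Prop :=
  ∀ v w : Fin (a i) → ℕ, (∀ j ∈ J, ∀ s t, E j (v s) (v t) ↔ E j (w s) (w t)) →
    x i v = true → x i w = true

/-- The pattern `C` for the relations in `J` implies the relation number `i`. -/
def Pt (E : ℕ → ℕ → ℕ → Prop) (x : RS a) (i : ℕ) (J C : Finset ℕ) : Prop :=
  ∀ v : Fin (a i) → ℕ,
    (∀ j ∈ J, ∀ s t : Fin (a i), E j (v s) (v t) ↔ Nat.pair j (Nat.pair s t) ∈ C) → x i v = true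

/-- The relations of the code. -/
def gR (G : ℕ → ℕ → Prop) (Q : ℕ → ℕ → Prop) (x : RS a) : ℕ → ℕ → ℕ → Prop
  | 0, u, w => G u w
  | 1, _, _ => False
  | (j + 2), u, w => u = w ∧ ((j % 2 = 0 ∧ Q (j / 2) u) ∨
      (j % 2 = 1 ∧ Pt (EE G Q) x (j / 2).unpair.1 (fs (j / 2).unpair.2.unpair.1)
        (fs (j / 2).unpair.2.unpair.2)))

/-- Decoding. -/
def gD (z : RS B2) (i : ℕ) (v : Fin (a i) → ℕ) : Prop :=
  ∃ J C u, rl z (2 * Nat.pair i (Nat.pair J C) + 3) u u ∧
    ∀ j ∈ fs J, ∀ s t : Fin (a i), EE (rl z 0) (fun j m => rl z (2 * j + 2) m m) j (v s) (v t) ↔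
      Nat.pair j (Nat.pair s t) ∈ fs C

open Classical in
/-- The decoded structure. -/
noncomputable def gd : List ℕ → RS B2 → RS a := fun _ z i v => decide (gD z i v)

theorem gd_iff (p : List ℕ) (z : RS B2) (i : ℕ) (v : Fin (a i) → ℕ) :
    (gd p z : RS a) i v = true ↔ gD z i v := by
  classical
  exact decide_eq_true_iff

theorem ms_iff {X : Type*} [MeasurableSpace X] {P Q : X → Prop} (h1 : MeasurableSet {x | P x})
    (h2 : MeasurableSet {x | Q x}) : MeasurableSet {x | P x ↔ Q x} := by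
  have e : {x | P x ↔ Q x} = {x | (P x → Q x) ∧ (Q x → P x)} := by
    ext x
    exact iff_def
  rw [e]
  exact ms_and (ms_imp h1 h2) (ms_imp h2 h1)

theorem ms_ee {X : Type*} [MeasurableSpace X] {G : X → ℕ → ℕ → Prop} {Q : X → ℕ → ℕ → Prop}
    (hG : ∀ m n, MeasurableSet {x | G x m n}) (hQ : ∀ j m, MeasurableSet {x | Q x j m})
    (j m n : ℕ) : MeasurableSet {x | EE (G x) (Q x) j m n} := by
  match j with
  | 0 => exact hG m n
  | 1 => exact ms_const _
  | j + 2 => exact hQ j m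

theorem ms_val (i : ℕ) (v : Fin (a i) → ℕ) : MeasurableSet {x : RS a | x i v = true} := by
  have h : Measurable fun x : RS a => x i v :=
    (measurable_pi_apply v).comp (measurable_pi_apply i)
  exact h (measurableSet_singleton true)

theorem ms_pt {G : RS a → ℕ → ℕ → Prop} {Q : RS a → ℕ → ℕ → Prop}
    (hG : ∀ m n, MeasurableSet {x | G x m n}) (hQ : ∀ j m, MeasurableSet {x | Q x j m})
    (i : ℕ) (J C : Finset ℕ) : MeasurableSet {x | Pt (EE (G x) (Q x)) x i J C} :=
  ms_all fun v => ms_imp (ms_all fun j => ms_imp (ms_const _) (ms_all fun s => ms_all fun t =>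
    ms_iff (ms_ee hG hQ _ _ _) (ms_const _))) (ms_val i v)

theorem meas_mk' {X : Type*} [MeasurableSpace X] {R : X → ℕ → ℕ → ℕ → Prop}
    (h : ∀ i u w, MeasurableSet {x | R x i u w}) : Measurable fun x => mkS (R x) := by
  refine measurable_pi_iff.2 fun i => measurable_pi_iff.2 fun v => ms_bool ?_
  have h1 := h i (v 0) (v 1)
  have h2 : {x | mkS (R x) i v = true} = {x | R x i (v 0) (v 1)} := by
    ext x
    exact mk_iff (R x) i v
  rw [h2]
  exact h1

theorem pt_nat (τ : Equiv.Perm ℕ) {E E' : ℕ → ℕ → ℕ → Prop}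
    (hE : ∀ j m n, E' j m n ↔ E j (τ m) (τ n)) {x x' : RS a}
    (hx : ∀ i (v : Fin (a i) → ℕ), x' i v = x i (⇑τ ∘ v)) (i : ℕ) (J C : Finset ℕ) :
    Pt E' x' i J C ↔ Pt E x i J C := by
  constructor
  · intro h v hv
    have h1 := h (⇑τ.symm ∘ v) (fun j hj s t => by
      rw [hE, ← hv j hj s t]
      simp)
    rw [hx] at h1
    have e : (⇑τ ∘ ⇑τ.symm ∘ v) = v := by
      funext j
      simp
    rw [e] at h1
    exact h1
  · intro h v hv
    rw [hx]
    refine h _ fun j hj s t => ?_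
    rw [← hv j hj s t, hE]
    exact Iff.rfl

section coding

variable {G : List ℕ → RS a → ℕ → ℕ → Prop} {Q : ℕ → List ℕ → RS a → ℕ → Prop}

theorem act_comp (σ : Equiv.Perm ℕ) (x : RS a) : act σ.symm (act σ x) = x := by
  funext i v
  unfold act
  congr 1
  funext j
  simp

/-- The code. -/
noncomputable def gc (G : List ℕ → RS a → ℕ → ℕ → Prop) (Q : ℕ → List ℕ → RS a → ℕ → Prop) :
    List ℕ → RS a → RS B2 := fun p x => mkS (gR (G p x) (fun j => Q j p x) x)

theorem canonG (hG : DefB G) (hQ : FamU Q) : PCanon (gc G Q) (gd : List ℕ → RS B2 → RS a) where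
  meas := by
    intro p
    refine meas_mk' fun i u w => ?_
    match i with
    | 0 => exact hG.meas p u w
    | 1 => exact ms_const _
    | j + 2 =>
      exact ms_and (ms_const _) (ms_or (ms_and (ms_const _) (hQ.meas _ p u))
        (ms_and (ms_const _) (ms_pt (fun m n => hG.meas p m n) (fun j m => hQ.meas j p m) _ _ _)))
  dmeas := by
    intro p
    refine measurable_pi_iff.2 fun i => measurable_pi_iff.2 fun v => ms_bool ?_
    have e : {z : RS B2 | (gd p z : RS a) i v = true} = {z | gD (a := a) z i v} := by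
      ext z
      exact gd_iff p z i v
    rw [e]
    exact ms_ex fun J => ms_ex fun C => ms_ex fun u => ms_and (ms_rl _ _ _) (ms_all fun j =>
      ms_imp (ms_const _) (ms_all fun s => ms_all fun t => ms_iff
        (ms_ee (fun m n => ms_rl 0 m n) (fun j m => ms_rl _ m m) _ _ _) (ms_const _)))
  cact := by
    intro σ p x
    refine act_mk σ fun i u w => ?_
    have h1 : ∀ m n, G (p.map σ) (act σ x) m n ↔ G p x (σ.symm m) (σ.symm n) := by
      intro m n
      rw [← hG.equi p x σ, σ.apply_symm_apply, σ.apply_symm_apply]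
    have h2 : ∀ j m, Q j (p.map σ) (act σ x) m ↔ Q j p x (σ.symm m) := by
      intro j m
      rw [← hQ.equi j p x σ, σ.apply_symm_apply]
    match i with
    | 0 => exact h1 u w
    | 1 => exact Iff.rfl
    | j + 2 =>
      refine and_congr (σ.symm.injective.eq_iff).symm (or_congr (and_congr Iff.rfl (h2 _ u))
        (and_congr Iff.rfl ?_))
      exact pt_nat σ.symm (fun j m n => ee_nat σ.symm h1 h2 j m n) (fun i v => rfl) _ _ _
  dact := by
    intro σ p z
    funext i v
    rw [Bool.eq_iff_iff, gd_iff]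
    show _ ↔ (gd p z : RS a) i (⇑σ.symm ∘ v) = true
    rw [gd_iff]
    unfold gD
    refine exists_congr fun J => exists_congr fun C => ?_
    refine ex_nat σ.symm fun u => and_congr (rl_act σ z _ u u) ?_
    refine forall_congr' fun j => forall_congr' fun hj => forall_congr' fun s =>
      forall_congr' fun t => ?_
    rw [ee_nat σ.symm (Q := fun j m => rl z (2 * j + 2) m m) (fun m n => rl_act σ z 0 m n)
      (fun j m => rl_act σ z _ m m)]
    exact Iff.rfl

/-- The code determines the structure. -/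
theorem gd_gc {g : ℕ → ℕ → Prop} {q : ℕ → ℕ → Prop} {x : RS a} (p : List ℕ)
    (h : ∀ i, ∃ J, Dt (EE g q) x i J) : gd p (mkS (gR g q x)) = x := by
  have h0 : ∀ j m n, EE (rl (mkS (gR g q x)) 0)
      (fun j m => rl (mkS (gR g q x)) (2 * j + 2) m m) j m n ↔ EE g q j m n := by
    intro j m n
    match j with
    | 0 => exact rl_mk _ _ _ _
    | 1 => exact Iff.rfl
    | j + 2 =>
      show rl (mkS (gR g q x)) (2 * j + 2) m m ↔ q j m
      rw [rl_mk]
      show (m = m ∧ (((2 * j) % 2 = 0 ∧ q (2 * j / 2) m) ∨ ((2 * j) % 2 = 1 ∧ _))) ↔ _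
      rw [show 2 * j / 2 = j by omega]
      constructor
      · rintro ⟨_, ⟨_, h1⟩ | ⟨h1, _⟩⟩
        · exact h1
        · omega
      · exact fun h1 => ⟨rfl, Or.inl ⟨by omega, h1⟩⟩
  have h1 : ∀ i J C u, rl (mkS (gR g q x)) (2 * Nat.pair i (Nat.pair J C) + 3) u u ↔
      Pt (EE g q) x i (fs J) (fs C) := by
    intro i J C u
    rw [show 2 * Nat.pair i (Nat.pair J C) + 3 = (2 * Nat.pair i (Nat.pair J C) + 1) + 2 by omega,
      rl_mk]
    show (u = u ∧ (((2 * Nat.pair i (Nat.pair J C) + 1) % 2 = 0 ∧ _) ∨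
      ((2 * Nat.pair i (Nat.pair J C) + 1) % 2 = 1 ∧
        Pt (EE g q) x ((2 * Nat.pair i (Nat.pair J C) + 1) / 2).unpair.1
          (fs ((2 * Nat.pair i (Nat.pair J C) + 1) / 2).unpair.2.unpair.1)
          (fs ((2 * Nat.pair i (Nat.pair J C) + 1) / 2).unpair.2.unpair.2)))) ↔ _
    rw [show (2 * Nat.pair i (Nat.pair J C) + 1) / 2 = Nat.pair i (Nat.pair J C) by omega,
      Nat.unpair_pair]
    simp only [Nat.unpair_pair]
    constructor
    · rintro ⟨_, ⟨h1, _⟩ | ⟨_, h1⟩⟩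
      · omega
      · exact h1
    · exact fun h1 => ⟨trivial, Or.inr ⟨by omega, h1⟩⟩
  funext i v
  rw [Bool.eq_iff_iff, gd_iff]
  unfold gD
  constructor
  · rintro ⟨J, C, u, h2, h3⟩
    rw [h1] at h2
    exact h2 v fun j hj s t => (h0 _ _ _).symm.trans (h3 j hj s t)
  · intro hv
    classical
    obtain ⟨J, hJ⟩ := h i
    obtain ⟨J', hJ'⟩ := fs_surj J
    obtain ⟨C', hC'⟩ := fs_surj ((J ×ˢ (Finset.univ : Finset (Fin (a i) × Fin (a i)))).filter
      (fun w => EE g q w.1 (v w.2.1) (v w.2.2)) |>.image fun w =>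
        Nat.pair w.1 (Nat.pair w.2.1 w.2.2))
    have hC : ∀ j ∈ J, ∀ s t : Fin (a i),
        (EE g q j (v s) (v t) ↔ Nat.pair j (Nat.pair s t) ∈ fs C') := by
      intro j hj s t
      rw [hC', Finset.mem_image]
      constructor
      · intro h3
        exact ⟨(j, (s, t)), Finset.mem_filter.2 ⟨Finset.mem_product.2 ⟨hj, Finset.mem_univ _⟩,
          h3⟩, rfl⟩
      · rintro ⟨⟨j', s', t'⟩, h3, h4⟩
        rw [Finset.mem_filter] at h3
        have h5 := Nat.pair_eq_pair.1 h4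
        have h6 := Nat.pair_eq_pair.1 h5.2
        have e1 : j' = j := h5.1
        have e2 : s' = s := Fin.ext h6.1
        have e3 : t' = t := Fin.ext h6.2
        subst e1 e2 e3
        exact h3.2
    refine ⟨J', C', 0, ?_, fun j hj s t => ?_⟩
    · rw [h1, hJ']
      exact fun w hw => hJ v w (fun j hj s t => (hC j hj s t).trans (hw j hj s t).symm) hv
    · rw [hJ'] at hj
      exact (h0 _ _ _).trans (hC j hj s t)

end coding

/-- The class of the structures which, for some index and some parameters, are determined by a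
structure in `V`. -/
def WD (G : ℕ → List ℕ → RS a → ℕ → ℕ → Prop) (Q : ℕ → List ℕ → RS a → ℕ → Prop)
    (V : RS B2 → Prop) (x : RS a) : Prop :=
  ∃ k, PExp (gc (G k) Q) (gd : List ℕ → RS B2 → RS a) V x

theorem vcu_WD {G : ℕ → List ℕ → RS a → ℕ → ℕ → Prop} {Q : ℕ → List ℕ → RS a → ℕ → Prop}
    {V : RS B2 → Prop} (hG : ∀ k, DefB (G k)) (hQ : FamU Q) (h1 : VCu V) (h2 : Coan V)
    (h3 : Inv V) : VCu (WD G Q V) :=
  cun_vcu _ (fun k => pexp_vcu (canonG (hG k) hQ) h1 h2 h3)
    (fun k => pexp_coan (canonG (hG k) hQ) h2) (fun k => pexp_inv (canonG (hG k) hQ) h3)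

/-- The graph becomes distance-hereditary after the deletion of finitely many vertices. -/
def AlmostDH (G : SimpleGraph ℕ) : Prop := ∃ P : Set ℕ, P.Finite ∧ DistanceHereditary (offP G P)

/-- The class of the theorem. -/
def WG (G : ℕ → List ℕ → RS a → ℕ → ℕ → Prop) (Q : ℕ → List ℕ → RS a → ℕ → Prop)
    (x : RS a) : Prop :=
  ∃ (k : ℕ) (p : List ℕ) (H : SimpleGraph ℕ), (∀ m n, H.Adj m n ↔ G k p x m n) ∧ AlmostDH H ∧
    ∀ i, ∃ J : Finset ℕ, Dt (EE (G k p x) fun j => Q j p x) x i J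

theorem vc_WG {G : ℕ → List ℕ → RS a → ℕ → ℕ → Prop} {Q : ℕ → List ℕ → RS a → ℕ → Prop}
    (hG : ∀ k, DefB (G k)) (hQ : FamU Q) : VC (WG G Q) := by
  intro B hB hi hV
  refine vs_plain _ _ (vcu_WD hG hQ vc3 vc3_coan vc3_inv) B hB hi fun x hx => ?_
  obtain ⟨k, p, H, h1, ⟨P, hP, hD⟩, h2⟩ := hV x hx
  refine ⟨k, p, almost_mem (G := H) ⟨fun u w => ?_, fun u w => ?_, fun j u w => ?_⟩ P hP hD,
    gd_gc p h2⟩
  · show rl (mkS (gR (G k p x) (fun j => Q j p x) x)) 0 u w ↔ _
    rw [rl_mk, h1]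
    exact Iff.rfl
  · show ¬ rl (mkS (gR (G k p x) (fun j => Q j p x) x)) 1 u w
    rw [rl_mk]
    exact fun h => h
  · show rl (mkS (gR (G k p x) (fun j => Q j p x) x)) (j + 2) u w → _
    rw [rl_mk]
    exact fun h => h.1

end Run7.h123.DH
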