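import Pool.Agent.Run7.h123.DhDet

set_option autoImplicit false

/-!
First-order theories whose models are determined by a definable distance-hereditary graph and
definable sets.
-/

namespace Run7.h123.DH

open Set MeasureTheory FirstOrder FirstOrder.Language
open Pool.Agent.H533R2.VO (RS RIso VC Dich)
open Pool.Agent.H533R2.VS
open Pool.Agent.N481.VT.PM (DefB FamU fs fs_surj)
open Pool.Agent.N481.VT.FO

variable {L : FirstOrder.Language.{0, 0}}

/-- **The first-order form.** -/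
theorem dh_dichotomy [L.IsRelational] (hc : Countable (Σ n, L.Relations n)) (T : L.Theory)
    (hT : ∀ S : L.Structure ℕ, @Theory.Model L ℕ S T →
      ∃ (k : ℕ) (p : Fin k → ℕ) (Q : L.Formula (Fin k ⊕ Fin 1) → ℕ → Prop)
        (φ : L.Formula (Fin k ⊕ Fin 2)) (H : SimpleGraph ℕ),
        (∀ u v, H.Adj u v ↔ @Formula.Realize L ℕ S _ φ (Sum.elim p ![u, v])) ∧
        (∀ ψ u, Q ψ u ↔ @Formula.Realize L ℕ S _ ψ (Sum.elim p ![u])) ∧ AlmostDH H ∧
        ∀ (n : ℕ) (R : L.Relations n), ∃ J : Finset (L.Formula (Fin k ⊕ Fin 1)),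
          ∀ v w : Fin n → ℕ,
            (∀ s t, (v s = v t ↔ w s = w t) ∧ (H.Adj (v s) (v t) ↔ H.Adj (w s) (w t))) →
            (∀ ψ ∈ J, ∀ s, Q ψ (v s) ↔ Q ψ (w s)) →
            @Structure.RelMap L ℕ S n R v → @Structure.RelMap L ℕ S n R w) :
    (∃ g : ℕ → L.Structure ℕ, ∀ S : L.Structure ℕ, @Theory.Model L ℕ S T →
        ∃ n : ℕ, Nonempty (@FirstOrder.Language.Equiv L ℕ ℕ S (g n))) ∨
    (∃ f : (ℕ → Bool) → L.Structure ℕ, (∀ x : ℕ → Bool, @Theory.Model L ℕ (f x) T) ∧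
      (∀ x y : ℕ → Bool, Nonempty (@FirstOrder.Language.Equiv L ℕ ℕ (f x) (f y)) → x = y) ∧
      (∀ (n : ℕ) (R : L.Relations n) (a : Fin n → ℕ),
        IsClopen {x : ℕ → Bool | @Structure.RelMap L ℕ (f x) n R a})) := by
  classical
  have hne : Nonempty (Option (Σ n, L.Relations n)) := ⟨none⟩
  obtain ⟨e, he⟩ := exists_surjective_nat (Option (Σ n, L.Relations n))
  have hF2c := countable_formula hc 2
  have hF1c := countable_formula hc 1
  have hF2n : Nonempty (Σ n, L.Formula (Fin n ⊕ Fin 2)) := ⟨⟨0, ⊥⟩⟩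
  have hF1n : Nonempty (Σ n, L.Formula (Fin n ⊕ Fin 1)) := ⟨⟨0, ⊥⟩⟩
  obtain ⟨F2, hF2⟩ := exists_surjective_nat (Σ n, L.Formula (Fin n ⊕ Fin 2))
  obtain ⟨F1, hF1⟩ := exists_surjective_nat (Σ n, L.Formula (Fin n ⊕ Fin 1))
  have hfam := fam_FD e he F2
  have hD : ∀ k, DefB (FD e he F2 k) := fun k => ⟨hfam.meas k, hfam.equi k⟩
  refine dichotomy_gen hc T e he (WG (FD e he F2) (FU e he F1))
    (vc_WG hD (fam_FU e he F1)) fun S hS => ?_
  obtain ⟨k, p, Q, φ, H, hH, hQ1, hA, hR⟩ := hT S hS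
  choose g1 hg1 using fun ψ : L.Formula (Fin k ⊕ Fin 1) => hF1 ⟨k, ψ⟩
  obtain ⟨g2, hg2⟩ := hF2 ⟨k, φ⟩
  have kD : ∀ u v, FD e he F2 g2 (List.ofFn p) (enc e S) u v ↔ H.Adj u v := by
    intro u v
    rw [hH]
    unfold FD
    rw [dec_enc]
    exact fd_key S k φ p u v _ hg2
  have kQ : ∀ ψ u, FU e he F1 (g1 ψ) (List.ofFn p) (enc e S) u ↔ Q ψ u := by
    intro ψ u
    rw [hQ1]
    unfold FU
    rw [dec_enc]
    exact fu_key S k ψ p u _ (hg1 ψ)
  refine ⟨g2, List.ofFn p, H, fun m n => (kD m n).symm, hA, fun i => ?_⟩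
  have key : ∀ o : Option (Σ n, L.Relations n), ∃ J : Finset (L.Formula (Fin k ⊕ Fin 1)),
      ∀ v w : Fin (ar o) → ℕ,
        (∀ s t, (v s = v t ↔ w s = w t) ∧ (H.Adj (v s) (v t) ↔ H.Adj (w s) (w t))) →
        (∀ ψ ∈ J, ∀ s, Q ψ (v s) ↔ Q ψ (w s)) → evr S o v = true → evr S o w = true := by
    intro o
    cases o with
    | none => exact ⟨∅, fun v w _ _ h => h⟩
    | some j =>
      obtain ⟨J, h1⟩ := hR j.1 j.2
      exact ⟨J, fun v w h2 h3 h4 => decide_eq_true (h1 v w h2 h3 (of_decide_eq_true h4))⟩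
  obtain ⟨J, hJ⟩ := key (e i)
  refine ⟨{0, 1} ∪ J.image fun ψ => g1 ψ + 2, fun v w hvw hv => ?_⟩
  refine hJ v w (fun s t => ⟨?_, ?_⟩) (fun ψ hψ s => ?_) hv
  · exact hvw 1 (Finset.mem_union_left _ (by simp)) s t
  · have h1 := hvw 0 (Finset.mem_union_left _ (by simp)) s t
    have h2 : (FD e he F2 g2 (List.ofFn p) (enc e S) (v s) (v t) ↔
      FD e he F2 g2 (List.ofFn p) (enc e S) (w s) (w t)) := h1
    rw [kD, kD] at h2
    exact h2
  · have h1 := hvw (g1 ψ + 2) (Finset.mem_union_right _ (Finset.mem_image_of_mem _ hψ)) s s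
    have h2 : (FU e he F1 (g1 ψ) (List.ofFn p) (enc e S) (v s) ↔
      FU e he F1 (g1 ψ) (List.ofFn p) (enc e S) (w s)) := h1
    rw [kQ, kQ] at h2
    exact h2

end Run7.h123.DH
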