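import Pool.Agent.Run7.h123.DhDec

set_option autoImplicit false

/-!
Distance-hereditary graphs, connected or not, with finitely many exceptional vertices.
-/

namespace Run7.h123.DH

open Set MeasureTheory
open Pool.Agent.H533R2.VO (RS RIso VC Dich)
open Pool.Agent.H533R2.VS
open Pool.Agent.TH425.FF (PCanon PExp pexp_vcu pexp_coan pexp_inv)

theorem dist_hom_le {A : Type*} {B : Type*} {G1 : SimpleGraph A} {G2 : SimpleGraph B}
    (φ : G1 →g G2) {a b : A} (h : G1.Reachable a b) : G2.dist (φ a) (φ b) ≤ G1.dist a b := by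
  obtain ⟨p, hp⟩ := h.exists_walk_length_eq_dist
  have := SimpleGraph.dist_le (p.map φ)
  rw [SimpleGraph.Walk.length_map, hp] at this
  exact this

section Comap

variable {V W : Type*}

/-- Induced subgraphs of distance-hereditary graphs are distance-hereditary. -/
theorem dh_comap {G : SimpleGraph V} (hD : DistanceHereditary G) (f : W → V)
    (hf : Function.Injective f) : DistanceHereditary (G.comap f) := by
  intro S hS u v
  have hr : ((G.comap f).induce S).Reachable u v := hS.preconnected u v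
  -- the three comparisons
  have h1 : (G.comap f).dist u v ≤ ((G.comap f).induce S).dist u v :=
    dist_hom_le (SimpleGraph.Embedding.induce S).toHom hr
  have hr2 : (G.comap f).Reachable (u : W) v := hr.map (SimpleGraph.Embedding.induce S).toHom
  have h2 : G.dist (f u) (f v) ≤ (G.comap f).dist u v :=
    dist_hom_le (⟨f, fun h => h⟩ : G.comap f →g G) hr2
  let ψ : (G.comap f).induce S →g G.induce (f '' S) :=
    ⟨fun x => ⟨f x, x, x.2, rfl⟩, fun h => h⟩
  have hψ : Function.Surjective ψ := by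
    rintro ⟨_, x, hx, rfl⟩
    exact ⟨⟨x, hx⟩, rfl⟩
  have hC : (G.induce (f '' S)).Connected := hS.map ψ hψ
  have hch : ∀ x : (f '' S : Set V), ∃ y : S, f y = x := by
    rintro ⟨_, x, hx, rfl⟩
    exact ⟨⟨x, hx⟩, rfl⟩
  choose g hg using hch
  let φ : G.induce (f '' S) →g (G.comap f).induce S := ⟨g, fun {a b} h => by
    show G.Adj (f (g a)) (f (g b))
    rw [hg, hg]
    exact h⟩
  have hφ : ∀ x : S, φ (ψ x) = x := by
    intro x
    apply Subtype.ext
    apply hf
    exact hg (ψ x)
  have h3 : ((G.comap f).induce S).dist u v ≤ (G.induce (f '' S)).dist (ψ u) (ψ v) := by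
    have := dist_hom_le φ (hC.preconnected (ψ u) (ψ v))
    rwa [hφ, hφ] at this
  have h4 : (G.induce (f '' S)).dist (ψ u) (ψ v) = G.dist (f u) (f v) := hD _ hC (ψ u) (ψ v)
  omega

end Comap

/-- Connectivity. -/
def Cn (E : ℕ → ℕ → Prop) (u w : ℕ) : Prop := ∃ n, Wk E u n w

theorem cn_iff {G : SimpleGraph ℕ} (u w : ℕ) : Cn G.Adj u w ↔ G.Reachable u w := by
  constructor
  · rintro ⟨n, hn⟩
    obtain ⟨p, _⟩ := (wk_iff n w).1 hn
    exact ⟨p⟩
  · rintro ⟨p⟩
    exact ⟨p.length, (wk_iff _ _).2 ⟨p, rfl⟩⟩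

/-- The relations with the connectivity relation added. -/
def c2R (x : RS B2) : ℕ → ℕ → ℕ → Prop
  | 0, u, w => rl x 0 u w
  | 1, u, w => Cn (rl x 0) u w
  | (j + 2), u, w => rl x (j + 2) u w

/-- The relations without the connectivity relation. -/
def d2R (z : RS B2) : ℕ → ℕ → ℕ → Prop
  | 0, u, w => rl z 0 u w
  | 1, _, _ => False
  | (j + 2), u, w => rl z (j + 2) u w

noncomputable def c2 : List ℕ → RS B2 → RS B2 := fun _ x => mkS (c2R x)
noncomputable def d2 : List ℕ → RS B2 → RS B2 := fun _ z => mkS (d2R z)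

theorem canon2 : PCanon c2 d2 where
  meas := by
    intro p
    refine meas_mk fun i u w => ?_
    match i with
    | 0 => exact ms_rl _ _ _
    | 1 => exact ms_ex fun n => ms_wk (fun u w => ms_rl 0 u w) n w
    | j + 2 => exact ms_rl _ _ _
  dmeas := by
    intro p
    refine meas_mk fun i u w => ?_
    match i with
    | 0 => exact ms_rl _ _ _
    | 1 => exact ms_const _
    | j + 2 => exact ms_rl _ _ _
  cact := by
    intro σ p x
    refine act_mk σ fun i u w => ?_
    match i with
    | 0 => exact rl_act σ x 0 u w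
    | 1 => exact exists_congr fun n => wk_nat (fun u w => rl_act σ x 0 u w) rfl n w
    | j + 2 => exact rl_act σ x _ u w
  dact := by
    intro σ p z
    refine act_mk σ fun i u w => ?_
    match i with
    | 0 => exact rl_act σ z 0 u w
    | 1 => exact Iff.rfl
    | j + 2 => exact rl_act σ z _ u w

/-- The class of the connected graphs. -/
def VC1 : RS B2 → Prop := PExp cD dD DecG

theorem vc1 : VCu VC1 := pexp_vcu canonD (vs_dec B2) (vs_kde B2).1 (vs_kde B2).2
theorem vc1_coan : Coan VC1 := pexp_coan canonD (vs_kde B2).1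
theorem vc1_inv : Inv VC1 := pexp_inv canonD (vs_kde B2).2

/-- The class of all distance-hereditary graphs. -/
def VC2 : RS B2 → Prop := PExp c2 d2 (IsSum 1 (fun _ => false) DecG VC1)

theorem vc2 : VCu VC2 := pexp_vcu canon2
  (vs_clo B2 (fun _ => by norm_num) 1 rfl (fun _ => false) DecG VC1 (vs_dec B2) vc1)
  (vs_kis B2 1 _ _ _ (vs_kde B2).1 vc1_coan) (vs_nis B2 1 _ _ _)
theorem vc2_coan : Coan VC2 := pexp_coan canon2 (vs_kis B2 1 _ _ _ (vs_kde B2).1 vc1_coan)
theorem vc2_inv : Inv VC2 := pexp_inv canon2 (vs_nis B2 1 _ _ _)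

theorem rl_c2 (p : List ℕ) (x : RS B2) (i u w : ℕ) : rl (c2 p x) i u w ↔ c2R x i u w :=
  rl_mk _ _ _ _

theorem decg_false : DecG (fun _ _ => false : RS B2) := by
  refine ⟨fun i hi => absurd rfl hi, fun F hF => ?_⟩
  obtain ⟨X, h1, h2⟩ := Finset.exists_subset_card_eq (show 2 ≤ F.card by omega)
  refine ⟨X, h1, by omega, by omega, fun u _ v _ w _ _ i => ?_⟩
  show (if B2 i = 2 then false else false) = (if B2 i = 2 then false else false) ∧ _
  exact ⟨rfl, rfl⟩

theorem dh_mem {x : RS B2} {G : SimpleGraph ℕ} (h : IsDH x G) : VC2 x := by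
  have hE := edges_eq h
  have hcn : ∀ u w, rl (c2 [] x) 1 u w ↔ G.Reachable u w := by
    intro u w
    rw [rl_c2]
    show Cn (rl x 0) u w ↔ _
    rw [hE, cn_iff]
  have h0 : ∀ u w, rl (c2 [] x) 0 u w ↔ G.Adj u w := by
    intro u w
    rw [rl_c2]
    exact h.edges u w
  have h2 : ∀ j u w, rl (c2 [] x) (j + 2) u w ↔ rl x (j + 2) u w := by
    intro j u w
    rw [rl_c2]
    exact Iff.rfl
  refine ⟨[], ⟨?_, ?_, ?_, ?_, ?_, ?_, ?_⟩, ?_⟩
  · exact fun u => (hcn u u).2 (SimpleGraph.Reachable.refl u)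
  · exact fun u v huv => (hcn v u).2 ((hcn u v).1 huv).symm
  · exact fun u v w huv hvw => (hcn u w).2 (((hcn u v).1 huv).trans ((hcn v w).1 hvw))
  · intro i hi _ t ht j l
    have h3 : rl (c2 [] x) i (t 0) (t 1) := (rl_iff _ _ _).2 ht
    have h4 : G.Reachable (t 0) (t 1) := by
      match i with
      | 0 => exact ((h0 _ _).1 h3).reachable
      | 1 => exact absurd rfl hi
      | j + 2 =>
        rw [h2] at h3
        rw [h.loops j _ _ h3]
    have h5 : ∀ j : Fin 2, t j = t 0 ∨ t j = t 1 := by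
      intro j
      fin_cases j
      · exact Or.inl rfl
      · exact Or.inr rfl
    refine (hcn _ _).2 ?_
    rcases h5 j with h6 | h6 <;> rcases h5 l with h7 | h7 <;> rw [h6, h7]
    · exact h4
    · exact h4.symm
  · intro i _ hk
    exact absurd hk Bool.false_ne_true
  · intro u e he hz
    have hy : (fun i v => if i ≠ 1 ∧ (fun _ : ℕ => false) i = false then c2 [] x i (e ∘ v)
        else false : RS B2) = mkS (fun i m n => match i with
          | 0 => G.Adj (e m) (e n)
          | 1 => False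
          | j + 2 => rl x (j + 2) (e m) (e n)) := by
      refine rs_ext fun i m n => ?_
      rw [rl_mk]
      match i with
      | 0 =>
        show (if (0 : ℕ) ≠ 1 ∧ false = false then c2 [] x 0 (e ∘ p2 m n) else false) = true ↔
          G.Adj (e m) (e n)
        rw [if_pos ⟨by norm_num, rfl⟩, ← nis_p2]
        exact h0 _ _
      | 1 =>
        show (if (1 : ℕ) ≠ 1 ∧ false = false then c2 [] x 1 (e ∘ p2 m n) else false) = true ↔
          False
        rw [if_neg (fun h => h.1 rfl)]
        exact iff_of_false Bool.false_ne_true (fun h => h)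
      | j + 2 =>
        show (if (j + 2 : ℕ) ≠ 1 ∧ false = false then c2 [] x (j + 2) (e ∘ p2 m n) else false)
          = true ↔ rl x (j + 2) (e m) (e n)
        rw [if_pos ⟨by omega, rfl⟩, ← nis_p2]
        exact h2 j _ _
    rw [hy]
    refine conn_mem (G := G.comap e) ⟨dh_comap h.dh e he, fun m n => ?_, fun m n hmn => ?_,
      fun j m n hmn => ?_⟩ ?_
    · rw [rl_mk]
      exact Iff.rfl
    · rw [rl_mk] at hmn
      exact hmn
    · rw [rl_mk] at hmn
      exact he (h.loops j _ _ hmn)
    · -- connectedness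
      have hz' : ∀ z, G.Reachable u z ↔ ∃ n, e n = z := fun z => (hcn u z).symm.trans (hz z)
      refine SimpleGraph.Connected.mk fun m n => ?_
      have key : ∀ {y z : ℕ} (p : G.Walk y z), ∀ m, e m = y → ∀ n, e n = z →
          (G.comap e).Reachable m n := by
        intro y z p
        induction p with
        | nil =>
          intro m hm n hn
          have : m = n := he (hm.trans hn.symm)
          rw [this]
        | @cons a b c hab p ih =>
          intro m hm n hn
          have h3 : G.Reachable u b := ((hz' a).2 ⟨m, hm⟩).trans hab.reachable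
          obtain ⟨k, hk⟩ := (hz' b).1 h3
          have h4 : (G.comap e).Adj m k := by
            show G.Adj (e m) (e k)
            rw [hm, hk]
            exact hab
          exact h4.reachable.trans (ih k hk n hn)
      have h5 : G.Reachable (e m) (e n) := ((hz' (e m)).2 ⟨m, rfl⟩).symm.trans
        ((hz' (e n)).2 ⟨n, rfl⟩)
      obtain ⟨p⟩ := h5
      exact key p m rfl n rfl
  · intro e _ _
    have hy : (fun i v => if i ≠ 1 ∧ (fun _ : ℕ => false) i = true then c2 [] x i (e ∘ v)
        else false : RS B2) = fun _ _ => false := by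
      funext i v
      rw [if_neg (fun h => Bool.false_ne_true h.2)]
    rw [hy]
    exact decg_false
  · refine rs_ext fun i u w => ?_
    show rl (mkS (d2R (c2 [] x))) i u w ↔ _
    rw [rl_mk]
    match i with
    | 0 => exact (h0 u w).trans (h.edges u w).symm
    | 1 => exact iff_of_false (fun h => h) (h.one u w)
    | j + 2 => exact h2 j u w

/-! ### Exceptional vertices -/

/-- The relations off the exceptional vertices `p`, with the neighbourhoods of the points of `p` as
unary predicates. -/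
def c3R (p : List ℕ) (x : RS B2) : ℕ → ℕ → ℕ → Prop
  | 0, u, w => rl x 0 u w ∧ u ∉ p ∧ w ∉ p
  | 1, _, _ => False
  | (j + 2), u, w => u = w ∧ ((j % 2 = 0 ∧ rl x (j / 2 + 2) u w) ∨
      (j % 2 = 1 ∧ ∃ v, p[j / 2]? = some v ∧ rl x 0 u v))

/-- The reverse. -/
def d3R (p : List ℕ) (z : RS B2) : ℕ → ℕ → ℕ → Prop
  | 0, u, w => (w ∈ p ∧ ∃ j, p[j]? = some w ∧ rl z (2 * j + 3) u u) ∨
      (u ∈ p ∧ ∃ j, p[j]? = some u ∧ rl z (2 * j + 3) w w) ∨ (u ∉ p ∧ w ∉ p ∧ rl z 0 u w)
  | 1, _, _ => False
  | (j + 2), u, w => u = w ∧ rl z (2 * j + 2) u w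

noncomputable def c3 : List ℕ → RS B2 → RS B2 := fun p x => mkS (c3R p x)
noncomputable def d3 : List ℕ → RS B2 → RS B2 := fun p z => mkS (d3R p z)

theorem mem_map_perm (σ : Equiv.Perm ℕ) (p : List ℕ) (u : ℕ) :
    u ∈ p.map σ ↔ σ.symm u ∈ p := by
  rw [List.mem_map]
  constructor
  · rintro ⟨v, hv, rfl⟩
    rwa [σ.symm_apply_apply]
  · exact fun h => ⟨_, h, σ.apply_symm_apply u⟩

theorem get_map_perm (σ : Equiv.Perm ℕ) (p : List ℕ) (j u : ℕ) :
    (p.map σ)[j]? = some u ↔ p[j]? = some (σ.symm u) := by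
  rw [List.getElem?_map]
  cases p[j]? with
  | none => simp
  | some v =>
    simp only [Option.map_some, Option.some.injEq]
    exact ⟨fun h => by rw [← h, σ.symm_apply_apply], fun h => by rw [h, σ.apply_symm_apply]⟩

theorem canon3 : PCanon c3 d3 where
  meas := by
    intro p
    refine meas_mk fun i u w => ?_
    match i with
    | 0 => exact ms_and (ms_rl _ _ _) (ms_const _)
    | 1 => exact ms_const _
    | j + 2 =>
      exact ms_and (ms_const _) (ms_or (ms_and (ms_const _) (ms_rl _ _ _))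
        (ms_and (ms_const _) (ms_ex fun v => ms_and (ms_const _) (ms_rl _ _ _))))
  dmeas := by
    intro p
    refine meas_mk fun i u w => ?_
    match i with
    | 0 =>
      exact ms_or (ms_and (ms_const _) (ms_ex fun j => ms_and (ms_const _) (ms_rl _ _ _)))
        (ms_or (ms_and (ms_const _) (ms_ex fun j => ms_and (ms_const _) (ms_rl _ _ _)))
          (ms_and (ms_const _) (ms_and (ms_const _) (ms_rl _ _ _))))
    | 1 => exact ms_const _
    | j + 2 => exact ms_and (ms_const _) (ms_rl _ _ _)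
  cact := by
    intro σ p x
    refine act_mk σ fun i u w => ?_
    match i with
    | 0 =>
      exact and_congr (rl_act σ x 0 u w) (and_congr (not_congr (mem_map_perm σ p u))
        (not_congr (mem_map_perm σ p w)))
    | 1 => exact Iff.rfl
    | j + 2 =>
      refine and_congr (σ.symm.injective.eq_iff).symm (or_congr (and_congr Iff.rfl
        (rl_act σ x _ u w)) (and_congr Iff.rfl ?_))
      exact ex_nat σ.symm fun v => and_congr (get_map_perm σ p _ v) (rl_act σ x 0 u v)
  dact := by
    intro σ p z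
    refine act_mk σ fun i u w => ?_
    match i with
    | 0 =>
      exact or_congr (and_congr (mem_map_perm σ p w) (exists_congr fun j => and_congr
          (get_map_perm σ p j w) (rl_act σ z _ u u)))
        (or_congr (and_congr (mem_map_perm σ p u) (exists_congr fun j => and_congr
          (get_map_perm σ p j u) (rl_act σ z _ w w)))
        (and_congr (not_congr (mem_map_perm σ p u)) (and_congr (not_congr (mem_map_perm σ p w))
          (rl_act σ z 0 u w))))
    | 1 => exact Iff.rfl
    | j + 2 => exact and_congr (σ.symm.injective.eq_iff).symm (rl_act σ z _ u w)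

/-- The graph without the edges at the vertices in `P`. -/
def offP {V : Type*} (G : SimpleGraph V) (P : Set V) : SimpleGraph V where
  Adj u w := G.Adj u w ∧ u ∉ P ∧ w ∉ P
  symm := ⟨fun _ _ h => ⟨h.1.symm, h.2.2, h.2.1⟩⟩
  loopless := ⟨fun _ h => G.irrefl h.1⟩

/-- The class of the graphs that are distance-hereditary after the deletion of finitely many
vertices. -/
def VC3 : RS B2 → Prop := PExp c3 d3 VC2

theorem vc3 : VCu VC3 := pexp_vcu canon3 vc2 vc2_coan vc2_inv
theorem vc3_coan : Coan VC3 := pexp_coan canon3 vc2_coan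
theorem vc3_inv : Inv VC3 := pexp_inv canon3 vc2_inv

/-- `x` is the graph `G` with unary predicates. -/
structure IsGU (x : RS B2) (G : SimpleGraph ℕ) : Prop where
  edges : ∀ u w, rl x 0 u w ↔ G.Adj u w
  one : ∀ u w, ¬ rl x 1 u w
  loops : ∀ j u w, rl x (j + 2) u w → u = w

theorem almost_mem {x : RS B2} {G : SimpleGraph ℕ} (h : IsGU x G) (P : Set ℕ) (hP : P.Finite)
    (hD : DistanceHereditary (offP G P)) : VC3 x := by
  obtain ⟨p, hp⟩ : ∃ p : List ℕ, ∀ u, u ∈ p ↔ u ∈ P := by
    refine ⟨hP.toFinset.toList, fun u => ?_⟩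
    rw [Finset.mem_toList, Set.Finite.mem_toFinset]
  refine ⟨p, dh_mem (G := offP G P) ⟨hD, ?_, ?_, ?_⟩, ?_⟩
  · intro u w
    show rl (mkS (c3R p x)) 0 u w ↔ _
    rw [rl_mk]
    show (rl x 0 u w ∧ u ∉ p ∧ w ∉ p) ↔ (G.Adj u w ∧ u ∉ P ∧ w ∉ P)
    rw [h.edges, hp, hp]
  · intro u w
    show ¬ rl (mkS (c3R p x)) 1 u w
    rw [rl_mk]
    exact fun h => h
  · intro j u w
    show rl (mkS (c3R p x)) (j + 2) u w → _
    rw [rl_mk]
    exact fun h => h.1
  · refine rs_ext fun i u w => ?_
    show rl (mkS (d3R p (mkS (c3R p x)))) i u w ↔ _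
    rw [rl_mk]
    have hodd : ∀ j u v, p[j]? = some v →
        (rl (mkS (c3R p x)) (2 * j + 3) u u ↔ G.Adj u v) := by
      intro j u v hv
      rw [show 2 * j + 3 = (2 * j + 1) + 2 by omega, rl_mk]
      show (u = u ∧ (((2 * j + 1) % 2 = 0 ∧ _) ∨ ((2 * j + 1) % 2 = 1 ∧
        ∃ v, p[(2 * j + 1) / 2]? = some v ∧ rl x 0 u v))) ↔ _
      rw [show (2 * j + 1) / 2 = j by omega]
      constructor
      · rintro ⟨_, ⟨h1, _⟩ | ⟨_, v', h1, h2⟩⟩
        · omega
        · rw [hv] at h1
          have h3 : v = v' := Option.some.inj h1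
          rw [h3, ← h.edges]
          exact h2
      · exact fun h1 => ⟨rfl, Or.inr ⟨by omega, v, hv, (h.edges u v).2 h1⟩⟩
    match i with
    | 0 =>
      show ((w ∈ p ∧ ∃ j, p[j]? = some w ∧ rl (mkS (c3R p x)) (2 * j + 3) u u) ∨
        (u ∈ p ∧ ∃ j, p[j]? = some u ∧ rl (mkS (c3R p x)) (2 * j + 3) w w) ∨
        (u ∉ p ∧ w ∉ p ∧ rl (mkS (c3R p x)) 0 u w)) ↔ _
      rw [h.edges]
      constructor
      · rintro (⟨_, j, h1, h2⟩ | ⟨_, j, h1, h2⟩ | ⟨_, _, h1⟩)
        · exact (hodd j u w h1).1 h2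
        · exact ((hodd j w u h1).1 h2).symm
        · rw [rl_mk] at h1
          exact (h.edges u w).1 h1.1
      · intro hadj
        by_cases hw : w ∈ p
        · obtain ⟨j, hj⟩ := List.mem_iff_getElem?.1 hw
          exact Or.inl ⟨hw, j, hj, (hodd j u w hj).2 hadj⟩
        · by_cases hu : u ∈ p
          · obtain ⟨j, hj⟩ := List.mem_iff_getElem?.1 hu
            exact Or.inr (Or.inl ⟨hu, j, hj, (hodd j w u hj).2 hadj.symm⟩)
          · refine Or.inr (Or.inr ⟨hu, hw, ?_⟩)
            rw [rl_mk]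
            exact ⟨(h.edges u w).2 hadj, hu, hw⟩
    | 1 => exact iff_of_false (fun h => h) (h.one u w)
    | j + 2 =>
      show (u = w ∧ rl (mkS (c3R p x)) (2 * j + 2) u w) ↔ _
      rw [rl_mk]
      show (u = w ∧ u = w ∧ (((2 * j) % 2 = 0 ∧ rl x (2 * j / 2 + 2) u w) ∨
        ((2 * j) % 2 = 1 ∧ _))) ↔ _
      rw [show 2 * j / 2 = j by omega]
      constructor
      · rintro ⟨_, _, ⟨_, h1⟩ | ⟨h1, _⟩⟩
        · exact h1
        · omega
      · exact fun h1 => ⟨h.loops j u w h1, h.loops j u w h1, Or.inl ⟨by omega, h1⟩⟩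

end Run7.h123.DH
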