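import Pool.Agent.Run7.h123.NewLabelsG

open Set Topology Filter Cardinal

namespace Run7.h123

universe u

set_option linter.unusedSectionVars false

section SW

variable {Ξ : Type u} [LinearOrder Ξ] [WellFoundedLT Ξ] (lam : Ξ → Cardinal.{u})

/-- the lexicographic sum of the initial ordinals of the `lam ξ` -/
abbrev SW : Type u := Σₗ ξ, (lam ξ).ord.ToType

def slev (w : SW lam) : Ξ := (ofLex w).1

theorem wf_SW : WellFoundedLT (SW lam) := by
  let f : SW lam → Ξ ×ₗ Ordinal.{u} := fun w =>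
    toLex ((ofLex w).1, Ordinal.typein (α := (lam (ofLex w).1).ord.ToType) (· < ·) (ofLex w).2)
  have hf : StrictMono f := by
    intro v w hvw
    rw [Sigma.Lex.lt_def] at hvw
    rw [Prod.Lex.lt_iff]
    rcases hvw with h | ⟨h, h'⟩
    · exact Or.inl h
    · right
      revert h h'
      rcases v with ⟨ξ, a⟩
      rcases w with ⟨η, b⟩
      intro h h'
      change ξ = η at h
      subst h
      exact ⟨rfl, (Ordinal.typein_lt_typein _).2 h'⟩
  exact hf.wellFoundedLT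

theorem mk_lt_slev (ξ : Ξ) :
    #{w : SW lam // slev lam w < ξ} ≤ Cardinal.sum (fun η : Set.Iio ξ => lam η.1) := by
  have h1 : Cardinal.sum (fun η : Set.Iio ξ => lam η.1) =
      #(Σ η : Set.Iio ξ, (lam η.1).ord.ToType) := by
    rw [mk_sigma]
    congr 1
    ext η
    rw [mk_ord_toType]
  rw [h1]
  apply mk_le_of_injective (f := fun w : {w : SW lam // slev lam w < ξ} =>
    (⟨⟨(ofLex w.1).1, w.2⟩, (ofLex w.1).2⟩ : Σ η : Set.Iio ξ, (lam η.1).ord.ToType))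
  rintro ⟨⟨a, b⟩, h⟩ ⟨⟨a', b'⟩, h'⟩ heq
  simp only [Sigma.mk.injEq] at heq
  obtain ⟨h2, h3⟩ := heq
  have h2' : a = a' := congrArg Subtype.val h2
  subst h2'
  have h4 : b = b' := eq_of_heq h3
  subst h4
  rfl

theorem frame_SW (hreg : ∀ ξ, (lam ξ).IsRegular) (hunc : ∀ ξ, ℵ₀ < lam ξ) (hmono : Monotone lam)
    (hsmall : ∀ ξ, #Ξ < lam ξ)
    (hsum : ∀ ξ, Cardinal.sum (fun η : Set.Iio ξ => lam η.1) < lam ξ) :
    Frame lam (slev lam) := by
  refine ⟨hreg, hunc, hmono, hsmall, ?_, ?_, ?_⟩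
  · intro v w hvw
    rw [Sigma.Lex.le_def] at hvw
    rcases hvw with h | ⟨h, _⟩
    · exact h.le
    · exact h.le
  · rintro ⟨ξ, a⟩
    have h1 : Set.Iio (toLex ⟨ξ, a⟩ : SW lam) ⊆ {w | slev lam w < ξ} ∪
        range (fun b : Set.Iio a => (toLex ⟨ξ, b.1⟩ : SW lam)) := by
      rintro ⟨η, b⟩ h
      have h' : (toLex ⟨η, b⟩ : SW lam) < toLex ⟨ξ, a⟩ := h
      rw [Sigma.Lex.lt_def] at h'
      rcases h' with h | ⟨h, h'⟩
      · exact Or.inl h
      · right
        change η = ξ at h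
        subst h
        exact ⟨⟨b, h'⟩, rfl⟩
    refine (mk_le_mk_of_subset h1).trans_lt ((mk_union_le _ _).trans_lt ?_)
    apply add_lt_of_lt (hreg ξ).aleph0_le
    · exact (mk_lt_slev lam ξ).trans_lt (hsum ξ)
    · exact mk_range_le.trans_lt (mk_Iio_toType_ord_lt a)
  · intro ξ
    rw [← mk_ord_toType (lam ξ)]
    symm
    rw [Cardinal.eq]
    refine ⟨Equiv.ofBijective (fun b => ⟨toLex ⟨ξ, b⟩, rfl⟩) ⟨?_, ?_⟩⟩
    · intro b b' h
      have h2 : (⟨ξ, b⟩ : Σ ξ, (lam ξ).ord.ToType) = ⟨ξ, b'⟩ := Subtype.mk.inj h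
      simpa using h2
    · rintro ⟨⟨η, b⟩, h⟩
      change η = ξ at h
      subst h
      exact ⟨b, rfl⟩

end SW

end Run7.h123
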