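import Pool.Agent.Run7.h123.Main

open Set Topology Filter Cardinal

namespace Run7.h123

universe u

section GermSec

variable {Y Z W : Type u} [TopologicalSpace Y] [TopologicalSpace Z] [TopologicalSpace W]

/-- equality of germs: some open neighbourhoods are homeomorphic by a map sending one point to
the other -/
def GE (y : Y) (z : Z) : Prop := ∃ h : OpenPartialHomeomorph Y Z, y ∈ h.source ∧ h y = z

theorem GE.symm {y : Y} {z : Z} (h : GE y z) : GE z y := by
  obtain ⟨h, hy, rfl⟩ := h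
  exact ⟨h.symm, h.map_source hy, h.left_inv hy⟩

theorem GE.trans {y : Y} {z : Z} {w : W} (h : GE y z) (h' : GE z w) : GE y w := by
  obtain ⟨h, hy, rfl⟩ := h
  obtain ⟨h', hz, rfl⟩ := h'
  exact ⟨h.trans h', ⟨hy, hz⟩, rfl⟩

theorem GE.refl (y : Y) : GE y y := ⟨OpenPartialHomeomorph.refl Y, mem_univ y, rfl⟩

theorem GE.of_openEmbedding {i : Y → Z} (hi : IsOpenEmbedding i) (y : Y) : GE y (i y) := by
  have : Nonempty Y := ⟨y⟩
  exact ⟨hi.toOpenPartialHomeomorph i, by simp, by simp⟩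

theorem GE.of_homeo (e : Y ≃ₜ Z) (y : Y) : GE y (e y) :=
  ⟨e.toOpenPartialHomeomorph, by simp, by simp⟩

/-- the germ at a point of an open subset is the germ of the space -/
theorem GE.of_open {U : Set Y} (hU : IsOpen U) (y : U) : GE y (y : Y) :=
  GE.of_openEmbedding hU.isOpenEmbedding_subtypeVal y

/-- the germ at a point of a subset containing an open set around the point -/
theorem GE.of_open_subset {F T : Set Y} (hT : IsOpen T) (hTF : T ⊆ F) {y : Y} (hy : y ∈ T) :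
    GE (⟨y, hTF hy⟩ : F) y := by
  have h1 : GE (⟨y, hy⟩ : T) y := GE.of_open hT ⟨y, hy⟩
  have h2 : IsOpenEmbedding (Set.inclusion hTF) := by
    refine ⟨IsEmbedding.inclusion hTF, ?_⟩
    have : range (Set.inclusion hTF) = Subtype.val ⁻¹' T := by
      ext z
      constructor
      · rintro ⟨w, rfl⟩; exact w.2
      · intro hz; exact ⟨⟨z, hz⟩, rfl⟩
    rw [this]
    exact hT.preimage continuous_subtype_val
  exact (GE.of_openEmbedding h2 ⟨y, hy⟩).symm.trans h1

/-- the local density at `y` is at most `c` -/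
def LD (c : Cardinal.{u}) (y : Y) : Prop :=
  ∃ V : Set Y, IsOpen V ∧ y ∈ V ∧ ∃ A : Set Y, #A ≤ c ∧ V ⊆ closure A

theorem LD.mono {c d : Cardinal.{u}} {y : Y} (h : LD c y) (hcd : c ≤ d) : LD d y := by
  obtain ⟨V, hV, hy, A, hA, hVA⟩ := h
  exact ⟨V, hV, hy, A, hA.trans hcd, hVA⟩

theorem LD.of_GE {c : Cardinal.{u}} {y : Y} {z : Z} (h : LD c y) (hg : GE y z) : LD c z := by
  obtain ⟨V, hV, hy, A, hA, hVA⟩ := h
  obtain ⟨h, hys, rfl⟩ := hg
  refine ⟨h '' (h.source ∩ V), h.isOpen_image_source_inter hV, ⟨y, ⟨hys, hy⟩, rfl⟩, h '' A,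
    mk_image_le.trans hA, ?_⟩
  rintro _ ⟨v, ⟨hvs, hvV⟩, rfl⟩
  rw [mem_closure_iff]
  intro O hO hvO
  have h1 : IsOpen (h.source ∩ h ⁻¹' O) := h.isOpen_inter_preimage hO
  obtain ⟨a, ⟨has, haO⟩, haA⟩ := mem_closure_iff.1 (hVA hvV) _ h1 ⟨hvs, hvO⟩
  exact ⟨h a, haO, a, haA, rfl⟩

theorem LD.iff_of_GE {c : Cardinal.{u}} {y : Y} {z : Z} (hg : GE y z) : LD c y ↔ LD c z :=
  ⟨fun h => h.of_GE hg, fun h => h.of_GE hg.symm⟩

theorem tau_openEmbedding {f : W → Y} (hf : IsOpenEmbedding f) (w : W) :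
    tau (univ : Set Y) (f w) = tau (univ : Set W) w := by
  rw [← tau_open hf.isOpen_range (mem_range_self w), ← image_univ]
  exact tau_image hf.isEmbedding univ w

theorem tau_of_GE {y : Y} {z : Z} (h : GE y z) :
    tau (univ : Set Y) y = tau (univ : Set Z) z := by
  obtain ⟨h, hys, rfl⟩ := h
  have h1 : IsOpenEmbedding (Subtype.val : h.source → Y) :=
    h.open_source.isOpenEmbedding_subtypeVal
  have h2 : IsOpenEmbedding (fun x : h.source => ((h.toHomeomorphSourceTarget x : h.target) : Z)) :=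
    h.open_target.isOpenEmbedding_subtypeVal.comp h.toHomeomorphSourceTarget.isOpenEmbedding
  have h3 := tau_openEmbedding h1 ⟨y, hys⟩
  have h4 := tau_openEmbedding h2 ⟨y, hys⟩
  rw [h3, ← h4]
  rfl

/-- a set of points closed under equality of germs -/
def GInv (𝓒 : Set Y) : Prop := ∀ y z : Y, GE y z → y ∈ 𝓒 → z ∈ 𝓒

theorem GInv.closure {𝓒 : Set Y} (h : GInv 𝓒) : GInv (closure 𝓒) := by
  rintro y z ⟨g, hy, rfl⟩ hyc
  rw [mem_closure_iff] at hyc ⊢
  intro O hO hgO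
  have h1 : IsOpen (g.source ∩ g ⁻¹' O) := g.isOpen_inter_preimage hO
  obtain ⟨a, ⟨has, haO⟩, haC⟩ := hyc _ h1 ⟨hy, hgO⟩
  exact ⟨g a, haO, h a (g a) ⟨g, has, rfl⟩ haC⟩

end GermSec

end Run7.h123
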