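import Pool.Agent.Run7.h123.FrameSW

open Set Topology Filter Cardinal

namespace Run7.h123

universe u

set_option linter.unusedSectionVars false

section InductSec

variable {X : Type u} [TopologicalSpace X] {Γ : Type u} {φ : X → Γ → ℝ}

/-- `κ` labels avoiding `𝓐`, in the closure of `𝓒`, of local density at least `ν` -/
def SysA (X : Type u) [TopologicalSpace X] (κ : Cardinal.{u}) (𝓐 𝓒 : Set X)
    (ν : Cardinal.{u}) : Prop :=
  ∃ (ι : Type u) (U : ι → Set X) (y : ι → X), #ι = κ ∧ Lab κ U y ∧ (∀ i, Disjoint (U i) 𝓐) ∧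
    (∀ i, y i ∈ closure 𝓒) ∧ ∀ i, ∀ c, c < ν → ¬ LD c (y i)

theorem SysA.zero {κ ν : Cardinal.{u}} {𝓐 𝓒 : Set X} (h : SysA X κ 𝓐 𝓒 ν) :
    SysA X κ 𝓐 𝓒 0 := by
  obtain ⟨ι, U, y, h1, h2, h3, h4, _⟩ := h
  exact ⟨ι, U, y, h1, h2, h3, h4, fun i c hc => absurd hc (not_lt.2 zero_le)⟩

/-- invariant sets of points of local density less than `κ` -/
def Low (κ : Cardinal.{u}) (𝓐 : Set X) : Prop := GInv 𝓐 ∧ ∀ a ∈ 𝓐, ∃ c, c < κ ∧ LD c a

theorem Low.mono {κ κ' : Cardinal.{u}} {𝓐 : Set X} (h : Low κ 𝓐) (hκ : κ ≤ κ') : Low κ' 𝓐 :=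
  ⟨h.1, fun a ha => by
    obtain ⟨c, hc, hL⟩ := h.2 a ha
    exact ⟨c, hc.trans_le hκ, hL⟩⟩

theorem stepReg [CompactSpace X] [T2Space X] (hco : IsCO X) (hφ : Cors φ) {ν ν' : Cardinal.{u}}
    (hν : ν.IsRegular) (hν0 : ℵ₀ < ν) {𝓐 𝓒 : Set X} (hA : Low ν 𝓐) (h𝓒 : GInv 𝓒)
    (h : SysA X ν 𝓐 𝓒 ν') : SysA X (Order.succ ν) 𝓐 𝓒 ν := by
  obtain ⟨ι, U, y, hι, hL, hUA, hyC, -⟩ := h
  have hF : Frame (Ξ := PUnit.{u + 1}) (W := ν.ord.ToType) (fun _ => ν)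
      (fun _ => PUnit.unit) := by
    refine ⟨fun _ => hν, fun _ => hν0, fun _ _ _ => le_rfl, fun _ => ?_, fun _ _ _ => le_rfl,
      fun w => mk_Iio_toType_ord_lt w, fun ξ => ?_⟩
    · simpa using one_lt_aleph0.trans hν0
    · have : #{w : ν.ord.ToType // PUnit.unit = ξ} = #ν.ord.ToType := by
        rw [Cardinal.eq]
        exact ⟨Equiv.subtypeUnivEquiv fun w => rfl⟩
      rw [this, mk_ord_toType]
  have hG : GLab (Ξ := PUnit.{u + 1}) (fun _ => ν) (fun _ : ι => PUnit.unit) U y :=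
    ⟨hL.hU, hL.hy, hL.hd, hL.anti⟩
  have hι' : ∀ ξ : PUnit.{u + 1}, #{i : ι // PUnit.unit = ξ} = ν := by
    intro ξ
    have : #{w : ι // PUnit.unit = ξ} = #ι := by
      rw [Cardinal.eq]
      exact ⟨Equiv.subtypeUnivEquiv fun w => rfl⟩
    rw [this, hι]
  obtain ⟨ι', U', y', h1, h2, h3, h4, h5⟩ := newLabelsG hco hφ hF hG hι'
    (fun i η hη => absurd hη (lt_irrefl _)) hA.1
    (fun a ha => by
      obtain ⟨c, hc, hLc⟩ := hA.2 a ha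
      exact ⟨c, fun _ => hc, hLc⟩) hUA h𝓒 hyC
  rw [mk_ord_toType] at h1 h2
  exact ⟨ι', U', y', h1, h2, h3, h4, fun i c hc => h5 i c ⟨PUnit.unit, hc⟩⟩

theorem exists_cofinal_card {ν : Cardinal.{u}} :
    ∃ f : (ν.ord.cof).ord.ToType → Cardinal.{u}, (∀ ξ, f ξ < ν) ∧ ∀ c < ν, ∃ ξ, c ≤ f ξ := by
  obtain ⟨S, hS, hSc⟩ := Order.exists_cof_eq ν.ord.ToType
  rw [Ordinal.cof_toType] at hSc
  have hg : Nonempty ((ν.ord.cof).ord.ToType ≃ S) := by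
    rw [← Cardinal.eq, mk_ord_toType, hSc]
  obtain ⟨g⟩ := hg
  refine ⟨fun ξ => #(Set.Iio (g ξ).1), fun ξ => mk_Iio_toType_ord_lt _, fun c hc => ?_⟩
  have hex : ∃ a : ν.ord.ToType, c ≤ #(Set.Iio a) := by
    have h1 : c.ord < Ordinal.type (α := ν.ord.ToType) (· < ·) := by
      rw [Ordinal.type_toType]; exact ord_lt_ord.2 hc
    refine ⟨Ordinal.enum (α := ν.ord.ToType) (· < ·) ⟨c.ord, h1⟩, ?_⟩
    have h2 := Ordinal.typein_enum (α := ν.ord.ToType) (· < ·) h1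
    have h3 : (Ordinal.typein (α := ν.ord.ToType) (· < ·)
      (Ordinal.enum (α := ν.ord.ToType) (· < ·) ⟨c.ord, h1⟩)).card = c := by
      rw [h2, card_ord]
    exact h3.symm.le
  obtain ⟨a, ha⟩ := hex
  obtain ⟨b, hb, hab⟩ := hS a
  refine ⟨g.symm ⟨b, hb⟩, ha.trans ?_⟩
  show #(Set.Iio a) ≤ #(Set.Iio (g (g.symm ⟨b, hb⟩)).1)
  rw [Equiv.apply_symm_apply]
  exact mk_le_mk_of_subset (Set.Iio_subset_Iio hab)

theorem Lab.mono {κ κ' : Cardinal.{u}} {ι : Type u} {U : ι → Set X} {y : ι → X}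
    (h : Lab κ U y) (hκ : κ ≤ κ') : Lab κ' U y :=
  ⟨h.hU, h.hy, fun i => by
    obtain ⟨A, hA, hUA⟩ := h.hd i
    exact ⟨A, hA.trans_le hκ, hUA⟩, h.anti⟩

/-- gluing along a cofinal sequence of a singular cardinal -/
theorem singGlue [CompactSpace X] [T2Space X] (hco : IsCO X) (hφ : Cors φ) {κ ν : Cardinal.{u}}
    (hκ0 : ℵ₀ < κ) (hν : ν.IsSingular) (hθ : ν.ord.cof < κ) (hκν : κ < ν)
    {𝓐 𝓒 : Set X} (hA : Low κ 𝓐) (h𝓒 : GInv 𝓒)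
    {ι : Type u} {U : ι → Set X} {y : ι → X} (hL : Lab κ U y) (hUA : ∀ i, Disjoint (U i) 𝓐)
    (hyC : ∀ i, y i ∈ closure 𝓒)
    (hpart : ∀ τ : ν.ord.cof.ord.ToType → Cardinal.{u}, (∀ ξ, κ ≤ τ ξ) → (∀ ξ, τ ξ < ν) →
      (∀ ξ, (τ ξ).IsRegular) → ∃ (J : ν.ord.cof.ord.ToType → Type u) (e : (Σ ξ, J ξ) → ι),
      Function.Injective e ∧ ∀ ξ, ∀ 𝓐' 𝓒' : Set X, Low κ 𝓐' → GInv 𝓒' →
        Lab κ (fun j => U (e ⟨ξ, j⟩)) (fun j => y (e ⟨ξ, j⟩)) →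
        (∀ j, Disjoint (U (e ⟨ξ, j⟩)) 𝓐') → (∀ j, y (e ⟨ξ, j⟩) ∈ closure 𝓒') →
        SysA X (Order.succ (τ ξ)) 𝓐' 𝓒' (τ ξ)) : SysA X (Order.succ ν) 𝓐 𝓒 ν := by
  classical
  have hlim := hν.isSuccLimit
  set θ := ν.ord.cof with hθd
  have hθ0 : ℵ₀ ≤ θ := by
    rw [hθd, Ordinal.aleph0_le_cof_iff, Ordinal.one_lt_cof_iff]
    exact isSuccLimit_ord hν.aleph0_le
  have hΞne : Nonempty θ.ord.ToType := by
    rw [← Cardinal.mk_ne_zero_iff, mk_ord_toType]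
    exact (aleph0_pos.trans_le hθ0).ne'
  obtain ⟨f, hf, hf'⟩ := exists_cofinal_card (ν := ν)
  obtain ⟨lam, hlam⟩ := exists_rec (W := θ.ord.ToType) (ι := Cardinal.{u})
    (fun w g i => i = Order.succ (Order.succ (max (max κ (f w))
      (Cardinal.sum (fun η : Set.Iio w => g η.1 η.2)))))
    (fun w g => ⟨_, rfl⟩)
  set τ : θ.ord.ToType → Cardinal.{u} := fun ξ => Order.succ (max (max κ (f ξ))
      (Cardinal.sum (fun η : Set.Iio ξ => lam η.1))) with hτ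
  have hlamτ : ∀ ξ, lam ξ = Order.succ (τ ξ) := hlam
  have hsumν : ∀ ξ, (∀ η < ξ, lam η < ν) → Cardinal.sum (fun η : Set.Iio ξ => lam η.1) < ν := by
    intro ξ h1
    refine (sum_le_mk_mul_iSup _).trans_lt (mul_lt_of_lt hν.aleph0_le ?_ ?_)
    · exact (mk_Iio_toType_ord_lt ξ).trans (hθ.trans hκν)
    · exact iSup_lt_of_lt_cof_ord (mk_Iio_toType_ord_lt ξ) (fun η => h1 η.1 η.2)
  have hlamν : ∀ ξ, lam ξ < ν := by
    intro ξ
    induction ξ using WellFoundedLT.induction with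
    | ind ξ ih =>
      rw [hlamτ]
      apply hlim.succ_lt
      exact hlim.succ_lt (max_lt (max_lt hκν (hf ξ)) (hsumν ξ ih))
  have hτν : ∀ ξ, τ ξ < ν := fun ξ => (Order.lt_succ (τ ξ)).trans (hlamτ ξ ▸ hlamν ξ)
  have hκτ : ∀ ξ, κ ≤ τ ξ := fun ξ =>
    ((le_max_left _ _).trans (le_max_left _ _)).trans (Order.le_succ _)
  have hfτ : ∀ ξ, f ξ ≤ τ ξ := fun ξ =>
    ((le_max_right _ _).trans (le_max_left _ _)).trans (Order.le_succ _)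
  have hτreg : ∀ ξ, (τ ξ).IsRegular := fun ξ =>
    isRegular_succ (hκ0.le.trans ((le_max_left _ _).trans (le_max_left _ _)))
  have hsumτ : ∀ ξ, Cardinal.sum (fun η : Set.Iio ξ => lam η.1) < τ ξ := fun ξ =>
    (le_max_right _ _).trans_lt (Order.lt_succ _)
  have hτlam : ∀ ξ, τ ξ < lam ξ := fun ξ => by rw [hlamτ]; exact Order.lt_succ _
  have hreg : ∀ ξ, (lam ξ).IsRegular := fun ξ => by
    rw [hlamτ]; exact isRegular_succ (hκ0.le.trans (hκτ ξ))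
  have hunc : ∀ ξ, ℵ₀ < lam ξ := fun ξ => hκ0.trans_le ((hκτ ξ).trans (hτlam ξ).le)
  have hsmall : ∀ ξ, #θ.ord.ToType < lam ξ := fun ξ => by
    rw [mk_ord_toType]; exact hθ.trans_le ((hκτ ξ).trans (hτlam ξ).le)
  have hmono : Monotone lam := by
    intro η ξ hηξ
    rcases hηξ.lt_or_eq with h1 | h1
    · exact (le_sum (fun η : Set.Iio ξ => lam η.1) ⟨η, h1⟩).trans
        ((hsumτ ξ).le.trans (hτlam ξ).le)
    · rw [h1]
  have hF := frame_SW lam hreg hunc hmono hsmall (fun ξ => (hsumτ ξ).trans (hτlam ξ))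
  have hwf := wf_SW lam
  -- the partition
  obtain ⟨J, e, he, hpart'⟩ := hpart τ hκτ hτν hτreg
  let 𝓐' : θ.ord.ToType → Set X := fun ξ => 𝓐 ∪ {x | ∃ η, η ≠ ξ ∧ ∃ j, GE (y (e ⟨η, j⟩)) x}
  let 𝓒' : θ.ord.ToType → Set X := fun ξ => {x | ∃ j, GE (y (e ⟨ξ, j⟩)) x}
  have h𝓐' : ∀ ξ, Low κ (𝓐' ξ) := by
    intro ξ
    constructor
    · rintro x z hxz (hx | ⟨η, hη, j, hj⟩)
      · exact Or.inl (hA.1 x z hxz hx)
      · exact Or.inr ⟨η, hη, j, hj.trans hxz⟩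
    · rintro a (ha | ⟨η, hη, j, hj⟩)
      · exact hA.2 a ha
      · obtain ⟨A, hAc, hUA'⟩ := hL.hd (e ⟨η, j⟩)
        have h1 : LD #A (y (e ⟨η, j⟩)) := ⟨_, (hL.hU _).2, hL.hy _, A, le_rfl, hUA'⟩
        exact ⟨#A, hAc, h1.of_GE hj⟩
  have h𝓒' : ∀ ξ, GInv (𝓒' ξ) := by
    rintro ξ x z hxz ⟨j, hj⟩
    exact ⟨j, hj.trans hxz⟩
  have hsys : ∀ ξ, SysA X (Order.succ (τ ξ)) (𝓐' ξ) (𝓒' ξ) (τ ξ) := by
    intro ξ
    apply hpart' ξ _ _ (h𝓐' ξ) (h𝓒' ξ)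
    · refine ⟨fun j => hL.hU _, fun j => hL.hy _, fun j => hL.hd _, ?_⟩
      intro i j z hz hg
      have := he (hL.anti _ _ z hz hg)
      simpa using this
    · intro j
      rw [Set.disjoint_left]
      rintro x hx (hxA | ⟨η, hη, k, hk⟩)
      · exact Set.disjoint_left.1 (hUA _) hx hxA
      · have := he (hL.anti _ _ x hx hk)
        exact hη (congrArg Sigma.fst this)
    · intro j
      exact subset_closure ⟨j, GE.refl _⟩
  choose ι' U' y' hι' hL' hUA' hyC' hLD' using hsys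
  have hC'C : ∀ ξ, closure (𝓒' ξ) ⊆ closure 𝓒 := by
    intro ξ
    apply closure_minimal _ isClosed_closure
    rintro x ⟨j, hj⟩
    exact h𝓒.closure _ x hj (hyC _)
  have hG : GLab lam (fun i : (Σ ξ, ι' ξ) => i.1) (fun i => U' i.1 i.2) (fun i => y' i.1 i.2) := by
    refine ⟨fun i => (hL' i.1).hU _, fun i => (hL' i.1).hy _, fun i => ?_, ?_⟩
    · rw [hlamτ]; exact (hL' i.1).hd _
    · rintro ⟨ξ, i⟩ ⟨η, j⟩ z hz hg
      rcases eq_or_ne ξ η with h1 | h1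
      · subst h1
        have := (hL' ξ).anti i j z hz hg
        rw [this]
      · exfalso
        have h2 : z ∈ closure (𝓒' ξ) := (h𝓒' ξ).closure _ z hg (hyC' ξ i)
        obtain ⟨x, hxU, k, hk⟩ := mem_closure_iff.1 h2 _ ((hL' η).hU j).2 hz
        exact Set.disjoint_left.1 (hUA' η j) hxU (Or.inr ⟨ξ, h1, k, hk⟩)
  have hι'' : ∀ ξ, #{i : (Σ ξ, ι' ξ) // i.1 = ξ} = lam ξ := by
    intro ξ
    rw [hlamτ, ← hι' ξ]
    symm
    rw [Cardinal.eq]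
    refine ⟨Equiv.ofBijective (fun b => ⟨⟨ξ, b⟩, rfl⟩) ⟨?_, ?_⟩⟩
    · intro b b' h
      have h2 : (⟨ξ, b⟩ : Σ ξ, ι' ξ) = ⟨ξ, b'⟩ := Subtype.mk.inj h
      simpa using h2
    · rintro ⟨⟨η, b⟩, h⟩
      change η = ξ at h
      subst h
      exact ⟨b, rfl⟩
  have hW : #(SW lam) = ν := by
    apply le_antisymm
    · have h1 : #(SW lam) = Cardinal.sum lam := by
        show #(Σ ξ, (lam ξ).ord.ToType) = _
        rw [mk_sigma]
        congr 1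
        ext ξ
        rw [mk_ord_toType]
      rw [h1]
      calc Cardinal.sum lam ≤ Cardinal.sum (fun _ : θ.ord.ToType => ν) :=
            sum_le_sum _ _ fun ξ => (hlamν ξ).le
        _ = θ * ν := by simp
        _ = ν := mul_eq_right hν.aleph0_le (hθ.trans hκν).le (aleph0_pos.trans_le hθ0).ne'
    · apply le_of_forall_lt
      intro c hc
      obtain ⟨ξ, hξ⟩ := hf' c hc
      have h1 : c < lam ξ := (hξ.trans (hfτ ξ)).trans_lt (hτlam ξ)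
      exact h1.trans_le ((hF.fib ξ).symm.le.trans (mk_subtype_le _))
  obtain ⟨ι₂, U₂, y₂, h1, h2, h3, h4, h5⟩ := newLabelsG hco hφ hF hG hι''
    (fun i η hη hLDi => hLD' i.1 i.2 _ ((mk_lt_slev lam i.1).trans_lt (hsumτ i.1)) hLDi) hA.1
    (fun a ha => by
      obtain ⟨c, hc, hLc⟩ := hA.2 a ha
      exact ⟨c, fun ξ => hc.trans_le ((hκτ ξ).trans (hτlam ξ).le), hLc⟩)
    (fun i => (hUA' i.1 i.2).mono_right subset_union_left) h𝓒
    (fun i => hC'C i.1 (hyC' i.1 i.2))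
  rw [hW] at h1 h2
  refine ⟨ι₂, U₂, y₂, h1, h2, h3, h4, fun i c hc => h5 i c ?_⟩
  obtain ⟨ξ, hξ⟩ := hf' c hc
  exact ⟨ξ, (hξ.trans (hfτ ξ)).trans_lt (hτlam ξ)⟩

theorem stepSing [CompactSpace X] [T2Space X] (hco : IsCO X) (hφ : Cors φ) {κ ν : Cardinal.{u}}
    (hκ : κ.IsRegular) (hκ0 : ℵ₀ < κ) (hν : ν.IsSingular) (hθ : ν.ord.cof < κ) (hκν : κ < ν)
    {𝓐 𝓒 : Set X} (hA : Low κ 𝓐) (h𝓒 : GInv 𝓒)
    (IH : ∀ ν' < ν, κ ≤ ν' → ∀ 𝓐' 𝓒' : Set X, Low κ 𝓐' → GInv 𝓒' → SysA X κ 𝓐' 𝓒' 0 →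
      SysA X (Order.succ ν') 𝓐' 𝓒' ν')
    (h : SysA X κ 𝓐 𝓒 0) : SysA X (Order.succ ν) 𝓐 𝓒 ν := by
  obtain ⟨ι, U, y, hι, hL, hUA, hyC, -⟩ := h
  have hθ0 : ν.ord.cof ≠ 0 := by
    intro h0
    rw [Ordinal.cof_eq_zero, ord_eq_zero] at h0
    exact hν.pos.ne' h0
  have he : Nonempty ((Σ _ : ν.ord.cof.ord.ToType, κ.ord.ToType) ≃ ι) := by
    rw [← Cardinal.eq, mk_sigma, sum_const', mk_ord_toType, mk_ord_toType, hι]
    exact mul_eq_right hκ.aleph0_le hθ.le hθ0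
  obtain ⟨e⟩ := he
  refine singGlue hco hφ hκ0 hν hθ hκν hA h𝓒 hL hUA hyC (fun τ h1 h2 h3 =>
    ⟨fun _ => κ.ord.ToType, e, e.injective, fun ξ 𝓐' 𝓒' hA' hC' hL' hUA' hyC' => ?_⟩)
  exact IH _ (h2 ξ) (h1 ξ) _ _ hA' hC' ⟨_, _, _, mk_ord_toType κ, hL', hUA', hyC',
    fun i c hc => absurd hc (not_lt.2 zero_le)⟩

/-- more than continuum many labels -/
theorem sys_continuum [CompactSpace X] [T2Space X] (hco : IsCO X) (hφ : Cors φ) {S : Set X}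
    (hS : S.Nonempty) (hS0 : isoPts S = ∅) : SysA X (Order.succ 𝔠) ∅ Set.univ 0 := by
  have hE : ∀ κ : Cardinal.{u}, Low κ (∅ : Set X) := fun κ =>
    ⟨fun _ _ _ h => h.elim, fun _ h => h.elim⟩
  have hUn : GInv (Set.univ : Set X) := fun _ _ _ _ => trivial
  have h𝔠 : ℵ₀ < (𝔠 : Cardinal.{u}) := aleph0_lt_continuum
  obtain ⟨ι, U, y, hι, hL⟩ := baseLabels hco hφ le_rfl hS hS0
  rcases isRegular_or_isSingular h𝔠.le with hreg | hsing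
  · exact (stepReg hco hφ hreg h𝔠 (hE _) hUn (ν' := 0) ⟨ι, U, y, hι,
      hL.mono (Order.succ_le_of_lt h𝔠), fun i => disjoint_empty _,
      fun i => subset_closure trivial, fun i c hc => absurd hc (not_lt.2 zero_le)⟩).zero
  · have hlim := hsing.isSuccLimit
    have hκν : Order.succ (max (𝔠 : Cardinal.{u}).ord.cof ℵ₀) < 𝔠 :=
      hlim.succ_lt (max_lt hsing.cof_ord_lt h𝔠)
    have hκ0 : ℵ₀ < Order.succ (max (𝔠 : Cardinal.{u}).ord.cof ℵ₀) :=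
      (le_max_right _ _).trans_lt (Order.lt_succ _)
    refine (singGlue hco hφ hκ0 hsing ((le_max_left _ _).trans_lt (Order.lt_succ _)) hκν
      (hE _) hUn (hL.mono (Order.succ_le_of_lt hκ0)) (fun i => disjoint_empty _)
      (fun i => subset_closure trivial) (fun τ h1 h2 h3 => ?_)).zero
    have hinj : #(Σ ξ, (τ ξ).ord.ToType) ≤ #ι := by
      rw [hι, mk_sigma]
      calc Cardinal.sum (fun ξ => #(τ ξ).ord.ToType)
          ≤ Cardinal.sum (fun _ : (𝔠 : Cardinal.{u}).ord.cof.ord.ToType => 𝔠) := by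
            apply sum_le_sum
            intro ξ
            rw [mk_ord_toType]
            exact (h2 ξ).le
        _ = (𝔠 : Cardinal.{u}).ord.cof * 𝔠 := by simp
        _ ≤ 𝔠 * 𝔠 := mul_le_mul' hsing.cof_ord_lt.le le_rfl
        _ = 𝔠 := mul_eq_self h𝔠.le
    obtain ⟨e⟩ := hinj
    refine ⟨fun ξ => (τ ξ).ord.ToType, e, e.injective,
      fun ξ 𝓐' 𝓒' hA' hC' hL' hUA' hyC' => ?_⟩
    exact stepReg hco hφ (h3 ξ) (hκ0.trans_le (h1 ξ)) (hA'.mono (h1 ξ)) hC' (ν' := 0)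
      ⟨_, _, _, mk_ord_toType _, hL'.mono (h1 ξ), hUA', hyC',
        fun i c hc => absurd hc (not_lt.2 zero_le)⟩

/-- the main induction -/
theorem mainInduction [CompactSpace X] [T2Space X] (hco : IsCO X) (hφ : Cors φ) :
    ∀ ν : Cardinal.{u}, ∀ κ : Cardinal.{u}, κ.IsRegular → ℵ₀ < κ → κ ≤ ν →
      (∀ c : Cardinal.{u}, c.IsRegular → κ < c → c ≤ ν → ∃ d, c = Order.succ d) →
      ∀ 𝓐 𝓒 : Set X, Low κ 𝓐 → GInv 𝓒 → SysA X κ 𝓐 𝓒 0 → SysA X (Order.succ ν) 𝓐 𝓒 ν := by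
  intro ν
  induction ν using WellFoundedLT.induction with
  | ind ν ih =>
    intro κ hκ hκ0 hκν hH 𝓐 𝓒 hA h𝓒 h
    rcases hκν.lt_or_eq with hlt | heq
    · rcases isRegular_or_isSingular (hκ0.le.trans hκν) with hreg | hsing
      · obtain ⟨d, hd⟩ := hH ν hreg hlt le_rfl
        have hdν : d < ν := by rw [hd]; exact Order.lt_succ d
        have hκd : κ ≤ d := by rw [hd] at hlt; exact Order.le_of_lt_succ hlt
        have h1 := ih d hdν κ hκ hκ0 hκd (fun c hc hc0 hcd => hH c hc hc0 (hcd.trans hdν.le))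
          𝓐 𝓒 hA h𝓒 h
        rw [← hd] at h1
        exact stepReg hco hφ hreg (hκ0.trans_le hκν) (hA.mono hκν) h𝓒 h1
      · have hlim := hsing.isSuccLimit
        have IH : ∀ κ' : Cardinal.{u}, κ ≤ κ' → κ'.IsRegular → ℵ₀ < κ' → ∀ ν' < ν, κ' ≤ ν' →
            ∀ 𝓐' 𝓒' : Set X, Low κ' 𝓐' → GInv 𝓒' → SysA X κ' 𝓐' 𝓒' 0 →
            SysA X (Order.succ ν') 𝓐' 𝓒' ν' :=
          fun κ' hκκ' hκ' hκ0' ν' hν' hκν' 𝓐' 𝓒' hA' hC' h' =>
          ih ν' hν' κ' hκ' hκ0' hκν' (fun c hc hc0 hcd => hH c hc (hκκ'.trans_lt hc0)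
            (hcd.trans hν'.le)) 𝓐' 𝓒' hA' hC' h'
        rcases lt_or_ge ν.ord.cof κ with hθ | hθ
        · exact stepSing hco hφ hκ hκ0 hsing hθ hlt hA h𝓒 (IH κ le_rfl hκ hκ0) h
        · have h1 := IH κ le_rfl hκ hκ0 ν.ord.cof hsing.cof_ord_lt hθ 𝓐 𝓒 hA h𝓒 h
          have hθ0 : ℵ₀ ≤ ν.ord.cof := hκ0.le.trans hθ
          have hκ' : (Order.succ ν.ord.cof).IsRegular := isRegular_succ hθ0
          have hκ0' : ℵ₀ < Order.succ ν.ord.cof := Order.lt_succ_of_le hθ0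
          exact stepSing hco hφ hκ' hκ0' hsing (Order.lt_succ _) (hlim.succ_lt hsing.cof_ord_lt)
            (hA.mono (hθ.trans (Order.le_succ _))) h𝓒
            (IH _ (hθ.trans (Order.le_succ _)) hκ' hκ0') h1.zero
    · subst heq
      exact stepReg hco hφ hκ hκ0 hA h𝓒 h

/-- the Corson theorem -/
theorem corson_scattered [CompactSpace X] [T2Space X] (hco : IsCO X) (hφ : Cors φ)
    {𝓑 : Set (Set X)} (h𝓑 : TopologicalSpace.IsTopologicalBasis 𝓑)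
    (hw : ∀ c : Cardinal.{u}, c.IsRegular → 𝔠 < c → c ≤ #𝓑 → ∃ d, c = Order.succ d)
    {S : Set X} (hS : S.Nonempty) : ∃ x ∈ S, ∃ V : Set X, IsOpen V ∧ V ∩ S = {x} := by
  by_contra hcon
  have hS0 : isoPts S = ∅ := by
    rw [eq_empty_iff_forall_notMem]
    intro x hx
    exact hcon ⟨x, isoPts_subset _ hx, hx⟩
  have h𝔠 : ℵ₀ < (𝔠 : Cardinal.{u}) := aleph0_lt_continuum
  have h1 := sys_continuum hco hφ hS hS0
  have h2 := mainInduction hco hφ (max #𝓑 (Order.succ 𝔠)) (Order.succ 𝔠)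
    (isRegular_succ h𝔠.le) (h𝔠.trans (Order.lt_succ _)) (le_max_right _ _)
    (fun c hc hc0 hcν => by
      rcases le_max_iff.1 hcν with h3 | h3
      · exact hw c hc ((Order.lt_succ _).trans hc0) h3
      · exact absurd hc0 (not_lt.2 h3)) ∅ Set.univ
    ⟨fun _ _ _ h => h.elim, fun _ h => h.elim⟩ (fun _ _ _ _ => trivial) h1
  obtain ⟨ι, U, y, hι, hL, -⟩ := h2
  have h3 := hL.card_le h𝓑
  rw [hι] at h3
  have h4 : max #𝓑 ℵ₀ ≤ max #𝓑 (Order.succ 𝔠) :=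
    max_le_max le_rfl (h𝔠.le.trans (Order.le_succ _))
  exact absurd (h3.trans h4) (not_le.2 (Order.lt_succ _))

end InductSec

end Run7.h123
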