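import Pool.Agent.Run7.h123.Seq

open Set Topology Filter

namespace Run7.h123

universe u

section MainSec

variable {X : Type u} [TopologicalSpace X]

/-- every closed subset is homeomorphic to a clopen subset -/
def IsCO (X : Type u) [TopologicalSpace X] : Prop :=
  ∀ F : Set X, IsClosed F → ∃ U : Set X, IsClopen U ∧ Nonempty (F ≃ₜ U)

theorem exists_enum {A : Set ℕ} (hA : A.Nonempty) :
    ∃ ν : ℕ → ℕ, range ν = A ∧ ∀ k, ∃ᶠ l in atTop, ν l = ν k := by
  obtain ⟨g, hg⟩ := (A.to_countable).exists_eq_range hA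
  refine ⟨fun k => g (Nat.unpair k).1, ?_, ?_⟩
  · rw [hg]
    ext m
    constructor
    · rintro ⟨k, rfl⟩; exact ⟨_, rfl⟩
    · rintro ⟨k, rfl⟩
      exact ⟨Nat.pair k 0, by simp⟩
  · intro k
    rw [frequently_atTop]
    intro N
    exact ⟨Nat.pair (Nat.unpair k).1 N, Nat.right_le_pair _ _, by simp⟩

/-- the index sets: infinitely many values, at least two, and `B` can be read off -/
def code (B : Set ℕ) : Set ℕ := {n | n = 0 ∨ n = 1 ∨ ∃ m ∈ B, n = m + 2}

theorem code_injective : Function.Injective code := by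
  intro B C h
  ext m
  have := Set.ext_iff.1 h (m + 2)
  simp only [code, mem_ofPred_eq] at this
  constructor
  · intro hm
    rcases this.1 (Or.inr (Or.inr ⟨m, hm, rfl⟩)) with h1 | h1 | ⟨k, hk, h1⟩
    · omega
    · omega
    · rwa [show m = k by omega]
  · intro hm
    rcases this.2 (Or.inr (Or.inr ⟨m, hm, rfl⟩)) with h1 | h1 | ⟨k, hk, h1⟩
    · omega
    · omega
    · rwa [show m = k by omega]

theorem code_not_subsingleton (B : Set ℕ) : ¬ (code B).Subsingleton := by
  intro h
  have := h (show (0 : ℕ) ∈ code B from Or.inl rfl) (show (1 : ℕ) ∈ code B from Or.inr (Or.inl rfl))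
  omega

/-- the data produced by `exists_family` -/
structure Fam (P : Set X) (y : Set ℕ → X) (U F : Set ℕ → Set X) (e : ∀ B, F B ≃ₜ U B) :
    Prop where
  hU : ∀ B, IsClopen (U B)
  hF : ∀ B, IsClosed (F B)
  hFP : ∀ B, F B ⊆ P
  hyU : ∀ B, y B ∈ U B
  htau : ∀ B, tau (univ : Set X) (y B) = code B
  hsub : ∀ B z, z ∈ U B → z ≠ y B → (tau (univ : Set X) z).Subsingleton
  hker : ∀ B, y B ∈ Ker (univ : Set X)

theorem Fam.eq_of_tau {P : Set X} {y : Set ℕ → X} {U F : Set ℕ → Set X}
    {e : ∀ B, F B ≃ₜ U B} (h : Fam P y U F e) {B C : Set ℕ} {z : X} (hz : z ∈ U B)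
    (ht : tau (univ : Set X) z = code C) : z = y B ∧ C = B := by
  have h1 : z = y B := by
    by_contra hne
    have := h.hsub B z hz hne
    rw [ht] at this
    exact code_not_subsingleton C this
  refine ⟨h1, ?_⟩
  rw [h1, h.htau] at ht
  exact (code_injective ht).symm

theorem Fam.eq_of_mem {P : Set X} {y : Set ℕ → X} {U F : Set ℕ → Set X}
    {e : ∀ B, F B ≃ₜ U B} (h : Fam P y U F e) {B C : Set ℕ} (hz : y C ∈ U B) : C = B :=
  (h.eq_of_tau hz (h.htau C)).2

theorem Fam.injective {P : Set X} {y : Set ℕ → X} {U F : Set ℕ → Set X}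
    {e : ∀ B, F B ≃ₜ U B} (h : Fam P y U F e) : Function.Injective y :=
  fun i j hij => h.eq_of_mem (hij ▸ h.hyU j)

theorem exists_family [T2Space X] (hco : IsCO X) {P : Set X} (hA : HasAttach P) :
    ∃ y U F e, Fam (X := X) P y U F e := by
  have h1 : ∀ B : Set ℕ, ∃ (F : Set X) (x : X), IsClosed F ∧ x ∈ Ker F ∧ tau F x = code B ∧
      F ⊆ P ∧ ∀ z, z ≠ x → (tau F z).Subsingleton := by
    intro B
    obtain ⟨ν, hν, hν'⟩ := exists_enum (A := code B) ⟨0, Or.inl rfl⟩
    obtain ⟨K, x, p, E, O, hP, h⟩ := hA ν hν'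
    refine ⟨glue K E, x, h.isClosed_glue, ?_, ?_, hP, fun z hz => h.tau_subsingleton hz⟩
    · rw [h.Ker_eq]; exact h.hx
    · rw [h.tau_x, hν]
  choose F x hF hx hτ hP hsub using h1
  have h2 := fun B => hco (F B) (hF B)
  choose U hU e using h2
  have hxF : ∀ B, x B ∈ F B := fun B => Ker_subset _ (hx B)
  let y : Set ℕ → X := fun B => ((e B).some ⟨x B, hxF B⟩ : U B)
  refine ⟨y, U, F, fun B => (e B).some, hU, hF, hP, fun B => ((e B).some ⟨x B, hxF B⟩).2,
    ?_, ?_, fun B => Ker_homeo (e B).some ⟨x B, hxF B⟩ (hx B)⟩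
  · intro B
    rw [← hτ B]
    exact tau_homeo (hU B).2 (e B).some ⟨x B, hxF B⟩
  · intro B z hz hne
    set w : F B := (e B).some.symm ⟨z, hz⟩ with hw
    have hw' : ((e B).some w : X) = z := by simp [hw]
    have h3 : tau (univ : Set X) z = tau (F B) (w : X) := by
      rw [← hw']
      exact tau_homeo (hU B).2 (e B).some w
    rw [h3]
    apply hsub
    intro hwx
    apply hne
    rw [← hw']
    show ((e B).some w : X) = ((e B).some ⟨x B, hxF B⟩ : U B)
    congr 2
    exact Subtype.ext hwx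

/-- from a relatively discrete set we get as many isolated points -/
theorem exists_isolated {ι : Type*} (hco : IsCO X) [T1Space X] {y : ι → X} {U : ι → Set X}
    (hU : ∀ i, IsOpen (U i)) (h1 : ∀ i j, y j ∈ U i → j = i) (h2 : ∀ i, y i ∈ U i) :
    ∃ z : ι → X, Function.Injective z ∧ ∀ i, IsOpen ({z i} : Set X) := by
  have hyinj : Function.Injective y := fun i j hij => h1 j i (hij ▸ h2 j)
  obtain ⟨V, hV, ⟨e⟩⟩ := hco (closure (range y)) isClosed_closure
  have hmem : ∀ i, y i ∈ closure (range y) := fun i => subset_closure ⟨i, rfl⟩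
  refine ⟨fun i => (e ⟨y i, hmem i⟩ : V), ?_, ?_⟩
  · intro i j hij
    have := e.injective (Subtype.ext hij)
    exact hyinj (Subtype.ext_iff.1 this)
  · intro i
    have h3 : closure (range y) ∩ U i ⊆ {y i} := by
      rintro z ⟨hz, hzU⟩
      have h4 : z ∈ closure (range y ∩ U i) := by
        have := Set.ext_iff.1 (closure_inter_open_inter (range y) (hU i)) z
        exact (this.2 ⟨hz, hzU⟩).1
      have h5 : range y ∩ U i ⊆ {y i} := by
        rintro _ ⟨⟨j, rfl⟩, hj⟩
        rw [h1 i j hj]; rfl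
      have h6 := closure_mono h5 h4
      rwa [closure_singleton] at h6
    have h7 : IsOpen ({⟨y i, hmem i⟩} : Set (closure (range y))) := by
      have : ({⟨y i, hmem i⟩} : Set (closure (range y))) = Subtype.val ⁻¹' U i := by
        ext w
        simp only [mem_singleton_iff, mem_preimage]
        constructor
        · rintro rfl; exact h2 i
        · intro hw; exact Subtype.ext (h3 ⟨w.2, hw⟩)
      rw [this]
      exact (hU i).preimage continuous_subtype_val
    have h8 : IsOpen (e '' {⟨y i, hmem i⟩}) := e.isOpenMap _ h7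
    have h9 : IsOpen (Subtype.val '' (e '' {⟨y i, hmem i⟩}) : Set X) :=
      hV.2.isOpenMap_subtype_val _ h8
    simpa using h9

end MainSec

end Run7.h123
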