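import Pool.Agent.Run7.h123.Stages

open Set Topology Filter Cardinal

namespace Run7.h123

universe u

set_option linter.unusedSectionVars false

/-- more than `κ` many functions pairwise agreeing at fewer than `κ` places -/
theorem exists_fun_family {κ : Cardinal.{u}} (hκ : ℵ₀ ≤ κ) :
    ∃ 𝓖 : Set (κ.ord.ToType → κ.ord.ToType), κ < #𝓖 ∧
      ∀ σ ∈ 𝓖, ∀ τ ∈ 𝓖, σ ≠ τ → #{a | σ a = τ a} < κ := by
  classical
  obtain ⟨𝓖, h𝓖⟩ : ∃ 𝓖 : Set (κ.ord.ToType → κ.ord.ToType), Maximal (· ∈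
      {𝓖 : Set (κ.ord.ToType → κ.ord.ToType) | 𝓖.Pairwise (fun σ τ => #{a | σ a = τ a} < κ)}) 𝓖 := by
    apply zorn_subset
    intro c hc hchain
    refine ⟨⋃₀ c, ?_, fun t ht => subset_sUnion_of_mem ht⟩
    intro σ hσ τ hτ hne
    obtain ⟨s, hs, hσs⟩ := hσ
    obtain ⟨t, ht, hτt⟩ := hτ
    rcases eq_or_ne s t with h1 | h1
    · subst h1; exact hc hs hσs hτt hne
    · rcases hchain hs ht h1 with h2 | h2
      · exact hc ht (h2 hσs) hτt hne
      · exact hc hs hσs (h2 hτt) hne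
  refine ⟨𝓖, ?_, fun σ hσ τ hτ hne => h𝓖.prop hσ hτ hne⟩
  by_contra hle
  have hle' : #𝓖 ≤ #κ.ord.ToType := by rw [mk_ord_toType]; exact not_lt.1 hle
  rw [Cardinal.le_def] at hle'
  obtain ⟨f⟩ := hle'
  have hIic : ∀ a : κ.ord.ToType, #(Iic a) < κ := by
    intro a
    have h1 : Iic a ⊆ insert a (Iio a) := by
      intro w hw
      rcases (mem_Iic.1 hw).lt_or_eq with h2 | h2
      · exact Or.inr h2
      · exact Or.inl h2
    refine (mk_le_mk_of_subset h1).trans_lt (mk_insert_le.trans_lt ?_)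
    have h2 := mk_Iio_toType_ord_lt a
    rcases lt_or_ge #(Iio a) ℵ₀ with h3 | h3
    · exact (add_lt_aleph0 h3 one_lt_aleph0).trans_le hκ
    · rwa [add_one_eq h3]
  have hex : ∀ a : κ.ord.ToType, ∃ b, ∀ τ : 𝓖, f τ ≤ a → τ.1 a ≠ b := by
    intro a
    by_contra hcon
    push Not at hcon
    have h1 : #(Set.univ : Set κ.ord.ToType) ≤ #{τ : 𝓖 | f τ ≤ a} := by
      choose g hg1 hg2 using hcon
      rw [mk_univ]
      apply mk_le_of_injective (f := fun b => (⟨g b, hg1 b⟩ : {τ : 𝓖 | f τ ≤ a}))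
      intro b b' hbb
      have h2 : g b = g b' := congrArg Subtype.val hbb
      rw [← hg2 b, ← hg2 b', h2]
    have h2 : #{τ : 𝓖 | f τ ≤ a} ≤ #(Iic a) := by
      apply mk_le_of_injective (f := fun τ => (⟨f τ.1, τ.2⟩ : Iic a))
      intro τ τ' h
      exact Subtype.ext (f.injective (congrArg Subtype.val h))
    rw [mk_univ, mk_ord_toType] at h1
    exact absurd (h1.trans h2) (not_le.2 (hIic a))
  choose σ hσ using hex
  have hσ1 : ∀ τ : 𝓖, #{a | σ a = τ.1 a} < κ := by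
    intro τ
    refine (mk_le_mk_of_subset ?_).trans_lt (mk_Iio_toType_ord_lt (f τ))
    intro a ha
    by_contra hlt
    exact hσ a τ (not_lt.1 hlt) ha.symm
  have hσ2 : σ ∉ 𝓖 := by
    intro h1
    have h2 := hσ1 ⟨σ, h1⟩
    simp only [ofPred_true, mk_univ, mk_ord_toType] at h2
    exact lt_irrefl _ h2
  apply hσ2
  have h3 : insert σ 𝓖 ∈ {𝓖 : Set (κ.ord.ToType → κ.ord.ToType) |
      𝓖.Pairwise (fun σ τ => #{a | σ a = τ a} < κ)} := by
    refine h𝓖.prop.insert ?_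
    intro τ hτ _
    refine ⟨hσ1 ⟨τ, hτ⟩, ?_⟩
    have := hσ1 ⟨τ, hτ⟩
    simpa only [eq_comm] using this
  exact h𝓖.le_of_ge h3 (subset_insert _ _) (mem_insert _ _)

section NewSec

variable {X : Type u} [TopologicalSpace X] {Γ : Type u} {φ : X → Γ → ℝ}

theorem Lab.mk_Supp {κ : Cardinal.{u}} (hφ : Cors φ) (hκ : ℵ₀ ≤ κ) {ι : Type u} {U : ι → Set X}
    {y : ι → X} (h : Lab κ U y) (hι : #ι ≤ κ) : #(Supp φ (closure (⋃ i, U i))) ≤ κ := by
  have h1 : Supp φ (closure (⋃ i, U i)) ⊆ ⋃ i, Supp φ (U i) := by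
    refine (Supp_closure hφ _).trans ?_
    rintro γ ⟨x, hx, hγ⟩
    obtain ⟨i, hi⟩ := mem_iUnion.1 hx
    exact mem_iUnion.2 ⟨i, x, hi, hγ⟩
  have hSU : ∀ i, #(Supp φ (U i)) ≤ κ := by
    intro i
    obtain ⟨A, hA, hUA⟩ := h.hd i
    exact (mk_Supp_le hφ hUA).trans (max_le hA.le hκ)
  calc #(Supp φ (closure (⋃ i, U i))) ≤ #(⋃ i, Supp φ (U i) : Set Γ) := mk_le_mk_of_subset h1
    _ ≤ Cardinal.sum (fun i => #(Supp φ (U i))) := mk_iUnion_le_sum_mk
    _ ≤ Cardinal.sum (fun _ : ι => κ) := sum_le_sum _ _ hSU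
    _ = #ι * κ := by simp
    _ ≤ κ * κ := mul_le_mul' hι le_rfl
    _ = κ := mul_eq_self hκ

/-- the image of a dense subset under a homeomorphism -/
theorem dense_image {F V : Set X} (e : F ≃ₜ V) {A : Set X} (hA : A ⊆ F) (hFA : F ⊆ closure A) :
    V ⊆ closure (range (fun a : A => ((e ⟨a.1, hA a.2⟩ : V) : X))) := by
  intro v hv
  rw [mem_closure_iff]
  intro O hO hvO
  obtain ⟨O', hO', hOO⟩ := isOpen_induced_iff.1 ((hO.preimage continuous_subtype_val).preimage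
    e.continuous)
  have h1 : e.symm ⟨v, hv⟩ ∈ (Subtype.val ⁻¹' O' : Set F) := by
    rw [hOO]
    show ((e (e.symm ⟨v, hv⟩) : V) : X) ∈ O
    rw [e.apply_symm_apply]; exact hvO
  obtain ⟨a, haO, haA⟩ := mem_closure_iff.1 (hFA (e.symm ⟨v, hv⟩).2) O' hO' h1
  refine ⟨_, ?_, ⟨⟨a, haA⟩, rfl⟩⟩
  have h2 : (⟨a, hA haA⟩ : F) ∈ (Subtype.val ⁻¹' O' : Set F) := haO
  rw [hOO] at h2
  exact h2

/-- from `κ` labels of density less than `κ` (`κ` regular) to `κ⁺` labels of density at most `κ` -/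
theorem newLabels [CompactSpace X] [T2Space X] (hco : IsCO X) (hφ : Cors φ) {κ : Cardinal.{u}}
    (hκ : κ.IsRegular) (hκ0 : ℵ₀ < κ) {ι : Type u} {U : ι → Set X} {y : ι → X}
    (h : Lab κ U y) (hι : #ι = κ) :
    ∃ (ι' : Type u) (U' : ι' → Set X) (y' : ι' → X), #ι' = Order.succ κ ∧
      Lab (Order.succ κ) U' y' := by
  classical
  obtain ⟨R, E, p, T, ⟨O₀⟩, hpinj, hT, hTU, hyT, hTd, hR⟩ := exists_stages hφ hκ hκ0 h hι
  obtain ⟨𝓖₀, h𝓖₀, h𝓖₁⟩ := exists_fun_family hκ.aleph0_le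
  obtain ⟨𝓖, h𝓖sub, h𝓖c⟩ := le_mk_iff_exists_subset.1 (Order.succ_le_of_lt h𝓖₀)
  have h𝓖 : ∀ σ ∈ 𝓖, ∀ τ ∈ 𝓖, σ ≠ τ → #{a | σ a = τ a} < κ :=
    fun σ hσ τ hτ => h𝓖₁ σ (h𝓖sub hσ) τ (h𝓖sub hτ)
  let S : (κ.ord.ToType → κ.ord.ToType) → Set κ.ord.ToType := fun σ =>
    {w | (E w).2.2 = σ (E w).2.1}
  let F : (κ.ord.ToType → κ.ord.ToType) → Set X := fun σ => closure (⋃ w ∈ S σ, T w)
  let wd : R → (κ.ord.ToType → κ.ord.ToType) → κ.ord.ToType → κ.ord.ToType := fun O σ a =>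
    E.symm (O, (a, σ a))
  have hwS : ∀ O σ a, wd O σ a ∈ S σ := by
    intro O σ a
    simp [S, wd]
  have hwinj : ∀ O σ a b, wd O σ a = wd O σ b → a = b := by
    intro O σ a b hab
    have := E.symm.injective hab
    simp only [Prod.mk.injEq] at this
    exact this.2.1
  have hTF : ∀ σ, ∀ w ∈ S σ, T w ⊆ F σ := fun σ w hw =>
    (subset_biUnion_of_mem (u := T) hw).trans subset_closure
  -- germs of the old labels in `F σ`
  have hR3 : ∀ σ (r : F σ) α, GE (y (p α)) r → α ∈ S σ := by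
    intro σ r α hg
    by_cases hrT : (r : X) ∈ ⋃ w ∈ S σ, T w
    · obtain ⟨w, hw, hrw⟩ := mem_iUnion₂.1 hrT
      have h1 : GE r (r : X) := GE.of_open_subset (hT w).2 (hTF σ w hw) hrw
      have h2 := h.anti (p α) (p w) _ (hTU w hrw) (hg.trans h1)
      rw [hpinj h2]; exact hw
    · exfalso
      obtain ⟨A, hA, hUA⟩ := h.hd (p α)
      have h1 : LD #A (y (p α)) := ⟨U (p α), (h.hU _).2, h.hy _, A, le_rfl, hUA⟩
      obtain ⟨V, hV, hrV, D, hD, hVD⟩ := h1.of_GE hg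
      obtain ⟨G, hG, rfl⟩ := isOpen_induced_iff.1 hV
      obtain ⟨O, hO⟩ := hR (S σ) r r.2 hrT G (hG.mem_nhds hrV)
      have h2 : ∀ a, ∃ d : D, ((d : F σ) : X) ∈ T (wd O σ a) := by
        intro a
        obtain ⟨x, hxT, hxG⟩ := hO (wd O σ a) (by simp [wd])
        have hxF : x ∈ F σ := hTF σ _ (hwS O σ a) hxT
        obtain ⟨d, hdT, hdD⟩ := mem_closure_iff.1 (hVD (show (⟨x, hxF⟩ : F σ) ∈ _ from hxG))
          (Subtype.val ⁻¹' (T (wd O σ a))) ((hT _).2.preimage continuous_subtype_val) hxT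
        exact ⟨⟨d, hdD⟩, hdT⟩
      choose d hd using h2
      have h3 : Function.Injective d := by
        intro a b hab
        by_contra hne
        have h4 := hd b
        rw [← hab] at h4
        exact Set.disjoint_left.1 (hTd (fun h5 => hne (hwinj O σ a b h5))) (hd a) h4
      have h4 := mk_le_of_injective h3
      rw [mk_ord_toType] at h4
      exact absurd (h4.trans hD) (not_le.2 hA)
  -- the new points
  have hz : ∀ σ, ∃ z ∈ F σ, ∀ G ∈ 𝓝 z, κ ≤ #{a | y (p (wd O₀ σ a)) ∈ G} := by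
    intro σ
    by_contra hcon
    push Not at hcon
    have hc : IsCompact (F σ) := isClosed_closure.isCompact
    have h1 : #{a | y (p (wd O₀ σ a)) ∈ F σ} < κ := by
      refine hc.induction_on (p := fun s => #{a | y (p (wd O₀ σ a)) ∈ s} < κ) ?_ ?_ ?_ ?_
      · simpa using hκ.pos
      · intro s t hst ht
        have hsub : {a | y (p (wd O₀ σ a)) ∈ s} ⊆ {a | y (p (wd O₀ σ a)) ∈ t} :=
          fun a ha => hst ha
        exact (mk_le_mk_of_subset hsub).trans_lt ht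
      · intro s t hs ht
        refine (mk_le_mk_of_subset (t := {a | y (p (wd O₀ σ a)) ∈ s} ∪
          {a | y (p (wd O₀ σ a)) ∈ t}) (fun a ha => ha)).trans_lt ?_
        exact (mk_union_le _ _).trans_lt (add_lt_of_lt hκ.aleph0_le hs ht)
      · intro z hz
        obtain ⟨G, hG, hGc⟩ := hcon z hz
        exact ⟨G, mem_nhdsWithin_of_mem_nhds hG, hGc⟩
    have h2 : {a | y (p (wd O₀ σ a)) ∈ F σ} = Set.univ := by
      ext a
      simp only [mem_ofPred_eq, mem_univ, iff_true]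
      exact hTF σ _ (hwS O₀ σ a) (hyT _)
    rw [h2, mk_univ, mk_ord_toType] at h1
    exact lt_irrefl _ h1
  choose z hzF hzG using hz
  have hV := fun σ => hco (F σ) isClosed_closure
  choose V hV e' using hV
  let e : ∀ σ, F σ ≃ₜ V σ := fun σ => (e' σ).some
  have hgerm : ∀ σ (r : F σ), GE r ((e σ r : V σ) : X) := fun σ r =>
    (GE.of_homeo (e σ) r).trans (GE.of_open (hV σ).2 _)
  refine ⟨𝓖, fun σ => V σ.1, fun σ => (e σ.1 ⟨z σ.1, hzF σ.1⟩ : V σ.1), h𝓖c, ?_⟩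
  refine ⟨fun σ => hV σ.1, fun σ => (e σ.1 ⟨z σ.1, hzF σ.1⟩).2, ?_, ?_⟩
  · rintro ⟨σ, hσ⟩
    obtain ⟨A, hAF, hFA, hA⟩ := exists_dense hφ (F σ)
    refine ⟨_, ?_, dense_image (e σ) hAF hFA⟩
    refine mk_range_le.trans_lt (hA.trans_lt (Order.lt_succ_of_le (max_le ?_ hκ.aleph0_le)))
    refine (mk_le_mk_of_subset (Supp_mono ?_)).trans (h.mk_Supp hφ hκ.aleph0_le hι.le)
    apply closure_mono
    exact iUnion₂_subset fun w _ => (hTU w).trans (subset_iUnion U _)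
  · rintro ⟨σ, hσ⟩ ⟨τ, hτ⟩ z' hz' hg
    simp only at hz' hg
    by_contra hne
    have hne' : σ ≠ τ := fun h1 => hne (Subtype.ext h1)
    set r : F τ := (e τ).symm ⟨z', hz'⟩ with hr
    have h1 : GE r z' := by
      have := hgerm τ r
      rwa [hr, (e τ).apply_symm_apply] at this
    have h2 : GE (⟨z σ, hzF σ⟩ : F σ) r := ((hgerm σ _).trans hg).trans h1.symm
    obtain ⟨g, hgs, hgr⟩ := h2
    obtain ⟨G, hG, hGs⟩ := isOpen_induced_iff.1 g.open_source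
    have hzG' : z σ ∈ G := by
      have : (⟨z σ, hzF σ⟩ : F σ) ∈ (Subtype.val ⁻¹' G : Set (F σ)) := by rw [hGs]; exact hgs
      exact this
    have h3 := hzG σ G (hG.mem_nhds hzG')
    have h4 : {a | y (p (wd O₀ σ a)) ∈ G} ⊆ {a | σ a = τ a} := by
      intro a ha
      have hyF : y (p (wd O₀ σ a)) ∈ F σ := hTF σ _ (hwS O₀ σ a) (hyT _)
      have h5 : (⟨_, hyF⟩ : F σ) ∈ g.source := by
        rw [← hGs]; exact ha
      have h6 : GE (y (p (wd O₀ σ a))) (⟨_, hyF⟩ : F σ) :=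
        (GE.of_open_subset (hT _).2 (hTF σ _ (hwS O₀ σ a)) (hyT _)).symm
      have h7 : GE (⟨_, hyF⟩ : F σ) (g ⟨_, hyF⟩) := ⟨g, h5, rfl⟩
      have h8 := hR3 τ _ _ (h6.trans h7)
      simpa [S, wd] using h8
    exact absurd (h3.trans (mk_le_mk_of_subset h4)) (not_le.2 (h𝓖 σ hσ τ hτ hne'))

end NewSec

end Run7.h123
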