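import Pool.Agent.Run7.h123.StagesG

open Set Topology Filter Cardinal

namespace Run7.h123

universe u

set_option linter.unusedSectionVars false

/-- more than `#W` many level-wise functions, pairwise agreeing at few places from some level on -/
theorem exists_fun_familyG {Ξ W : Type u} [LinearOrder Ξ] [LinearOrder W] [WellFoundedLT W]
    {lam : Ξ → Cardinal.{u}} {lev : W → Ξ} (hF : Frame lam lev) [Nonempty Ξ] :
    ∃ 𝓖 : Set (∀ ξ, {w // lev w = ξ} → {w // lev w = ξ}), #W < #𝓖 ∧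
      ∀ σ ∈ 𝓖, ∀ τ ∈ 𝓖, σ ≠ τ → ∃ ξ₀, ∀ ξ, ξ₀ ≤ ξ → #{a | σ ξ a = τ ξ a} < lam ξ := by
  classical
  let Q : (∀ ξ, {w // lev w = ξ} → {w // lev w = ξ}) →
      (∀ ξ, {w // lev w = ξ} → {w // lev w = ξ}) → Prop := fun σ τ =>
    ∃ ξ₀, ∀ ξ, ξ₀ ≤ ξ → #{a | σ ξ a = τ ξ a} < lam ξ
  have hQsymm : ∀ σ τ, Q σ τ → Q τ σ := by
    rintro σ τ ⟨ξ₀, h⟩
    refine ⟨ξ₀, fun ξ hξ => ?_⟩
    simpa only [eq_comm] using h ξ hξ
  obtain ⟨𝓖, h𝓖⟩ : ∃ 𝓖 : Set (∀ ξ, {w // lev w = ξ} → {w // lev w = ξ}), Maximal (· ∈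
      {𝓖 : Set (∀ ξ, {w // lev w = ξ} → {w // lev w = ξ}) | 𝓖.Pairwise Q}) 𝓖 := by
    apply zorn_subset
    intro c hc hchain
    refine ⟨⋃₀ c, ?_, fun t ht => subset_sUnion_of_mem ht⟩
    intro σ hσ τ hτ hne
    obtain ⟨s, hs, hσs⟩ := hσ
    obtain ⟨t, ht, hτt⟩ := hτ
    rcases eq_or_ne s t with h1 | h1
    · subst h1; exact hc hs hσs hτt hne
    · rcases hchain hs ht h1 with h2 | h2
      · exact hc ht (h2 hσs) hτt hne
      · exact hc hs hσs (h2 hτt) hne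
  refine ⟨𝓖, ?_, fun σ hσ τ hτ hne => h𝓖.prop hσ hτ hne⟩
  by_contra hle
  have hle' : #𝓖 ≤ #W := not_lt.1 hle
  rw [Cardinal.le_def] at hle'
  obtain ⟨f⟩ := hle'
  have hIic : ∀ a : W, #(Set.Iic a) < lam (lev a) := by
    intro a
    have h1 : Set.Iic a ⊆ insert a (Set.Iio a) := by
      intro w hw
      rcases (mem_Iic.1 hw).lt_or_eq with h2 | h2
      · exact Or.inr h2
      · exact Or.inl h2
    exact (mk_le_mk_of_subset h1).trans_lt (mk_insert_le.trans_lt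
      (add_lt_of_lt (hF.reg _).aleph0_le (hF.Iio a) (one_lt_aleph0.trans (hF.unc _))))
  have hex : ∀ ξ (a : {w // lev w = ξ}), ∃ b : {w // lev w = ξ}, ∀ τ : 𝓖, f τ ≤ a.1 →
      τ.1 ξ a ≠ b := by
    intro ξ a
    by_contra hcon
    push Not at hcon
    have h1 : #{w // lev w = ξ} ≤ #{τ : 𝓖 | f τ ≤ a.1} := by
      choose g hg1 hg2 using hcon
      apply mk_le_of_injective (f := fun b => (⟨g b, hg1 b⟩ : {τ : 𝓖 | f τ ≤ a.1}))
      intro b b' hbb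
      have h2 : g b = g b' := congrArg Subtype.val hbb
      rw [← hg2 b, ← hg2 b', h2]
    have h2 : #{τ : 𝓖 | f τ ≤ a.1} ≤ #(Set.Iic a.1) := by
      apply mk_le_of_injective (f := fun τ => (⟨f τ.1, τ.2⟩ : Set.Iic a.1))
      intro τ τ' h
      exact Subtype.ext (f.injective (congrArg Subtype.val h))
    have h3 := hIic a.1
    rw [a.2] at h3
    rw [hF.fib] at h1
    exact absurd (h1.trans h2) (not_le.2 h3)
  choose σ hσ using hex
  have hσ1 : ∀ τ : 𝓖, ∀ ξ, lev (f τ) ≤ ξ → #{a | σ ξ a = τ.1 ξ a} < lam ξ := by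
    intro τ ξ hξ
    have h1 : #{a | σ ξ a = τ.1 ξ a} ≤ #(Set.Iio (f τ)) := by
      have h2 : ∀ a : {a | σ ξ a = τ.1 ξ a}, a.1.1 < f τ := by
        rintro ⟨a, ha⟩
        by_contra hlt
        exact hσ ξ a τ (not_lt.1 hlt) ha.symm
      apply mk_le_of_injective (f := fun a => (⟨a.1.1, h2 a⟩ : Set.Iio (f τ)))
      intro a b hab
      simpa [Subtype.ext_iff] using hab
    exact (h1.trans_lt (hF.Iio (f τ))).trans_le (hF.mono hξ)
  have hσ2 : σ ∉ 𝓖 := by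
    intro h1
    have h2 := hσ1 ⟨σ, h1⟩ _ le_rfl
    simp only [ofPred_true, mk_univ] at h2
    rw [hF.fib] at h2
    exact lt_irrefl _ h2
  apply hσ2
  have h3 : insert σ 𝓖 ∈ {𝓖 : Set (∀ ξ, {w // lev w = ξ} → {w // lev w = ξ}) |
      𝓖.Pairwise Q} := by
    refine h𝓖.prop.insert ?_
    intro τ hτ _
    have h4 : Q σ τ := ⟨_, hσ1 ⟨τ, hτ⟩⟩
    exact ⟨h4, hQsymm _ _ h4⟩
  exact h𝓖.le_of_ge h3 (subset_insert _ _) (mem_insert _ _)

section NewGSec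

variable {X : Type u} [TopologicalSpace X] {Γ : Type u} {φ : X → Γ → ℝ}

theorem newLabelsG [CompactSpace X] [T2Space X] (hco : IsCO X) (hφ : Cors φ)
    {Ξ W : Type u} [LinearOrder Ξ] [WellFoundedLT Ξ] [Nonempty Ξ]
    [LinearOrder W] [WellFoundedLT W] {lam : Ξ → Cardinal.{u}}
    {lev : W → Ξ} (hF : Frame lam lev) {ι : Type u} {l : ι → Ξ} {U : ι → Set X} {y : ι → X}
    (h : GLab lam l U y) (hι : ∀ ξ, #{i // l i = ξ} = lam ξ)
    (hLD : ∀ i, ∀ η < l i, ¬ LD #{w // lev w < l i} (y i))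
    {𝓐 𝓒 : Set X} (h𝓐 : GInv 𝓐) (h𝓐LD : ∀ a ∈ 𝓐, ∃ c, (∀ ξ, c < lam ξ) ∧ LD c a)
    (hUA : ∀ i, Disjoint (U i) 𝓐) (h𝓒 : GInv 𝓒) (hy𝓒 : ∀ i, y i ∈ closure 𝓒) :
    ∃ (ι' : Type u) (U' : ι' → Set X) (y' : ι' → X), #ι' = Order.succ #W ∧
      Lab (Order.succ #W) U' y' ∧ (∀ i, Disjoint (U' i) 𝓐) ∧ (∀ i, y' i ∈ closure 𝓒) ∧
      ∀ i, ∀ c, (∃ ξ, c < lam ξ) → ¬ LD c (y' i) := by
  classical
  obtain ⟨R, E, p, T, hRne, hpinj, hlp, hT, hTU, hyT, hTd, hR⟩ := exists_stagesG hφ hF h hι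
  obtain ⟨𝓖₀, h𝓖₀, h𝓖₁⟩ := exists_fun_familyG hF
  obtain ⟨𝓖, h𝓖sub, h𝓖c⟩ := le_mk_iff_exists_subset.1 (Order.succ_le_of_lt h𝓖₀)
  have h𝓖 : ∀ σ ∈ 𝓖, ∀ τ ∈ 𝓖, σ ≠ τ → ∃ ξ₀, ∀ ξ, ξ₀ ≤ ξ → #{a | σ ξ a = τ ξ a} < lam ξ :=
    fun σ hσ τ hτ => h𝓖₁ σ (h𝓖sub hσ) τ (h𝓖sub hτ)
  let S : (∀ ξ, {w // lev w = ξ} → {w // lev w = ξ}) → Set W := fun σ =>
    {w | (E (lev w) ⟨w, rfl⟩).2.2 = σ (lev w) (E (lev w) ⟨w, rfl⟩).2.1}
  have hS : ∀ σ ξ (a : {w // lev w = ξ}), a.1 ∈ S σ ↔ (E ξ a).2.2 = σ ξ (E ξ a).2.1 := by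
    rintro σ ξ ⟨w, rfl⟩
    exact Iff.rfl
  let F : (∀ ξ, {w // lev w = ξ} → {w // lev w = ξ}) → Set X := fun σ => closure (⋃ w ∈ S σ, T w)
  let wd : ∀ ξ, R ξ → (∀ ξ, {w // lev w = ξ} → {w // lev w = ξ}) → {w // lev w = ξ} →
    {w // lev w = ξ} := fun ξ O σ a => (E ξ).symm (O, (a, σ ξ a))
  have hwS : ∀ ξ O σ a, (wd ξ O σ a).1 ∈ S σ := by
    intro ξ O σ a
    rw [hS]
    simp [wd]
  have hwinj : ∀ ξ O σ, Function.Injective (fun a => (wd ξ O σ a).1) := by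
    intro ξ O σ a b hab
    have := (E ξ).symm.injective (Subtype.ext hab)
    simp only [Prod.mk.injEq] at this
    exact this.2.1
  have hTF : ∀ σ, ∀ w ∈ S σ, T w ⊆ F σ := fun σ w hw =>
    (subset_biUnion_of_mem (u := T) hw).trans subset_closure
  -- counting
  have hcount : ∀ σ (G : Set X), IsOpen G → ∀ D : Set (F σ),
      (Subtype.val ⁻¹' G : Set (F σ)) ⊆ closure D → ∀ (J : Type u) (f : J → W),
      Function.Injective f → (∀ j, f j ∈ S σ) → (∀ j, (T (f j) ∩ G).Nonempty) → #J ≤ #D := by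
    intro σ G hG D hGD J f hf hfS hfG
    have h2 : ∀ j, ∃ d : D, ((d : F σ) : X) ∈ T (f j) := by
      intro j
      obtain ⟨x, hxT, hxG⟩ := hfG j
      have hxF : x ∈ F σ := hTF σ _ (hfS j) hxT
      obtain ⟨d, hdT, hdD⟩ := mem_closure_iff.1 (hGD (show (⟨x, hxF⟩ : F σ) ∈ _ from hxG))
        (Subtype.val ⁻¹' (T (f j))) ((hT _).2.preimage continuous_subtype_val) hxT
      exact ⟨⟨d, hdD⟩, hdT⟩
    choose d hd using h2
    apply mk_le_of_injective (f := d)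
    intro a b hab
    by_contra hne
    have h4 := hd b
    rw [← hab] at h4
    exact Set.disjoint_left.1 (hTd (fun h5 => hne (hf h5))) (hd a) h4
  have hmany : ∀ σ (r : F σ) ζ, (∀ G ∈ 𝓝 (r : X), ∃ η, ζ ≤ η ∧
      ∃ O : R η, ∀ a : {w // lev w = η}, (E η a).1 = O → (T a.1 ∩ G).Nonempty) →
      ∀ c, LD c r → lam ζ ≤ c := by
    rintro σ r ζ hG c ⟨V, hV, hrV, D, hD, hVD⟩
    obtain ⟨G, hGo, rfl⟩ := isOpen_induced_iff.1 hV
    obtain ⟨η, hη, O, hO⟩ := hG G (hGo.mem_nhds hrV)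
    have h1 := hcount σ G hGo D hVD {w // lev w = η} (fun a => (wd η O σ a).1) (hwinj η O σ)
      (hwS η O σ) (fun a => hO (wd η O σ a) (by simp [wd]))
    rw [hF.fib] at h1
    exact (hF.mono hη).trans (h1.trans hD)
  -- the germs of the old labels in `F σ`
  have hR3 : ∀ σ (r : F σ) α, GE (y (p α)) r → α ∈ S σ := by
    intro σ r α hg
    by_cases hrT : (r : X) ∈ ⋃ w ∈ S σ, T w
    · obtain ⟨w, hw, hrw⟩ := mem_iUnion₂.1 hrT
      have h1 : GE r (r : X) := GE.of_open_subset (hT w).2 (hTF σ w hw) hrw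
      have h2 := h.anti (p α) (p w) _ (hTU w hrw) (hg.trans h1)
      rw [hpinj h2]; exact hw
    · exfalso
      rcases hR (S σ) r r.2 hrT (lev α) with hcl | hG
      · -- the local density is too small
        set ζ := lev α with hζ
        have hA : ∀ w : W, ∃ A : Set X, #A < lam (lev w) ∧ U (p w) ⊆ closure A := fun w => by
          have := h.hd (p w)
          rwa [hlp] at this
        choose A hA hUA' using hA
        set D : Set X := ⋃ w : {w // lev w < ζ}, (A w.1 ∩ T w.1) with hD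
        have h0 : ((⋃ w ∈ S σ, T w) ⊆ (⋃ w ∈ S σ ∩ {w | ζ ≤ lev w}, T w) ∪
            ⋃ w ∈ S σ ∩ {w | lev w < ζ}, T w) := by
          intro z hz
          obtain ⟨w, hw, hzw⟩ := mem_iUnion₂.1 hz
          rcases le_or_gt ζ (lev w) with h1 | h1
          · exact Or.inl (mem_iUnion₂.2 ⟨w, ⟨hw, h1⟩, hzw⟩)
          · exact Or.inr (mem_iUnion₂.2 ⟨w, ⟨hw, h1⟩, hzw⟩)
        have h1 : ∀ v ∈ F σ, v ∉ closure (⋃ w ∈ S σ ∩ {w | ζ ≤ lev w}, T w) →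
            v ∈ closure (⋃ w ∈ S σ ∩ {w | lev w < ζ}, T w) := by
          intro v hv hvn
          have := closure_mono h0 hv
          rw [closure_union] at this
          exact this.resolve_left hvn
        have hex : ∃ w, lev w < ζ := by
          obtain ⟨z, hz⟩ := closure_nonempty_iff.1 ⟨_, h1 r r.2 hcl⟩
          obtain ⟨w, hw, _⟩ := mem_iUnion₂.1 hz
          exact ⟨w, hw.2⟩
        obtain ⟨w₀, hw₀⟩ := hex
        set ρ : Cardinal.{u} := #{w // lev w < ζ} with hρ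
        have hlr : ∀ w, lev w < ζ → lam (lev w) ≤ ρ := by
          intro w hw
          rw [← hF.fib (lev w)]
          apply mk_le_of_injective (f := fun v : {v // lev v = lev w} =>
            (⟨v.1, v.2.trans_lt hw⟩ : {w // lev w < ζ}))
          intro a b hab
          simpa [Subtype.ext_iff] using hab
        have hρ0 : ℵ₀ ≤ ρ := (hF.reg _).aleph0_le.trans (hlr w₀ hw₀)
        have hDc : #D ≤ ρ := by
          calc #D ≤ Cardinal.sum (fun w : {w // lev w < ζ} => #(A w.1 ∩ T w.1 : Set X)) :=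
                mk_iUnion_le_sum_mk
            _ ≤ Cardinal.sum (fun _ : {w // lev w < ζ} => ρ) := by
                apply sum_le_sum
                intro w
                exact (mk_le_mk_of_subset inter_subset_left).trans
                  ((hA w.1).le.trans (hlr w.1 w.2))
            _ = ρ * ρ := by simp [hρ]
            _ = ρ := mul_eq_self hρ0
        have hTD : ∀ w, lev w < ζ → T w ⊆ closure D := by
          intro w hw v hv
          rw [mem_closure_iff]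
          intro O hO hvO
          obtain ⟨a, ⟨haO, haT⟩, haA⟩ := mem_closure_iff.1 (hUA' w (hTU w hv)) _
            (hO.inter (hT w).2) ⟨hvO, hv⟩
          exact ⟨a, haO, mem_iUnion.2 ⟨⟨w, hw⟩, haA, haT⟩⟩
        -- restrict to `F σ`
        set D' : Set X := ⋃ w ∈ S σ ∩ {w | lev w < ζ}, (A w ∩ T w) with hD'
        have hD'D : D' ⊆ D := by
          intro z hz
          obtain ⟨w, hw, hzw⟩ := mem_iUnion₂.1 hz
          exact mem_iUnion.2 ⟨⟨w, hw.2⟩, hzw⟩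
        have hD'F : D' ⊆ F σ := by
          intro z hz
          obtain ⟨w, hw, hzw⟩ := mem_iUnion₂.1 hz
          exact hTF σ w hw.1 hzw.2
        have hTD' : (⋃ w ∈ S σ ∩ {w | lev w < ζ}, T w) ⊆ closure D' := by
          intro v hv
          obtain ⟨w, hw, hvw⟩ := mem_iUnion₂.1 hv
          rw [mem_closure_iff]
          intro O hO hvO
          obtain ⟨a, ⟨haO, haT⟩, haA⟩ := mem_closure_iff.1 (hUA' w (hTU w hvw)) _
            (hO.inter (hT w).2) ⟨hvO, hvw⟩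
          exact ⟨a, haO, mem_iUnion₂.2 ⟨w, hw, haA, haT⟩⟩
        have h2 : LD ρ r := by
          refine ⟨Subtype.val ⁻¹' (closure (⋃ w ∈ S σ ∩ {w | ζ ≤ lev w}, T w))ᶜ,
            isClosed_closure.isOpen_compl.preimage continuous_subtype_val, hcl,
            Subtype.val ⁻¹' D', ?_, ?_⟩
          · refine le_trans ?_ hDc
            apply mk_le_of_injective (f := fun x : (Subtype.val ⁻¹' D' : Set (F σ)) =>
              (⟨x.1.1, hD'D x.2⟩ : D))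
            intro a b hab
            simpa [Subtype.ext_iff] using hab
          · intro v hv
            have h3 : (v : X) ∈ closure D' :=
              (isClosed_closure.closure_subset_iff.2 hTD') (h1 v v.2 hv)
            rw [mem_closure_iff]
            intro O hO hvO
            obtain ⟨O', hO', rfl⟩ := isOpen_induced_iff.1 hO
            obtain ⟨d, hdO, hdD⟩ := mem_closure_iff.1 h3 O' hO' hvO
            exact ⟨⟨d, hD'F hdD⟩, hdO, hdD⟩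
        have h3 : LD ρ (y (p α)) := h2.of_GE hg.symm
        have h4 := hLD (p α) (lev w₀) (by rw [hlp]; exact hw₀)
        rw [hlp] at h4
        exact h4 h3
      · obtain ⟨A, hA, hUA'⟩ := h.hd (p α)
        have h1 : LD #A (y (p α)) := ⟨U (p α), (h.hU _).2, h.hy _, A, le_rfl, hUA'⟩
        have h2 := hmany σ r (lev α) hG #A (h1.of_GE hg)
        rw [← hlp] at h2
        exact absurd h2 (not_le.2 hA)
  -- the new points
  let O₀ : ∀ ξ, R ξ := fun ξ => (hRne ξ).some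
  have hz : ∀ σ, ∃ z ∈ F σ, ∀ G ∈ 𝓝 z, ∀ ξ₀, ∃ ξ, ξ₀ ≤ ξ ∧
      lam ξ ≤ #{a | y (p (wd ξ (O₀ ξ) σ a).1) ∈ G} := by
    intro σ
    by_contra hcon
    push Not at hcon
    have hc : IsCompact (F σ) := isClosed_closure.isCompact
    have h1 : ∃ ξ₀, ∀ ξ, ξ₀ ≤ ξ → #{a | y (p (wd ξ (O₀ ξ) σ a).1) ∈ F σ} < lam ξ := by
      refine hc.induction_on (p := fun s => ∃ ξ₀, ∀ ξ, ξ₀ ≤ ξ →
        #{a | y (p (wd ξ (O₀ ξ) σ a).1) ∈ s} < lam ξ) ?_ ?_ ?_ ?_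
      · refine ⟨Classical.arbitrary Ξ, fun ξ _ => ?_⟩
        simpa using (hF.reg ξ).pos
      · rintro s t hst ⟨ξ₀, ht⟩
        refine ⟨ξ₀, fun ξ hξ => ?_⟩
        have hsub : {a | y (p (wd ξ (O₀ ξ) σ a).1) ∈ s} ⊆ {a | y (p (wd ξ (O₀ ξ) σ a).1) ∈ t} :=
          fun a ha => hst ha
        exact (mk_le_mk_of_subset hsub).trans_lt (ht ξ hξ)
      · rintro s t ⟨ξ₀, hs⟩ ⟨ξ₁, ht⟩
        refine ⟨max ξ₀ ξ₁, fun ξ hξ => ?_⟩
        refine (mk_le_mk_of_subset (t := {a | y (p (wd ξ (O₀ ξ) σ a).1) ∈ s} ∪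
          {a | y (p (wd ξ (O₀ ξ) σ a).1) ∈ t}) (fun a ha => ha)).trans_lt ?_
        exact (mk_union_le _ _).trans_lt (add_lt_of_lt (hF.reg ξ).aleph0_le
          (hs ξ ((le_max_left _ _).trans hξ)) (ht ξ ((le_max_right _ _).trans hξ)))
      · intro z hz
        obtain ⟨G, hG, ξ₀, hGc⟩ := hcon z hz
        exact ⟨G, mem_nhdsWithin_of_mem_nhds hG, ξ₀, hGc⟩
    obtain ⟨ξ₀, h1⟩ := h1
    have h2 : {a | y (p (wd ξ₀ (O₀ ξ₀) σ a).1) ∈ F σ} = Set.univ := by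
      ext a
      simp only [mem_ofPred_eq, mem_univ, iff_true]
      exact hTF σ _ (hwS ξ₀ (O₀ ξ₀) σ a) (hyT _)
    have h3 := h1 ξ₀ le_rfl
    rw [h2, mk_univ, hF.fib] at h3
    exact lt_irrefl _ h3
  choose z hzF hzG using hz
  have hV := fun σ => hco (F σ) isClosed_closure
  choose V hV e' using hV
  let e : ∀ σ, F σ ≃ₜ V σ := fun σ => (e' σ).some
  have hgerm : ∀ σ (r : F σ), GE r ((e σ r : V σ) : X) := fun σ r =>
    (GE.of_homeo (e σ) r).trans (GE.of_open (hV σ).2 _)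
  have hW0 : ℵ₀ ≤ #W := by
    obtain ⟨ξ⟩ := ‹Nonempty Ξ›
    exact (hF.reg ξ).aleph0_le.trans ((hF.fib ξ).symm.le.trans (mk_subtype_le _))
  have hlamW : ∀ ξ, lam ξ ≤ #W := fun ξ => (hF.fib ξ).symm.le.trans (mk_subtype_le _)
  have hSuppF : ∀ σ, #(Supp φ (F σ)) ≤ #W := by
    intro σ
    have h1 : Supp φ (F σ) ⊆ ⋃ w : W, Supp φ (U (p w)) := by
      refine (Supp_closure hφ _).trans ?_
      rintro γ ⟨x, hx, hγ⟩
      obtain ⟨w, hw, hxw⟩ := mem_iUnion₂.1 hx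
      exact mem_iUnion.2 ⟨w, x, hTU w hxw, hγ⟩
    calc #(Supp φ (F σ)) ≤ #(⋃ w : W, Supp φ (U (p w)) : Set Γ) := mk_le_mk_of_subset h1
      _ ≤ Cardinal.sum (fun w : W => #(Supp φ (U (p w)))) := mk_iUnion_le_sum_mk
      _ ≤ Cardinal.sum (fun _ : W => #W) := by
          apply sum_le_sum
          intro w
          obtain ⟨A, hA, hUA'⟩ := h.hd (p w)
          exact (mk_Supp_le hφ hUA').trans (max_le (hA.le.trans (hlamW _)) hW0)
      _ = #W := by simp [mul_eq_self hW0]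
  refine ⟨𝓖, fun σ => V σ.1, fun σ => (e σ.1 ⟨z σ.1, hzF σ.1⟩ : V σ.1), h𝓖c,
    ⟨fun σ => hV σ.1, fun σ => (e σ.1 ⟨z σ.1, hzF σ.1⟩).2, ?_, ?_⟩, ?_, ?_, ?_⟩
  · rintro ⟨σ, hσ⟩
    obtain ⟨A, hAF, hFA, hA⟩ := exists_dense hφ (F σ)
    refine ⟨_, ?_, dense_image (e σ) hAF hFA⟩
    exact mk_range_le.trans_lt (hA.trans_lt (Order.lt_succ_of_le (max_le (hSuppF σ) hW0)))
  · rintro ⟨σ, hσ⟩ ⟨τ, hτ⟩ z' hz' hg
    simp only at hz' hg
    by_contra hne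
    have hne' : σ ≠ τ := fun h1 => hne (Subtype.ext h1)
    set r : F τ := (e τ).symm ⟨z', hz'⟩ with hr
    have h1 : GE r z' := by
      have := hgerm τ r
      rwa [hr, (e τ).apply_symm_apply] at this
    have h2 : GE (⟨z σ, hzF σ⟩ : F σ) r := ((hgerm σ _).trans hg).trans h1.symm
    obtain ⟨g, hgs, hgr⟩ := h2
    obtain ⟨G, hG, hGs⟩ := isOpen_induced_iff.1 g.open_source
    have hzG' : z σ ∈ G := by
      have : (⟨z σ, hzF σ⟩ : F σ) ∈ (Subtype.val ⁻¹' G : Set (F σ)) := by rw [hGs]; exact hgs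
      exact this
    obtain ⟨ξ₀, hξ₀⟩ := h𝓖 σ hσ τ hτ hne'
    obtain ⟨ξ, hξ, h3⟩ := hzG σ G (hG.mem_nhds hzG') ξ₀
    have h4 : {a | y (p (wd ξ (O₀ ξ) σ a).1) ∈ G} ⊆ {a | σ ξ a = τ ξ a} := by
      intro a ha
      have hyF : y (p (wd ξ (O₀ ξ) σ a).1) ∈ F σ := hTF σ _ (hwS ξ (O₀ ξ) σ a) (hyT _)
      have h5 : (⟨_, hyF⟩ : F σ) ∈ g.source := by
        rw [← hGs]; exact ha
      have h6 : GE (y (p (wd ξ (O₀ ξ) σ a).1)) (⟨_, hyF⟩ : F σ) :=
        (GE.of_open_subset (hT _).2 (hTF σ _ (hwS ξ (O₀ ξ) σ a)) (hyT _)).symm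
      have h7 : GE (⟨_, hyF⟩ : F σ) (g ⟨_, hyF⟩) := ⟨g, h5, rfl⟩
      have h8 := hR3 τ _ _ (h6.trans h7)
      rw [hS] at h8
      simpa [wd] using h8
    exact absurd (h3.trans (mk_le_mk_of_subset h4)) (not_le.2 (hξ₀ ξ hξ))
  · rintro ⟨σ, hσ⟩
    rw [Set.disjoint_left]
    intro x hxV hxA
    set r : F σ := (e σ).symm ⟨x, hxV⟩ with hr
    have h1 : GE r x := by
      have := hgerm σ r
      rwa [hr, (e σ).apply_symm_apply] at this
    by_cases hrT : (r : X) ∈ ⋃ w ∈ S σ, T w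
    · obtain ⟨w, hw, hrw⟩ := mem_iUnion₂.1 hrT
      have h2 : GE r (r : X) := GE.of_open_subset (hT w).2 (hTF σ w hw) hrw
      have h3 : (r : X) ∈ 𝓐 := h𝓐 x r (h1.symm.trans h2) hxA
      exact Set.disjoint_left.1 (hUA (p w)) (hTU w hrw) h3
    · obtain ⟨b, -, hb⟩ := WellFounded.has_min (wellFounded_lt (α := Ξ)) Set.univ univ_nonempty
      have hb' : ∀ ξ, b ≤ ξ := fun ξ => not_lt.1 (hb ξ trivial)
      rcases hR (S σ) r r.2 hrT b with hcl | hG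
      · apply hcl
        have : S σ ∩ {w | b ≤ lev w} = S σ := inter_eq_left.2 fun w _ => hb' _
        rw [this]; exact r.2
      · obtain ⟨c, hc, hLDc⟩ := h𝓐LD x hxA
        exact absurd (hmany σ r b hG c (hLDc.of_GE h1.symm)) (not_le.2 (hc b))
  · rintro ⟨σ, hσ⟩
    simp only
    rw [← closure_closure (s := 𝓒), mem_closure_iff]
    intro O hO hyO
    have h1 : IsOpen ((fun r : F σ => ((e σ r : V σ) : X)) ⁻¹' O) :=
      hO.preimage (continuous_subtype_val.comp (e σ).continuous)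
    obtain ⟨G, hG, hGs⟩ := isOpen_induced_iff.1 h1
    have hzG' : z σ ∈ G := by
      have : (⟨z σ, hzF σ⟩ : F σ) ∈ (Subtype.val ⁻¹' G : Set (F σ)) := by rw [hGs]; exact hyO
      exact this
    obtain ⟨ξ, -, h3⟩ := hzG σ G (hG.mem_nhds hzG') (Classical.arbitrary Ξ)
    have h4 : {a | y (p (wd ξ (O₀ ξ) σ a).1) ∈ G}.Nonempty := by
      rw [nonempty_iff_ne_empty]
      intro h5
      rw [h5] at h3
      simp only [mk_eq_zero] at h3
      exact absurd h3 (not_le.2 (hF.reg ξ).pos)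
    obtain ⟨a, ha⟩ := h4
    have hyF : y (p (wd ξ (O₀ ξ) σ a).1) ∈ F σ := hTF σ _ (hwS ξ (O₀ ξ) σ a) (hyT _)
    refine ⟨(e σ ⟨_, hyF⟩ : V σ), ?_, ?_⟩
    · have : (⟨_, hyF⟩ : F σ) ∈ (Subtype.val ⁻¹' G : Set (F σ)) := ha
      rw [hGs] at this
      exact this
    · apply h𝓒.closure (y (p (wd ξ (O₀ ξ) σ a).1))
      · exact (GE.of_open_subset (hT _).2 (hTF σ _ (hwS ξ (O₀ ξ) σ a)) (hyT _)).symm.trans
          (hgerm σ _)
      · exact hy𝓒 _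
  · rintro ⟨σ, hσ⟩ c ⟨ξ₀, hξ₀⟩ hLDc
    simp only at hLDc
    obtain ⟨V', hV', hrV, D, hD, hVD⟩ := hLDc.of_GE (hgerm σ ⟨z σ, hzF σ⟩).symm
    obtain ⟨G, hGo, rfl⟩ := isOpen_induced_iff.1 hV'
    obtain ⟨ξ, hξ, h3⟩ := hzG σ G (hGo.mem_nhds hrV) ξ₀
    have h1 := hcount σ G hGo D hVD {a | y (p (wd ξ (O₀ ξ) σ a).1) ∈ G}
      (fun a => (wd ξ (O₀ ξ) σ a.1).1)
      (fun a b hab => Subtype.ext (hwinj ξ (O₀ ξ) σ hab))
      (fun a => hwS ξ (O₀ ξ) σ a.1) (fun a => ⟨_, hyT _, a.2⟩)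
    exact absurd ((hF.mono hξ).trans (h3.trans (h1.trans hD))) (not_le.2 hξ₀)

end NewGSec

end Run7.h123
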