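import Pool.Agent.Run7.h123.Conv

open Set Topology Filter

namespace Run7.h123

universe u

section SeqSec

variable {X : Type u} [TopologicalSpace X]

/-- a sequence of nonempty closed dense-in-itself subsets of `Q`, with pairwise disjoint open
neighbourhoods `W j` missing `x`, that converges to `x` -/
structure GoodSeq (Q : Set X) (x : X) (N W : ℕ → Set X) : Prop where
  hW : ∀ j, IsOpen (W j)
  hWd : ∀ i j, i ≠ j → Disjoint (W i) (W j)
  hxW : ∀ j, x ∉ W j
  hNW : ∀ j, N j ⊆ W j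
  hNQ : ∀ j, N j ⊆ Q
  hNc : ∀ j, IsClosed (N j)
  hNne : ∀ j, (N j).Nonempty
  hN0 : ∀ j, isoPts (N j) = ∅
  hconv : Conv N x

theorem exists_goodSeq [CompactSpace X] [T2Space X] {Q : Set X} (hQ : IsClosed Q)
    (hQ0 : isoPts Q = ∅) {x : X} (hx : x ∈ Q) {U : ℕ → Set X} (hU : ∀ n, IsOpen (U n))
    (hxU : Q ∩ ⋂ n, U n = {x}) : ∃ N W : ℕ → Set X, GoodSeq Q x N W := by
  have hxU' : ∀ n, x ∈ U n := by
    have : x ∈ Q ∩ ⋂ n, U n := by rw [hxU]; rfl
    exact mem_iInter.1 this.2
  have step : ∀ (n : ℕ) (V : {V : Set X // IsOpen V ∧ x ∈ V}),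
      ∃ V' : {V : Set X // IsOpen V ∧ x ∈ V}, closure V'.1 ⊆ V.1 ∩ U n ∧
        (Q ∩ (V.1 \ closure V'.1)).Nonempty := by
    rintro n ⟨V, hV, hxV⟩
    have h1 : x ∉ isoPts Q := by rw [hQ0]; exact notMem_empty x
    have h2 : ∃ y ∈ V ∩ Q, y ≠ x := by
      by_contra hcon
      push Not at hcon
      apply h1
      refine ⟨V, hV, ?_⟩
      apply Subset.antisymm
      · intro y hy; exact hcon y hy
      · rintro y rfl; exact ⟨hxV, hx⟩
    obtain ⟨y, hy, hyx⟩ := h2
    have h3 : V ∩ U n ∩ {y}ᶜ ∈ 𝓝 x :=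
      ((hV.inter (hU n)).inter isOpen_compl_singleton).mem_nhds ⟨⟨hxV, hxU' n⟩, hyx.symm⟩
    obtain ⟨C, hC, hCc, hCs⟩ := exists_mem_nhds_isClosed_subset h3
    refine ⟨⟨interior C, isOpen_interior, mem_interior_iff_mem_nhds.2 hC⟩, ?_, ?_⟩
    · have h4 : closure (interior C) ⊆ C :=
        hCc.closure_subset_iff.2 interior_subset
      exact fun z hz => (hCs (h4 hz)).1
    · refine ⟨y, hy.2, hy.1, fun hyC => ?_⟩
      have h4 : closure (interior C) ⊆ C :=
        hCc.closure_subset_iff.2 interior_subset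
      exact (hCs (h4 hyC)).2 rfl
  choose f hf1 hf2 using step
  let V : ℕ → {V : Set X // IsOpen V ∧ x ∈ V} := fun n =>
    Nat.rec ⟨univ, isOpen_univ, mem_univ x⟩ (fun n V => f n V) n
  have hVs : ∀ n, V (n + 1) = f n (V n) := fun n => rfl
  have hV1 : ∀ n, closure (V (n + 1)).1 ⊆ (V n).1 ∩ U n := fun n => by
    rw [hVs]; exact hf1 n (V n)
  have hV2 : ∀ n, (Q ∩ ((V n).1 \ closure (V (n + 1)).1)).Nonempty := fun n => by
    rw [hVs]; exact hf2 n (V n)
  have hVanti : ∀ m n, m ≤ n → (V n).1 ⊆ (V m).1 := by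
    intro m n h
    induction n, h using Nat.le_induction with
    | base => exact Subset.rfl
    | succ n _ ih => exact (subset_closure.trans ((hV1 n).trans inter_subset_left)).trans ih
  have hch : ∀ n, ∃ G : Set X, IsOpen G ∧ (Q ∩ G).Nonempty ∧
      closure G ⊆ (V n).1 \ closure (V (n + 1)).1 := by
    intro n
    obtain ⟨y, hyQ, hy⟩ := hV2 n
    have h3 : (V n).1 \ closure (V (n + 1)).1 ∈ 𝓝 y :=
      ((V n).2.1.sdiff isClosed_closure).mem_nhds hy
    obtain ⟨C, hC, hCc, hCs⟩ := exists_mem_nhds_isClosed_subset h3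
    refine ⟨interior C, isOpen_interior, ⟨y, hyQ, mem_interior_iff_mem_nhds.2 hC⟩, ?_⟩
    exact (hCc.closure_subset_iff.2 interior_subset).trans hCs
  choose G hG hGne hGc using hch
  have hNQ : ∀ j, closure (Q ∩ G j) ⊆ Q := fun j =>
    hQ.closure_subset_iff.2 inter_subset_left
  have hNW : ∀ j, closure (Q ∩ G j) ⊆ (V j).1 \ closure (V (j + 1)).1 := fun j =>
    (closure_mono inter_subset_right).trans (hGc j)
  refine ⟨fun n => closure (Q ∩ G n), fun n => (V n).1 \ closure (V (n + 1)).1,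
    ⟨?_, ?_, ?_, hNW, hNQ, fun _ => isClosed_closure, ?_, ?_, ?_⟩⟩
  · intro j; exact (V j).2.1.sdiff isClosed_closure
  · have key : ∀ i j, i < j → Disjoint ((V i).1 \ closure (V (i + 1)).1)
        ((V j).1 \ closure (V (j + 1)).1) := by
      intro i j hij
      rw [disjoint_left]
      rintro z ⟨_, h1⟩ ⟨h2, _⟩
      exact h1 (subset_closure (hVanti (i + 1) j hij h2))
    intro i j hij
    rcases lt_or_gt_of_ne hij with h | h
    · exact key i j h
    · exact (key j i h).symm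
  · rintro j ⟨_, h2⟩
    exact h2 (subset_closure (V (j + 1)).2.2)
  · intro j; exact (hGne j).closure
  · intro j
    apply isoPts_closure_empty
    rw [isoPts_inter_open _ (hG j), hQ0, empty_inter]
  · intro O hO
    have hd : Directed (· ⊇ ·) (fun n => Q ∩ closure (V n).1) := by
      apply directed_of_isDirected_le
      intro m n hmn
      exact inter_subset_inter_right _ (closure_mono (hVanti m n hmn))
    have hcl : ∀ n, IsClosed (Q ∩ closure (V n).1) := fun n => hQ.inter isClosed_closure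
    obtain ⟨i, hi⟩ := exists_subset_nhds_of_isCompact' hd (fun n => (hcl n).isCompact) hcl
      (U := O) (by
        intro z hz
        have hz1 : z ∈ Q ∩ ⋂ n, U n := by
          refine ⟨(mem_iInter.1 hz 0).1, mem_iInter.2 fun n => ?_⟩
          exact (hV1 n ((mem_iInter.1 hz (n + 1)).2)).2
        rw [hxU] at hz1
        rw [mem_singleton_iff.1 hz1]; exact hO)
    filter_upwards [eventually_ge_atTop i] with n hn
    intro z hz
    apply hi
    exact ⟨hNQ n hz, subset_closure (hVanti i n hn (hNW n hz).1)⟩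

/-- every nonempty closed dense-in-itself subset of `P` contains such a set with a relative
`G_δ` point -/
def FCP (P : Set X) : Prop :=
  ∀ Q : Set X, Q ⊆ P → IsClosed Q → Q.Nonempty → isoPts Q = ∅ → ∃ Q' ⊆ Q, IsClosed Q' ∧
    isoPts Q' = ∅ ∧ ∃ x ∈ Q', ∃ U : ℕ → Set X, (∀ n, IsOpen (U n)) ∧ Q' ∩ ⋂ n, U n = {x}

/-- every nonempty closed dense-in-itself subset of `P` contains a convergent sequence of such
sets -/
def SeqP (P : Set X) : Prop :=
  ∀ Q : Set X, Q ⊆ P → IsClosed Q → Q.Nonempty → isoPts Q = ∅ →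
    ∃ x ∈ Q, ∃ N W, GoodSeq Q x N W

theorem FCP.seq [CompactSpace X] [T2Space X] {P : Set X} (h : FCP P) : SeqP P := by
  intro Q hQP hQ hne hQ0
  obtain ⟨Q', hQQ, hc, h0, x, hx, U, hU, hxU⟩ := h Q hQP hQ hne hQ0
  obtain ⟨N, W, hNW⟩ := exists_goodSeq hc h0 hx hU hxU
  exact ⟨x, hQQ hx, N, W, { hNW with hNQ := fun j => (hNW.hNQ j).trans hQQ }⟩

/-- the height step: gluing sets of height `n + 1` at a point -/
theorem height_step [T2Space X] {x : X} {N W : ℕ → Set X} {n : ℕ} {E : ℕ → Set X}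
    (hW : ∀ j, IsOpen (W j)) (hWd : ∀ i j, i ≠ j → Disjoint (W i) (W j))
    (hxW : ∀ j, x ∉ W j) (hNW : ∀ j, N j ⊆ W j) (hconv : Conv N x)
    (hE : ∀ j, E j ⊆ N j) (hEc : ∀ j, IsClosed (E j)) (h1 : ∀ j, (CB n (E j)).Nonempty)
    (h2 : ∀ j, CB (n + 1) (E j) = ∅) :
    IsClosed ({x} ∪ ⋃ j, E j) ∧ (CB (n + 1) ({x} ∪ ⋃ j, E j)).Nonempty ∧
      CB (n + 2) ({x} ∪ ⋃ j, E j) = ∅ := by
  set F : Set X := {x} ∪ ⋃ j, E j with hF
  have hFW : ∀ j, F ∩ W j = E j := by
    intro j
    apply Subset.antisymm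
    · rintro y ⟨hy | hy, hyW⟩
      · rw [mem_singleton_iff.1 hy] at hyW; exact absurd hyW (hxW j)
      · obtain ⟨i, hi⟩ := mem_iUnion.1 hy
        by_cases hij : i = j
        · rw [← hij]; exact hi
        · exact absurd hyW (disjoint_left.1 (hWd i j hij) (hNW i (hE i hi)))
    · intro y hy; exact ⟨Or.inr (mem_iUnion.2 ⟨j, hy⟩), hNW j (hE j hy)⟩
  have hCB : ∀ m j, CB m F ∩ W j = CB m (E j) := by
    intro m j; rw [← CB_inter_open _ (hW j), hFW]
  have hxCB : ∀ m, m ≤ n + 1 → x ∈ CB m F := by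
    intro m
    induction m with
    | zero => intro _; exact Or.inl rfl
    | succ m ih =>
      intro hm
      refine ⟨ih (by omega), ?_⟩
      rintro ⟨V, hV, hVx⟩
      have hxV : x ∈ V := by
        have : x ∈ V ∩ CB m F := by rw [hVx]; rfl
        exact this.1
      obtain ⟨j, hj⟩ := (hconv V (hV.mem_nhds hxV)).exists
      obtain ⟨y, hy⟩ := h1 j
      have hy1 : y ∈ CB m (E j) := CB_antitone (E j) (by omega) hy
      have hy2 : y ∈ CB m F := by
        rw [← hCB] at hy1; exact hy1.1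
      have hy3 : y ∈ E j := CB_subset n _ hy
      have hy4 : y ∈ V ∩ CB m F := ⟨hj (hE j hy3), hy2⟩
      rw [hVx] at hy4
      rw [mem_singleton_iff.1 hy4] at hy3
      exact hxW j (hNW j (hE j hy3))
  have hsub : CB (n + 1) F = {x} := by
    apply Subset.antisymm
    · intro y hy
      rcases CB_subset _ _ hy with h3 | h3
      · exact h3
      · obtain ⟨j, hj⟩ := mem_iUnion.1 h3
        have h4 : y ∈ CB (n + 1) F ∩ W j := ⟨hy, hNW j (hE j hj)⟩
        rw [hCB, h2] at h4
        exact absurd h4 (notMem_empty y)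
    · rintro y rfl; exact hxCB (n + 1) le_rfl
  refine ⟨?_, ⟨x, hxCB (n + 1) le_rfl⟩, ?_⟩
  · apply isClosed_of_closure_subset
    rw [closure_union, closure_singleton]
    apply union_subset subset_union_left
    refine ((hconv.mono hE).closure_subset).trans ?_
    refine union_subset_union_right _ (iUnion_mono fun j => ?_)
    rw [(hEc j).closure_eq]
  · show CB (n + 1) F \ isoPts (CB (n + 1) F) = ∅
    rw [hsub]
    have : isoPts ({x} : Set X) = {x} := by
      apply Subset.antisymm (isoPts_subset _)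
      rintro y rfl
      exact ⟨univ, isOpen_univ, by simp⟩
    rw [this, sdiff_self]

theorem exists_height_of_seq [T2Space X] {P : Set X} (h : SeqP P)
    (n : ℕ) : ∀ N : Set X, N ⊆ P → IsClosed N → N.Nonempty → isoPts N = ∅ →
      ∃ E ⊆ N, IsClosed E ∧ (CB n E).Nonempty ∧ CB (n + 1) E = ∅ := by
  induction n with
  | zero =>
    rintro N _ _ ⟨y, hy⟩ _
    refine ⟨{y}, singleton_subset_iff.2 hy, isClosed_singleton, ⟨y, rfl⟩, ?_⟩
    show ({y} : Set X) \ isoPts ({y} : Set X) = ∅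
    have : isoPts ({y} : Set X) = {y} := by
      apply Subset.antisymm (isoPts_subset _)
      rintro z rfl
      exact ⟨univ, isOpen_univ, by simp⟩
    rw [this, sdiff_self]
  | succ n ih =>
    intro Q hQP hQ hne hQ0
    obtain ⟨x, hx, N, W, g⟩ := h Q hQP hQ hne hQ0
    have := fun j => ih (N j) ((g.hNQ j).trans hQP) (g.hNc j) (g.hNne j) (g.hN0 j)
    choose E hE hEc h1 h2 using this
    obtain ⟨a, b, c⟩ := height_step g.hW g.hWd g.hxW g.hNW g.hconv hE hEc h1 h2
    refine ⟨{x} ∪ ⋃ j, E j, ?_, a, b, c⟩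
    apply union_subset (singleton_subset_iff.2 hx)
    exact iUnion_subset fun j => (hE j).trans (g.hNQ j)

/-- all patterns can be attached somewhere inside `P` -/
def HasAttach (P : Set X) : Prop :=
  ∀ ν : ℕ → ℕ, (∀ k, ∃ᶠ l in atTop, ν l = ν k) →
    ∃ (K : Set X) (x : X) (p : ℕ → X) (E O : ℕ → ℕ → Set X), glue K E ⊆ P ∧
      Attach K x p E O ν

theorem hasAttach_of_seq [T2Space X] {Q : Set X} (h : SeqP Q)
    (hQ : IsClosed Q) (hne : Q.Nonempty) (hQ0 : isoPts Q = ∅) : HasAttach Q := by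
  intro ν hν
  obtain ⟨x, hx, N, W, g⟩ := h Q Subset.rfl hQ hne hQ0
  have := fun k => h (N k) (g.hNQ k) (g.hNc k) (g.hNne k) (g.hN0 k)
  choose p hp M Z gk using this
  have hht := fun k j => exists_height_of_seq h (ν k) (M k (2 * j))
    (((gk k).hNQ _).trans (g.hNQ k)) ((gk k).hNc _)
    ((gk k).hNne _) ((gk k).hN0 _)
  choose E hE hEc h1 h2 using hht
  let R : ℕ → Set X := fun k => {p k} ∪ ⋃ j, M k (2 * j + 1)
  let K : Set X := {x} ∪ ⋃ k, R k
  have hodd : Tendsto (fun j : ℕ => 2 * j + 1) atTop atTop :=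
    tendsto_atTop_mono (fun j => by show j ≤ _; omega) tendsto_id
  have heven : Tendsto (fun j : ℕ => 2 * j) atTop atTop :=
    tendsto_atTop_mono (fun j => by show j ≤ _; omega) tendsto_id
  have hRN : ∀ k, R k ⊆ N k := fun k => by
    apply union_subset (singleton_subset_iff.2 (hp k))
    exact iUnion_subset fun j => (gk k).hNQ _
  have hRc : ∀ k, IsClosed (R k) := by
    intro k
    apply isClosed_of_closure_subset
    show closure ({p k} ∪ ⋃ j, M k (2 * j + 1)) ⊆ _
    rw [closure_union, closure_singleton]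
    apply union_subset subset_union_left
    refine (((gk k).hconv.comp hodd).closure_subset).trans ?_
    refine union_subset_union_right _ (iUnion_mono fun j => ?_)
    rw [((gk k).hNc _).closure_eq]
  have hKc : IsClosed K := by
    apply isClosed_of_closure_subset
    show closure ({x} ∪ ⋃ k, R k) ⊆ _
    rw [closure_union, closure_singleton]
    apply union_subset subset_union_left
    refine ((g.hconv.mono hRN).closure_subset).trans ?_
    refine union_subset_union_right _ (iUnion_mono fun k => ?_)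
    rw [(hRc k).closure_eq]
  have hxN : ∀ k, x ∉ N k := fun k h => g.hxW k (g.hNW k h)
  have hpx : ∀ k, p k ≠ x := fun k h => hxN k (h ▸ hp k)
  have hR0 : ∀ k, isoPts (R k) = ∅ := by
    intro k
    rw [eq_empty_iff_forall_notMem]
    intro y hy
    rcases isoPts_subset _ hy with h3 | h3
    · rw [mem_singleton_iff.1 h3] at hy
      obtain ⟨V, hV, hVx⟩ := hy
      have hxV : p k ∈ V := by
        have : p k ∈ V ∩ R k := by rw [hVx]; rfl
        exact this.1
      obtain ⟨j, hj⟩ := (((gk k).hconv.comp hodd) V (hV.mem_nhds hxV)).exists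
      obtain ⟨z, hz⟩ := (gk k).hNne (2 * j + 1)
      have hz1 : z ∈ V ∩ R k := ⟨hj hz, Or.inr (mem_iUnion.2 ⟨j, hz⟩)⟩
      rw [hVx] at hz1
      rw [mem_singleton_iff.1 hz1] at hz
      exact (gk k).hxW _ ((gk k).hNW _ hz)
    · obtain ⟨j, hj⟩ := mem_iUnion.1 h3
      have hsub : M k (2 * j + 1) ⊆ R k := fun z hz => Or.inr (mem_iUnion.2 ⟨j, hz⟩)
      have := isoPts_mono hsub ⟨hy, hj⟩
      rw [(gk k).hN0] at this
      exact this
  have hK0 : isoPts K = ∅ := by
    rw [eq_empty_iff_forall_notMem]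
    intro y hy
    rcases isoPts_subset _ hy with h3 | h3
    · rw [mem_singleton_iff.1 h3] at hy
      obtain ⟨V, hV, hVx⟩ := hy
      have hxV : x ∈ V := by
        have : x ∈ V ∩ K := by rw [hVx]; rfl
        exact this.1
      obtain ⟨j, hj⟩ := (g.hconv V (hV.mem_nhds hxV)).exists
      have hz1 : p j ∈ V ∩ K := ⟨hj (hp j), Or.inr (mem_iUnion.2 ⟨j, Or.inl rfl⟩)⟩
      rw [hVx] at hz1
      exact hpx j hz1
    · obtain ⟨k, hk⟩ := mem_iUnion.1 h3
      have hsub : R k ⊆ K := fun z hz => Or.inr (mem_iUnion.2 ⟨k, hz⟩)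
      have := isoPts_mono hsub ⟨hy, hk⟩
      rw [hR0] at this
      exact this
  have hEN : ∀ k j, E k j ⊆ N k := fun k j => (hE k j).trans ((gk k).hNQ _)
  refine ⟨K, x, p, E, fun k j => W k ∩ Z k (2 * j), ?_, ?_⟩
  · apply union_subset
    · apply union_subset (singleton_subset_iff.2 hx)
      exact iUnion_subset fun k => (hRN k).trans (g.hNQ k)
    · exact iUnion_subset fun k => iUnion_subset fun j => (hEN k j).trans (g.hNQ k)
  have hdW : ∀ {k l : ℕ} {z : X}, z ∈ W k → z ∈ W l → k = l := by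
    intro k l z h3 h4
    by_contra hne
    exact disjoint_left.1 (g.hWd k l hne) h3 h4
  have hdZ : ∀ {k i j : ℕ} {z : X}, z ∈ Z k i → z ∈ Z k j → i = j := by
    intro k i j z h3 h4
    by_contra hne
    exact disjoint_left.1 ((gk k).hWd i j hne) h3 h4
  refine ⟨hKc, hK0, Or.inl rfl, fun k => Or.inr (mem_iUnion.2 ⟨k, Or.inl rfl⟩), hpx, ?_, hEc,
    fun k j => (g.hW k).inter ((gk k).hW _), ?_, ?_, ?_, h1, h2, ?_, ?_, ?_, hν⟩
  · intro k l hkl
    have h3 : p k ∈ W l := by rw [hkl]; exact g.hNW l (hp l)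
    exact hdW (g.hNW k (hp k)) h3
  · intro k j y hy
    exact ⟨g.hNW k (hEN k j hy), (gk k).hNW _ (hE k j hy)⟩
  · intro k j
    rw [disjoint_left]
    rintro y ⟨hy1, hy2⟩ (hy | hy)
    · rw [mem_singleton_iff.1 hy] at hy1; exact g.hxW k hy1
    · obtain ⟨l, hl⟩ := mem_iUnion.1 hy
      obtain rfl : l = k := hdW (g.hNW l (hRN l hl)) hy1
      rcases hl with hl | hl
      · rw [mem_singleton_iff.1 hl] at hy2; exact (gk l).hxW _ hy2
      · obtain ⟨i, hi⟩ := mem_iUnion.1 hl
        have := hdZ ((gk l).hNW _ hi) hy2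
        omega
  · intro k j k' j' hne
    rw [disjoint_left]
    rintro y ⟨hy1, hy2⟩ hy
    obtain rfl : k = k' := hdW hy1 (g.hNW k' (hEN k' j' hy))
    have h3 : (2 * j : ℕ) = 2 * j' := hdZ hy2 ((gk k).hNW _ (hE k j' hy))
    apply hne
    rw [show j = j' by omega]
  · intro k
    exact ((gk k).hconv.comp heven).mono (hE k)
  · exact g.hconv.mono fun k => iUnion_subset fun j => hEN k j
  · exact g.hconv.mono fun k => singleton_subset_iff.2 (hp k)

end SeqSec

end Run7.h123
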