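import Pool.Agent.Run7.h123.CorCard

open Set Topology Filter Cardinal

namespace Run7.h123

universe u

set_option linter.unusedSectionVars false

theorem exists_rec {W : Type*} [LinearOrder W] [WellFoundedLT W] {ι : Type*}
    (P : ∀ w : W, (∀ v, v < w → ι) → ι → Prop) (h : ∀ w f, ∃ i, P w f i) :
    ∃ p : W → ι, ∀ w, P w (fun v _ => p v) (p w) := by
  classical
  let F : ∀ w : W, (∀ v, v < w → ι) → ι := fun w f => Classical.choose (h w f)
  let p : W → ι := WellFounded.fix (wellFounded_lt (α := W)) F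
  refine ⟨p, fun w => ?_⟩
  have h1 : p w = F w (fun v _ => p v) := WellFounded.fix_eq _ _ _
  rw [h1]
  exact Classical.choose_spec (h w (fun v _ => p v))

section StagesSec

variable {X : Type u} [TopologicalSpace X] {Γ : Type u} {φ : X → Γ → ℝ}

/-- labels: clopen sets `U i` of density less than `κ`, with points `y i ∈ U i` whose germ occurs
in `U j` only for `j = i` -/
structure Lab (κ : Cardinal.{u}) {ι : Type u} (U : ι → Set X) (y : ι → X) : Prop where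
  hU : ∀ i, IsClopen (U i)
  hy : ∀ i, y i ∈ U i
  hd : ∀ i, ∃ A : Set X, #A < κ ∧ U i ⊆ closure A
  anti : ∀ i j, ∀ z ∈ U j, GE (y i) z → i = j

theorem Lab.mem_iff {κ : Cardinal.{u}} {ι : Type u} {U : ι → Set X} {y : ι → X}
    (h : Lab κ U y) (i j : ι) (hj : y j ∈ U i) : j = i := h.anti j i (y j) hj (GE.refl _)

theorem exists_stages [CompactSpace X] [T2Space X] (hφ : Cors φ) {κ : Cardinal.{u}}
    (hκ : κ.IsRegular) (hκ0 : ℵ₀ < κ) {ι : Type u} {U : ι → Set X} {y : ι → X}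
    (h : Lab κ U y) (hι : #ι = κ) :
    ∃ (R : Type u) (E : κ.ord.ToType ≃ R × (κ.ord.ToType × κ.ord.ToType))
      (p : κ.ord.ToType → ι) (T : κ.ord.ToType → Set X), Nonempty R ∧ Function.Injective p ∧
      (∀ w, IsClopen (T w)) ∧ (∀ w, T w ⊆ U (p w)) ∧ (∀ w, y (p w) ∈ T w) ∧
      Pairwise (fun v w => Disjoint (T v) (T w)) ∧
      ∀ (𝓢 : Set κ.ord.ToType) r, r ∈ closure (⋃ w ∈ 𝓢, T w) → r ∉ ⋃ w ∈ 𝓢, T w →
        ∀ G ∈ 𝓝 r, ∃ O : R, ∀ w, (E w).1 = O → (T w ∩ G).Nonempty := by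
  classical
  set Y : Set X := closure (⋃ i, U i) with hY
  have hUY : ∀ i, U i ⊆ Y := fun i => (subset_iUnion U i).trans subset_closure
  have hSU : ∀ i, #(Supp φ (U i)) < κ := by
    intro i
    obtain ⟨A, hA, hUA⟩ := h.hd i
    exact (mk_Supp_le hφ hUA).trans_lt (max_lt hA hκ0)
  let 𝓘 : Set (Set X) := {C | #(Supp φ (C ∩ Y)) < κ}
  have h𝓘 : IsIdl 𝓘 := by
    refine ⟨fun A B hAB hB => ?_, fun A B hA hB => ?_, ?_⟩
    · exact (mk_le_mk_of_subset (Supp_mono (inter_subset_inter_left _ hAB))).trans_lt hB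
    · have : Supp φ ((A ∪ B) ∩ Y) ⊆ Supp φ (A ∩ Y) ∪ Supp φ (B ∩ Y) := by
        rintro γ ⟨x, ⟨hx | hx, hxY⟩, hγ⟩
        · exact Or.inl ⟨x, ⟨hx, hxY⟩, hγ⟩
        · exact Or.inr ⟨x, ⟨hx, hxY⟩, hγ⟩
      exact ((mk_le_mk_of_subset this).trans (mk_union_le _ _)).trans_lt
        (add_lt_of_lt hκ.aleph0_le hA hB)
    · have : Supp φ ((∅ : Set X) ∩ Y) = ∅ := by
        ext γ; simp [Supp]
      show #(Supp φ ((∅ : Set X) ∩ Y)) < κ
      rw [this]; simpa using hκ.pos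
  obtain ⟨c₀, hc₀, hc₀'⟩ := exists_c0 hφ h𝓘
  let c : Finset (Γ × ℚ × ℚ) → Set Γ := fun s => c₀ s ∪
    (if box φ s ∈ 𝓘 then Supp φ (box φ s ∩ Y) ∪ ⋃ i : {i | y i ∈ box φ s}, Supp φ (U i.1) else ∅)
  have hc : ∀ s, #(c s) < κ := by
    intro s
    refine (mk_union_le _ _).trans_lt (add_lt_of_lt hκ.aleph0_le
      ((le_aleph0_iff_set_countable.2 (hc₀ s)).trans_lt hκ0) ?_)
    by_cases hs : box φ s ∈ 𝓘
    · simp only [hs, if_true]
      refine (mk_union_le _ _).trans_lt (add_lt_of_lt hκ.aleph0_le hs ?_)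
      refine (card_iUnion_lt_iff_forall_of_isRegular hκ ?_).2 (fun i => hSU i.1)
      have h1 : {i | y i ∈ box φ s} ⊆ {i | y i ∈ box φ s ∩ Y} :=
        fun i hi => ⟨hi, hUY i (h.hy i)⟩
      exact ((mk_le_mk_of_subset h1).trans
        (mk_le_of_disc hφ (fun i => (h.hU i).2) h.hy h.mem_iff _)).trans_lt (max_lt hs hκ0)
    · simp only [hs, if_false]
      simpa using hκ.pos
  have hcl0 : ∀ Z, IsCl c Z → ∀ s, dom s ⊆ Z → c₀ s ⊆ Z := fun Z hZ s hs =>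
    subset_union_left.trans (hZ s hs)
  have hcl1 : ∀ Z, IsCl c Z → ∀ s, dom s ⊆ Z → box φ s ∈ 𝓘 → Supp φ (box φ s ∩ Y) ⊆ Z := by
    intro Z hZ s hs hsI
    refine Subset.trans ?_ (hZ s hs)
    simp only [c, hsI, if_true]
    exact subset_union_left.trans subset_union_right
  have hcl2 : ∀ Z, IsCl c Z → ∀ s, dom s ⊆ Z → box φ s ∈ 𝓘 → ∀ i, y i ∈ box φ s →
      Supp φ (U i) ⊆ Z := by
    intro Z hZ s hs hsI i hi
    refine Subset.trans ?_ (hZ s hs)
    simp only [c, hsI, if_true]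
    refine Subset.trans ?_ (subset_union_right.trans subset_union_right)
    exact subset_iUnion (fun i : {i | y i ∈ box φ s} => Supp φ (U i.1)) ⟨i, hi⟩
  -- requirements
  let Rs : Set (Finset (Γ × ℚ × ℚ)) := {s | dom s ⊆ Supp φ Y ∧ obox φ s ∉ 𝓘}
  have hSY : #(Supp φ Y) ≤ κ := by
    have h1 : Supp φ Y ⊆ ⋃ i, Supp φ (U i) := by
      refine (Supp_closure hφ _).trans ?_
      rintro γ ⟨x, hx, hγ⟩
      obtain ⟨i, hi⟩ := mem_iUnion.1 hx
      exact mem_iUnion.2 ⟨i, x, hi, hγ⟩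
    calc #(Supp φ Y) ≤ #(⋃ i, Supp φ (U i) : Set Γ) := mk_le_mk_of_subset h1
      _ ≤ Cardinal.sum (fun i => #(Supp φ (U i))) := mk_iUnion_le_sum_mk
      _ ≤ Cardinal.sum (fun _ : ι => κ) := sum_le_sum _ _ fun i => (hSU i).le
      _ = κ := by simp [hι, mul_eq_self hκ.aleph0_le]
  have hRs : #Rs ≤ κ := by
    have h1 : Rs ⊆ {s | dom s ⊆ Supp φ Y} := fun s hs => hs.1
    exact ((mk_le_mk_of_subset h1).trans (mk_dom_le _)).trans (max_le hSY hκ.aleph0_le)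
  have hRne : (∅ : Finset (Γ × ℚ × ℚ)) ∈ Rs := by
    refine ⟨?_, ?_⟩
    · rintro γ ⟨c, hc, _⟩; simp at hc
    · intro hlt
      have h1 : #{i | y i ∈ obox φ (∅ : Finset (Γ × ℚ × ℚ)) ∩ Y} < κ :=
        (mk_le_of_disc hφ (fun i => (h.hU i).2) h.hy h.mem_iff _).trans_lt (max_lt hlt hκ0)
      have h2 : {i | y i ∈ obox φ (∅ : Finset (Γ × ℚ × ℚ)) ∩ Y} = Set.univ := by
        ext i
        simp only [mem_ofPred_eq, mem_univ, iff_true]
        refine ⟨?_, hUY i (h.hy i)⟩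
        intro c hc; simp at hc
      rw [h2, mk_univ, hι] at h1
      exact lt_irrefl _ h1
  have hE : Nonempty (κ.ord.ToType ≃ Rs × (κ.ord.ToType × κ.ord.ToType)) := by
    rw [← Cardinal.eq]
    have h1 : #(κ.ord.ToType × κ.ord.ToType) = κ := by
      simp [mul_eq_self hκ.aleph0_le]
    rw [mk_ord_toType, mk_prod, lift_id, lift_id, h1]
    have hne : #Rs ≠ 0 := by
      rw [Cardinal.mk_ne_zero_iff]; exact ⟨⟨_, hRne⟩⟩
    exact (mul_eq_right hκ.aleph0_le hRs hne).symm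
  obtain ⟨E⟩ := hE
  -- the recursion
  have hstep : ∀ (w : κ.ord.ToType) (f : ∀ v, v < w → ι), ∃ i, ∃ x, x ∈ U i ∧
      x ∈ obox φ (E w).1.1 ∧
      ¬ supp φ x ⊆ cl c (⋃ v : Iio w, Supp φ (U (f v.1 v.2))) := by
    intro w f
    set Z := cl c (⋃ v : Iio w, Supp φ (U (f v.1 v.2))) with hZ
    have hZc : #Z < κ := by
      apply mk_cl_lt hκ hκ0 hc
      exact (card_iUnion_lt_iff_forall_of_isRegular hκ (mk_Iio_toType_ord_lt w)).2
        (fun v => hSU _)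
    have h1 : ¬ Supp φ (obox φ (E w).1.1 ∩ Y) ⊆ Z := fun hsub =>
      (E w).1.2.2 ((mk_le_mk_of_subset hsub).trans_lt hZc)
    obtain ⟨γ, ⟨x, ⟨hx, hxY⟩, hxγ⟩, hγ⟩ := not_subset.1 h1
    have hO : IsOpen (obox φ (E w).1.1 ∩ {z | φ z γ ≠ 0}) :=
      (isOpen_obox hφ _).inter ((hφ.continuous_apply γ).isOpen_preimage _ isOpen_ne)
    obtain ⟨x', ⟨hx'1, hx'2⟩, hx'3⟩ := mem_closure_iff.1 hxY _ hO ⟨hx, hxγ⟩
    obtain ⟨i, hi⟩ := mem_iUnion.1 hx'3
    exact ⟨i, x', hi, hx'1, fun hsub => hγ (hsub hx'2)⟩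
  obtain ⟨p, hp⟩ := exists_rec _ hstep
  let Z : κ.ord.ToType → Set Γ := fun w => cl c (⋃ v : Iio w, Supp φ (U (p v.1)))
  have hZcl : ∀ w, IsCl c (Z w) := fun w => isCl_cl _ _
  have hZsub : ∀ v w, v < w → Supp φ (U (p v)) ⊆ Z w := by
    intro v w hvw
    refine Subset.trans ?_ (subset_cl c _)
    exact subset_iUnion (fun v : Iio w => Supp φ (U (p v.1))) ⟨v, hvw⟩
  have hZmono : ∀ v w, v ≤ w → Z v ⊆ Z w := by
    intro v w hvw
    apply cl_mono
    refine iUnion_subset fun a => ?_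
    exact subset_iUnion (fun v : Iio w => Supp φ (U (p v.1))) ⟨a.1, lt_of_lt_of_le a.2 hvw⟩
  -- small boxes
  have hUsm : ∀ i x, x ∈ U i → ∃ s, x ∈ obox φ s ∧ box φ s ∈ 𝓘 := by
    intro i x hx
    obtain ⟨s, hs, hsU⟩ := exists_box hφ ((h.hU i).2.mem_nhds hx)
    refine ⟨s, hs, ?_⟩
    exact (mk_le_mk_of_subset (Supp_mono (inter_subset_left.trans hsU))).trans_lt (hSU i)
  let T : κ.ord.ToType → Set X := fun w => U (p w) \ XG φ (Z w)
  have hTU : ∀ w, T w ⊆ U (p w) := fun w => sdiff_subset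
  have hTopen : ∀ w, IsOpen (T w) := fun w => (h.hU _).2.sdiff (isClosed_XG hφ _)
  have hTclosed : ∀ w, IsClosed (T w) := by
    intro w
    have hop : IsOpen (U (p w) ∩ XG φ (Z w)) := by
      rw [isOpen_iff_mem_nhds]
      rintro x ⟨hxU, hxZ⟩
      obtain ⟨s, hsZ, hxs, hs⟩ := hc₀' (Z w) (hcl0 _ (hZcl w)) x hxZ (hUsm _ x hxU)
      have h1 := hcl1 _ (hZcl w) s hsZ hs
      filter_upwards [(isOpen_obox hφ s).mem_nhds hxs, (h.hU (p w)).2.mem_nhds hxU] with z hz hzU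
      refine ⟨hzU, ?_⟩
      exact (Supp_subset_iff.1 h1) ⟨obox_subset_box _ hz, hUY _ hzU⟩
    have : T w = U (p w) \ (U (p w) ∩ XG φ (Z w)) := by
      ext z; simp [T]
    rw [this]
    exact (h.hU _).1.sdiff hop
  have hyT : ∀ w, y (p w) ∈ T w := by
    intro w
    refine ⟨h.hy _, fun hyZ => ?_⟩
    obtain ⟨s, hsZ, hxs, hs⟩ := hc₀' (Z w) (hcl0 _ (hZcl w)) _ hyZ (hUsm _ _ (h.hy _))
    have h1 := hcl2 _ (hZcl w) s hsZ hs (p w) (obox_subset_box _ hxs)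
    obtain ⟨x, hxU, -, hxn⟩ := hp w
    exact hxn ((Supp_subset_iff.1 h1) hxU)
  have hTreq : ∀ w, (T w ∩ obox φ (E w).1.1).Nonempty := by
    intro w
    obtain ⟨x, hxU, hxo, hxn⟩ := hp w
    exact ⟨x, ⟨hxU, hxn⟩, hxo⟩
  have hTZ : ∀ v w, v < w → T v ⊆ XG φ (Z w) := by
    intro v w hvw
    exact (hTU v).trans (Supp_subset_iff.1 (hZsub v w hvw))
  have hTdisj : ∀ v w, v < w → Disjoint (T v) (T w) := by
    intro v w hvw
    rw [Set.disjoint_left]
    intro z hzv hzw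
    exact hzw.2 (hTZ v w hvw hzv)
  have hTdisj' : Pairwise (fun v w => Disjoint (T v) (T w)) := by
    intro v w hvw
    rcases lt_or_gt_of_ne hvw with h1 | h1
    · exact hTdisj v w h1
    · exact (hTdisj w v h1).symm
  have hpinj : Function.Injective p := by
    intro v w hvw
    by_contra hne
    have h1 := hyT v
    rw [hvw] at h1
    exact Set.disjoint_left.1 (hTdisj' hne) h1 (hyT w)
  -- accidental points have no small boxes
  have hTY : ∀ w, T w ⊆ Y := fun w => (hTU w).trans (hUY _)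
  have hR1 : ∀ (𝓢 : Set κ.ord.ToType) r, r ∈ closure (⋃ w ∈ 𝓢, T w) → r ∉ ⋃ w ∈ 𝓢, T w →
      ¬ ∃ s, r ∈ obox φ s ∧ box φ s ∈ 𝓘 := by
    intro 𝓢 r hr hrT hsmall
    -- cutting off
    have hcut : ∀ J : Set κ.ord.ToType, J.Nonempty → (∀ w ∈ J, ∃ v ∈ J, w < v) →
        r ∈ closure (⋃ w ∈ 𝓢 ∩ J, T w) → ∃ b ∈ J, r ∈ closure (⋃ w ∈ 𝓢 ∩ Iio b, T w) := by
      intro J hJne hJ hrJ
      have : Nonempty J := hJne.to_subtype
      set D : Set Γ := ⋃ j : J, Z j.1 with hD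
      have hdir : Directed (· ⊆ ·) (fun j : J => Z j.1) := by
        intro j k
        rcases le_total j.1 k.1 with h1 | h1
        · exact ⟨k, hZmono _ _ h1, Subset.rfl⟩
        · exact ⟨j, Subset.rfl, hZmono _ _ h1⟩
      have hDcl : IsCl c D := IsCl.iUnion hdir (fun j => hZcl j.1)
      have hrD : r ∈ XG φ D := by
        refine (isClosed_XG hφ D).closure_subset_iff.2 ?_ hrJ
        refine iUnion₂_subset fun w hw => ?_
        obtain ⟨v, hv, hwv⟩ := hJ w hw.2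
        exact (hTZ w v hwv).trans (XG_mono (subset_iUnion (fun j : J => Z j.1) ⟨v, hv⟩))
      obtain ⟨s, hsD, hrs, hs⟩ := hc₀' D (hcl0 _ hDcl) r hrD hsmall
      obtain ⟨b, hb⟩ : ∃ b : J, dom s ⊆ Z b.1 := by
        have key : ∀ t : Set Γ, t.Finite → t ⊆ ⋃ j : J, Z j.1 → ∃ j : J, t ⊆ Z j.1 := by
          intro t ht
          induction t, ht using Set.Finite.induction_on with
          | empty => intro _; exact ⟨Classical.arbitrary J, empty_subset _⟩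
          | insert _ _ ih =>
            intro h2
            obtain ⟨j, hj⟩ := ih ((subset_insert _ _).trans h2)
            obtain ⟨k, hk⟩ := mem_iUnion.1 (h2 (mem_insert _ _))
            obtain ⟨l, hl1, hl2⟩ := hdir j k
            exact ⟨l, insert_subset (hl2 hk) (hj.trans hl1)⟩
        exact key _ (dom_finite s) hsD
      refine ⟨b.1, b.2, ?_⟩
      have h1 := Supp_subset_iff.1 (hcl1 _ (hZcl b.1) s hb hs)
      rw [mem_closure_iff]
      intro O hO hrO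
      obtain ⟨z, ⟨hzO, hzs⟩, hz⟩ := mem_closure_iff.1 hrJ _ (hO.inter (isOpen_obox hφ s)) ⟨hrO, hrs⟩
      obtain ⟨w, hw, hzw⟩ := mem_iUnion₂.1 hz
      refine ⟨z, hzO, mem_iUnion₂.2 ⟨w, ⟨hw.1, ?_⟩, hzw⟩⟩
      by_contra hwb
      have hbw : b.1 ≤ w := not_lt.1 hwb
      exact hzw.2 (XG_mono (hZmono _ _ hbw) (h1 ⟨obox_subset_box _ hzs, hTY w hzw⟩))
    have hnomax : ∀ b : κ.ord.ToType, ∃ v, b < v := by
      intro b
      by_contra hcon
      push Not at hcon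
      have h1 : (Set.univ : Set κ.ord.ToType) ⊆ insert b (Iio b) := by
        intro w _
        rcases (hcon w).lt_or_eq with h2 | h2
        · exact Or.inr h2
        · exact Or.inl h2
      have h2 : #(Set.univ : Set κ.ord.ToType) < κ :=
        (mk_le_mk_of_subset h1).trans_lt ((mk_insert_le).trans_lt
          (add_lt_of_lt hκ.aleph0_le (mk_Iio_toType_ord_lt b) (one_lt_aleph0.trans hκ0)))
      rw [mk_univ, mk_ord_toType] at h2
      exact lt_irrefl _ h2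
    have hWne : Nonempty κ.ord.ToType := by
      rw [← Cardinal.mk_ne_zero_iff, mk_ord_toType]; exact hκ.ne_zero
    obtain ⟨b₀, -, hb₀⟩ := hcut Set.univ univ_nonempty (fun w _ => by
      obtain ⟨v, hv⟩ := hnomax w
      exact ⟨v, trivial, hv⟩) (by rwa [inter_univ])
    obtain ⟨a, ha, hamin⟩ := WellFounded.has_min (wellFounded_lt (α := κ.ord.ToType))
      {a | r ∈ closure (⋃ w ∈ 𝓢 ∩ Iio a, T w)} ⟨b₀, hb₀⟩
    rcases (Iio a).eq_empty_or_nonempty with hemp | hne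
    · have : r ∈ closure (⋃ w ∈ 𝓢 ∩ Iio a, T w) := ha
      rw [hemp] at this
      simp at this
    · by_cases hmax : ∀ w ∈ Iio a, ∃ v ∈ Iio a, w < v
      · obtain ⟨b, hb, hrb⟩ := hcut (Iio a) hne hmax ha
        exact hamin b hrb hb
      · push Not at hmax
        obtain ⟨b, hb, hbmax⟩ := hmax
        have h1 : (⋃ w ∈ 𝓢 ∩ Iio a, T w) ⊆ (⋃ w ∈ 𝓢 ∩ Iio b, T w) ∪ (⋃ w ∈ 𝓢 ∩ {b}, T w) := by
          intro z hz
          obtain ⟨w, hw, hzw⟩ := mem_iUnion₂.1 hz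
          rcases (hbmax w hw.2).lt_or_eq with h2 | h2
          · exact Or.inl (mem_iUnion₂.2 ⟨w, ⟨hw.1, h2⟩, hzw⟩)
          · exact Or.inr (mem_iUnion₂.2 ⟨w, ⟨hw.1, h2⟩, hzw⟩)
        have h2 : r ∈ closure (⋃ w ∈ 𝓢 ∩ Iio b, T w) ∪ closure (⋃ w ∈ 𝓢 ∩ {b}, T w) := by
          rw [← closure_union]; exact closure_mono h1 ha
        rcases h2 with h2 | h2
        · exact hamin b h2 hb
        · apply hrT
          have h3 : IsClosed (⋃ w ∈ 𝓢 ∩ {b}, T w) := by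
            by_cases hbS : b ∈ 𝓢
            · have : 𝓢 ∩ {b} = {b} := inter_eq_right.2 (singleton_subset_iff.2 hbS)
              rw [this]; simpa using hTclosed b
            · have : 𝓢 ∩ {b} = ∅ := by
                ext w; simp only [mem_inter_iff, mem_singleton_iff, mem_empty_iff_false, iff_false]
                rintro ⟨h4, h5⟩; exact hbS (h5 ▸ h4)
              rw [this]; simp
          rw [h3.closure_eq] at h2
          obtain ⟨w, hw, hzw⟩ := mem_iUnion₂.1 h2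
          exact mem_iUnion₂.2 ⟨w, hw.1, hzw⟩
  refine ⟨Rs, E, p, T, ⟨⟨_, hRne⟩⟩, hpinj, fun w => ⟨hTclosed w, hTopen w⟩, hTU, hyT, hTdisj',
    ?_⟩
  intro 𝓢 r hr hrT G hG
  obtain ⟨s, hrs, hsG⟩ := exists_box hφ hG
  obtain ⟨s₁, hrs₁, hs₁⟩ := exists_box hφ ((isOpen_obox hφ s).mem_nhds hrs)
  have hrY : r ∈ Y := by
    refine isClosed_closure.closure_subset_iff.2 ?_ hr
    exact iUnion₂_subset fun w _ => hTY w
  have hs : obox φ s ∉ 𝓘 := fun h1 =>
    hR1 𝓢 r hr hrT ⟨s₁, hrs₁, h𝓘.mono _ _ hs₁ h1⟩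
  set s' := s.filter (fun c => c.1 ∈ Supp φ Y) with hs'
  have hs'R : s' ∈ Rs := by
    refine ⟨?_, fun h1 => hs (h𝓘.mono _ _ ?_ h1)⟩
    · rintro γ ⟨c, hc, rfl⟩
      exact (Finset.mem_filter.1 hc).2
    · intro z hz c hc
      exact hz c (Finset.mem_filter.1 hc).1
  refine ⟨⟨s', hs'R⟩, fun w hw => ?_⟩
  obtain ⟨x, hxT, hxo⟩ := hTreq w
  rw [hw] at hxo
  refine ⟨x, hxT, hsG (obox_subset_box _ ?_)⟩
  apply mem_obox_of_filter hrY (hTY w hxT) hrs (s' := s') _ hxo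
  intro c hc hcY
  exact Finset.mem_filter.2 ⟨hc, hcY⟩

end StagesSec

end Run7.h123
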