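import Pool.Agent.Run7.h123.CorBase

open Set Topology Filter Cardinal

namespace Run7.h123

universe u

set_option linter.unusedSectionVars false

/-- a frame: levels `Ξ` with regular cardinals, stages `W` -/
structure Frame {Ξ W : Type u} [LinearOrder Ξ] [LinearOrder W] (lam : Ξ → Cardinal.{u})
    (lev : W → Ξ) : Prop where
  reg : ∀ ξ, (lam ξ).IsRegular
  unc : ∀ ξ, ℵ₀ < lam ξ
  mono : Monotone lam
  small : ∀ ξ, #Ξ < lam ξ
  levmono : Monotone lev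
  Iio : ∀ w, #(Set.Iio w) < lam (lev w)
  fib : ∀ ξ, #{w // lev w = ξ} = lam ξ

section GSec

variable {X : Type u} [TopologicalSpace X] {Γ : Type u} {φ : X → Γ → ℝ}

/-- labels on levels -/
structure GLab {Ξ : Type u} (lam : Ξ → Cardinal.{u}) {ι : Type u} (l : ι → Ξ) (U : ι → Set X)
    (y : ι → X) : Prop where
  hU : ∀ i, IsClopen (U i)
  hy : ∀ i, y i ∈ U i
  hd : ∀ i, ∃ A : Set X, #A < lam (l i) ∧ U i ⊆ closure A
  anti : ∀ i j, ∀ z ∈ U j, GE (y i) z → i = j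

theorem GLab.mem_iff {Ξ : Type u} {lam : Ξ → Cardinal.{u}} {ι : Type u} {l : ι → Ξ}
    {U : ι → Set X} {y : ι → X}
    (h : GLab lam l U y) (i j : ι) (hj : y j ∈ U i) : j = i := h.anti j i (y j) hj (GE.refl _)

theorem Frame.lt_of {Ξ W : Type u} [LinearOrder Ξ] [LinearOrder W] {lam : Ξ → Cardinal.{u}}
    {lev : W → Ξ} (h : Frame lam lev) (b : W) : ∃ v, b < v := by
  by_contra hcon
  push Not at hcon
  have h1 : {w | lev w = lev b} ⊆ insert b (Set.Iio b) := by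
    intro w _
    rcases (hcon w).lt_or_eq with h2 | h2
    · exact Or.inr h2
    · exact Or.inl h2
  have h2 : #{w | lev w = lev b} < lam (lev b) :=
    (mk_le_mk_of_subset h1).trans_lt (mk_insert_le.trans_lt
      (add_lt_of_lt (h.reg _).aleph0_le (h.Iio b) (one_lt_aleph0.trans (h.unc _))))
  exact absurd (h.fib (lev b)) h2.ne

theorem exists_stagesG [CompactSpace X] [T2Space X] (hφ : Cors φ)
    {Ξ W : Type u} [LinearOrder Ξ] [LinearOrder W] [WellFoundedLT W] {lam : Ξ → Cardinal.{u}}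
    {lev : W → Ξ} (hF : Frame lam lev) {ι : Type u} {l : ι → Ξ} {U : ι → Set X} {y : ι → X}
    (h : GLab lam l U y) (hι : ∀ ξ, #{i // l i = ξ} = lam ξ) :
    ∃ (R : Ξ → Type u) (E : ∀ ξ, {w // lev w = ξ} ≃ R ξ × ({w // lev w = ξ} × {w // lev w = ξ}))
      (p : W → ι) (T : W → Set X), (∀ ξ, Nonempty (R ξ)) ∧ Function.Injective p ∧
      (∀ w, l (p w) = lev w) ∧
      (∀ w, IsClopen (T w)) ∧ (∀ w, T w ⊆ U (p w)) ∧ (∀ w, y (p w) ∈ T w) ∧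
      Pairwise (fun v w => Disjoint (T v) (T w)) ∧
      ∀ (𝓢 : Set W) r, r ∈ closure (⋃ w ∈ 𝓢, T w) → r ∉ ⋃ w ∈ 𝓢, T w →
        ∀ ζ, r ∉ closure (⋃ w ∈ 𝓢 ∩ {w | ζ ≤ lev w}, T w) ∨ ∀ G ∈ 𝓝 r, ∃ η, ζ ≤ η ∧
          ∃ O : R η, ∀ a : {w // lev w = η}, (E η a).1 = O → (T a.1 ∩ G).Nonempty := by
  classical
  let Y : Ξ → Set X := fun ξ => closure (⋃ i : {i // l i = ξ}, U i.1)
  have hUY : ∀ i, U i ⊆ Y (l i) := fun i =>
    (subset_iUnion (fun j : {j // l j = l i} => U j.1) ⟨i, rfl⟩).trans subset_closure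
  have hSU : ∀ i, #(Supp φ (U i)) < lam (l i) := by
    intro i
    obtain ⟨A, hA, hUA⟩ := h.hd i
    exact (mk_Supp_le hφ hUA).trans_lt (max_lt hA (hF.unc _))
  have hal : ∀ ξ, ℵ₀ ≤ lam ξ := fun ξ => (hF.reg ξ).aleph0_le
  let 𝓘 : Ξ → Set (Set X) := fun ζ => {C | ∀ η, ζ ≤ η → #(Supp φ (C ∩ Y η)) < lam η}
  have h𝓘 : ∀ ζ, IsIdl (𝓘 ζ) := by
    intro ζ
    refine ⟨fun A B hAB hB η hη => ?_, fun A B hA hB η hη => ?_, ?_⟩
    · exact (mk_le_mk_of_subset (Supp_mono (inter_subset_inter_left _ hAB))).trans_lt (hB η hη)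
    · have : Supp φ ((A ∪ B) ∩ Y η) ⊆ Supp φ (A ∩ Y η) ∪ Supp φ (B ∩ Y η) := by
        rintro γ ⟨x, ⟨hx | hx, hxY⟩, hγ⟩
        · exact Or.inl ⟨x, ⟨hx, hxY⟩, hγ⟩
        · exact Or.inr ⟨x, ⟨hx, hxY⟩, hγ⟩
      exact ((mk_le_mk_of_subset this).trans (mk_union_le _ _)).trans_lt
        (add_lt_of_lt (hal η) (hA η hη) (hB η hη))
    · intro η _
      have : Supp φ ((∅ : Set X) ∩ Y η) = ∅ := by
        ext γ; simp [Supp]
      rw [this]; simpa using (hF.reg η).pos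
  have hc0 := fun ζ => exists_c0 hφ (h𝓘 ζ)
  choose c₀ hc₀ hc₀' using hc0
  let d : Ξ → Finset (Γ × ℚ × ℚ) → Set Γ := fun η s =>
    if #(Supp φ (box φ s ∩ Y η)) < lam η then Supp φ (box φ s ∩ Y η) ∪
      ⋃ i : {i | l i = η ∧ y i ∈ box φ s}, Supp φ (U i.1) else ∅
  have hd : ∀ η s, #(d η s) < lam η := by
    intro η s
    by_cases hs : #(Supp φ (box φ s ∩ Y η)) < lam η
    · simp only [d, hs, if_true]
      refine (mk_union_le _ _).trans_lt (add_lt_of_lt (hal η) hs ?_)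
      refine (card_iUnion_lt_iff_forall_of_isRegular (hF.reg η) ?_).2
        (fun i => (hSU i.1).trans_eq (congrArg lam i.2.1))
      have h1 : {i | l i = η ∧ y i ∈ box φ s} ⊆ {i | y i ∈ box φ s ∩ Y η} :=
        fun i hi => ⟨hi.2, hi.1 ▸ hUY i (h.hy i)⟩
      exact ((mk_le_mk_of_subset h1).trans
        (mk_le_of_disc hφ (fun i => (h.hU i).2) h.hy h.mem_iff _)).trans_lt (max_lt hs (hF.unc η))
    · simp only [d, hs, if_false]
      simpa using (hF.reg η).pos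
  let c : Ξ → Finset (Γ × ℚ × ℚ) → Set Γ := fun ξ s => (⋃ ζ, c₀ ζ s) ∪ ⋃ η : Set.Iic ξ, d η.1 s
  have hc : ∀ ξ s, #(c ξ s) < lam ξ := by
    intro ξ s
    refine (mk_union_le _ _).trans_lt (add_lt_of_lt (hal ξ) ?_ ?_)
    · exact (card_iUnion_lt_iff_forall_of_isRegular (hF.reg ξ) (hF.small ξ)).2
        (fun ζ => (le_aleph0_iff_set_countable.2 (hc₀ ζ s)).trans_lt (hF.unc ξ))
    · refine (card_iUnion_lt_iff_forall_of_isRegular (hF.reg ξ) ?_).2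
        (fun η => (hd η.1 s).trans_le (hF.mono η.2))
      exact (mk_set_le _).trans_lt (hF.small ξ)
  have hcl0 : ∀ ξ Z, IsCl (c ξ) Z → ∀ ζ s, dom s ⊆ Z → c₀ ζ s ⊆ Z := fun ξ Z hZ ζ s hs =>
    (subset_iUnion (fun ζ => c₀ ζ s) ζ).trans (subset_union_left.trans (hZ s hs))
  have hcd : ∀ ξ Z, IsCl (c ξ) Z → ∀ η, η ≤ ξ → ∀ s, dom s ⊆ Z → d η s ⊆ Z := by
    intro ξ Z hZ η hη s hs
    refine Subset.trans ?_ (hZ s hs)
    exact (subset_iUnion (fun η : Set.Iic ξ => d η.1 s) ⟨η, hη⟩).trans subset_union_right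
  have hcl1 : ∀ ξ Z, IsCl (c ξ) Z → ∀ η, η ≤ ξ → ∀ s, dom s ⊆ Z →
      #(Supp φ (box φ s ∩ Y η)) < lam η → Supp φ (box φ s ∩ Y η) ⊆ Z := by
    intro ξ Z hZ η hη s hs hsI
    refine Subset.trans ?_ (hcd ξ Z hZ η hη s hs)
    simp only [d, hsI, if_true]
    exact subset_union_left
  have hcl2 : ∀ ξ Z, IsCl (c ξ) Z → ∀ i, l i ≤ ξ → ∀ s, dom s ⊆ Z →
      #(Supp φ (box φ s ∩ Y (l i))) < lam (l i) → y i ∈ box φ s → Supp φ (U i) ⊆ Z := by
    intro ξ Z hZ i hη s hs hsI hi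
    refine Subset.trans ?_ (hcd ξ Z hZ (l i) hη s hs)
    simp only [d, hsI, if_true]
    refine Subset.trans ?_ subset_union_right
    exact subset_iUnion (fun j : {j | l j = l i ∧ y j ∈ box φ s} => Supp φ (U j.1)) ⟨i, rfl, hi⟩
  have hclmono : ∀ ξ ξ' Z, ξ ≤ ξ' → IsCl (c ξ') Z → IsCl (c ξ) Z := by
    intro ξ ξ' Z hξ hZ s hs
    refine union_subset (iUnion_subset fun ζ => hcl0 ξ' Z hZ ζ s hs) (iUnion_subset fun η => ?_)
    exact hcd ξ' Z hZ η.1 (le_trans η.2 hξ) s hs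
  -- requirements
  let Rs : Ξ → Set (Finset (Γ × ℚ × ℚ)) := fun ξ =>
    {s | dom s ⊆ Supp φ (Y ξ) ∧ ¬ #(Supp φ (obox φ s ∩ Y ξ)) < lam ξ}
  have hSY : ∀ ξ, #(Supp φ (Y ξ)) ≤ lam ξ := by
    intro ξ
    have h1 : Supp φ (Y ξ) ⊆ ⋃ i : {i // l i = ξ}, Supp φ (U i.1) := by
      refine (Supp_closure hφ _).trans ?_
      rintro γ ⟨x, hx, hγ⟩
      obtain ⟨i, hi⟩ := mem_iUnion.1 hx
      exact mem_iUnion.2 ⟨i, x, hi, hγ⟩
    calc #(Supp φ (Y ξ)) ≤ #(⋃ i : {i // l i = ξ}, Supp φ (U i.1) : Set Γ) :=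
          mk_le_mk_of_subset h1
      _ ≤ Cardinal.sum (fun i : {i // l i = ξ} => #(Supp φ (U i.1))) := mk_iUnion_le_sum_mk
      _ ≤ Cardinal.sum (fun _ : {i // l i = ξ} => lam ξ) :=
          sum_le_sum _ _ fun i => (hSU i.1).le.trans_eq (congrArg lam i.2)
      _ = #{i // l i = ξ} * lam ξ := by simp
      _ = lam ξ := by rw [hι, mul_eq_self (hal ξ)]
  have hRs : ∀ ξ, #(Rs ξ) ≤ lam ξ := by
    intro ξ
    have h1 : Rs ξ ⊆ {s | dom s ⊆ Supp φ (Y ξ)} := fun s hs => hs.1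
    exact ((mk_le_mk_of_subset h1).trans (mk_dom_le _)).trans (max_le (hSY ξ) (hal ξ))
  have hRne : ∀ ξ, (∅ : Finset (Γ × ℚ × ℚ)) ∈ Rs ξ := by
    intro ξ
    refine ⟨?_, ?_⟩
    · rintro γ ⟨c, hc, _⟩; simp at hc
    · intro hlt
      have h1 : #{i | y i ∈ obox φ (∅ : Finset (Γ × ℚ × ℚ)) ∩ Y ξ} < lam ξ :=
        (mk_le_of_disc hφ (fun i => (h.hU i).2) h.hy h.mem_iff _).trans_lt
          (max_lt hlt (hF.unc ξ))
      have h2 : {i | l i = ξ} ⊆ {i | y i ∈ obox φ (∅ : Finset (Γ × ℚ × ℚ)) ∩ Y ξ} := by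
        intro i hi
        refine ⟨?_, ?_⟩
        · intro c hc; simp at hc
        · have hi' : l i = ξ := hi
          rw [← hi']; exact hUY i (h.hy i)
      have h3 := (mk_le_mk_of_subset h2).trans_lt h1
      exact absurd (hι ξ) h3.ne
  have hE : ∀ ξ, Nonempty ({w // lev w = ξ} ≃ Rs ξ × ({w // lev w = ξ} × {w // lev w = ξ})) := by
    intro ξ
    rw [← Cardinal.eq]
    have h1 : #({w // lev w = ξ} × {w // lev w = ξ}) = lam ξ := by
      rw [mk_prod, lift_id, hF.fib, mul_eq_self (hal ξ)]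
    rw [mk_prod, lift_id, lift_id, h1, hF.fib]
    have hne : #(Rs ξ) ≠ 0 := by
      rw [Cardinal.mk_ne_zero_iff]; exact ⟨⟨_, hRne ξ⟩⟩
    exact (mul_eq_right (hal ξ) (hRs ξ) hne).symm
  let E := fun ξ => (hE ξ).some
  -- the recursion
  have hstep : ∀ (w : W) (f : ∀ v, v < w → ι), ∃ i, l i = lev w ∧
      ((∀ v hv, l (f v hv) ≤ lev w) → ∃ x, x ∈ U i ∧ x ∈ obox φ (E (lev w) ⟨w, rfl⟩).1.1 ∧
      ¬ supp φ x ⊆ cl (c (lev w)) (⋃ v : Set.Iio w, Supp φ (U (f v.1 v.2)))) := by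
    intro w f
    by_cases hf : ∀ v hv, l (f v hv) ≤ lev w
    · set Z := cl (c (lev w)) (⋃ v : Set.Iio w, Supp φ (U (f v.1 v.2))) with hZ
      have hZc : #Z < lam (lev w) := by
        apply mk_cl_lt (hF.reg _) (hF.unc _) (hc (lev w))
        exact (card_iUnion_lt_iff_forall_of_isRegular (hF.reg _) (hF.Iio w)).2
          (fun v => (hSU _).trans_le (hF.mono (hf v.1 v.2)))
      have h1 : ¬ Supp φ (obox φ (E (lev w) ⟨w, rfl⟩).1.1 ∩ Y (lev w)) ⊆ Z := fun hsub =>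
        (E (lev w) ⟨w, rfl⟩).1.2.2 ((mk_le_mk_of_subset hsub).trans_lt hZc)
      obtain ⟨γ, ⟨x, ⟨hx, hxY⟩, hxγ⟩, hγ⟩ := not_subset.1 h1
      have hO : IsOpen (obox φ (E (lev w) ⟨w, rfl⟩).1.1 ∩ {z | φ z γ ≠ 0}) :=
        (isOpen_obox hφ _).inter ((hφ.continuous_apply γ).isOpen_preimage _ isOpen_ne)
      obtain ⟨x', ⟨hx'1, hx'2⟩, hx'3⟩ := mem_closure_iff.1 hxY _ hO ⟨hx, hxγ⟩
      obtain ⟨i, hi⟩ := mem_iUnion.1 hx'3
      exact ⟨i.1, i.2, fun _ => ⟨x', hi, hx'1, fun hsub => hγ (hsub hx'2)⟩⟩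
    · have hne : Nonempty {i // l i = lev w} := by
        rw [← Cardinal.mk_ne_zero_iff, hι]; exact (hF.reg _).ne_zero
      obtain ⟨i⟩ := hne
      exact ⟨i.1, i.2, fun h' => absurd h' hf⟩
  obtain ⟨p, hp⟩ := exists_rec _ hstep
  have hlp : ∀ w, l (p w) = lev w := fun w => (hp w).1
  have hp' : ∀ w, ∃ x, x ∈ U (p w) ∧ x ∈ obox φ (E (lev w) ⟨w, rfl⟩).1.1 ∧
      ¬ supp φ x ⊆ cl (c (lev w)) (⋃ v : Set.Iio w, Supp φ (U (p v.1))) := fun w =>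
    (hp w).2 (fun v hv => (hlp v).le.trans (hF.levmono hv.le))
  let Z : W → Set Γ := fun w => cl (c (lev w)) (⋃ v : Set.Iio w, Supp φ (U (p v.1)))
  have hZcl : ∀ w, IsCl (c (lev w)) (Z w) := fun w => isCl_cl _ _
  have hZsub : ∀ v w, v < w → Supp φ (U (p v)) ⊆ Z w := by
    intro v w hvw
    refine Subset.trans ?_ (subset_cl _ _)
    exact subset_iUnion (fun v : Set.Iio w => Supp φ (U (p v.1))) ⟨v, hvw⟩
  have hZmono : ∀ v w, v ≤ w → Z v ⊆ Z w := by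
    intro v w hvw
    apply cl_min
    · refine iUnion_subset fun a => ?_
      exact hZsub _ _ (lt_of_lt_of_le a.2 hvw)
    · exact hclmono _ _ _ (hF.levmono hvw) (hZcl w)
  -- small boxes
  have hUsm : ∀ i x, x ∈ U i → ∃ s, x ∈ obox φ s ∧ box φ s ∈ 𝓘 (l i) := by
    intro i x hx
    obtain ⟨s, hs, hsU⟩ := exists_box hφ ((h.hU i).2.mem_nhds hx)
    refine ⟨s, hs, fun η hη => ?_⟩
    exact (mk_le_mk_of_subset (Supp_mono (inter_subset_left.trans hsU))).trans_lt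
      ((hSU i).trans_le (hF.mono hη))
  let T : W → Set X := fun w => U (p w) \ XG φ (Z w)
  have hTU : ∀ w, T w ⊆ U (p w) := fun w => sdiff_subset
  have hTY : ∀ w, T w ⊆ Y (lev w) := fun w => (hTU w).trans (hlp w ▸ hUY (p w))
  have hTopen : ∀ w, IsOpen (T w) := fun w => (h.hU _).2.sdiff (isClosed_XG hφ _)
  have hTclosed : ∀ w, IsClosed (T w) := by
    intro w
    have hop : IsOpen (U (p w) ∩ XG φ (Z w)) := by
      rw [isOpen_iff_mem_nhds]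
      rintro x ⟨hxU, hxZ⟩
      obtain ⟨s, hsZ, hxs, hs⟩ := hc₀' (l (p w)) (Z w) (hcl0 _ _ (hZcl w) _) x hxZ
        (hUsm _ x hxU)
      have h1 := hcl1 _ _ (hZcl w) (l (p w)) (hlp w).le s hsZ (hs _ le_rfl)
      filter_upwards [(isOpen_obox hφ s).mem_nhds hxs, (h.hU (p w)).2.mem_nhds hxU] with z hz hzU
      refine ⟨hzU, ?_⟩
      exact (Supp_subset_iff.1 h1) ⟨obox_subset_box _ hz, hUY _ hzU⟩
    have : T w = U (p w) \ (U (p w) ∩ XG φ (Z w)) := by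
      ext z; simp [T]
    rw [this]
    exact (h.hU _).1.sdiff hop
  have hyT : ∀ w, y (p w) ∈ T w := by
    intro w
    refine ⟨h.hy _, fun hyZ => ?_⟩
    obtain ⟨s, hsZ, hxs, hs⟩ := hc₀' (l (p w)) (Z w) (hcl0 _ _ (hZcl w) _) _ hyZ
      (hUsm _ _ (h.hy _))
    have h1 := hcl2 _ _ (hZcl w) (p w) (hlp w).le s hsZ (hs _ le_rfl) (obox_subset_box _ hxs)
    obtain ⟨x, hxU, -, hxn⟩ := hp' w
    exact hxn ((Supp_subset_iff.1 h1) hxU)
  have hTreq : ∀ w, (T w ∩ obox φ (E (lev w) ⟨w, rfl⟩).1.1).Nonempty := by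
    intro w
    obtain ⟨x, hxU, hxo, hxn⟩ := hp' w
    exact ⟨x, ⟨hxU, hxn⟩, hxo⟩
  have hTreq' : ∀ ξ (a : {w // lev w = ξ}), (T a.1 ∩ obox φ (E ξ a).1.1).Nonempty := by
    rintro ξ ⟨w, rfl⟩
    exact hTreq w
  have hTZ : ∀ v w, v < w → T v ⊆ XG φ (Z w) := by
    intro v w hvw
    exact (hTU v).trans (Supp_subset_iff.1 (hZsub v w hvw))
  have hTdisj : ∀ v w, v < w → Disjoint (T v) (T w) := by
    intro v w hvw
    rw [Set.disjoint_left]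
    intro z hzv hzw
    exact hzw.2 (hTZ v w hvw hzv)
  have hTdisj' : Pairwise (fun v w => Disjoint (T v) (T w)) := by
    intro v w hvw
    rcases lt_or_gt_of_ne hvw with h1 | h1
    · exact hTdisj v w h1
    · exact (hTdisj w v h1).symm
  have hpinj : Function.Injective p := by
    intro v w hvw
    by_contra hne
    have h1 := hyT v
    rw [hvw] at h1
    exact Set.disjoint_left.1 (hTdisj' hne) h1 (hyT w)
  -- accidental points with small boxes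
  have hR1 : ∀ (𝓢 : Set W) r, r ∉ ⋃ w ∈ 𝓢, T w → ∀ ζ, (∃ s, r ∈ obox φ s ∧ box φ s ∈ 𝓘 ζ) →
      r ∉ closure (⋃ w ∈ 𝓢 ∩ {w | ζ ≤ lev w}, T w) := by
    intro 𝓢 r hrT ζ hsmall hr
    have hcut : ∀ J : Set W, J ⊆ {w | ζ ≤ lev w} → (∀ w ∈ J, ∃ v ∈ J, w < v) →
        r ∈ closure (⋃ w ∈ 𝓢 ∩ J, T w) → ∃ b ∈ J, r ∈ closure (⋃ w ∈ 𝓢 ∩ (J ∩ Set.Iio b), T w) := by
      intro J hJζ hJ hrJ
      have hJne : J.Nonempty := by
        obtain ⟨z, hz⟩ := closure_nonempty_iff.1 ⟨r, hrJ⟩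
        obtain ⟨w, hw, _⟩ := mem_iUnion₂.1 hz
        exact ⟨w, hw.2⟩
      have : Nonempty J := hJne.to_subtype
      set D : Set Γ := ⋃ j : J, Z j.1 with hD
      have hdir : Directed (· ⊆ ·) (fun j : J => Z j.1) := by
        intro j k
        rcases le_total j.1 k.1 with h1 | h1
        · exact ⟨k, hZmono _ _ h1, Subset.rfl⟩
        · exact ⟨j, Subset.rfl, hZmono _ _ h1⟩
      have hfin : ∀ t : Set Γ, t.Finite → t ⊆ ⋃ j : J, Z j.1 → ∃ j : J, t ⊆ Z j.1 := by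
        intro t ht
        induction t, ht using Set.Finite.induction_on with
        | empty => intro _; exact ⟨Classical.arbitrary J, empty_subset _⟩
        | insert _ _ ih =>
          intro h2
          obtain ⟨j, hj⟩ := ih ((subset_insert _ _).trans h2)
          obtain ⟨k, hk⟩ := mem_iUnion.1 (h2 (mem_insert _ _))
          obtain ⟨l, hl1, hl2⟩ := hdir j k
          exact ⟨l, insert_subset (hl2 hk) (hj.trans hl1)⟩
      have hDcl : ∀ s, dom s ⊆ D → c₀ ζ s ⊆ D := by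
        intro s hs
        obtain ⟨j, hj⟩ := hfin _ (dom_finite s) hs
        exact (hcl0 _ _ (hZcl j.1) ζ s hj).trans (subset_iUnion (fun j : J => Z j.1) j)
      have hrD : r ∈ XG φ D := by
        refine (isClosed_XG hφ D).closure_subset_iff.2 ?_ hrJ
        refine iUnion₂_subset fun w hw => ?_
        obtain ⟨v, hv, hwv⟩ := hJ w hw.2
        exact (hTZ w v hwv).trans (XG_mono (subset_iUnion (fun j : J => Z j.1) ⟨v, hv⟩))
      obtain ⟨s, hsD, hrs, hs⟩ := hc₀' ζ D hDcl r hrD hsmall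
      obtain ⟨b, hb⟩ := hfin _ (dom_finite s) hsD
      refine ⟨b.1, b.2, ?_⟩
      rw [mem_closure_iff]
      intro O hO hrO
      obtain ⟨z, ⟨hzO, hzs⟩, hz⟩ := mem_closure_iff.1 hrJ _ (hO.inter (isOpen_obox hφ s)) ⟨hrO, hrs⟩
      obtain ⟨w, hw, hzw⟩ := mem_iUnion₂.1 hz
      refine ⟨z, hzO, mem_iUnion₂.2 ⟨w, ⟨hw.1, hw.2, ?_⟩, hzw⟩⟩
      by_contra hwb
      have hbw : b.1 ≤ w := not_lt.1 hwb
      have h1 := hcl1 _ _ (hZcl w) (lev w) le_rfl s (hb.trans (hZmono _ _ hbw))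
        (hs _ (hJζ hw.2))
      exact hzw.2 ((Supp_subset_iff.1 h1) ⟨obox_subset_box _ hzs, hTY w hzw⟩)
    obtain ⟨b₀, -, hb₀⟩ := hcut {w | ζ ≤ lev w} Subset.rfl (fun w hw => by
      obtain ⟨v, hv⟩ := hF.lt_of w
      exact ⟨v, le_trans hw (hF.levmono hv.le), hv⟩) hr
    obtain ⟨a, ha, hamin⟩ := WellFounded.has_min (wellFounded_lt (α := W))
      {a | r ∈ closure (⋃ w ∈ 𝓢 ∩ ({w | ζ ≤ lev w} ∩ Set.Iio a), T w)} ⟨b₀, hb₀⟩
    by_cases hmax : ∀ w ∈ {w | ζ ≤ lev w} ∩ Set.Iio a, ∃ v ∈ {w | ζ ≤ lev w} ∩ Set.Iio a, w < v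
    · obtain ⟨b, hb, hrb⟩ := hcut _ inter_subset_left hmax ha
      refine hamin b (closure_mono ?_ hrb) hb.2
      refine biUnion_mono ?_ (fun _ _ => Subset.rfl)
      exact fun w hw => ⟨hw.1, hw.2.1.1, hw.2.2⟩
    · push Not at hmax
      obtain ⟨b, hb, hbmax⟩ := hmax
      have h1 : (⋃ w ∈ 𝓢 ∩ ({w | ζ ≤ lev w} ∩ Set.Iio a), T w) ⊆
          (⋃ w ∈ 𝓢 ∩ ({w | ζ ≤ lev w} ∩ Set.Iio b), T w) ∪ (⋃ w ∈ 𝓢 ∩ {b}, T w) := by
        intro z hz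
        obtain ⟨w, hw, hzw⟩ := mem_iUnion₂.1 hz
        rcases (hbmax w hw.2).lt_or_eq with h2 | h2
        · exact Or.inl (mem_iUnion₂.2 ⟨w, ⟨hw.1, hw.2.1, h2⟩, hzw⟩)
        · exact Or.inr (mem_iUnion₂.2 ⟨w, ⟨hw.1, h2⟩, hzw⟩)
      have h2 : r ∈ closure (⋃ w ∈ 𝓢 ∩ ({w | ζ ≤ lev w} ∩ Set.Iio b), T w) ∪
          closure (⋃ w ∈ 𝓢 ∩ {b}, T w) := by
        rw [← closure_union]; exact closure_mono h1 ha
      rcases h2 with h2 | h2
      · exact hamin b h2 hb.2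
      · apply hrT
        have h3 : IsClosed (⋃ w ∈ 𝓢 ∩ {b}, T w) := by
          by_cases hbS : b ∈ 𝓢
          · have : 𝓢 ∩ {b} = {b} := inter_eq_right.2 (singleton_subset_iff.2 hbS)
            rw [this]; simpa using hTclosed b
          · have : 𝓢 ∩ {b} = ∅ := by
              ext w; simp only [mem_inter_iff, mem_singleton_iff, mem_empty_iff_false, iff_false]
              rintro ⟨h4, h5⟩; exact hbS (h5 ▸ h4)
            rw [this]; simp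
        rw [h3.closure_eq] at h2
        obtain ⟨w, hw, hzw⟩ := mem_iUnion₂.1 h2
        exact mem_iUnion₂.2 ⟨w, hw.1, hzw⟩
  refine ⟨fun ξ => Rs ξ, E, p, T, fun ξ => ⟨⟨_, hRne ξ⟩⟩, hpinj, hlp,
    fun w => ⟨hTclosed w, hTopen w⟩, hTU, hyT, hTdisj', ?_⟩
  intro 𝓢 r hr hrT ζ
  by_cases hsm : ∃ s, r ∈ obox φ s ∧ box φ s ∈ 𝓘 ζ
  · exact Or.inl (hR1 𝓢 r hrT ζ hsm)
  · right
    intro G hG
    obtain ⟨s, hrs, hsG⟩ := exists_box hφ hG
    obtain ⟨s₁, hrs₁, hs₁⟩ := exists_box hφ ((isOpen_obox hφ s).mem_nhds hrs)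
    have hs₁n : box φ s₁ ∉ 𝓘 ζ := fun h1 => hsm ⟨s₁, hrs₁, h1⟩
    have hs₁n' : ∃ η, ζ ≤ η ∧ ¬ #(Supp φ (box φ s₁ ∩ Y η)) < lam η := by
      by_contra hcon
      push Not at hcon
      exact hs₁n hcon
    obtain ⟨η, hη, hηn⟩ := hs₁n'
    have hx₁ : (box φ s₁ ∩ Y η).Nonempty := by
      by_contra hne
      rw [not_nonempty_iff_eq_empty] at hne
      apply hηn
      rw [hne]
      have : Supp φ (∅ : Set X) = ∅ := by
        ext γ; simp [Supp]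
      rw [this]; simpa using (hF.reg η).pos
    obtain ⟨x₁, hx₁s, hx₁Y⟩ := hx₁
    set s' := s.filter (fun c => c.1 ∈ Supp φ (Y η)) with hs'
    have hs'R : s' ∈ Rs η := by
      refine ⟨?_, fun h1 => hηn (lt_of_le_of_lt (mk_le_mk_of_subset (Supp_mono ?_)) h1)⟩
      · rintro γ ⟨c, hc, rfl⟩
        exact (Finset.mem_filter.1 hc).2
      · rintro z ⟨hz, hzY⟩
        exact ⟨fun c hc => hs₁ hz c (Finset.mem_filter.1 hc).1, hzY⟩
    refine ⟨η, hη, ⟨s', hs'R⟩, fun a ha => ?_⟩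
    obtain ⟨x, hxT, hxo⟩ := hTreq' η a
    rw [ha] at hxo
    refine ⟨x, hxT, hsG (obox_subset_box _ ?_)⟩
    have hxY : x ∈ Y η := by
      have := hTY a.1 hxT
      rwa [a.2] at this
    apply mem_obox_of_filter hx₁Y hxY (hs₁ hx₁s) (s' := s') _ hxo
    intro c hc hcY
    exact Finset.mem_filter.2 ⟨hc, hcY⟩

end GSec

end Run7.h123
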